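import Mathlib

/-! Reducible Dupin hypersurfaces, part D1 (several modules joined to save build time). -/

section S_Stereo0

open scoped RealInnerProductSpace ContDiff
open Module Set
namespace DupinClass
section
variable {X E : Type} [NormedAddCommGroup X] [NormedSpace ℝ X]
  [NormedAddCommGroup E] [InnerProductSpace ℝ E]

theorem st_inner (a b : ℝ) (e g : E) :
    ⟪(WithLp.toLp 2 (a, e) : WithLp 2 (ℝ × E)), WithLp.toLp 2 (b, g)⟫ = a * b + ⟪e, g⟫ := by
  rw [WithLp.prod_inner_apply]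
  simp [mul_comm]

theorem st_norm (a : ℝ) (e : E) :
    ‖(WithLp.toLp 2 (a, e) : WithLp 2 (ℝ × E))‖ ^ 2 = a ^ 2 + ‖e‖ ^ 2 := by
  rw [← real_inner_self_eq_norm_sq, st_inner, real_inner_self_eq_norm_sq]; ring

/-- The linear map `(a, e) ↦ toLp (a, e)`. -/
noncomputable def stL (E : Type) [NormedAddCommGroup E] [InnerProductSpace ℝ E] :
    (ℝ × E) →L[ℝ] WithLp 2 (ℝ × E) :=
  (WithLp.prodContinuousLinearEquiv 2 ℝ ℝ E).symm.toContinuousLinearMap

theorem stL_apply (v : ℝ × E) : stL E v = WithLp.toLp 2 v := rfl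

omit [InnerProductSpace ℝ E] in
theorem st_c_pos (F : E) : 0 < 1 + ‖F‖ ^ 2 := by positivity

/-- The point map of the stereographic projection. -/
noncomputable def stPt (F : E) : WithLp 2 (ℝ × E) :=
  (1 + ‖F‖ ^ 2)⁻¹ • WithLp.toLp 2 (1 - ‖F‖ ^ 2, (2 : ℝ) • F)

/-- The normal vector map of the stereographic projection. -/
noncomputable def stNm (F N : E) : WithLp 2 (ℝ × E) :=
  WithLp.toLp 2 ((0 : ℝ), N) - (2 * ⟪F, N⟫ * (1 + ‖F‖ ^ 2)⁻¹) • WithLp.toLp 2 ((1 : ℝ), F)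

theorem stPt_eq (F : E) :
    stPt F = (2 * (1 + ‖F‖ ^ 2)⁻¹) • stL E (1, F) - stL E (1, 0) := by
  have h := (st_c_pos F).ne'
  rw [stPt, stL_apply, stL_apply, ← WithLp.toLp_smul, ← WithLp.toLp_smul, ← WithLp.toLp_sub]
  congr 1
  ext
  · simp only [Prod.smul_mk, smul_eq_mul, Prod.mk_sub_mk, mul_one]
    field_simp
    ring
  · simp only [Prod.smul_mk, Prod.mk_sub_mk, sub_zero, smul_smul]
    congr 1
    ring

theorem stNm_eq (F N : E) :
    stNm F N = stL E (0, N) - (2 * ⟪F, N⟫ * (1 + ‖F‖ ^ 2)⁻¹) • stL E (1, F) := rfl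

theorem stL_inner (v w : ℝ × E) : ⟪stL E v, stL E w⟫ = v.1 * w.1 + ⟪v.2, w.2⟫ :=
  st_inner v.1 w.1 v.2 w.2

theorem stPt_norm (F : E) : ‖stPt F‖ = 1 := by
  have h := (st_c_pos F).ne'
  have : ‖stPt F‖ ^ 2 = 1 := by
    rw [← real_inner_self_eq_norm_sq, stPt_eq]
    simp only [inner_sub_left, inner_sub_right, inner_smul_left, inner_smul_right, stL_inner,
      RCLike.conj_to_real, inner_zero_left, inner_zero_right]
    rw [real_inner_self_eq_norm_sq]
    field_simp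
    ring
  have h2 : (0 : ℝ) ≤ ‖stPt F‖ := norm_nonneg _
  nlinarith

theorem stNm_norm (F N : E) (hN : ‖N‖ = 1) : ‖stNm F N‖ = 1 := by
  have h := (st_c_pos F).ne'
  have : ‖stNm F N‖ ^ 2 = 1 := by
    rw [← real_inner_self_eq_norm_sq, stNm_eq]
    simp only [inner_sub_left, inner_sub_right, inner_smul_left, inner_smul_right, stL_inner,
      RCLike.conj_to_real]
    rw [real_inner_self_eq_norm_sq, real_inner_self_eq_norm_sq, hN, real_inner_comm F N]
    field_simp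
    ring
  have h2 : (0 : ℝ) ≤ ‖stNm F N‖ := norm_nonneg _
  nlinarith

theorem stPt_inner_stNm (F N : E) : ⟪stPt F, stNm F N⟫ = 0 := by
  have h := (st_c_pos F).ne'
  rw [stPt_eq, stNm_eq]
  simp only [inner_sub_left, inner_sub_right, inner_smul_left, inner_smul_right, stL_inner,
    RCLike.conj_to_real, inner_zero_left]
  rw [real_inner_self_eq_norm_sq]
  field_simp
  ring

theorem smooth_stPt {U : Set X} {f : X → E} (hf : ContDiffOn ℝ ∞ f U) :
    ContDiffOn ℝ ∞ (fun x => stPt (f x)) U := by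
  have h1 : ContDiffOn ℝ ∞ (fun x => (1 + ‖f x‖ ^ 2)⁻¹) U :=
    (contDiffOn_const.add (hf.norm_sq ℝ)).inv fun x _ => (st_c_pos (f x)).ne'
  have h2 : ContDiffOn ℝ ∞ (fun x => stL E (1, f x)) U :=
    (stL E).contDiff.comp_contDiffOn (contDiffOn_const.prodMk hf)
  have : (fun x => stPt (f x)) = fun x => (2 * (1 + ‖f x‖ ^ 2)⁻¹) • stL E (1, f x) - stL E (1, 0) :=
    funext fun x => stPt_eq _
  rw [this]
  exact ((contDiffOn_const.mul h1).smul h2).sub contDiffOn_const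

theorem smooth_stNm {U : Set X} {f ν : X → E} (hf : ContDiffOn ℝ ∞ f U)
    (hν : ContDiffOn ℝ ∞ ν U) :
    ContDiffOn ℝ ∞ (fun x => stNm (f x) (ν x)) U := by
  have h1 : ContDiffOn ℝ ∞ (fun x => (1 + ‖f x‖ ^ 2)⁻¹) U :=
    (contDiffOn_const.add (hf.norm_sq ℝ)).inv fun x _ => (st_c_pos (f x)).ne'
  have h2 : ContDiffOn ℝ ∞ (fun x => stL E (1, f x)) U :=
    (stL E).contDiff.comp_contDiffOn (contDiffOn_const.prodMk hf)
  have h3 : ContDiffOn ℝ ∞ (fun x => stL E (0, ν x)) U :=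
    (stL E).contDiff.comp_contDiffOn (contDiffOn_const.prodMk hν)
  exact h3.sub (((contDiffOn_const.mul (hf.inner ℝ hν)).mul h1).smul h2)

/-- The derivative of the spherical point map. -/
theorem hasFDerivAt_stPt {f : X → E} {f' : X →L[ℝ] E} {x : X} (hf : HasFDerivAt f f' x) :
    ∃ D : X →L[ℝ] WithLp 2 (ℝ × E), HasFDerivAt (fun x => stPt (f x)) D x ∧
      ∀ v, D v = -(4 * ((1 + ‖f x‖ ^ 2)⁻¹) ^ 2 * ⟪f x, f' v⟫) • stL E (1, f x)
        + (2 * (1 + ‖f x‖ ^ 2)⁻¹) • stL E (0, f' v) := by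
  have h := (st_c_pos (f x)).ne'
  have h0 : HasFDerivAt (fun x => 1 + ‖f x‖ ^ 2) (2 • (innerSL ℝ (f x)).comp f') x := by
    have := hf.norm_sq
    simpa using this.const_add 1
  have h1 := ((hasDerivAt_inv h).comp_hasFDerivAt x h0).const_mul 2
  have h2 : HasFDerivAt (fun x => stL E (1, f x)) ((stL E).comp ((0 : X →L[ℝ] ℝ).prod f')) x :=
    (stL E).hasFDerivAt.comp x ((hasFDerivAt_const (1 : ℝ) x).prodMk hf)
  have h3 := (h1.smul h2).sub_const (stL E (1, 0))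
  have h4 : (fun x => stPt (f x)) = fun x =>
      (2 * (1 + ‖f x‖ ^ 2)⁻¹) • stL E (1, f x) - stL E (1, 0) := funext fun x => stPt_eq _
  refine ⟨_, h4 ▸ h3, ?_⟩
  intro v
  simp only [add_apply, smul_apply,
    ContinuousLinearMap.smulRight_apply, ContinuousLinearMap.comp_apply,
    ContinuousLinearMap.prod_apply, zero_apply, innerSL_apply_apply,
    Function.comp_apply, smul_eq_mul, nsmul_eq_mul]
  rw [add_comm]
  congr 2
  push_cast
  rw [← inv_pow]
  ring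

theorem stPt_inner_df {f ν : X → E} {f' : X →L[ℝ] E} {x : X} (hf : HasFDerivAt f f' x)
    (h : ∀ v, ⟪f' v, ν x⟫ = 0) (v : X) :
    ⟪fderiv ℝ (fun x => stPt (f x)) x v, stNm (f x) (ν x)⟫ = 0 := by
  obtain ⟨D, hD, hDv⟩ := hasFDerivAt_stPt hf
  have hc := (st_c_pos (f x)).ne'
  rw [hD.fderiv, hDv, stNm_eq]
  simp only [inner_add_left, inner_sub_right, inner_smul_left, inner_smul_right, stL_inner,
    RCLike.conj_to_real]
  rw [real_inner_self_eq_norm_sq, h v, real_inner_comm (f x) (f' v)]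
  field_simp
  ring

theorem stPt_immersion {f : X → E} {f' : X →L[ℝ] E} {x : X} (hf : HasFDerivAt f f' x) {v : X}
    (hv : fderiv ℝ (fun x => stPt (f x)) x v = 0) : f' v = 0 := by
  obtain ⟨D, hD, hDv⟩ := hasFDerivAt_stPt hf
  have hc := (st_c_pos (f x)).ne'
  rw [hD.fderiv, hDv] at hv
  have h0 : stL E (-(4 * ((1 + ‖f x‖ ^ 2)⁻¹) ^ 2 * ⟪f x, f' v⟫) • (1, f x)
      + (2 * (1 + ‖f x‖ ^ 2)⁻¹) • (0, f' v)) = 0 := by
    rw [map_add, map_smul, map_smul]; exact hv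
  rw [stL_apply, WithLp.toLp_eq_zero] at h0
  have h1 := congrArg Prod.fst h0
  have h2 := congrArg Prod.snd h0
  simp only [Prod.fst_add, Prod.smul_mk, smul_eq_mul, mul_one, mul_zero, add_zero,
    Prod.fst_zero] at h1
  simp only [Prod.snd_add, Prod.smul_mk, Prod.snd_zero] at h2
  rw [h1, zero_smul, zero_add] at h2
  have h3 : (2 * (1 + ‖f x‖ ^ 2)⁻¹) ≠ 0 := by positivity
  exact (smul_eq_zero.mp h2).resolve_left h3

end
end DupinClass

end S_Stereo0
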