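import Mathlib
import Pool.Agent.H31.DC.D2

/-! Reducible Dupin hypersurfaces, part D3 (several modules joined to save build time). -/

section S_Curv

open scoped RealInnerProductSpace ContDiff Topology
open Module Set

namespace DupinClass

section

variable {X X' : Type} [NormedAddCommGroup X] [NormedSpace ℝ X]
  [NormedAddCommGroup X'] [NormedSpace ℝ X']
  {V V' : Type} [NormedAddCommGroup V] [NormedSpace ℝ V] [FiniteDimensional ℝ V]
  [NormedAddCommGroup V'] [NormedSpace ℝ V'] [FiniteDimensional ℝ V']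

/-- `v ∈ L x` is a curvature vector of the family `L` at `x`: some section of `L` with value `v`
at `x` has a derivative in `L x` in some nonzero direction. -/
def CurvVec (L : X → Submodule ℝ V) (x : X) (v : V) : Prop :=
  v ≠ 0 ∧ ∃ σ : X → V, DifferentiableAt ℝ σ x ∧ (∀ᶠ y in 𝓝 x, σ y ∈ L y) ∧ σ x = v ∧
    ∃ w : X, w ≠ 0 ∧ fderiv ℝ σ x w ∈ L x

/-- Curvature vectors are Lie invariant. -/
theorem CurvVec.map {L : X → Submodule ℝ V} {L' : X' → Submodule ℝ V'} {x : X} {v : V}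
    (h : CurvVec L x v) (A : V ≃ₗ[ℝ] V') {φ : X → X'} {ψ : X' → X} {N : Set X} {N' : Set X'}
    (hφ : Diffeo φ ψ N N') (hx : x ∈ N) (hL : ∀ y ∈ N, (L y).map A.toLinearMap = L' (φ y)) :
    CurvVec L' (φ x) (A v) := by
  obtain ⟨hv, σ, hσ1, hσ2, hσ3, w, hw, hσ4⟩ := h
  have hφx : φ x ∈ N' := hφ.maps_left x hx
  have hψφ : ψ (φ x) = x := hφ.left_inv x hx
  have dφ : DifferentiableAt ℝ φ x :=
    (hφ.smooth_left.contDiffAt (hφ.isOpen_left.mem_nhds hx)).differentiableAt (by simp)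
  have dψ : DifferentiableAt ℝ ψ (φ x) :=
    (hφ.smooth_right.contDiffAt (hφ.isOpen_right.mem_nhds hφx)).differentiableAt (by simp)
  let Ac : V →L[ℝ] V' := A.toContinuousLinearEquiv.toContinuousLinearMap
  have hAc : ∀ u, Ac u = A u := fun _ => rfl
  -- the inverse derivative
  have hinv : fderiv ℝ ψ (φ x) (fderiv ℝ φ x w) = w := by
    have h1 : HasFDerivAt (ψ ∘ φ) ((fderiv ℝ ψ (φ x)).comp (fderiv ℝ φ x)) x :=
      HasFDerivAt.comp x dψ.hasFDerivAt dφ.hasFDerivAt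
    have h2 : (ψ ∘ φ) =ᶠ[𝓝 x] id := by
      filter_upwards [hφ.isOpen_left.mem_nhds hx] with y hy
      exact hφ.left_inv y hy
    have h3 : HasFDerivAt (id : X → X) ((fderiv ℝ ψ (φ x)).comp (fderiv ℝ φ x)) x :=
      h1.congr_of_eventuallyEq h2.symm
    have h4 := h3.unique (hasFDerivAt_id x)
    have h5 := congrArg (fun T : X →L[ℝ] X => T w) h4
    simpa using h5
  have hσψ : HasFDerivAt σ (fderiv ℝ σ x) (ψ (φ x)) := by
    rw [hψφ]; exact hσ1.hasFDerivAt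
  have hd : HasFDerivAt (fun y' => Ac (σ (ψ y')))
      (Ac.comp ((fderiv ℝ σ x).comp (fderiv ℝ ψ (φ x)))) (φ x) :=
    Ac.hasFDerivAt.comp (φ x) (HasFDerivAt.comp (φ x) hσψ dψ.hasFDerivAt)
  refine ⟨fun h0 => hv (by simpa using h0), fun y' => Ac (σ (ψ y')), hd.differentiableAt, ?_, ?_,
    fderiv ℝ φ x w, ?_, ?_⟩
  · have h1 : Filter.Tendsto ψ (𝓝 (φ x)) (𝓝 x) := by
      have := dψ.continuousAt.tendsto
      rwa [hψφ] at this
    filter_upwards [h1.eventually hσ2, hφ.isOpen_right.mem_nhds hφx] with y' h2 h3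
    have h4 : φ (ψ y') = y' := hφ.right_inv y' h3
    rw [← h4, ← hL (ψ y') (hφ.maps_right y' h3), h4]
    exact Submodule.mem_map_of_mem h2
  · show Ac (σ (ψ (φ x))) = A v
    rw [hψφ, hσ3, hAc]
  · intro h0
    rw [h0, map_zero] at hinv
    exact hw hinv.symm
  · rw [hd.fderiv]
    show Ac (fderiv ℝ σ x (fderiv ℝ ψ (φ x) (fderiv ℝ φ x w))) ∈ L' (φ x)
    rw [hinv, ← hL x hx]
    exact Submodule.mem_map_of_mem hσ4

end

section

variable {X H : Type} [NormedAddCommGroup X] [NormedSpace ℝ X] [FiniteDimensional ℝ X]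
  [NormedAddCommGroup H] [InnerProductSpace ℝ H] [FiniteDimensional ℝ H]

theorem SHyp.curvVec (M : SHyp X H) {x : X} (hx : x ∈ M.U) {k : ℝ} (hk : prin M.f M.ν k x ≠ ⊥) :
    CurvVec M.lift x (k, k • M.f x + M.ν x, 1) := by
  obtain ⟨w, hw, hw0⟩ := Submodule.exists_mem_ne_zero_of_ne_bot hk
  have df : DifferentiableAt ℝ M.f x :=
    (M.smooth_f.contDiffAt (M.isOpen_U.mem_nhds hx)).differentiableAt (by simp)
  have dν : DifferentiableAt ℝ M.ν x :=
    (M.smooth_ν.contDiffAt (M.isOpen_U.mem_nhds hx)).differentiableAt (by simp)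
  have hw1 : fderiv ℝ M.ν x w + k • fderiv ℝ M.f x w = 0 := by
    have := hw
    unfold prin at this
    simpa using this
  have hmid : HasFDerivAt (fun y => k • M.f y + M.ν y) (k • fderiv ℝ M.f x + fderiv ℝ M.ν x) x :=
    (df.hasFDerivAt.const_smul k).add dν.hasFDerivAt
  have hd : HasFDerivAt (fun y => (k, k • M.f y + M.ν y, (1 : ℝ)))
      ((0 : X →L[ℝ] ℝ).prod ((k • fderiv ℝ M.f x + fderiv ℝ M.ν x).prod (0 : X →L[ℝ] ℝ))) x :=
    (hasFDerivAt_const k x).prodMk (hmid.prodMk (hasFDerivAt_const (1 : ℝ) x))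
  refine ⟨fun h0 => ?_, fun y => (k, k • M.f y + M.ν y, 1), hd.differentiableAt, ?_, rfl, w, hw0,
    ?_⟩
  · have := congrArg (fun p : ℝ × H × ℝ => p.2.2) h0
    simp at this
  · refine Filter.Eventually.of_forall fun y => ?_
    unfold SHyp.lift
    rw [Submodule.mem_span_pair]
    refine ⟨k, 1, ?_⟩
    simp
  · rw [hd.fderiv]
    have : ((0 : X →L[ℝ] ℝ).prod ((k • fderiv ℝ M.f x + fderiv ℝ M.ν x).prod
        (0 : X →L[ℝ] ℝ))) w = 0 := by
      have h1 : k • fderiv ℝ M.f x w + fderiv ℝ M.ν x w = 0 := by rw [add_comm]; exact hw1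
      simp [h1]
    rw [this]
    exact Submodule.zero_mem _

theorem SHyp.mem_lift_iff (M : SHyp X H) (y : X) (p : ℝ × H × ℝ) :
    p ∈ M.lift y ↔ p.2.1 = p.1 • M.f y + p.2.2 • M.ν y := by
  unfold SHyp.lift
  rw [Submodule.mem_span_pair]
  constructor
  · rintro ⟨a, b, rfl⟩
    simp
  · intro h
    refine ⟨p.1, p.2.2, ?_⟩
    ext
    · simp
    · simp [h]
    · simp

/-- The curvature vectors of the lift of a hypersurface come from its principal curvatures. -/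
theorem SHyp.exists_of_curvVec (M : SHyp X H) {x : X} (hx : x ∈ M.U) {v : ℝ × H × ℝ}
    (hv : CurvVec M.lift x v) :
    ∃ k c : ℝ, prin M.f M.ν k x ≠ ⊥ ∧ c ≠ 0 ∧ v = c • (k, k • M.f x + M.ν x, 1) := by
  obtain ⟨hv0, σ, hσ1, hσ2, hσ3, w, hw, hσ4⟩ := hv
  have df : DifferentiableAt ℝ M.f x :=
    (M.smooth_f.contDiffAt (M.isOpen_U.mem_nhds hx)).differentiableAt (by simp)
  have dν : DifferentiableAt ℝ M.ν x :=
    (M.smooth_ν.contDiffAt (M.isOpen_U.mem_nhds hx)).differentiableAt (by simp)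
  have h1 : HasFDerivAt (fun y => (σ y).1)
      ((ContinuousLinearMap.fst ℝ ℝ (H × ℝ)).comp (fderiv ℝ σ x)) x :=
    (ContinuousLinearMap.fst ℝ ℝ (H × ℝ)).hasFDerivAt.comp x hσ1.hasFDerivAt
  have h2 : HasFDerivAt (fun y => (σ y).2)
      ((ContinuousLinearMap.snd ℝ ℝ (H × ℝ)).comp (fderiv ℝ σ x)) x :=
    (ContinuousLinearMap.snd ℝ ℝ (H × ℝ)).hasFDerivAt.comp x hσ1.hasFDerivAt
  have h3 : HasFDerivAt (fun y => (σ y).2.1)
      ((ContinuousLinearMap.fst ℝ H ℝ).comp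
        ((ContinuousLinearMap.snd ℝ ℝ (H × ℝ)).comp (fderiv ℝ σ x))) x :=
    (ContinuousLinearMap.fst ℝ H ℝ).hasFDerivAt.comp x h2
  have h4 : HasFDerivAt (fun y => (σ y).2.2)
      ((ContinuousLinearMap.snd ℝ H ℝ).comp
        ((ContinuousLinearMap.snd ℝ ℝ (H × ℝ)).comp (fderiv ℝ σ x))) x :=
    (ContinuousLinearMap.snd ℝ H ℝ).hasFDerivAt.comp x h2
  have h5 := (h1.smul df.hasFDerivAt).add (h4.smul dν.hasFDerivAt)
  have h6 : (fun y => (σ y).2.1) =ᶠ[𝓝 x]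
      (fun y => (σ y).1 • M.f y + (σ y).2.2 • M.ν y) := by
    filter_upwards [hσ2] with y hy
    exact (M.mem_lift_iff y (σ y)).1 hy
  have h7 := h3.unique (h5.congr_of_eventuallyEq h6)
  have h8 := congrArg (fun T : X →L[ℝ] H => T w) h7
  have h9 := (M.mem_lift_iff x _).1 hσ4
  have hmem := (M.mem_lift_iff x _).1 hσ2.self_of_nhds
  rw [hσ3] at hmem
  set α := v.1 with hα
  set β := v.2.2 with hβ
  have hkey : α • fderiv ℝ M.f x w + β • fderiv ℝ M.ν x w = 0 := by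
    simp only [ContinuousLinearMap.comp_apply, ContinuousLinearMap.coe_fst',
      ContinuousLinearMap.coe_snd', add_apply, smul_apply,
      ContinuousLinearMap.smulRight_apply, hσ3] at h8
    rw [h9] at h8
    have h10 : (fderiv ℝ σ x w).1 • M.f x + (fderiv ℝ σ x w).2.2 • M.ν x =
        (α • fderiv ℝ M.f x w + (fderiv ℝ σ x w).1 • M.f x) +
        (β • fderiv ℝ M.ν x w + (fderiv ℝ σ x w).2.2 • M.ν x) := h8
    have h12 : ((α • fderiv ℝ M.f x w + (fderiv ℝ σ x w).1 • M.f x) +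
        (β • fderiv ℝ M.ν x w + (fderiv ℝ σ x w).2.2 • M.ν x)) -
        ((fderiv ℝ σ x w).1 • M.f x + (fderiv ℝ σ x w).2.2 • M.ν x) =
        α • fderiv ℝ M.f x w + β • fderiv ℝ M.ν x w := by abel
    rw [← h12, ← h10, sub_self]
  have hβ0 : β ≠ 0 := by
    intro h0
    rw [h0, zero_smul, add_zero] at hkey
    rcases smul_eq_zero.1 hkey with h | h
    · apply hv0
      ext
      · exact h
      · rw [hmem, h, h0]; simp
      · exact h0
    · exact hw (M.immersion x hx w h)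
  refine ⟨α / β, β, ?_, hβ0, ?_⟩
  · intro h
    apply hw
    have : w ∈ prin M.f M.ν (α / β) x := by
      unfold prin
      simp only [LinearMap.mem_ker, ContinuousLinearMap.coe_coe, add_apply, smul_apply]
      have h10 : β • (fderiv ℝ M.ν x w + (α / β) • fderiv ℝ M.f x w) = 0 := by
        rw [smul_add, smul_smul, mul_div_cancel₀ _ hβ0, add_comm]
        exact hkey
      exact (smul_eq_zero.1 h10).resolve_left hβ0
    rw [h] at this
    simpa using this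
  · ext
    · show v.1 = β * (α / β)
      rw [mul_div_cancel₀ _ hβ0]
    · show v.2.1 = β • ((α / β) • M.f x + M.ν x)
      rw [hmem, smul_add, smul_smul, mul_div_cancel₀ _ hβ0]
    · show v.2.2 = β * 1
      rw [mul_one]

end

end DupinClass

end S_Curv

section S_Stereo

open scoped RealInnerProductSpace ContDiff Topology
open Module Set

namespace DupinClass

section

variable {X E : Type} [NormedAddCommGroup X] [NormedSpace ℝ X] [FiniteDimensional ℝ X]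
  [NormedAddCommGroup E] [InnerProductSpace ℝ E] [FiniteDimensional ℝ E]

/-- The point sphere of the point `p` of `E`, in the Lie space of `ℝ × E`. -/
noncomputable def ptSph (p : E) : ℝ × WithLp 2 (ℝ × E) × ℝ :=
  ((1 + ‖p‖ ^ 2) / 2, WithLp.toLp 2 ((1 - ‖p‖ ^ 2) / 2, p), 0)

/-- The oriented hyperplane through the point `p` of `E` with the unit normal vector `n`. -/
noncomputable def plSph (p n : E) : ℝ × WithLp 2 (ℝ × E) × ℝ :=
  (⟪p, n⟫, WithLp.toLp 2 (-⟪p, n⟫, n), 1)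

/-! ### Auxiliary facts on the components of the stereographic lift -/

variable (E) in
/-- the continuous linear map `ℝ × E → WithLp 2 (ℝ × E)`. -/
noncomputable def toLC : (ℝ × E) →L[ℝ] WithLp 2 (ℝ × E) :=
  ((WithLp.prodContinuousLinearEquiv 2 ℝ ℝ E).symm : (ℝ × E) →L[ℝ] WithLp 2 (ℝ × E))

omit [FiniteDimensional ℝ E] in
lemma toLC_apply (z : ℝ × E) : toLC E z = WithLp.toLp 2 z := rfl

omit [FiniteDimensional ℝ E] in
lemma toLC_eq_zero (z : ℝ × E) : toLC E z = 0 ↔ z = 0 := by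
  rw [toLC_apply]
  constructor
  · intro h
    have := congrArg WithLp.ofLp h
    simpa using this
  · rintro rfl; rfl

omit [FiniteDimensional ℝ E] [InnerProductSpace ℝ E] in
lemma one_add_norm_sq_pos (p : E) : 0 < 1 + ‖p‖ ^ 2 := by positivity

omit [FiniteDimensional ℝ X] [FiniteDimensional ℝ E] in
lemma EHyp.toSphere_f_eq (T : EHyp X E) (y : X) :
    T.toSphere.f y = toLC E
      ((1 + ‖T.f y‖ ^ 2)⁻¹ * (1 - ‖T.f y‖ ^ 2), (2 * (1 + ‖T.f y‖ ^ 2)⁻¹) • T.f y) := by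
  have h : T.toSphere.f y = (1 + ‖T.f y‖ ^ 2)⁻¹ •
      WithLp.toLp 2 (1 - ‖T.f y‖ ^ 2, (2 : ℝ) • T.f y) := rfl
  rw [h, toLC_apply, ← WithLp.toLp_smul]
  simp only [Prod.smul_mk, smul_eq_mul, smul_smul, mul_comm]

omit [FiniteDimensional ℝ X] [FiniteDimensional ℝ E] in
lemma EHyp.toSphere_ν_eq (T : EHyp X E) (y : X) :
    T.toSphere.ν y = toLC E
      (-(2 * ⟪T.f y, T.ν y⟫ * (1 + ‖T.f y‖ ^ 2)⁻¹),
        T.ν y - (2 * ⟪T.f y, T.ν y⟫ * (1 + ‖T.f y‖ ^ 2)⁻¹) • T.f y) := by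
  have h : T.toSphere.ν y = WithLp.toLp 2 ((0 : ℝ), T.ν y)
    - (2 * ⟪T.f y, T.ν y⟫ * (1 + ‖T.f y‖ ^ 2)⁻¹) • WithLp.toLp 2 ((1 : ℝ), T.f y) := rfl
  rw [h, toLC_apply, ← WithLp.toLp_smul, ← WithLp.toLp_sub]
  simp only [Prod.smul_mk, smul_eq_mul, Prod.mk_sub_mk, mul_one, zero_sub]

omit [FiniteDimensional ℝ X] [FiniteDimensional ℝ E] in
lemma EHyp.differentiableAt_f (T : EHyp X E) {x : X} (hx : x ∈ T.U) :
    DifferentiableAt ℝ T.f x :=
  (T.smooth_f.contDiffAt (T.isOpen_U.mem_nhds hx)).differentiableAt (by simp)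

omit [FiniteDimensional ℝ X] [FiniteDimensional ℝ E] in
lemma EHyp.differentiableAt_ν (T : EHyp X E) {x : X} (hx : x ∈ T.U) :
    DifferentiableAt ℝ T.ν x :=
  (T.smooth_ν.contDiffAt (T.isOpen_U.mem_nhds hx)).differentiableAt (by simp)

omit [FiniteDimensional ℝ X] [FiniteDimensional ℝ E] in
/-- derivative of `1 + |F|^2`. -/
lemma EHyp.hasFDerivAt_g (T : EHyp X E) {x : X} (hx : x ∈ T.U) :
    HasFDerivAt (fun y => 1 + ‖T.f y‖ ^ 2)
      ((2 : ℝ) • (innerSL ℝ (T.f x)).comp (fderiv ℝ T.f x)) x := by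
  have h := (T.differentiableAt_f hx).hasFDerivAt.norm_sq
  refine (h.const_add (1 : ℝ)).congr_fderiv ?_
  ext v
  simp [two_smul]

omit [FiniteDimensional ℝ X] [FiniteDimensional ℝ E] in
/-- derivative of `⟪F, N⟫`. -/
lemma EHyp.hasFDerivAt_s (T : EHyp X E) {x : X} (hx : x ∈ T.U) :
    HasFDerivAt (fun y => ⟪T.f y, T.ν y⟫)
      ((innerSL ℝ (T.f x)).comp (fderiv ℝ T.ν x)) x := by
  have h := (T.differentiableAt_f hx).hasFDerivAt.inner ℝ (T.differentiableAt_ν hx).hasFDerivAt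
  refine h.congr_fderiv ?_
  ext v
  simp [fderivInnerCLM_apply, T.inner_df x hx v]

omit [FiniteDimensional ℝ X] [FiniteDimensional ℝ E] in
/-- derivative of `(1 + |F|^2)⁻¹`. -/
lemma EHyp.hasFDerivAt_c (T : EHyp X E) {x : X} (hx : x ∈ T.U) :
    HasFDerivAt (fun y => (1 + ‖T.f y‖ ^ 2)⁻¹)
      (-(2 * ((1 + ‖T.f x‖ ^ 2) ^ 2)⁻¹) • (innerSL ℝ (T.f x)).comp (fderiv ℝ T.f x)) x := by
  have h := (hasDerivAt_inv (one_add_norm_sq_pos (T.f x)).ne').comp_hasFDerivAt x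
    (T.hasFDerivAt_g hx)
  refine h.congr_fderiv ?_
  ext v
  simp
  ring

omit [FiniteDimensional ℝ X] [FiniteDimensional ℝ E] in
lemma EHyp.fderiv_toSphere_f (T : EHyp X E) {x : X} (hx : x ∈ T.U) (v : X) :
    fderiv ℝ T.toSphere.f x v = toLC E
      (-(4 * ((1 + ‖T.f x‖ ^ 2)⁻¹) ^ 2) * ⟪T.f x, fderiv ℝ T.f x v⟫,
        (2 * (1 + ‖T.f x‖ ^ 2)⁻¹) • fderiv ℝ T.f x v
          - (4 * ((1 + ‖T.f x‖ ^ 2)⁻¹) ^ 2 * ⟪T.f x, fderiv ℝ T.f x v⟫) • T.f x) := by
  have hp := one_add_norm_sq_pos (T.f x)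
  have hf : T.toSphere.f = fun y => toLC E
      ((1 + ‖T.f y‖ ^ 2)⁻¹ * (1 - ‖T.f y‖ ^ 2), (2 * (1 + ‖T.f y‖ ^ 2)⁻¹) • T.f y) := by
    funext y; exact T.toSphere_f_eq y
  have h1 : HasFDerivAt (fun y => (1 + ‖T.f y‖ ^ 2)⁻¹ * (1 - ‖T.f y‖ ^ 2)) _ x :=
    (T.hasFDerivAt_c hx).mul ((T.differentiableAt_f hx).hasFDerivAt.norm_sq.const_sub (1 : ℝ))
  have h2 : HasFDerivAt (fun y => (2 * (1 + ‖T.f y‖ ^ 2)⁻¹) • T.f y) _ x :=
    ((T.hasFDerivAt_c hx).const_mul (2 : ℝ)).smul (T.differentiableAt_f hx).hasFDerivAt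
  have h3 := (toLC E).hasFDerivAt.comp x (h1.prodMk h2)
  rw [hf]
  refine (congrArg (fun l : X →L[ℝ] WithLp 2 (ℝ × E) => l v) h3.fderiv).trans ?_
  simp only [ContinuousLinearMap.coe_comp, Function.comp_apply]
  congr 1
  ext
  · simp
    field_simp
    ring
  · simp only [ContinuousLinearMap.prod_apply, add_apply,
      smul_apply, ContinuousLinearMap.smulRight_apply,
      ContinuousLinearMap.comp_apply, innerSL_apply_apply, smul_eq_mul]
    match_scalars <;> field_simp <;> ring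

omit [FiniteDimensional ℝ X] [FiniteDimensional ℝ E] in
lemma EHyp.fderiv_toSphere_ν (T : EHyp X E) {x : X} (hx : x ∈ T.U) (v : X) :
    fderiv ℝ T.toSphere.ν x v = toLC E
      (-(2 * (1 + ‖T.f x‖ ^ 2)⁻¹ * ⟪T.f x, fderiv ℝ T.ν x v⟫)
          + 4 * ⟪T.f x, T.ν x⟫ * ((1 + ‖T.f x‖ ^ 2)⁻¹) ^ 2 * ⟪T.f x, fderiv ℝ T.f x v⟫,
        fderiv ℝ T.ν x v
          - (2 * (1 + ‖T.f x‖ ^ 2)⁻¹ * ⟪T.f x, fderiv ℝ T.ν x v⟫
            - 4 * ⟪T.f x, T.ν x⟫ * ((1 + ‖T.f x‖ ^ 2)⁻¹) ^ 2 * ⟪T.f x, fderiv ℝ T.f x v⟫) • T.f x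
          - (2 * ⟪T.f x, T.ν x⟫ * (1 + ‖T.f x‖ ^ 2)⁻¹) • fderiv ℝ T.f x v) := by
  have hp := one_add_norm_sq_pos (T.f x)
  have hf : T.toSphere.ν = fun y => toLC E
      (-(2 * ⟪T.f y, T.ν y⟫ * (1 + ‖T.f y‖ ^ 2)⁻¹),
        T.ν y - (2 * ⟪T.f y, T.ν y⟫ * (1 + ‖T.f y‖ ^ 2)⁻¹) • T.f y) := by
    funext y; exact T.toSphere_ν_eq y
  have h0 : HasFDerivAt (fun y => 2 * ⟪T.f y, T.ν y⟫ * (1 + ‖T.f y‖ ^ 2)⁻¹) _ x :=
    ((T.hasFDerivAt_s hx).const_mul (2 : ℝ)).mul (T.hasFDerivAt_c hx)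
  have h2 : HasFDerivAt (fun y => T.ν y - (2 * ⟪T.f y, T.ν y⟫ * (1 + ‖T.f y‖ ^ 2)⁻¹) • T.f y) _ x :=
    (T.differentiableAt_ν hx).hasFDerivAt.sub (h0.smul (T.differentiableAt_f hx).hasFDerivAt)
  have h3 := (toLC E).hasFDerivAt.comp x (h0.neg.prodMk h2)
  rw [hf]
  refine (congrArg (fun l : X →L[ℝ] WithLp 2 (ℝ × E) => l v) h3.fderiv).trans ?_
  simp only [ContinuousLinearMap.coe_comp, Function.comp_apply]
  congr 1
  ext
  · simp
    field_simp
    ring
  · simp only [ContinuousLinearMap.prod_apply, add_apply,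
      sub_apply, smul_apply,
      ContinuousLinearMap.smulRight_apply,
      ContinuousLinearMap.comp_apply, innerSL_apply_apply, smul_eq_mul]
    match_scalars <;> field_simp <;> ring

omit [FiniteDimensional ℝ X] [FiniteDimensional ℝ E] in
lemma EHyp.ptSph_eq (T : EHyp X E) (x : X) :
    ptSph (T.f x) = ((1 + ‖T.f x‖ ^ 2) / 2) • ((1 : ℝ), T.toSphere.f x, (0 : ℝ)) := by
  have hp := one_add_norm_sq_pos (T.f x)
  rw [T.toSphere_f_eq x, toLC_apply]
  unfold ptSph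
  refine Prod.ext ?_ (Prod.ext ?_ ?_)
  · simp
  · simp only [Prod.smul_mk]
    rw [← WithLp.toLp_smul]
    congr 1
    refine Prod.ext ?_ ?_
    · simp only [Prod.smul_mk, smul_eq_mul]
      field_simp
    · simp only [Prod.smul_mk]
      match_scalars
      field_simp
  · simp

omit [FiniteDimensional ℝ X] [FiniteDimensional ℝ E] in
lemma EHyp.plSph_eq (T : EHyp X E) (x : X) :
    plSph (T.f x) (T.ν x) = ((0 : ℝ), T.toSphere.ν x, (1 : ℝ))
      + ⟪T.f x, T.ν x⟫ • ((1 : ℝ), T.toSphere.f x, (0 : ℝ)) := by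
  have hp := one_add_norm_sq_pos (T.f x)
  rw [T.toSphere_f_eq x, T.toSphere_ν_eq x, toLC_apply, toLC_apply]
  unfold plSph
  refine Prod.ext ?_ (Prod.ext ?_ ?_)
  · simp
  · simp only [Prod.smul_mk, Prod.mk_add_mk]
    rw [← WithLp.toLp_smul, ← WithLp.toLp_add]
    congr 1
    refine Prod.ext ?_ ?_
    · simp only [Prod.smul_mk, smul_eq_mul, Prod.mk_add_mk]
      field_simp
      ring
    · simp only [Prod.smul_mk, Prod.mk_add_mk]
      match_scalars <;> field_simp <;> ring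
  · simp

theorem EHyp.lift_toSphere (T : EHyp X E) {x : X} (hx : x ∈ T.U) :
    T.toSphere.lift x = Submodule.span ℝ {ptSph (T.f x), plSph (T.f x) (T.ν x)} := by
  have hp := one_add_norm_sq_pos (T.f x)
  have h1 := T.ptSph_eq x
  have h2 := T.plSph_eq x
  have h3 : ((1 : ℝ), T.toSphere.f x, (0 : ℝ)) = (2 / (1 + ‖T.f x‖ ^ 2)) • ptSph (T.f x) := by
    rw [h1, smul_smul]
    rw [show 2 / (1 + ‖T.f x‖ ^ 2) * ((1 + ‖T.f x‖ ^ 2) / 2) = 1 by field_simp, one_smul]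
  have h4 : ((0 : ℝ), T.toSphere.ν x, (1 : ℝ)) = plSph (T.f x) (T.ν x)
      - ⟪T.f x, T.ν x⟫ • ((1 : ℝ), T.toSphere.f x, (0 : ℝ)) := by
    rw [h2]; abel
  unfold SHyp.lift
  apply le_antisymm
  · rw [Submodule.span_le]
    intro z hz
    simp only [Set.mem_insert_iff, Set.mem_singleton_iff] at hz
    have hpt : ptSph (T.f x) ∈ Submodule.span ℝ {ptSph (T.f x), plSph (T.f x) (T.ν x)} :=
      Submodule.subset_span (by simp)
    have hpl : plSph (T.f x) (T.ν x) ∈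
        Submodule.span ℝ {ptSph (T.f x), plSph (T.f x) (T.ν x)} :=
      Submodule.subset_span (by simp)
    rcases hz with rfl | rfl
    · rw [h3]
      exact Submodule.smul_mem _ _ hpt
    · rw [h4, h3]
      exact Submodule.sub_mem _ hpl (Submodule.smul_mem _ _ (Submodule.smul_mem _ _ hpt))
  · rw [Submodule.span_le]
    intro z hz
    simp only [Set.mem_insert_iff, Set.mem_singleton_iff] at hz
    have ha : ((1 : ℝ), T.toSphere.f x, (0 : ℝ)) ∈
        Submodule.span ℝ {((1 : ℝ), T.toSphere.f x, (0 : ℝ)), ((0 : ℝ), T.toSphere.ν x, (1 : ℝ))} :=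
      Submodule.subset_span (by simp)
    have hb : ((0 : ℝ), T.toSphere.ν x, (1 : ℝ)) ∈
        Submodule.span ℝ {((1 : ℝ), T.toSphere.f x, (0 : ℝ)), ((0 : ℝ), T.toSphere.ν x, (1 : ℝ))} :=
      Submodule.subset_span (by simp)
    rcases hz with rfl | rfl
    · rw [h1]
      exact Submodule.smul_mem _ _ ha
    · rw [h2]
      exact Submodule.add_mem _ hb (Submodule.smul_mem _ _ ha)

omit [FiniteDimensional ℝ X] [FiniteDimensional ℝ E] in
lemma EHyp.key_toSphere (T : EHyp X E) {x : X} (hx : x ∈ T.U) (k : ℝ) (v : X) :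
    fderiv ℝ T.toSphere.ν x v
        + ((1 + ‖T.f x‖ ^ 2) / 2 * k + ⟪T.f x, T.ν x⟫) • fderiv ℝ T.toSphere.f x v
      = toLC E (-(2 * (1 + ‖T.f x‖ ^ 2)⁻¹ *
            ⟪T.f x, fderiv ℝ T.ν x v + k • fderiv ℝ T.f x v⟫),
          (fderiv ℝ T.ν x v + k • fderiv ℝ T.f x v) - (2 * (1 + ‖T.f x‖ ^ 2)⁻¹ *
            ⟪T.f x, fderiv ℝ T.ν x v + k • fderiv ℝ T.f x v⟫) • T.f x) := by
  have hp := one_add_norm_sq_pos (T.f x)
  rw [T.fderiv_toSphere_ν hx, T.fderiv_toSphere_f hx, ← (toLC E).map_smul, ← (toLC E).map_add]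
  congr 1
  rw [inner_add_right, inner_smul_right]
  refine Prod.ext ?_ ?_
  · simp only [Prod.smul_mk, Prod.mk_add_mk, smul_eq_mul]
    field_simp
    ring
  · simp only [Prod.smul_mk, Prod.mk_add_mk]
    match_scalars <;> field_simp <;> ring

theorem EHyp.prin_toSphere (T : EHyp X E) {x : X} (hx : x ∈ T.U) (k : ℝ) :
    prin T.toSphere.f T.toSphere.ν ((1 + ‖T.f x‖ ^ 2) / 2 * k + ⟪T.f x, T.ν x⟫) x
      = prin T.f T.ν k x := by
  have hp := one_add_norm_sq_pos (T.f x)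
  ext v
  unfold prin
  rw [LinearMap.mem_ker, LinearMap.mem_ker]
  have h1 : (fderiv ℝ T.toSphere.ν x
      + ((1 + ‖T.f x‖ ^ 2) / 2 * k + ⟪T.f x, T.ν x⟫) • fderiv ℝ T.toSphere.f x).toLinearMap v
      = fderiv ℝ T.toSphere.ν x v
        + ((1 + ‖T.f x‖ ^ 2) / 2 * k + ⟪T.f x, T.ν x⟫) • fderiv ℝ T.toSphere.f x v := rfl
  have h2 : (fderiv ℝ T.ν x + k • fderiv ℝ T.f x).toLinearMap v
      = fderiv ℝ T.ν x v + k • fderiv ℝ T.f x v := rfl
  rw [h1, h2, T.key_toSphere hx, toLC_eq_zero]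
  set Z := fderiv ℝ T.ν x v + k • fderiv ℝ T.f x v with hZ
  constructor
  · intro h
    rw [Prod.mk_eq_zero] at h
    have h3 : 2 * (1 + ‖T.f x‖ ^ 2)⁻¹ * ⟪T.f x, Z⟫ = 0 := by linarith [h.1]
    have h4 := h.2
    rw [h3, zero_smul, sub_zero] at h4
    exact h4
  · intro h
    rw [h]
    simp

theorem EHyp.properDupinWith_toSphere (T : EHyp X E) {g : ℕ} {m : Fin g → ℕ}
    (h : ProperDupinWith T.f T.ν T.U m) :
    ProperDupinWith T.toSphere.f T.toSphere.ν T.toSphere.U m := by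
  obtain ⟨κ, hκ, hne, hm, hfin, htop, hd⟩ := h
  have hU : T.toSphere.U = T.U := rfl
  refine ⟨fun i y => (1 + ‖T.f y‖ ^ 2) / 2 * κ i y + ⟪T.f y, T.ν y⟫, ?_, ?_, hm, ?_, ?_, ?_⟩
  · intro i
    rw [hU]
    exact (((contDiffOn_const.add (T.smooth_f.norm_sq ℝ)).div_const 2).mul (hκ i)).add
      (T.smooth_f.inner ℝ T.smooth_ν)
  · intro x hx i j hij h
    have hp := one_add_norm_sq_pos (T.f x)
    apply hne x hx i j hij
    have h1 : (1 + ‖T.f x‖ ^ 2) / 2 * κ i x = (1 + ‖T.f x‖ ^ 2) / 2 * κ j x := by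
      simpa using h
    exact mul_left_cancel₀ (by positivity) h1
  · intro x hx i
    have h1 := T.prin_toSphere hx (κ i x)
    simp only
    rw [h1]
    exact hfin x hx i
  · intro x hx
    have h1 : ∀ i, prin T.toSphere.f T.toSphere.ν
        ((1 + ‖T.f x‖ ^ 2) / 2 * κ i x + ⟪T.f x, T.ν x⟫) x = prin T.f T.ν (κ i x) x :=
      fun i => T.prin_toSphere hx (κ i x)
    simp only [h1]
    exact htop x hx
  · intro x hx i v hv
    have hx' : x ∈ T.U := hx
    simp only at hv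
    rw [T.prin_toSphere hx'] at hv
    have hκd : HasFDerivAt (κ i) (fderiv ℝ (κ i) x) x :=
      (((hκ i).contDiffAt (T.isOpen_U.mem_nhds hx')).differentiableAt (by simp)).hasFDerivAt
    have h1 := (((T.hasFDerivAt_g hx').mul_const (2 : ℝ)⁻¹).mul hκd).add (T.hasFDerivAt_s hx')
    have h2 : (fun y => (1 + ‖T.f y‖ ^ 2) / 2 * κ i y + ⟪T.f y, T.ν y⟫)
        = ((fun y => (1 + ‖T.f y‖ ^ 2) * (2 : ℝ)⁻¹) * κ i + fun y => ⟪T.f y, T.ν y⟫) := by
      funext y
      simp [div_eq_mul_inv]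
    change fderiv ℝ (fun y => (1 + ‖T.f y‖ ^ 2) / 2 * κ i y + ⟪T.f y, T.ν y⟫) x v = 0
    rw [h2, h1.fderiv]
    have h3 : fderiv ℝ T.ν x v + κ i x • fderiv ℝ T.f x v = 0 := by
      have := LinearMap.mem_ker.mp hv
      exact this
    have h4 : ⟪T.f x, fderiv ℝ T.ν x v⟫ = -(κ i x * ⟪T.f x, fderiv ℝ T.f x v⟫) := by
      have h5 : fderiv ℝ T.ν x v = -(κ i x • fderiv ℝ T.f x v) := eq_neg_of_add_eq_zero_left h3
      rw [h5, inner_neg_right, inner_smul_right]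
    simp only [add_apply, smul_apply,
      ContinuousLinearMap.comp_apply, innerSL_apply_apply, smul_eq_mul]
    rw [hd x hx' i v hv, h4]
    ring

end

end DupinClass

end S_Stereo

section S_Conf_pf

open scoped RealInnerProductSpace ContDiff Topology
open Module Set

namespace DupinClass

section Lie

variable {H H' : Type} [NormedAddCommGroup H] [InnerProductSpace ℝ H] [FiniteDimensional ℝ H]
  [NormedAddCommGroup H'] [InnerProductSpace ℝ H'] [FiniteDimensional ℝ H']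

omit [FiniteDimensional ℝ H] in
theorem lieForm_apply (v w : ℝ × H × ℝ) :
    lieForm H v w = -(v.1 * w.1) + ⟪v.2.1, w.2.1⟫ - v.2.2 * w.2.2 := rfl

omit [FiniteDimensional ℝ H] in
theorem lieForm_isSymm' : (lieForm H).IsSymm :=
  ⟨fun v w => by
    rw [lieForm_apply, lieForm_apply, real_inner_comm]; ring⟩

omit [FiniteDimensional ℝ H] in
theorem lieForm_sepLeft {v : ℝ × H × ℝ} (h : ∀ w, lieForm H v w = 0) : v = 0 := by
  have h1 := h (1, 0, 0)
  have h2 := h (0, v.2.1, 0)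
  have h3 := h (0, 0, 1)
  rw [lieForm_apply] at h1 h2 h3
  simp only [mul_one, inner_zero_right, mul_zero, sub_zero, add_zero, neg_zero, zero_add,
    zero_sub, neg_eq_zero, inner_self_eq_zero] at h1 h2 h3
  ext
  · exact h1
  · exact h2
  · exact h3

omit [FiniteDimensional ℝ H] in
theorem lieForm_nondegenerate' : (lieForm H).Nondegenerate := by
  refine ⟨fun v hv => lieForm_sepLeft hv, fun v hv => lieForm_sepLeft fun w => ?_⟩
  rw [lieForm_isSymm'.eq]; exact hv w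

/-- A linear isomorphism preserving the null cones of the Lie forms is conformal with a positive
factor. -/
theorem lieForm_conf' (h3 : 3 ≤ finrank ℝ H) (A : (ℝ × H × ℝ) ≃ₗ[ℝ] (ℝ × H' × ℝ))
    (hA : ∀ v, lieForm H' (A v) (A v) = 0 ↔ lieForm H v v = 0) :
    ∃ c : ℝ, 0 < c ∧ ∀ v w, lieForm H' (A v) (A w) = c * lieForm H v w := by
  set q : (ℝ × H × ℝ) → (ℝ × H × ℝ) → ℝ := fun v w => lieForm H' (A v) (A w) with hq
  have hadd : ∀ u v w, q (u + v) w = q u w + q v w := by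
    intro u v w; simp only [hq, map_add, LinearMap.add_apply]
  have hadd' : ∀ u v w, q w (u + v) = q w u + q w v := by
    intro u v w; simp only [hq, map_add]
  have hsmul : ∀ (t : ℝ) u v, q (t • u) v = t * q u v := by
    intro t u v; simp only [hq, map_smul, LinearMap.smul_apply, smul_eq_mul]
  have hsmul' : ∀ (t : ℝ) u v, q u (t • v) = t * q u v := by
    intro t u v; simp only [hq, map_smul, smul_eq_mul]
  have hneg : ∀ u v, q (-u) v = - q u v := by
    intro u v; simp only [hq, map_neg, LinearMap.neg_apply]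
  have hneg' : ∀ u v, q u (-v) = - q u v := by
    intro u v; simp only [hq, map_neg]
  have hsymm : ∀ u v, q u v = q v u := fun u v => lieForm_isSymm'.eq _ _
  have hnull : ∀ v, lieForm H v v = 0 → q v v = 0 := fun v hv => (hA v).2 hv
  -- unit vectors
  have key : ∀ (t s : ℝ) (x : H), t ^ 2 + s ^ 2 = ‖x‖ ^ 2 →
      q (t, 0, s) (0, x, 0) = 0 ∧ q (0, x, 0) (0, x, 0) = - q (t, 0, s) (t, 0, s) := by
    intro t s x h
    have h1 : q ((t, 0, s) + (0, x, 0)) ((t, 0, s) + (0, x, 0)) = 0 := by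
      apply hnull
      rw [lieForm_apply]
      simp only [Prod.fst_add, Prod.snd_add, add_zero, zero_add, real_inner_self_eq_norm_sq]
      nlinarith
    have h2 : q ((t, 0, s) + -(0, x, 0)) ((t, 0, s) + -(0, x, 0)) = 0 := by
      apply hnull
      rw [lieForm_apply]
      simp only [Prod.fst_add, Prod.snd_add, Prod.fst_neg, Prod.snd_neg, neg_zero, add_zero,
        zero_add, inner_neg_left, inner_neg_right, neg_neg, real_inner_self_eq_norm_sq]
      nlinarith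
    simp only [hadd, hadd', hneg, hneg'] at h1 h2
    rw [hsymm (0, x, 0) (t, 0, s)] at h1 h2
    constructor <;> linarith
  -- a unit vector
  have hH : 0 < finrank ℝ H := by omega
  have hnt : Nontrivial H := Module.nontrivial_of_finrank_pos hH
  obtain ⟨x₀, hx₀⟩ : ∃ x : H, ‖x‖ = 1 := exists_norm_eq H zero_le_one
  set c := q (0, x₀, 0) (0, x₀, 0) with hc
  have hE : ∀ t s : ℝ, q (t, 0, s) (t, 0, s) = - c * (t ^ 2 + s ^ 2) := by
    intro t s
    have h1 := (key t s (√(t ^ 2 + s ^ 2) • x₀) (by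
      rw [norm_smul, hx₀, mul_one, Real.norm_eq_abs, sq_abs, Real.sq_sqrt (by positivity)])).2
    have h2 : ((0 : ℝ), √(t ^ 2 + s ^ 2) • x₀, (0 : ℝ)) = √(t ^ 2 + s ^ 2) • ((0 : ℝ), x₀, (0 : ℝ)) := by
      simp
    rw [h2, hsmul, hsmul', ← mul_assoc, Real.mul_self_sqrt (by positivity)] at h1
    linarith
  have hX : ∀ x : H, q (0, x, 0) (0, x, 0) = c * ‖x‖ ^ 2 := by
    intro x
    have h1 := (key ‖x‖ 0 x (by ring)).2
    rw [h1, hE]; ring
  have hEX : ∀ (t s : ℝ) (x : H), q (t, 0, s) (0, x, 0) = 0 := by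
    intro t s x
    by_cases hx : x = 0
    · have : ((0 : ℝ), (0 : H), (0 : ℝ)) = 0 := rfl
      rw [hx, this]
      simp only [hq, map_zero]
    · have hx' : ‖x‖ ≠ 0 := norm_ne_zero_iff.mpr hx
      have h1 := (key t s ((√(t ^ 2 + s ^ 2) / ‖x‖) • x) (by
        rw [norm_smul, Real.norm_eq_abs, mul_pow, sq_abs, div_pow,
          Real.sq_sqrt (by positivity)]
        field_simp)).1
      have h2 : ((0 : ℝ), (√(t ^ 2 + s ^ 2) / ‖x‖) • x, (0 : ℝ))
          = (√(t ^ 2 + s ^ 2) / ‖x‖) • ((0 : ℝ), x, (0 : ℝ)) := by simp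
      rw [h2, hsmul', mul_eq_zero, div_eq_zero_iff] at h1
      rcases h1 with (h1 | h1) | h1
      · have h3 : t ^ 2 + s ^ 2 = 0 := by
          have := Real.sqrt_eq_zero'.mp h1
          nlinarith [sq_nonneg t, sq_nonneg s]
        have ht : t = 0 := by nlinarith [sq_nonneg t, sq_nonneg s]
        have hs : s = 0 := by nlinarith [sq_nonneg t, sq_nonneg s]
        subst ht hs
        have : ((0 : ℝ), (0 : H), (0 : ℝ)) = 0 := rfl
        rw [this]
        simp only [hq, map_zero, LinearMap.zero_apply]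
      · exact absurd h1 hx'
      · exact h1
  have hQ : ∀ v, q v v = c * lieForm H v v := by
    rintro ⟨t, x, s⟩
    have h1 : ((t, x, s) : ℝ × H × ℝ) = (t, 0, s) + (0, x, 0) := by simp
    rw [h1, hadd, hadd', hadd', hEX, hsymm (0, x, 0) (t, 0, s), hEX, hE, hX, lieForm_apply]
    simp only [Prod.fst_add, Prod.snd_add, add_zero, zero_add, real_inner_self_eq_norm_sq]
    ring
  have hpol : ∀ v w, q v w = c * lieForm H v w := by
    intro v w
    have h1 := hQ (v + w)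
    rw [hadd, hadd', hadd', hQ v, hQ w, hsymm w v] at h1
    simp only [map_add, LinearMap.add_apply] at h1
    rw [lieForm_isSymm'.eq w v] at h1
    linarith
  have hc0 : c ≠ 0 := by
    intro h0
    have h1 : lieForm H' (A (0, x₀, 0)) (A (0, x₀, 0)) = 0 := by
      change c = 0
      exact h0
    have h2 := (hA _).1 h1
    rw [lieForm_apply] at h2
    simp [hx₀] at h2
  refine ⟨c, lt_of_le_of_ne ?_ (Ne.symm hc0), hpol⟩
  -- positivity
  by_contra hneg
  rw [not_le] at hneg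
  let g : H →ₗ[ℝ] ℝ × ℝ :=
    ((LinearMap.fst ℝ ℝ (H' × ℝ)).prod
      ((LinearMap.snd ℝ H' ℝ) ∘ₗ (LinearMap.snd ℝ ℝ (H' × ℝ)))) ∘ₗ A.toLinearMap ∘ₗ
      ((LinearMap.inr ℝ ℝ (H × ℝ)) ∘ₗ (LinearMap.inl ℝ H ℝ))
  have hg : ∀ x, g x = ((A (0, x, 0)).1, (A (0, x, 0)).2.2) := fun x => rfl
  have hker : ∃ x : H, x ≠ 0 ∧ g x = 0 := by
    have h1 := g.finrank_range_add_finrank_ker
    have h2 : finrank ℝ g.range ≤ 2 := by
      have := Submodule.finrank_le g.range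
      rwa [Module.finrank_prod, Module.finrank_self] at this
    have h4 : 0 < finrank ℝ g.ker := by omega
    have h5 : g.ker ≠ ⊥ := by
      intro h; rw [h, finrank_bot] at h4; exact lt_irrefl _ h4
    obtain ⟨x, hx, hx0⟩ := Submodule.exists_mem_ne_zero_of_ne_bot h5
    exact ⟨x, hx0, hx⟩
  obtain ⟨x, hx0, hgx⟩ := hker
  rw [hg, Prod.mk_eq_zero] at hgx
  have h1 := hX x
  simp only [hq] at h1
  rw [lieForm_apply, hgx.1, hgx.2, real_inner_self_eq_norm_sq] at h1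
  have h2 : 0 < ‖x‖ ^ 2 := by
    have := norm_pos_iff.mpr hx0
    positivity
  have h4 : 0 ≤ ‖(A (0, x, 0)).2.1‖ ^ 2 := by positivity
  nlinarith

end Lie

end DupinClass

end S_Conf_pf

section S_Equiv

open scoped RealInnerProductSpace ContDiff Topology
open Module Set

namespace DupinClass

section

variable {X X' X'' : Type} [NormedAddCommGroup X] [NormedSpace ℝ X]
  [NormedAddCommGroup X'] [NormedSpace ℝ X'] [NormedAddCommGroup X''] [NormedSpace ℝ X'']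

theorem Diffeo.symm {φ : X → X'} {ψ : X' → X} {N : Set X} {N' : Set X'}
    (h : Diffeo φ ψ N N') : Diffeo ψ φ N' N :=
  ⟨h.isOpen_right, h.isOpen_left, h.maps_right, h.maps_left, h.right_inv, h.left_inv,
    h.smooth_right, h.smooth_left⟩

variable {V V' V'' : Type} [AddCommGroup V] [Module ℝ V] [AddCommGroup V'] [Module ℝ V']
  [AddCommGroup V''] [Module ℝ V'']
  {B : LinearMap.BilinForm ℝ V} {L : X → Submodule ℝ V} {U : Set X} {x : X}
  {B' : LinearMap.BilinForm ℝ V'} {L' : X' → Submodule ℝ V'} {U' : Set X'} {x' : X'}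
  {B'' : LinearMap.BilinForm ℝ V''} {L'' : X'' → Submodule ℝ V''} {U'' : Set X''} {x'' : X''}

theorem Diffeo.id {U : Set X} (hU : IsOpen U) : Diffeo (fun x : X => x) (fun x => x) U U :=
  ⟨hU, hU, fun _ h => h, fun _ h => h, fun _ _ => rfl, fun _ _ => rfl, contDiffOn_id,
    contDiffOn_id⟩

theorem Diffeo.comp {φ : X → X'} {ψ : X' → X} {N : Set X} {N' : Set X'}
    {φ' : X' → X''} {ψ' : X'' → X'} {M : Set X'} {M' : Set X''}
    (h : Diffeo φ ψ N N') (h' : Diffeo φ' ψ' M M') :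
    Diffeo (fun x => φ' (φ x)) (fun y => ψ (ψ' y)) (N ∩ φ ⁻¹' M) (M' ∩ ψ' ⁻¹' N') where
  isOpen_left := h.smooth_left.continuousOn.isOpen_inter_preimage h.isOpen_left h'.isOpen_left
  isOpen_right :=
    h'.smooth_right.continuousOn.isOpen_inter_preimage h'.isOpen_right h.isOpen_right
  maps_left := fun x hx => ⟨h'.maps_left _ hx.2, by
    have : ψ' (φ' (φ x)) = φ x := h'.left_inv _ hx.2
    change ψ' (φ' (φ x)) ∈ N'
    rw [this]; exact h.maps_left _ hx.1⟩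
  maps_right := fun y hy => ⟨h.maps_right _ hy.2, by
    have : φ (ψ (ψ' y)) = ψ' y := h.right_inv _ hy.2
    change φ (ψ (ψ' y)) ∈ M
    rw [this]; exact h'.maps_right _ hy.1⟩
  left_inv := fun x hx => by rw [h'.left_inv _ hx.2, h.left_inv _ hx.1]
  right_inv := fun y hy => by rw [h.right_inv _ hy.2, h'.right_inv _ hy.1]
  smooth_left := h'.smooth_left.comp (h.smooth_left.mono inter_subset_left) fun _ hx => hx.2
  smooth_right := h.smooth_right.comp (h'.smooth_right.mono inter_subset_left) fun _ hx => hx.2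

theorem ConfEqAt.refl (hU : IsOpen U) (hx : x ∈ U) : ConfEqAt B L U x B L U x :=
  ⟨LinearEquiv.refl ℝ V, ⟨1, one_pos, fun v w => by simp⟩, fun x => x, fun x => x, U, U,
    Diffeo.id hU, hx, Subset.rfl, Subset.rfl, rfl, fun y _ => by
      change (L y).map LinearMap.id = L y
      exact Submodule.map_id _⟩

theorem ConfEqAt.symm (h : ConfEqAt B L U x B' L' U' x') : ConfEqAt B' L' U' x' B L U x := by
  obtain ⟨A, ⟨c, hc, hA⟩, φ, ψ, N, N', hd, hx, hN, hN', hφ, hL⟩ := h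
  refine ⟨A.symm, ⟨c⁻¹, inv_pos.mpr hc, fun v w => ?_⟩, ψ, φ, N', N, hd.symm, ?_, hN', hN, ?_, ?_⟩
  · have := hA (A.symm v) (A.symm w)
    rw [A.apply_symm_apply, A.apply_symm_apply] at this
    rw [this, inv_mul_cancel_left₀ hc.ne']
  · rw [← hφ]; exact hd.maps_left _ hx
  · rw [← hφ]; exact hd.left_inv _ hx
  · intro y hy
    have h1 := hL (ψ y) (hd.maps_right _ hy)
    rw [hd.right_inv _ hy] at h1
    rw [← h1, ← Submodule.map_comp]
    have : A.symm.toLinearMap ∘ₗ A.toLinearMap = LinearMap.id := by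
      ext v; simp
    rw [this, Submodule.map_id]

theorem ConfEqAt.trans (h : ConfEqAt B L U x B' L' U' x')
    (h' : ConfEqAt B' L' U' x' B'' L'' U'' x'') : ConfEqAt B L U x B'' L'' U'' x'' := by
  obtain ⟨A, ⟨c, hc, hA⟩, φ, ψ, N, N', hd, hx, hN, hN', hφ, hL⟩ := h
  obtain ⟨A', ⟨c', hc', hA'⟩, φ', ψ', M, M', hd', hx', hM, hM', hφ', hL'⟩ := h'
  refine ⟨A.trans A', ⟨c' * c, mul_pos hc' hc, fun v w => ?_⟩, _, _, _, _, hd.comp hd', ⟨hx, ?_⟩,
    fun y hy => hN hy.1, fun y hy => hM' hy.1, ?_, ?_⟩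
  · rw [LinearEquiv.trans_apply, LinearEquiv.trans_apply, hA', hA]; ring
  · change φ x ∈ M
    rw [hφ]; exact hx'
  · rw [hφ, hφ']
  · intro y hy
    have : (A.trans A').toLinearMap = A'.toLinearMap ∘ₗ A.toLinearMap := rfl
    rw [this, Submodule.map_comp, hL y hy.1, hL' _ hy.2]

theorem ConfEqAt.lieEqAt (h : ConfEqAt B L U x B' L' U' x') : LieEqAt B L U x B' L' U' x' := by
  obtain ⟨A, ⟨c, hc, hA⟩, h⟩ := h
  refine ⟨A, fun v => ?_, h⟩
  rw [hA, mul_eq_zero, or_iff_right hc.ne']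

/-- A Lie equivalence whose linear maps are all conformal is a conformal equivalence. -/
theorem LieEqAt.confEqAt (h : LieEqAt B L U x B' L' U' x')
    (hc : ∀ A : V ≃ₗ[ℝ] V', (∀ v, B' (A v) (A v) = 0 ↔ B v v = 0) →
      ∃ c : ℝ, 0 < c ∧ ∀ v w, B' (A v) (A w) = c * B v w) : ConfEqAt B L U x B' L' U' x' := by
  obtain ⟨A, hA, h⟩ := h
  exact ⟨A, hc A hA, h⟩

/-- Enlarging the domain on the left. -/
theorem ConfEqAt.mono {U₁ : Set X} (h : ConfEqAt B L U₁ x B' L' U' x') (hU : U₁ ⊆ U) :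
    ConfEqAt B L U x B' L' U' x' := by
  obtain ⟨A, hA, φ, ψ, N, N', hd, hx, hN, h⟩ := h
  exact ⟨A, hA, φ, ψ, N, N', hd, hx, hN.trans hU, h⟩

/-- A conformal linear isomorphism that carries one family to another one on the same domain. -/
theorem ConfEqAt.of_equiv (hU : IsOpen U) (hx : x ∈ U) (A : V ≃ₗ[ℝ] V')
    (hA : ∀ v w, B' (A v) (A w) = B v w) {L₁ : X → Submodule ℝ V'}
    (hL : ∀ y ∈ U, (L y).map A.toLinearMap = L₁ y) : ConfEqAt B L U x B' L₁ U x :=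
  ⟨A, ⟨1, one_pos, fun v w => by rw [hA, one_mul]⟩, fun x => x, fun x => x, U, U, Diffeo.id hU,
    hx, Subset.rfl, Subset.rfl, rfl, hL⟩

end

section Lie

variable {H H' : Type} [NormedAddCommGroup H] [InnerProductSpace ℝ H] [FiniteDimensional ℝ H]
  [NormedAddCommGroup H'] [InnerProductSpace ℝ H'] [FiniteDimensional ℝ H']

/-- A linear isomorphism preserving the null cones of the Lie forms is conformal with a positive
factor. Proof: for unit vectors `e` of the `(−,−)`-plane `ℝ × 0 × ℝ` and `f ∈ H` the vectors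
`e ± f` are null, hence `B'(Ae, Af) = 0` and `B'(Af,Af) = -B'(Ae,Ae)`; so `B'(A·,A·) = c B`.
`c ≠ 0` clear; if `c < 0`, then the form of `H'` is negative definite on `A(0 × H × 0)`, which has
dimension at least three, and this subspace meets `0 × H' × 0` (codimension two). -/
theorem lieForm_conf (h3 : 3 ≤ finrank ℝ H) (A : (ℝ × H × ℝ) ≃ₗ[ℝ] (ℝ × H' × ℝ))
    (hA : ∀ v, lieForm H' (A v) (A v) = 0 ↔ lieForm H v v = 0) :
    ∃ c : ℝ, 0 < c ∧ ∀ v w, lieForm H' (A v) (A w) = c * lieForm H v w :=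
  lieForm_conf' h3 A hA

omit [FiniteDimensional ℝ H] in
theorem lieForm_isSymm : (lieForm H).IsSymm := lieForm_isSymm'

omit [FiniteDimensional ℝ H] in
theorem lieForm_nondegenerate : (lieForm H).Nondegenerate := lieForm_nondegenerate'

end Lie

end DupinClass

end S_Equiv

section S_WFacts

open scoped RealInnerProductSpace ContDiff Topology
open Module Set

namespace DupinClass

section

variable {Y E : Type} [NormedAddCommGroup Y] [NormedSpace ℝ Y] [FiniteDimensional ℝ Y]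
  [NormedAddCommGroup E] [InnerProductSpace ℝ E] [FiniteDimensional ℝ E]

/-- The curvature sphere map `κ P + H` of a hypersurface. -/
noncomputable def EHyp.kmap (W : EHyp Y E) (κ : Y → ℝ) (y : Y) : ℝ × WithLp 2 (ℝ × E) × ℝ :=
  κ y • ptSph (W.f y) + plSph (W.f y) (W.ν y)

variable (W : EHyp Y E) {κ κ' : Y → ℝ} {y : Y}

theorem EHyp.kmap_smooth (hκ : ContDiffOn ℝ ∞ κ W.U) : ContDiffOn ℝ ∞ (W.kmap κ) W.U := by
  have hf := W.smooth_f
  have hν := W.smooth_ν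
  have hE : ContDiff ℝ ∞ (fun z : ℝ × E => WithLp.toLp 2 z) :=
    (WithLp.prodContinuousLinearEquiv 2 ℝ ℝ E).symm.contDiff
  have h1 : ContDiffOn ℝ ∞ (fun y => ptSph (W.f y)) W.U := by
    unfold ptSph
    refine ContDiffOn.prodMk ?_ (ContDiffOn.prodMk (hE.comp_contDiffOn (ContDiffOn.prodMk ?_ hf))
      contDiffOn_const)
    · exact (contDiffOn_const.add (hf.norm_sq ℝ)).div_const 2
    · exact (contDiffOn_const.sub (hf.norm_sq ℝ)).div_const 2
  have h2 : ContDiffOn ℝ ∞ (fun y => plSph (W.f y) (W.ν y)) W.U := by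
    unfold plSph
    exact (hf.inner ℝ hν).prodMk ((hE.comp_contDiffOn ((hf.inner ℝ hν).neg.prodMk hν)).prodMk
      contDiffOn_const)
  exact (hκ.smul h1).add h2

theorem wf_lieForm_pencil (k k' : ℝ) (p n : E) (Z : E) :
    lieForm _ (k • ptSph p + k' • plSph p n) ((⟪p, Z⟫, WithLp.toLp 2 (-⟪p, Z⟫, Z), (0 : ℝ)) :
      ℝ × WithLp 2 (ℝ × E) × ℝ) = k' * ⟪n, Z⟫ := by
  simp only [lieForm, ptSph, plSph, LinearMap.mk₂_apply]
  simp [WithLp.prod_inner_apply, inner_add_left, inner_smul_left]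
  ring

theorem wf_lieForm_pt_pt (p : E) : lieForm _ (ptSph p) (ptSph p) = 0 := by
  simp only [lieForm, ptSph, LinearMap.mk₂_apply, WithLp.prod_inner_apply]
  simp
  rw [div_pow, sq_abs]
  ring

theorem wf_lieForm_pt_pl (p n : E) : lieForm _ (ptSph p) (plSph p n) = 0 := by
  simp only [lieForm, ptSph, plSph, LinearMap.mk₂_apply]
  simp [WithLp.prod_inner_apply]
  ring

theorem wf_lieForm_pl_pt (p n : E) : lieForm _ (plSph p n) (ptSph p) = 0 := by
  simp only [lieForm, ptSph, plSph, LinearMap.mk₂_apply]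
  simp [WithLp.prod_inner_apply, real_inner_comm]
  ring

theorem wf_lieForm_pl_pl (p : E) {n : E} (hn : ‖n‖ = 1) :
    lieForm _ (plSph p n) (plSph p n) = 0 := by
  simp only [lieForm, plSph, LinearMap.mk₂_apply, WithLp.prod_inner_apply]
  simp [hn]
  ring

theorem EHyp.kmap_kmap (hy : y ∈ W.U) :
    lieForm _ (W.kmap κ y) (W.kmap κ' y) = 0 := by
  simp only [EHyp.kmap, map_add, map_smul, LinearMap.add_apply, LinearMap.smul_apply,
    wf_lieForm_pt_pt, wf_lieForm_pt_pl, wf_lieForm_pl_pt,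
    wf_lieForm_pl_pl _ (W.norm_ν y hy)]
  simp

theorem EHyp.wf_hasFDerivAt_f (hy : y ∈ W.U) : HasFDerivAt W.f (fderiv ℝ W.f y) y :=
  (((W.smooth_f _ hy).contDiffAt (W.isOpen_U.mem_nhds hy)).differentiableAt
    (by simp)).hasFDerivAt

theorem EHyp.wf_hasFDerivAt_ν (hy : y ∈ W.U) : HasFDerivAt W.ν (fderiv ℝ W.ν y) y :=
  (((W.smooth_ν _ hy).contDiffAt (W.isOpen_U.mem_nhds hy)).differentiableAt
    (by simp)).hasFDerivAt

theorem EHyp.wf_inner_dν (hy : y ∈ W.U) (v : Y) : ⟪W.ν y, fderiv ℝ W.ν y v⟫ = 0 := by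
  have h1 : HasFDerivAt (fun z => ⟪W.ν z, W.ν z⟫) _ y :=
    (W.wf_hasFDerivAt_ν hy).inner ℝ (W.wf_hasFDerivAt_ν hy)
  have h2 : HasFDerivAt (fun z => ⟪W.ν z, W.ν z⟫) (0 : Y →L[ℝ] ℝ) y := by
    refine (hasFDerivAt_const (1 : ℝ) y).congr_of_eventuallyEq ?_
    filter_upwards [W.isOpen_U.mem_nhds hy] with z hz
    rw [real_inner_self_eq_norm_sq, W.norm_ν z hz, one_pow]
  have h3 := DFunLike.congr_fun (h1.unique h2) v
  simp only [fderivInnerCLM_apply, ContinuousLinearMap.comp_apply, ContinuousLinearMap.prod_apply,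
    zero_apply] at h3
  rw [real_inner_comm (W.ν y)] at h3
  linarith

/-- `dK v = (dκ v) P + (w·Z, (-w·Z, Z), 0)` with `Z = dN v + κ dw v`. -/
theorem EHyp.fderiv_kmap (hκ : ContDiffOn ℝ ∞ κ W.U) (hy : y ∈ W.U) (v : Y) :
    fderiv ℝ (W.kmap κ) y v = fderiv ℝ κ y v • ptSph (W.f y)
      + (⟪W.f y, fderiv ℝ W.ν y v + κ y • fderiv ℝ W.f y v⟫,
          WithLp.toLp 2 (-⟪W.f y, fderiv ℝ W.ν y v + κ y • fderiv ℝ W.f y v⟫,
            fderiv ℝ W.ν y v + κ y • fderiv ℝ W.f y v), 0) := by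
  have df := W.wf_hasFDerivAt_f hy
  have dν := W.wf_hasFDerivAt_ν hy
  have dκ : HasFDerivAt κ (fderiv ℝ κ y) y :=
    (((hκ _ hy).contDiffAt (W.isOpen_U.mem_nhds hy)).differentiableAt (by simp)).hasFDerivAt
  have dL : ∀ z, HasFDerivAt (fun z : ℝ × E => WithLp.toLp 2 z)
      ((WithLp.prodContinuousLinearEquiv 2 ℝ ℝ E).symm : (ℝ × E) →L[ℝ] WithLp 2 (ℝ × E)) z :=
    fun z => ((WithLp.prodContinuousLinearEquiv 2 ℝ ℝ E).symm :
      (ℝ × E) →L[ℝ] WithLp 2 (ℝ × E)).hasFDerivAt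
  have dn : HasFDerivAt (fun z => ‖W.f z‖ ^ 2) _ y := df.norm_sq
  have dfn : HasFDerivAt (fun z => ⟪W.f z, W.ν z⟫) _ y := df.inner ℝ dν
  have dP : HasFDerivAt (fun z => ptSph (W.f z)) _ y :=
    ((((dn.const_add 1).mul_const (2 : ℝ)⁻¹)).prodMk
      (((dL _).comp y (((dn.const_sub 1).mul_const (2 : ℝ)⁻¹).prodMk df)).prodMk
        (hasFDerivAt_const (0 : ℝ) y)))
  have dH : HasFDerivAt (fun z => plSph (W.f z) (W.ν z)) _ y :=
    (dfn.prodMk (((dL _).comp y (dfn.neg.prodMk dν)).prodMk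
        (hasFDerivAt_const (1 : ℝ) y)))
  have dK : HasFDerivAt (W.kmap κ) _ y := (dκ.smul dP).add dH
  rw [dK.fderiv]
  have h0 := W.inner_df y hy v
  refine Prod.ext ?_ (Prod.ext ?_ ?_)
  · simp [ptSph, fderivInnerCLM_apply, inner_add_right, inner_smul_right, h0]
    ring
  · refine WithLp.ofLp_injective 2 (Prod.ext ?_ ?_)
    · simp [ptSph, fderivInnerCLM_apply, inner_add_right, inner_smul_right, h0]
      ring
    · simp [ptSph, fderivInnerCLM_apply, inner_add_right, inner_smul_right, h0]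
      module
  · simp [ptSph, fderivInnerCLM_apply, inner_add_right, inner_smul_right, h0]

theorem EHyp.wf_inner_Z (hy : y ∈ W.U) (v : Y) (k : ℝ) :
    ⟪W.ν y, fderiv ℝ W.ν y v + k • fderiv ℝ W.f y v⟫ = 0 := by
  rw [inner_add_right, inner_smul_right, W.wf_inner_dν hy, real_inner_comm, W.inner_df y hy]
  ring

theorem EHyp.kmap_fderiv (hκ : ContDiffOn ℝ ∞ κ W.U) (hy : y ∈ W.U) (v : Y) :
    lieForm _ (W.kmap κ y) (fderiv ℝ (W.kmap κ) y v) = 0 := by
  rw [W.fderiv_kmap hκ hy, map_add, map_smul]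
  have h1 : W.kmap κ y = κ y • ptSph (W.f y) + (1 : ℝ) • plSph (W.f y) (W.ν y) := by
    rw [one_smul]; rfl
  rw [h1, wf_lieForm_pencil, W.wf_inner_Z hy]
  simp only [map_add, map_smul, LinearMap.add_apply, LinearMap.smul_apply,
    wf_lieForm_pt_pt, wf_lieForm_pl_pt]
  simp

theorem EHyp.fderiv_fderiv_kmap (hκ : ContDiffOn ℝ ∞ κ W.U) (hy : y ∈ W.U) (v : Y) :
    lieForm _ (fderiv ℝ (W.kmap κ) y v) (fderiv ℝ (W.kmap κ) y v)
      = ‖fderiv ℝ W.ν y v + κ y • fderiv ℝ W.f y v‖ ^ 2 := by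
  rw [W.fderiv_kmap hκ hy]
  set Z := fderiv ℝ W.ν y v + κ y • fderiv ℝ W.f y v
  set t := fderiv ℝ κ y v
  simp only [lieForm, ptSph, LinearMap.mk₂_apply, WithLp.prod_inner_apply]
  have h1 : ⟪Z, W.f y⟫ = ⟪W.f y, Z⟫ := real_inner_comm _ _
  have h2 : ‖t • W.f y + Z‖ ^ 2 = t ^ 2 * ‖W.f y‖ ^ 2 + 2 * (t * ⟪W.f y, Z⟫) + ‖Z‖ ^ 2 := by
    rw [norm_add_sq_real]
    simp [norm_smul, mul_pow, inner_smul_left]
  simp [h2]
  ring

theorem EHyp.fderiv_kmap_snd (hκ : ContDiffOn ℝ ∞ κ W.U) (hy : y ∈ W.U) (v : Y) :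
    (fderiv ℝ (W.kmap κ) y v).2.2 = 0 := by
  rw [W.fderiv_kmap hκ hy]
  simp [ptSph]

/-- Distinct principal curvatures have disjoint spaces of principal vectors. -/
theorem EHyp.disjoint_prin (hy : y ∈ W.U) {k k' : ℝ} (hk : k ≠ k') :
    Disjoint (prin W.f W.ν k y) (prin W.f W.ν k' y) := by
  rw [Submodule.disjoint_def]
  intro v h1 h2
  simp only [prin, LinearMap.mem_ker, ContinuousLinearMap.coe_coe, add_apply,
    smul_apply] at h1 h2
  apply W.immersion y hy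
  have h3 : (k - k') • fderiv ℝ W.f y v = 0 := by
    rw [sub_smul, ← sub_eq_zero.2 (h1.trans h2.symm)]
    module
  exact (smul_eq_zero.1 h3).resolve_left (sub_ne_zero.2 hk)

end

end DupinClass

end S_WFacts
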