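import Mathlib
import Pool.Agent.H31.DC.D2

/-! Reducible Dupin hypersurfaces, part D4 (several modules joined to save build time). -/

section S_Model

open scoped RealInnerProductSpace ContDiff Topology
open Module Set

namespace DupinClass

/-! ## Families of lines from null triples -/

section

variable {X V : Type} [NormedAddCommGroup X] [NormedSpace ℝ X]
  [NormedAddCommGroup V] [NormedSpace ℝ V]

/-- The family of subspaces spanned by the differences of `b 0 x, b 1 x, b 2 x`. -/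
def triFam (b : Fin 3 → X → V) (x : X) : Submodule ℝ V :=
  Submodule.span ℝ (Set.range fun p : Fin 3 × Fin 3 => b p.1 x - b p.2 x)

/-- Hypotheses on a null triple `b` near `x₀`. -/
structure TripleHyp (B : LinearMap.BilinForm ℝ V) (b : Fin 3 → X → V) (U : Set X) (x₀ : X) :
    Prop where
  symm : B.IsSymm
  nondeg : B.Nondegenerate
  dim : finrank ℝ V = finrank ℝ X + 4
  isOpen_U : IsOpen U
  mem : x₀ ∈ U
  smooth : ∀ i, ContDiffOn ℝ ∞ (b i) U
  null : ∀ i j, i ≠ j → ∀ x ∈ U, ∀ y ∈ U, B (b i x - b j y) (b i x - b j y) = 0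
  pos : ∀ i v, fderiv ℝ (b i) x₀ v ≠ 0 → 0 < B (fderiv ℝ (b i) x₀ v) (fderiv ℝ (b i) x₀ v)
  ne : ∀ i, fderiv ℝ (b i) x₀ ≠ 0
  inj : ∀ v, (∀ i, fderiv ℝ (b i) x₀ v = 0) → v = 0
  li : LinearIndependent ℝ ![b 1 x₀ - b 2 x₀, b 2 x₀ - b 0 x₀]

end

/-! ## The canonical model -/

/-- Domain space of the canonical model. -/
abbrev MX (m : Fin 3 → ℕ) : Type := ∀ i : Fin 3, EuclideanSpace ℝ (Fin (m i))

/-- The quadratic space of the canonical model: basis vectors `k₀, k₁, n₀, n₁` in the last four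
coordinates. -/
abbrev MV (m : Fin 3 → ℕ) : Type := MX m × ℝ × ℝ × ℝ × ℝ

/-- The form: `⟨n₀,k₁⟩ = -1`, `⟨n₁,k₀⟩ = 1`, `⟨n₀,n₀⟩ = μ₀`, `⟨n₁,n₁⟩ = μ₁`, all the other products
of `k₀, k₁, n₀, n₁` are zero. -/
noncomputable def mForm (m : Fin 3 → ℕ) (μ : Fin 3 → ℝ) : LinearMap.BilinForm ℝ (MV m) :=
  LinearMap.mk₂ ℝ (fun v w => ∑ i, ⟪v.1 i, w.1 i⟫
      + (v.2.2.2.2 * w.2.1 + v.2.1 * w.2.2.2.2) - (v.2.2.2.1 * w.2.2.1 + v.2.2.1 * w.2.2.2.1)
      + μ 0 * v.2.2.2.1 * w.2.2.2.1 + μ 1 * v.2.2.2.2 * w.2.2.2.2)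
    (by
      intro a b c
      simp only [Prod.fst_add, Prod.snd_add, Pi.add_apply, inner_add_left, Finset.sum_add_distrib]
      ring)
    (by
      intro t a b
      simp only [Prod.smul_fst, Prod.smul_snd, Pi.smul_apply, smul_eq_mul, inner_smul_left,
        RCLike.conj_to_real, ← Finset.mul_sum]
      ring)
    (by
      intro a b c
      simp only [Prod.fst_add, Prod.snd_add, Pi.add_apply, inner_add_right, Finset.sum_add_distrib]
      ring)
    (by
      intro t a b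
      simp only [Prod.smul_fst, Prod.smul_snd, Pi.smul_apply, smul_eq_mul, inner_smul_right,
        ← Finset.mul_sum]
      ring)

/-- The vectors `n₀, n₁, n₂ = μ₁ k₀ - μ₀ k₁ - n₀ - n₁`. -/
def mN (m : Fin 3 → ℕ) (μ : Fin 3 → ℝ) : Fin 3 → MV m :=
  ![(0, 0, 0, 1, 0), (0, 0, 0, 0, 1), (0, μ 1, -μ 0, -1, -1)]

/-- The base points: `b₀ = -k₁`, `b₁ = k₀`, `b₂ = 0`. -/
def mBase (m : Fin 3 → ℕ) : Fin 3 → MV m :=
  ![(0, 0, -1, 0, 0), (0, 1, 0, 0, 0), 0]

/-- The root near zero of `μ y² + 2 y + t = 0`. -/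
noncomputable def yfun (μ t : ℝ) : ℝ := -t / (1 + √(1 - μ * t))

/-- The canonical triple. -/
noncomputable def mb (m : Fin 3 → ℕ) (μ : Fin 3 → ℝ) (i : Fin 3) (s : MX m) : MV m :=
  mBase m i + (Pi.single i (s i), 0) + yfun (μ i) (‖s i‖ ^ 2) • mN m μ i

/-- The domain of the canonical triple. -/
def mU (m : Fin 3 → ℕ) (μ : Fin 3 → ℝ) : Set (MX m) := {s | ∀ i, μ i * ‖s i‖ ^ 2 < 1}

/-- The canonical family. -/
noncomputable def mFam (m : Fin 3 → ℕ) (μ : Fin 3 → ℝ) : MX m → Submodule ℝ (MV m) :=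
  triFam (mb m μ)

theorem zero_mem_mU (m : Fin 3 → ℕ) (μ : Fin 3 → ℝ) : (0 : MX m) ∈ mU m μ := by
  intro i; simp

end DupinClass

end S_Model

section S_TripleA

open scoped RealInnerProductSpace ContDiff Topology
open Module Set

set_option linter.unusedSectionVars false

namespace DupinClass

section

variable {X V : Type} [NormedAddCommGroup X] [NormedSpace ℝ X] [FiniteDimensional ℝ X]
  [NormedAddCommGroup V] [NormedSpace ℝ V] [FiniteDimensional ℝ V]
  {B : LinearMap.BilinForm ℝ V} {b : Fin 3 → X → V} {U : Set X} {x₀ : X}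

theorem deriv_form_zero (B : LinearMap.BilinForm ℝ V) {f g : X → V} {f' g' : X →L[ℝ] V} {x : X}
    (hf : HasFDerivAt f f' x) (hg : HasFDerivAt g g' x) {c : ℝ}
    (h : ∀ᶠ y in 𝓝 x, B (f y) (g y) = c) (v : X) :
    B (f' v) (g x) + B (f x) (g' v) = 0 := by
  have h1 := (LinearMap.toContinuousBilinearMap B).hasFDerivAt_of_bilinear hf hg
  have h2 : HasFDerivAt (fun y => (LinearMap.toContinuousBilinearMap B) (f y) (g y))
      (0 : X →L[ℝ] ℝ) x :=
    (hasFDerivAt_const c x).congr_of_eventuallyEq h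
  have h3 := congrArg (fun T : X →L[ℝ] ℝ => T v) (h1.unique h2)
  have h4 : B (f x) (g' v) + B (f' v) (g x) = 0 := h3
  linarith

theorem TripleHyp.hasFDerivAt' (h : TripleHyp B b U x₀) (i : Fin 3) :
    HasFDerivAt (b i) (fderiv ℝ (b i) x₀) x₀ :=
  (((h.smooth i).contDiffAt (h.isOpen_U.mem_nhds h.mem)).differentiableAt
    (by simp)).hasFDerivAt

theorem TripleHyp.eventually_mem (h : TripleHyp B b U x₀) : ∀ᶠ y in 𝓝 x₀, y ∈ U :=
  h.isOpen_U.mem_nhds h.mem

theorem TripleHyp.comm (h : TripleHyp B b U x₀) (v w : V) : B v w = B w v := h.symm.eq v w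

/-- If a linear functional is constant on the points `b i x`, it vanishes on the derivative. -/
theorem TripleHyp.deriv_const (h : TripleHyp B b U x₀) (i : Fin 3) (a : V) {c : ℝ}
    (hc : ∀ y ∈ U, B a (b i y) = c) (v : X) : B a (fderiv ℝ (b i) x₀ v) = 0 := by
  have := deriv_form_zero B (hasFDerivAt_const a x₀) (h.hasFDerivAt' i) (c := c)
    (h.eventually_mem.mono fun y hy => hc y hy) v
  simpa using this

theorem TripleHyp.orth_star (h : TripleHyp B b U x₀) {i j : Fin 3} (hij : i ≠ j) (v : X)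
    {y : X} (hy : y ∈ U) : B (fderiv ℝ (b i) x₀ v) (b i x₀ - b j y) = 0 := by
  have h1 : HasFDerivAt (fun x => b i x - b j y) (fderiv ℝ (b i) x₀) x₀ :=
    (h.hasFDerivAt' i).sub_const _
  have := deriv_form_zero B h1 h1 (c := 0)
    (h.eventually_mem.mono fun x hx => h.null i j hij x hx y hy) v
  rw [h.comm (b i x₀ - b j y) (fderiv ℝ (b i) x₀ v)] at this
  linarith

theorem TripleHyp.orth_dd (h : TripleHyp B b U x₀) {i j : Fin 3} (hij : i ≠ j) (v w : X) :
    B (fderiv ℝ (b i) x₀ v) (fderiv ℝ (b j) x₀ w) = 0 := by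
  refine h.deriv_const j _ (c := B (fderiv ℝ (b i) x₀ v) (b i x₀)) (fun y hy => ?_) w
  have := h.orth_star hij v hy
  rw [map_sub] at this
  linarith

theorem TripleHyp.orth_db (h : TripleHyp B b U x₀) (i j l : Fin 3) (v : X) :
    B (fderiv ℝ (b i) x₀ v) (b j x₀ - b l x₀) = 0 := by
  have key : ∀ j, B (fderiv ℝ (b i) x₀ v) (b i x₀ - b j x₀) = 0 := by
    intro j
    by_cases hij : i = j
    · subst hij; simp
    · exact h.orth_star hij v h.mem
  have h1 := key j
  have h2 := key l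
  rw [map_sub] at h1 h2 ⊢
  linarith

theorem TripleHyp.orth_bb (h : TripleHyp B b U x₀) (i j l k : Fin 3) :
    B (b i x₀ - b j x₀) (b k x₀ - b l x₀) = 0 := by
  have key : ∀ i j, B (b i x₀ - b j x₀) (b i x₀ - b j x₀) = 0 := by
    intro i j
    by_cases hij : i = j
    · subst hij; simp
    · exact h.null i j hij x₀ h.mem x₀ h.mem
  have h1 := key i l
  have h2 := key j k
  have h3 := key i k
  have h4 := key j l
  simp only [map_sub, LinearMap.sub_apply] at h1 h2 h3 h4 ⊢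
  rw [h.comm (b l x₀) (b i x₀)] at h1
  rw [h.comm (b k x₀) (b j x₀)] at h2
  rw [h.comm (b k x₀) (b i x₀)] at h3
  rw [h.comm (b l x₀) (b j x₀)] at h4
  linarith

/-- The map `(s, a, c) ↦ ∑ s i + a k₀ + c k₁`. -/
noncomputable def sumMap (b : Fin 3 → X → V) (x₀ : X) :
    ((∀ i, (fderiv ℝ (b i) x₀).toLinearMap.range) × ℝ × ℝ) →ₗ[ℝ] V where
  toFun p := ∑ i, (p.1 i : V) + (p.2.1 • (b 1 x₀ - b 2 x₀) + p.2.2 • (b 2 x₀ - b 0 x₀))
  map_add' p q := by
    simp only [Prod.fst_add, Prod.snd_add, Pi.add_apply, Submodule.coe_add,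
      Finset.sum_add_distrib, add_smul]
    abel
  map_smul' t p := by
    simp only [Prod.smul_fst, Prod.smul_snd, Pi.smul_apply, Submodule.coe_smul, smul_eq_mul,
      mul_smul, ← Finset.smul_sum, RingHom.id_apply, smul_add]

theorem TripleHyp.sumMap_injective (h : TripleHyp B b U x₀) :
    Function.Injective (sumMap b x₀) := by
  rw [injective_iff_map_eq_zero]
  rintro ⟨s, a, c⟩ hs
  have hs' : ∑ i, (s i : V) + (a • (b 1 x₀ - b 2 x₀) + c • (b 2 x₀ - b 0 x₀)) = 0 := hs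
  have hz : ∀ i, s i = 0 := by
    intro i
    obtain ⟨v, hv⟩ := (s i).2
    have hv' : fderiv ℝ (b i) x₀ v = (s i : V) := hv
    have h1 : B (s i : V) (∑ i, (s i : V) +
        (a • (b 1 x₀ - b 2 x₀) + c • (b 2 x₀ - b 0 x₀))) = 0 := by
      rw [hs', map_zero]
    have h2 : B (s i : V) (∑ i, (s i : V)) = B (s i : V) (s i : V) := by
      rw [map_sum]
      refine Finset.sum_eq_single i (fun j _ hj => ?_) (by simp)
      obtain ⟨w, hw⟩ := (s j).2
      have hw' : fderiv ℝ (b j) x₀ w = (s j : V) := hw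
      rw [← hv', ← hw']
      exact h.orth_dd hj.symm v w
    have h3 : B (s i : V) (b 1 x₀ - b 2 x₀) = 0 := by rw [← hv']; exact h.orth_db _ _ _ _
    have h4 : B (s i : V) (b 2 x₀ - b 0 x₀) = 0 := by rw [← hv']; exact h.orth_db _ _ _ _
    rw [map_add, map_add, map_smul, map_smul, h2, h3, h4] at h1
    simp only [smul_zero, add_zero] at h1
    by_contra hne
    have h5 : fderiv ℝ (b i) x₀ v ≠ 0 := by
      rw [hv']
      intro h0
      exact hne (Subtype.ext h0)
    have h6 := h.pos i v h5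
    rw [hv'] at h6
    linarith
  have h0 : a • (b 1 x₀ - b 2 x₀) + c • (b 2 x₀ - b 0 x₀) = 0 := by
    simpa [hz] using hs'
  have := (LinearIndependent.pair_iff.1 h.li) a c h0
  ext i
  · simp [hz i]
  · exact this.1
  · exact this.2

theorem TripleHyp.finrank_le_sum (h : TripleHyp B b U x₀) :
    finrank ℝ X ≤ ∑ i, finrank ℝ (fderiv ℝ (b i) x₀).toLinearMap.range := by
  rw [← finrank_pi_fintype ℝ (M := fun i => (fderiv ℝ (b i) x₀).toLinearMap.range)]
  refine LinearMap.finrank_le_finrank_of_injective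
    (f := LinearMap.pi fun i => (fderiv ℝ (b i) x₀).toLinearMap.rangeRestrict) ?_
  rw [injective_iff_map_eq_zero]
  intro v hv
  refine h.inj v fun i => ?_
  have := congrFun hv i
  exact congrArg Subtype.val this

/-- The plane spanned by the differences of the base points. -/
def plane (b : Fin 3 → X → V) (x₀ : X) : Submodule ℝ V :=
  Submodule.span ℝ {b 1 x₀ - b 2 x₀, b 2 x₀ - b 0 x₀}

theorem TripleHyp.finrank_plane (h : TripleHyp B b U x₀) : finrank ℝ (plane b x₀) = 2 := by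
  have h1 := finrank_span_eq_card h.li
  have h2 : Set.range ![b 1 x₀ - b 2 x₀, b 2 x₀ - b 0 x₀] =
      {b 1 x₀ - b 2 x₀, b 2 x₀ - b 0 x₀} := by
    ext w
    simp only [Set.mem_range, Fin.exists_fin_two, Matrix.cons_val_zero, Matrix.cons_val_one,
      Set.mem_insert_iff, Set.mem_singleton_iff, eq_comm]
  rw [h2] at h1
  rw [plane, h1]
  rfl

theorem TripleHyp.finrank_range_sumMap (h : TripleHyp B b U x₀) :
    finrank ℝ (sumMap b x₀).range =
      (∑ i, finrank ℝ (fderiv ℝ (b i) x₀).toLinearMap.range) + 2 := by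
  rw [LinearMap.finrank_range_of_inj h.sumMap_injective, finrank_prod, finrank_prod,
    finrank_pi_fintype, finrank_self]

theorem mem_orthogonal_aux {w : V}
    (h1 : ∀ i v, B (fderiv ℝ (b i) x₀ v) w = 0) (h2 : ∀ i j, B (b i x₀ - b j x₀) w = 0) :
    w ∈ LinearMap.BilinForm.orthogonal B (sumMap b x₀).range := by
  rw [LinearMap.BilinForm.mem_orthogonal_iff]
  rintro _ ⟨⟨s, a, c⟩, rfl⟩
  change B (∑ i, (s i : V) + (a • (b 1 x₀ - b 2 x₀) + c • (b 2 x₀ - b 0 x₀))) w = 0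
  rw [map_add, map_add, map_smul, map_smul, map_sum]
  simp only [LinearMap.add_apply, LinearMap.smul_apply, LinearMap.sum_apply, h2, smul_zero,
    add_zero]
  refine Finset.sum_eq_zero fun i _ => ?_
  obtain ⟨v, hv⟩ := (s i).2
  have hv' : fderiv ℝ (b i) x₀ v = (s i : V) := hv
  rw [← hv']
  exact h1 i v

theorem TripleHyp.plane_le (h : TripleHyp B b U x₀) :
    plane b x₀ ≤ LinearMap.BilinForm.orthogonal B (sumMap b x₀).range := by
  rw [plane, Submodule.span_le]
  rintro w (rfl | rfl)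
  · exact mem_orthogonal_aux (fun i v => h.orth_db _ _ _ _) (fun i j => h.orth_bb _ _ _ _)
  · exact mem_orthogonal_aux (fun i v => h.orth_db _ _ _ _) (fun i j => h.orth_bb _ _ _ _)

theorem TripleHyp.finrank_aux (h : TripleHyp B b U x₀) :
    ∑ i, finrank ℝ (fderiv ℝ (b i) x₀).toLinearMap.range = finrank ℝ X ∧
      plane b x₀ = LinearMap.BilinForm.orthogonal B (sumMap b x₀).range := by
  have h1 := h.finrank_le_sum
  have h2 := h.finrank_plane
  have h3 := h.finrank_range_sumMap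
  have h4 := LinearMap.BilinForm.finrank_orthogonal h.nondeg (sumMap b x₀).range
  have h5 := Submodule.finrank_mono h.plane_le
  have h6 := (sumMap b x₀).range.finrank_le
  have h7 := h.dim
  refine ⟨by omega, Submodule.eq_of_le_of_finrank_eq h.plane_le (by omega)⟩

theorem TripleHyp.sum_finrank (h : TripleHyp B b U x₀) :
    ∑ i, finrank ℝ (fderiv ℝ (b i) x₀).toLinearMap.range = finrank ℝ X :=
  h.finrank_aux.1

/-- A vector which is orthogonal to the ranges of the derivatives and to the plane lies in the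
plane. -/
theorem TripleHyp.mem_plane (h : TripleHyp B b U x₀) {w : V}
    (h1 : ∀ i v, B (fderiv ℝ (b i) x₀ v) w = 0) (h2 : ∀ i j, B (b i x₀ - b j x₀) w = 0) :
    ∃ α β : ℝ, w = α • (b 1 x₀ - b 2 x₀) + β • (b 2 x₀ - b 0 x₀) := by
  have := mem_orthogonal_aux h1 h2
  rw [← h.finrank_aux.2, plane, Submodule.mem_span_pair] at this
  obtain ⟨α, β, hw⟩ := this
  exact ⟨α, β, hw.symm⟩

/-- The orthogonal decomposition of `b i x - b i x₀`. -/
theorem TripleHyp.exists_w (h : TripleHyp B b U x₀) (i : Fin 3) (x : X) :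
    ∃ w : V, ∃ v : X, b i x - b i x₀ = fderiv ℝ (b i) x₀ v + w ∧
      ∀ u, B (fderiv ℝ (b i) x₀ u) w = 0 := by
  set S : Submodule ℝ V := (fderiv ℝ (b i) x₀).toLinearMap.range with hS
  have hrefl : B.IsRefl := h.symm.isRefl
  have hd : Disjoint S (LinearMap.BilinForm.orthogonal B S) := by
    rw [Submodule.disjoint_def]
    rintro y ⟨v, hv⟩ hy
    have hv' : fderiv ℝ (b i) x₀ v = y := hv
    by_contra hne
    have h1 := h.pos i v (by rw [hv']; exact hne)
    rw [LinearMap.BilinForm.mem_orthogonal_iff] at hy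
    have h2 : B y y = 0 := hy y ⟨v, hv⟩
    rw [hv'] at h1
    linarith
  have hc := (LinearMap.BilinForm.isCompl_orthogonal_iff_disjoint hrefl).2 hd
  have hm : b i x - b i x₀ ∈ S ⊔ LinearMap.BilinForm.orthogonal B S := by
    rw [hc.sup_eq_top]; trivial
  obtain ⟨y, ⟨v, hv⟩, w, hw, hyw⟩ := Submodule.mem_sup.1 hm
  have hv' : fderiv ℝ (b i) x₀ v = y := hv
  refine ⟨w, v, by rw [hv', hyw], fun u => ?_⟩
  rw [LinearMap.BilinForm.mem_orthogonal_iff] at hw
  exact hw _ ⟨u, rfl⟩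

/-- Identities for the increments. -/
theorem TripleHyp.incr_sq (h : TripleHyp B b U x₀) {i j : Fin 3} (hij : i ≠ j) {x : X}
    (hx : x ∈ U) : B (b i x - b i x₀) (b i x - b i x₀)
      + 2 * B (b i x₀ - b j x₀) (b i x - b i x₀) = 0 := by
  have h1 := h.null i j hij x hx x₀ h.mem
  have h2 := h.null i j hij x₀ h.mem x₀ h.mem
  have e : b i x - b j x₀ = (b i x₀ - b j x₀) + (b i x - b i x₀) := by abel
  rw [e] at h1
  simp only [map_add, LinearMap.add_apply, h2] at h1
  rw [h.comm (b i x - b i x₀) (b i x₀ - b j x₀)] at h1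
  linarith

theorem TripleHyp.incr_orth (h : TripleHyp B b U x₀) {i j : Fin 3} (hij : i ≠ j) {x y : X}
    (hx : x ∈ U) (hy : y ∈ U) : B (b i x - b i x₀) (b j y - b j x₀) = 0 := by
  have h1 := h.incr_sq hij hx
  have h2 := h.incr_sq hij.symm hy
  have h3 := h.null i j hij x hx y hy
  have h4 := h.null i j hij x₀ h.mem x₀ h.mem
  have e : b i x - b j y = (b i x₀ - b j x₀) + (b i x - b i x₀) - (b j y - b j x₀) := by abel
  have e2 : b j x₀ - b i x₀ = - (b i x₀ - b j x₀) := by abel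
  rw [e] at h3
  rw [e2] at h2
  simp only [map_add, map_sub, map_neg, LinearMap.neg_apply, LinearMap.add_apply,
    LinearMap.sub_apply] at h1 h2 h3 h4 ⊢
  simp only [h.comm (b i x) (b i x₀), h.comm (b i x) (b j x₀), h.comm (b j y) (b i x₀),
    h.comm (b j y) (b j x₀), h.comm (b j y) (b i x), h.comm (b j x₀) (b i x₀)] at h1 h2 h3 h4 ⊢
  linarith

theorem TripleHyp.incr_d (h : TripleHyp B b U x₀) {i j : Fin 3} (hij : i ≠ j) (v : X) {y : X}
    (hy : y ∈ U) : B (fderiv ℝ (b i) x₀ v) (b j y - b j x₀) = 0 := by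
  have h1 := h.orth_star hij v hy
  have h2 := h.orth_star hij v h.mem
  simp only [map_sub] at h1 h2 ⊢
  linarith

/-- All the facts on the orthogonal part of an increment. -/
theorem TripleHyp.exists_w' (h : TripleHyp B b U x₀) (i : Fin 3) {x : X} (hx : x ∈ U) :
    ∃ w : V, ∃ v : X, b i x - b i x₀ = fderiv ℝ (b i) x₀ v + w ∧
      (∀ j u, B (fderiv ℝ (b j) x₀ u) w = 0) ∧
      (∀ j l, j ≠ i → l ≠ i → B (b j x₀ - b l x₀) w = 0) ∧
      (∀ j, j ≠ i → B (fderiv ℝ (b i) x₀ v) (fderiv ℝ (b i) x₀ v) + B w w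
        + 2 * B (b i x₀ - b j x₀) w = 0) ∧
      (∀ j, j ≠ i → ∀ y ∈ U, B w (b j y - b j x₀) = 0) := by
  obtain ⟨w, v, hv, hw⟩ := h.exists_w i x
  have hw' : w = (b i x - b i x₀) - fderiv ℝ (b i) x₀ v := by rw [hv]; abel
  refine ⟨w, v, hv, ?_, ?_, ?_, ?_⟩
  · intro j u
    by_cases hij : j = i
    · subst hij; exact hw u
    · rw [hw', map_sub, h.incr_d hij u hx, h.orth_dd hij, sub_zero]
  · intro j l hj hl
    have h1 := h.incr_sq (Ne.symm hj) hx
    have h2 := h.incr_sq (Ne.symm hl) hx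
    rw [hw', map_sub, h.comm _ (fderiv ℝ (b i) x₀ v), h.orth_db, sub_zero]
    simp only [map_sub, LinearMap.sub_apply] at h1 h2 ⊢
    linarith
  · intro j hj
    have h1 := h.incr_sq (Ne.symm hj) hx
    rw [hv] at h1
    simp only [map_add, LinearMap.add_apply] at h1
    rw [hw v, h.comm w, hw v, h.comm (b i x₀ - b j x₀) (fderiv ℝ (b i) x₀ v), h.orth_db] at h1
    linarith
  · intro j hj y hy
    rw [hw', LinearMap.map_sub₂, h.incr_orth (Ne.symm hj) hx hy,
      h.incr_d (Ne.symm hj) v hy, sub_zero]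

/-- The pairings of the orthogonal part of an increment with the plane are not all zero. -/
theorem TripleHyp.exists_normal_aux (h : TripleHyp B b U x₀) (i : Fin 3) :
    ∃ n : V, (∀ j u, B n (fderiv ℝ (b j) x₀ u) = 0) ∧
      (∀ j, j ≠ i → B n (b i x₀ - b j x₀) = 1) ∧
      (∀ j, j ≠ i → ∀ y ∈ U, B n (b j y - b j x₀) = 0) ∧
      (∃ x ∈ U, ∃ v : X, ∃ t : ℝ, n = t • (b i x - b i x₀ - fderiv ℝ (b i) x₀ v)) := by
  by_contra hcon
  -- all pairings vanish
  have key : ∀ x ∈ U, ∀ w : V, ∀ v : X, b i x - b i x₀ = fderiv ℝ (b i) x₀ v + w →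
      (∀ j u, B (fderiv ℝ (b j) x₀ u) w = 0) →
      (∀ j l, j ≠ i → l ≠ i → B (b j x₀ - b l x₀) w = 0) →
      (∀ j, j ≠ i → ∀ y ∈ U, B w (b j y - b j x₀) = 0) →
      ∀ j, j ≠ i → B (b i x₀ - b j x₀) w = 0 := by
    intro x hx w v h1 h2 h3 h4 j hj
    by_contra hne
    refine hcon ⟨(B (b i x₀ - b j x₀) w)⁻¹ • w, ?_, ?_, ?_, x, hx, v, _,
      by rw [h1, add_sub_cancel_left]⟩
    · intro l u
      rw [LinearMap.map_smul₂, h.comm w, h2, smul_zero]
    · intro l hl
      have h5 := h3 j l hj hl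
      have h6 : B w (b i x₀ - b l x₀) = B (b i x₀ - b j x₀) w := by
        rw [h.comm w]
        simp only [map_sub, LinearMap.sub_apply] at h5 ⊢
        linarith
      rw [LinearMap.map_smul₂, h6, smul_eq_mul, inv_mul_cancel₀ hne]
    · intro l hl y hy
      rw [LinearMap.map_smul₂, h4 l hl y hy, smul_zero]
  -- so all increments lie in the plane
  have hpl : ∀ x ∈ U, ∀ u, B (fderiv ℝ (b i) x₀ u) (b i x - b i x₀) = 0 := by
    intro x hx u
    obtain ⟨w, v, h1, h2, h3, h4, h5⟩ := h.exists_w' i hx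
    have h6 := key x hx w v h1 h2 h3 h5
    have h7 : ∀ j l, B (b j x₀ - b l x₀) w = 0 := by
      have h8 : ∀ j, B (b i x₀ - b j x₀) w = 0 := by
        intro j
        by_cases hj : j = i
        · subst hj; simp
        · exact h6 j hj
      intro j l
      have h9 := h8 j
      have h10 := h8 l
      simp only [map_sub, LinearMap.sub_apply] at h9 h10 ⊢
      linarith
    obtain ⟨α, β, hαβ⟩ := h.mem_plane h2 h7
    have h11 : B w w = 0 := by
      have h0 : B w w = B (α • (b 1 x₀ - b 2 x₀) + β • (b 2 x₀ - b 0 x₀)) w :=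
        congrArg (fun z => B z w) hαβ
      rw [h0, LinearMap.map_add₂, LinearMap.map_smul₂, LinearMap.map_smul₂, h7, h7]
      simp
    obtain ⟨j, hj⟩ : ∃ j : Fin 3, j ≠ i := exists_ne i
    have h12 := h4 j hj
    rw [h11, h6 j hj] at h12
    have h13 : fderiv ℝ (b i) x₀ v = 0 := by
      by_contra hne
      have := h.pos i v hne
      linarith
    rw [h1, h13, zero_add]
    exact h2 i u
  apply h.ne i
  ext u
  by_contra hne
  have h1 := h.pos i u hne
  have h2 := h.deriv_const i (fderiv ℝ (b i) x₀ u) (c := B (fderiv ℝ (b i) x₀ u) (b i x₀))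
    (fun y hy => by
      have := hpl y hy u
      rw [map_sub] at this
      linarith) u
  linarith

/-- **Module T'a.** The normal vectors of the direction spaces. -/
theorem TripleHyp.exists_normal (h : TripleHyp B b U x₀) : ∃ n : Fin 3 → V,
    (∀ i j v, B (n i) (fderiv ℝ (b j) x₀ v) = 0) ∧
    (∀ i j, i ≠ j → B (n i) (n j) = 0) ∧
    (∀ i j, j ≠ i → B (n i) (b i x₀ - b j x₀) = 1) ∧
    (∀ i, ∀ x ∈ U, ∃ v, ∃ y : ℝ, b i x - b i x₀ = fderiv ℝ (b i) x₀ v + y • n i) ∧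
    n 2 = B (n 1) (n 1) • (b 1 x₀ - b 2 x₀) - B (n 0) (n 0) • (b 2 x₀ - b 0 x₀) - n 0 - n 1 := by
  choose n hn1 hn2 hn3 hn5 using fun i => h.exists_normal_aux i
  -- the pairing of `n i` with a difference not involving `i`
  have hn4 : ∀ i j l, j ≠ i → l ≠ i → B (n i) (b j x₀ - b l x₀) = 0 := by
    intro i j l hj hl
    have h1 := hn2 i j hj
    have h2 := hn2 i l hl
    simp only [map_sub] at h1 h2 ⊢
    linarith
  have hn6 : ∀ i j, i ≠ j → B (n i) (n j) = 0 := by
    intro i j hij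
    obtain ⟨x, hx, v, t, ht⟩ := hn5 j
    rw [ht, map_smul, map_sub, hn3 i j hij.symm x hx, hn1]
    simp
  have p00 : B (n 0) (b 1 x₀ - b 2 x₀) = 0 := hn4 0 1 2 (by decide) (by decide)
  have p01 : B (n 0) (b 2 x₀ - b 0 x₀) = -1 := by
    rw [← neg_sub, map_neg, hn2 0 2 (by decide)]
  have p10 : B (n 1) (b 1 x₀ - b 2 x₀) = 1 := hn2 1 2 (by decide)
  have p11 : B (n 1) (b 2 x₀ - b 0 x₀) = 0 := hn4 1 2 0 (by decide) (by decide)
  have p20 : B (n 2) (b 1 x₀ - b 2 x₀) = -1 := by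
    rw [← neg_sub, map_neg, hn2 2 1 (by decide)]
  have p21 : B (n 2) (b 2 x₀ - b 0 x₀) = 1 := hn2 2 0 (by decide)
  refine ⟨n, hn1, hn6, hn2, ?_, ?_⟩
  · intro i x hx
    obtain ⟨w, v, h1, h2, h3, h4, h5⟩ := h.exists_w' i hx
    obtain ⟨l, hl⟩ : ∃ l : Fin 3, l ≠ i := exists_ne i
    refine ⟨v, B (b i x₀ - b l x₀) w, ?_⟩
    rw [h1]
    congr 1
    set t := B (b i x₀ - b l x₀) w with ht
    have hi : ∀ j, B (b i x₀ - b j x₀) (w - t • n i) = 0 := by
      intro j
      by_cases hj : j = i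
      · subst hj; simp
      · rw [map_sub, map_smul, h.comm _ (n i), hn2 i j hj, ht]
        have h6 := h3 j l hj hl
        simp only [map_sub, LinearMap.sub_apply, smul_eq_mul, mul_one] at h6 ⊢
        linarith
    have hp : ∀ j l, B (b j x₀ - b l x₀) (w - t • n i) = 0 := by
      intro j l
      have h9 := hi j
      have h10 := hi l
      simp only [LinearMap.map_sub₂] at h9 h10 ⊢
      linarith
    have hd : ∀ j u, B (fderiv ℝ (b j) x₀ u) (w - t • n i) = 0 := by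
      intro j u
      rw [map_sub, map_smul, h2, h.comm _ (n i), hn1]
      simp
    obtain ⟨α, β, hαβ⟩ := h.mem_plane hd hp
    have hnj : ∀ j, j ≠ i → B (n j) (w - t • n i) = 0 := by
      intro j hj
      have hw : w = (b i x - b i x₀) - fderiv ℝ (b i) x₀ v := by rw [h1]; abel
      rw [map_sub, map_smul, hn6 j i hj, hw, map_sub, hn3 j i (Ne.symm hj) x hx, hn1]
      simp
    rw [hαβ] at hnj
    have hzero : α = 0 ∧ β = 0 := by
      simp only [map_add, map_smul, smul_eq_mul] at hnj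
      fin_cases i
      · have a1 := hnj 1 (by decide)
        have a2 := hnj 2 (by decide)
        rw [p10, p11] at a1
        rw [p20, p21] at a2
        constructor <;> linarith
      · have a1 := hnj 0 (by decide)
        have a2 := hnj 2 (by decide)
        rw [p00, p01] at a1
        rw [p20, p21] at a2
        constructor <;> linarith
      · have a1 := hnj 0 (by decide)
        have a2 := hnj 1 (by decide)
        rw [p00, p01] at a1
        rw [p10, p11] at a2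
        constructor <;> linarith
    rw [hzero.1, hzero.2, zero_smul, zero_smul, add_zero, sub_eq_zero] at hαβ
    exact hαβ
  · set μ0 := B (n 0) (n 0) with hμ0
    set μ1 := B (n 1) (n 1) with hμ1
    have hd : ∀ j u, B (fderiv ℝ (b j) x₀ u)
        (n 2 - μ1 • (b 1 x₀ - b 2 x₀) + μ0 • (b 2 x₀ - b 0 x₀) + n 0 + n 1) = 0 := by
      intro j u
      simp only [map_add, map_sub (B (fderiv ℝ (b j) x₀ u)) _ (μ1 • _), map_smul, h.orth_db,
        h.comm _ (n _), hn1]
      simp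
    have hp1 : B (b 1 x₀ - b 2 x₀)
        (n 2 - μ1 • (b 1 x₀ - b 2 x₀) + μ0 • (b 2 x₀ - b 0 x₀) + n 0 + n 1) = 0 := by
      rw [map_add, map_add, map_add, map_sub _ (n 2), map_smul, map_smul, h.orth_bb, h.orth_bb,
        h.comm _ (n 0), h.comm _ (n 1), h.comm _ (n 2), p00, p10, p20]
      simp
    have hp2 : B (b 2 x₀ - b 0 x₀)
        (n 2 - μ1 • (b 1 x₀ - b 2 x₀) + μ0 • (b 2 x₀ - b 0 x₀) + n 0 + n 1) = 0 := by
      rw [map_add, map_add, map_add, map_sub _ (n 2), map_smul, map_smul, h.orth_bb, h.orth_bb,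
        h.comm _ (n 0), h.comm _ (n 1), h.comm _ (n 2), p01, p11, p21]
      simp
    have hp : ∀ j l, B (b j x₀ - b l x₀)
        (n 2 - μ1 • (b 1 x₀ - b 2 x₀) + μ0 • (b 2 x₀ - b 0 x₀) + n 0 + n 1) = 0 := by
      intro j l
      generalize (n 2 - μ1 • (b 1 x₀ - b 2 x₀) + μ0 • (b 2 x₀ - b 0 x₀) + n 0 + n 1) = z
        at hp1 hp2
      simp only [LinearMap.map_sub₂] at hp1 hp2 ⊢
      fin_cases j <;> fin_cases l <;>
        simp only [Fin.zero_eta, Fin.mk_one, Fin.reduceFinMk] <;> linarith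
    obtain ⟨α, β, hαβ⟩ := h.mem_plane hd hp
    have q0 : B (n 0) (n 2 - μ1 • (b 1 x₀ - b 2 x₀) + μ0 • (b 2 x₀ - b 0 x₀) + n 0 + n 1)
        = 0 := by
      rw [map_add, map_add, map_add, map_sub _ (n 2), map_smul, map_smul, p00, p01,
        hn6 0 2 (by decide), hn6 0 1 (by decide), ← hμ0]
      simp
    have q1 : B (n 1) (n 2 - μ1 • (b 1 x₀ - b 2 x₀) + μ0 • (b 2 x₀ - b 0 x₀) + n 0 + n 1)
        = 0 := by
      rw [map_add, map_add, map_add, map_sub _ (n 2), map_smul, map_smul, p10, p11,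
        hn6 1 2 (by decide), hn6 1 0 (by decide), ← hμ1]
      simp
    rw [hαβ, map_add, map_smul, map_smul, p00, p01] at q0
    rw [hαβ, map_add, map_smul, map_smul, p10, p11] at q1
    simp only [smul_eq_mul, mul_zero, mul_neg, mul_one, zero_add, add_zero, neg_eq_zero]
      at q0 q1
    rw [q0, q1, zero_smul, zero_smul, add_zero] at hαβ
    have : n 2 = (n 2 - μ1 • (b 1 x₀ - b 2 x₀) + μ0 • (b 2 x₀ - b 0 x₀) + n 0 + n 1)
        + (μ1 • (b 1 x₀ - b 2 x₀) - μ0 • (b 2 x₀ - b 0 x₀) - n 0 - n 1) := by abel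
    rw [this, hαβ, zero_add]


end

end DupinClass

end S_TripleA

section S_LocDiff

open scoped RealInnerProductSpace ContDiff Topology
open Module Set

namespace DupinClass

section

variable {X Y : Type} [NormedAddCommGroup X] [NormedSpace ℝ X] [FiniteDimensional ℝ X]
  [NormedAddCommGroup Y] [NormedSpace ℝ Y] [FiniteDimensional ℝ Y]

/-- A smooth map whose derivative at a point is bijective is a diffeomorphism between arbitrarily
small neighbourhoods. -/
theorem exists_diffeo {φ : X → Y} {U : Set X} (hU : IsOpen U) (hφ : ContDiffOn ℝ ∞ φ U) {x₀ : X}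
    (hx₀ : x₀ ∈ U) (hinj : ∀ v, fderiv ℝ φ x₀ v = 0 → v = 0) (hdim : finrank ℝ X = finrank ℝ Y)
    {P : Set X} (hP : P ∈ 𝓝 x₀) {Q : Set Y} (hQ : Q ∈ 𝓝 (φ x₀)) :
    ∃ ψ N N', Diffeo φ ψ N N' ∧ x₀ ∈ N ∧ N ⊆ U ∧ N ⊆ P ∧ N' ⊆ Q := by
  have hca : ContDiffAt ℝ ∞ φ x₀ := hφ.contDiffAt (hU.mem_nhds hx₀)
  have hinj' : Function.Injective (fderiv ℝ φ x₀).toLinearMap := by
    rw [← LinearMap.ker_eq_bot]
    exact LinearMap.ker_eq_bot'.2 hinj
  set f' : X ≃L[ℝ] Y :=
    (LinearEquiv.ofInjectiveOfFinrankEq (fderiv ℝ φ x₀).toLinearMap hinj' hdim).toContinuousLinearEquiv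
    with hf'
  have hff : (f' : X →L[ℝ] Y) = fderiv ℝ φ x₀ := by
    ext v; rfl
  have hd : HasFDerivAt φ (f' : X →L[ℝ] Y) x₀ := by
    rw [hff]
    exact (hca.differentiableAt (by simp)).hasFDerivAt
  set E := hca.toOpenPartialHomeomorph φ hd (by simp) with hE
  have hEc : (E : X → Y) = φ := hca.toOpenPartialHomeomorph_coe hd (by simp)
  have hxs : x₀ ∈ E.source := hca.mem_toOpenPartialHomeomorph_source hd (by simp)
  set W : Set X := U ∩ fderiv ℝ φ ⁻¹' (Set.range ((↑) : (X ≃L[ℝ] Y) → (X →L[ℝ] Y))) with hW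
  have hWo : IsOpen W :=
    (hφ.continuousOn_fderiv_of_isOpen hU (by simp)).isOpen_inter_preimage hU
      ContinuousLinearEquiv.isOpen
  have hQo : IsOpen (E.source ∩ φ ⁻¹' (interior Q)) := by
    rw [← hEc]
    exact E.isOpen_inter_preimage isOpen_interior
  set S : Set X := W ∩ (interior P ∩ (E.source ∩ φ ⁻¹' (interior Q))) with hS
  have hSo : IsOpen S := hWo.inter (isOpen_interior.inter hQo)
  set E' := E.restrOpen S hSo with hE'
  have hsrc : E'.source = E.source ∩ S := E.restrOpen_source S hSo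
  have hEc' : (E' : X → Y) = φ := hEc
  have hsub : ∀ x ∈ E'.source, x ∈ S := by
    intro x hx; rw [hsrc] at hx; exact hx.2
  refine ⟨E'.symm, E'.source, E'.target, ⟨E'.open_source, E'.open_target, ?_, ?_, ?_, ?_, ?_, ?_⟩,
    ?_, ?_, ?_, ?_⟩
  · intro x hx
    rw [← hEc']
    exact E'.map_source hx
  · intro y hy
    exact E'.map_target hy
  · intro x hx
    have := E'.left_inv hx
    rwa [hEc'] at this
  · intro y hy
    have := E'.right_inv hy
    rwa [hEc'] at this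
  · exact hφ.mono fun x hx => (hsub x hx).1.1
  · intro y hy
    have hx : E'.symm y ∈ S := hsub _ (E'.map_target hy)
    obtain ⟨g, hg⟩ := hx.1.2
    have hcx : ContDiffAt ℝ ∞ φ (E'.symm y) := hφ.contDiffAt (hU.mem_nhds hx.1.1)
    have hdx : HasFDerivAt E' (g : X →L[ℝ] Y) (E'.symm y) := by
      rw [hEc', hg]
      exact (hcx.differentiableAt (by simp)).hasFDerivAt
    refine (E'.contDiffAt_symm hy hdx ?_).contDiffWithinAt
    rw [hEc']
    exact hcx
  · rw [hsrc]
    refine ⟨hxs, ⟨hx₀, ?_⟩, mem_interior_iff_mem_nhds.2 hP, hxs, ?_⟩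
    · exact ⟨f', hff⟩
    · exact mem_interior_iff_mem_nhds.2 hQ
  · intro x hx; exact (hsub x hx).1.1
  · intro x hx; exact interior_subset (hsub x hx).2.1
  · intro y hy
    have hx : E'.symm y ∈ S := hsub _ (E'.map_target hy)
    have h1 := E'.right_inv hy
    rw [hEc'] at h1
    rw [← h1]
    exact interior_subset hx.2.2.2

end

section

variable {S : Type} [AddCommGroup S] [Module ℝ S] [FiniteDimensional ℝ S]

/-- A positive definite form is Euclidean. -/
theorem exists_isometry (B : LinearMap.BilinForm ℝ S) (hs : ∀ v w, B v w = B w v)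
    (hp : ∀ v, v ≠ 0 → 0 < B v v) {m : ℕ} (hm : finrank ℝ S = m) :
    ∃ e : EuclideanSpace ℝ (Fin m) ≃ₗ[ℝ] S, ∀ s t, B (e s) (e t) = ⟪s, t⟫ := by
  letI core : InnerProductSpace.Core ℝ S :=
    { inner := fun v w => B v w
      conj_inner_symm := fun v w => by simp [hs v w]
      re_inner_nonneg := fun v => by
        by_cases hv : v = 0
        · subst hv; simp
        · simpa using (hp v hv).le
      add_left := fun u v w => by simp
      smul_left := fun u v r => by simp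
      definite := fun v hv => by
        by_contra h
        exact (hp v h).ne' hv }
  letI : NormedAddCommGroup S := core.toNormedAddCommGroup
  letI : InnerProductSpace ℝ S := InnerProductSpace.ofCore core.toCore
  let b := (stdOrthonormalBasis ℝ S).reindex (finCongr hm)
  refine ⟨b.repr.symm.toLinearEquiv, fun s t => ?_⟩
  have : ⟪b.repr.symm s, b.repr.symm t⟫ = ⟪s, t⟫ := b.repr.symm.inner_map_map s t
  exact this

end

end DupinClass

end S_LocDiff

section S_TripleB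

open scoped RealInnerProductSpace ContDiff Topology
open Module Set

namespace DupinClass

section

variable {X V : Type} [NormedAddCommGroup X] [NormedSpace ℝ X] [FiniteDimensional ℝ X]
  [NormedAddCommGroup V] [NormedSpace ℝ V] [FiniteDimensional ℝ V]
  {B : LinearMap.BilinForm ℝ V} {b : Fin 3 → X → V} {U : Set X} {x₀ : X}

/-- `n` is the normal vector with the number `i` of the triple. -/
def IsNormal (B : LinearMap.BilinForm ℝ V) (b : Fin 3 → X → V) (x₀ : X) (i : Fin 3) (n : V) :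
    Prop :=
  (∀ v, B n (fderiv ℝ (b i) x₀ v) = 0) ∧ (∀ j, j ≠ i → B n (b i x₀ - b j x₀) = 1) ∧
    ∀ᶠ x in 𝓝 x₀, ∃ v, ∃ y : ℝ, b i x - b i x₀ = fderiv ℝ (b i) x₀ v + y • n

/-- The linear map from the model. -/
noncomputable def tbPhi {m : Fin 3 → ℕ} (e : ∀ i, EuclideanSpace ℝ (Fin (m i)) →ₗ[ℝ] V)
    (k₀ k₁ n₀ n₁ : V) : MV m →ₗ[ℝ] V where
  toFun v := ∑ i, e i (v.1 i) + v.2.1 • k₀ + v.2.2.1 • k₁ + v.2.2.2.1 • n₀ + v.2.2.2.2 • n₁
  map_add' := by
    intro v w
    simp only [Prod.fst_add, Prod.snd_add, Pi.add_apply, map_add, Finset.sum_add_distrib, add_smul]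
    abel
  map_smul' := by
    intro c v
    simp only [Prod.smul_fst, Prod.smul_snd, Pi.smul_apply, map_smul, smul_eq_mul, mul_smul,
      RingHom.id_apply, smul_add, Finset.smul_sum]

omit [FiniteDimensional ℝ V] in
theorem tbPhi_form {m : Fin 3 → ℕ} {e : ∀ i, EuclideanSpace ℝ (Fin (m i)) →ₗ[ℝ] V}
    {k₀ k₁ n₀ n₁ : V} {μ : Fin 3 → ℝ} (hB : ∀ v w, B v w = B w v)
    (h1 : ∀ i s t, B (e i s) (e i t) = ⟪s, t⟫) (h2 : ∀ i j, i ≠ j → ∀ s t, B (e i s) (e j t) = 0)
    (h3 : ∀ i s, B (e i s) k₀ = 0) (h4 : ∀ i s, B (e i s) k₁ = 0)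
    (h5 : ∀ i s, B (e i s) n₀ = 0) (h6 : ∀ i s, B (e i s) n₁ = 0)
    (a1 : B k₀ k₀ = 0) (a2 : B k₀ k₁ = 0) (a3 : B k₁ k₁ = 0) (a4 : B n₀ k₀ = 0)
    (a5 : B n₀ k₁ = -1) (a6 : B n₁ k₀ = 1) (a7 : B n₁ k₁ = 0) (a8 : B n₀ n₁ = 0)
    (a9 : B n₀ n₀ = μ 0) (a10 : B n₁ n₁ = μ 1) (v w : MV m) :
    B (tbPhi e k₀ k₁ n₀ n₁ v) (tbPhi e k₀ k₁ n₀ n₁ w) = mForm m μ v w := by
  have hEE : B (∑ i, e i (v.1 i)) (∑ i, e i (w.1 i)) = ∑ i, ⟪v.1 i, w.1 i⟫ := by
    simp only [map_sum, LinearMap.sum_apply]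
    refine Finset.sum_congr rfl fun i _ => ?_
    rw [Finset.sum_eq_single i]
    · exact h1 i _ _
    · intro j _ hj
      exact h2 j i hj _ _
    · intro hi; exact absurd (Finset.mem_univ i) hi
  have hz : ∀ (u : MV m) (z : V), (∀ i s, B (e i s) z = 0) → B (∑ i, e i (u.1 i)) z = 0 := by
    intro u z hz
    simp only [map_sum, LinearMap.sum_apply]
    exact Finset.sum_eq_zero fun i _ => hz i _
  have hz' : ∀ (u : MV m) (z : V), (∀ i s, B (e i s) z = 0) → B z (∑ i, e i (u.1 i)) = 0 := by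
    intro u z h
    rw [hB]; exact hz u z h
  have b4 : B k₀ n₀ = 0 := by rw [hB]; exact a4
  have b5 : B k₁ n₀ = -1 := by rw [hB]; exact a5
  have b6 : B k₀ n₁ = 1 := by rw [hB]; exact a6
  have b7 : B k₁ n₁ = 0 := by rw [hB]; exact a7
  have b8 : B n₁ n₀ = 0 := by rw [hB]; exact a8
  have b2 : B k₁ k₀ = 0 := by rw [hB]; exact a2
  show B (∑ i, e i (v.1 i) + v.2.1 • k₀ + v.2.2.1 • k₁ + v.2.2.2.1 • n₀ + v.2.2.2.2 • n₁)
    (∑ i, e i (w.1 i) + w.2.1 • k₀ + w.2.2.1 • k₁ + w.2.2.2.1 • n₀ + w.2.2.2.2 • n₁) =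
    ∑ i, ⟪v.1 i, w.1 i⟫
      + (v.2.2.2.2 * w.2.1 + v.2.1 * w.2.2.2.2) - (v.2.2.2.1 * w.2.2.1 + v.2.2.1 * w.2.2.2.1)
      + μ 0 * v.2.2.2.1 * w.2.2.2.1 + μ 1 * v.2.2.2.2 * w.2.2.2.2
  simp only [map_add, map_smul, LinearMap.add_apply, LinearMap.smul_apply, smul_eq_mul, hEE,
    hz v k₀ h3, hz v k₁ h4, hz v n₀ h5, hz v n₁ h6, hz' w k₀ h3, hz' w k₁ h4, hz' w n₀ h5,
    hz' w n₁ h6, a1, a2, a3, a4, a5, a6, a7, a8, a9, a10, b2, b4, b5, b6, b7, b8]
  ring

theorem mForm_left {m : Fin 3 → ℕ} {μ : Fin 3 → ℝ} {v : MV m} (h : ∀ w, mForm m μ v w = 0) :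
    v = 0 := by
  obtain ⟨s, c0, c1, d0, d1⟩ := v
  have e : ∀ w : MV m, ∑ i, ⟪s i, w.1 i⟫
      + (d1 * w.2.1 + c0 * w.2.2.2.2) - (d0 * w.2.2.1 + c1 * w.2.2.2.1)
      + μ 0 * d0 * w.2.2.2.1 + μ 1 * d1 * w.2.2.2.2 = 0 := h
  have h1 := e (s, 0)
  have h2 := e (0, 1, 0, 0, 0)
  have h3 := e (0, 0, 1, 0, 0)
  have h4 := e (0, 0, 0, 1, 0)
  have h5 := e (0, 0, 0, 0, 1)
  simp only [Pi.zero_apply, inner_zero_right, Finset.sum_const_zero, Prod.fst_zero, Prod.snd_zero,
    mul_zero, mul_one, add_zero, zero_add, sub_zero, zero_sub] at h1 h2 h3 h4 h5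
  have h3' : d0 = 0 := by linarith
  subst h2
  subst h3'
  have h6 : c1 = 0 := by linarith
  have h7 : c0 = 0 := by linarith
  subst h6
  subst h7
  have h8 : s = 0 := by
    rw [Finset.sum_eq_zero_iff_of_nonneg (fun i _ => real_inner_self_nonneg)] at h1
    funext i
    exact inner_self_eq_zero.1 (h1 i (Finset.mem_univ i))
  rw [h8]; rfl

theorem root_eq {μ y t : ℝ} (h : μ * y ^ 2 + 2 * y + t = 0) (hy : 0 < 1 + μ * y) :
    y = yfun μ t ∧ μ * t < 1 := by
  have h1 : (1 + μ * y) ^ 2 = 1 - μ * t := by linear_combination μ * h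
  have h2 : √(1 - μ * t) = 1 + μ * y := by
    rw [← h1, Real.sqrt_sq hy.le]
  refine ⟨?_, ?_⟩
  · unfold yfun
    rw [h2, eq_div_iff (by linarith)]
    linarith
  · have : 0 < (1 + μ * y) ^ 2 := by positivity
    linarith

/-- **Module T'.** A null triple is equivalent to the canonical one. -/
theorem TripleHyp.confEq (h : TripleHyp B b U x₀) {m : Fin 3 → ℕ}
    (hm : ∀ i, finrank ℝ (fderiv ℝ (b i) x₀).toLinearMap.range = m i) :
    ∃ μ : Fin 3 → ℝ, μ 0 + μ 1 + μ 2 = 0 ∧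
      ConfEqAt B (triFam b) U x₀ (mForm m μ) (mFam m μ) (mU m μ) 0 ∧
      ∀ i n, IsNormal B b x₀ i n → μ i = B n n := by
  classical
  obtain ⟨n, N1, N2, N3, N4, N5⟩ := h.exists_normal
  have hB : ∀ v w, B v w = B w v := fun v w => h.symm.eq v w
  -- isometries
  have he : ∀ i, ∃ e : EuclideanSpace ℝ (Fin (m i)) →ₗ[ℝ] V, (∀ s t, B (e s) (e t) = ⟪s, t⟫) ∧
      (∀ s, ∃ v, e s = fderiv ℝ (b i) x₀ v) ∧ (∀ v, ∃ s, e s = fderiv ℝ (b i) x₀ v) := by
    intro i
    set S := (fderiv ℝ (b i) x₀).toLinearMap.range with hS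
    obtain ⟨e, he⟩ := exists_isometry (S := S) (B.restrict S)
      (fun v w => hB v.1 w.1) (fun v hv => by
        obtain ⟨w, hw⟩ := v.2
        have h1 : fderiv ℝ (b i) x₀ w ≠ 0 := by
          intro h0
          apply hv
          apply Subtype.ext
          rw [← hw]
          exact h0
        have h2 := h.pos i w h1
        show 0 < B v.1 v.1
        rw [← hw]
        exact h2) (hm i)
    refine ⟨S.subtype ∘ₗ e.toLinearMap, fun s t => he s t, fun s => ?_, fun v => ?_⟩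
    · obtain ⟨w, hw⟩ := (e s).2
      exact ⟨w, hw.symm⟩
    · refine ⟨e.symm ⟨fderiv ℝ (b i) x₀ v, ⟨v, rfl⟩⟩, ?_⟩
      simp
  choose e he1 he2 he3 using he
  set k₀ := b 1 x₀ - b 2 x₀ with hk₀
  set k₁ := b 2 x₀ - b 0 x₀ with hk₁
  have hek : ∀ i s j l, B (e i s) (b j x₀ - b l x₀) = 0 := by
    intro i s j l
    obtain ⟨v, hv⟩ := he2 i s
    rw [hv]; exact h.orth_db i j l v
  have hen : ∀ i s j, B (e i s) (n j) = 0 := by
    intro i s j
    obtain ⟨v, hv⟩ := he2 i s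
    rw [hv, hB]; exact N1 j i v
  have c0k0 : B (n 0) k₀ = 0 := by
    have e : k₀ = (b 0 x₀ - b 2 x₀) - (b 0 x₀ - b 1 x₀) := by rw [hk₀]; abel
    rw [e, map_sub, N3 0 2 (by decide), N3 0 1 (by decide), sub_self]
  have c0k1 : B (n 0) k₁ = -1 := by
    have e : k₁ = -(b 0 x₀ - b 2 x₀) := by rw [hk₁]; abel
    rw [e, map_neg, N3 0 2 (by decide)]
  have c1k0 : B (n 1) k₀ = 1 := N3 1 2 (by decide)
  have c1k1 : B (n 1) k₁ = 0 := by
    have e : k₁ = (b 1 x₀ - b 0 x₀) - (b 1 x₀ - b 2 x₀) := by rw [hk₁]; abel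
    rw [e, map_sub, N3 1 2 (by decide), N3 1 0 (by decide), sub_self]
  have c2k0 : B (n 2) k₀ = -1 := by
    have e : k₀ = -(b 2 x₀ - b 1 x₀) := by rw [hk₀]; abel
    rw [e, map_neg, N3 2 1 (by decide)]
  have c2k1 : B (n 2) k₁ = 1 := N3 2 0 (by decide)
  set μ : Fin 3 → ℝ := fun i => B (n i) (n i) with hμd
  have hμ : μ 0 + μ 1 + μ 2 = 0 := by
    have e : B (n 2) (n 2) = B (n 2) (B (n 1) (n 1) • k₀ - B (n 0) (n 0) • k₁ - n 0 - n 1) := by
      rw [← N5]
    simp only [map_sub, map_smul, smul_eq_mul, c2k0, c2k1, N2 2 0 (by decide),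
      N2 2 1 (by decide)] at e
    show B (n 0) (n 0) + B (n 1) (n 1) + B (n 2) (n 2) = 0
    rw [e]; ring
  have hEE : ∀ i j, i ≠ j → ∀ s t, B (e i s) (e j t) = 0 := by
    intro i j hij s t
    obtain ⟨v, hv⟩ := he2 i s
    obtain ⟨w, hw⟩ := he2 j t
    rw [hv, hw]; exact h.orth_dd hij v w
  set Φ : MV m →ₗ[ℝ] V := tbPhi e k₀ k₁ (n 0) (n 1) with hΦd
  have hΦ : ∀ v w, B (Φ v) (Φ w) = mForm m μ v w :=
    tbPhi_form hB he1 hEE (fun i s => hek i s 1 2) (fun i s => hek i s 2 0)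
      (fun i s => hen i s 0) (fun i s => hen i s 1) (h.orth_bb 1 2 2 1) (h.orth_bb 1 2 0 2)
      (h.orth_bb 2 0 0 2) c0k0 c0k1 c1k0 c1k1 (N2 0 1 (by decide)) rfl rfl
  have hinj : Function.Injective Φ := by
    rw [← LinearMap.ker_eq_bot, LinearMap.ker_eq_bot']
    intro v hv
    refine mForm_left (μ := μ) fun w => ?_
    rw [← hΦ, hv, map_zero, LinearMap.zero_apply]
  have hdX : finrank ℝ X = m 0 + m 1 + m 2 := by
    rw [← h.sum_finrank, Fin.sum_univ_three, hm, hm, hm]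
  have hdMX : finrank ℝ (MX m) = m 0 + m 1 + m 2 := by
    rw [Module.finrank_pi_fintype]
    simp [Fin.sum_univ_three]
  have hdMV : finrank ℝ (MV m) = finrank ℝ V := by
    rw [h.dim, hdX, Module.finrank_prod, hdMX]
    simp [Module.finrank_prod]
  set LE : MV m ≃ₗ[ℝ] V := LinearEquiv.ofInjectiveOfFinrankEq Φ hinj hdMV with hLE
  have hLEa : ∀ v, LE v = Φ v := fun v => rfl
  set A : V ≃ₗ[ℝ] MV m := LE.symm with hA
  have hAΦ : ∀ v, A (Φ v) = v := by
    intro v
    rw [← hLEa, hA]; exact LE.symm_apply_apply v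
  have hΦA : ∀ v, Φ (A v) = v := by
    intro v
    rw [← hLEa, hA]; exact LE.apply_symm_apply v
  have hAB : ∀ v w, mForm m μ (A v) (A w) = 1 * B v w := by
    intro v w
    rw [← hΦ, hΦA, hΦA, one_mul]
  have hΦe : ∀ v : MV m, Φ v =
      ∑ i, e i (v.1 i) + v.2.1 • k₀ + v.2.2.1 • k₁ + v.2.2.2.1 • n 0 + v.2.2.2.2 • n 1 :=
    fun v => rfl
  have hAe : ∀ i s, A (e i s) = (Pi.single i s, 0) := by
    intro i s
    have : Φ (Pi.single i s, 0) = e i s := by
      rw [hΦe]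
      simp only [Prod.fst_zero, Prod.snd_zero, zero_smul, add_zero]
      rw [Finset.sum_eq_single i]
      · rw [Pi.single_eq_same]
      · intro j _ hj
        rw [Pi.single_eq_of_ne hj, map_zero]
      · intro hi; exact absurd (Finset.mem_univ i) hi
    rw [← this, hAΦ]
  have hAn : ∀ i, A (n i) = mN m μ i := by
    intro i
    have : Φ (mN m μ i) = n i := by
      rw [hΦe]
      fin_cases i
      · simp [mN]
      · simp [mN]
      · have e5 : n 2 = μ 1 • k₀ - μ 0 • k₁ - n 0 - n 1 := N5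
        simp only [mN, Fin.reduceFinMk, Matrix.cons_val, Pi.zero_apply, map_zero,
          Finset.sum_const_zero, zero_add, neg_smul, one_smul]
        rw [e5]; abel
    rw [← this, hAΦ]
  have hmN1 : ∀ i, (mN m μ i).1 = 0 := by
    intro i
    fin_cases i <;> simp [mN]
  have hΦb : ∀ i, Φ (mBase m i) = b i x₀ - b 2 x₀ := by
    intro i
    rw [hΦe]
    fin_cases i
    · simp [mBase, hk₁]
    · simp [mBase, hk₀]
    · simp [mBase]
  have hAb : ∀ i j, A (b i x₀ - b j x₀) = mBase m i - mBase m j := by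
    intro i j
    have : Φ (mBase m i - mBase m j) = b i x₀ - b j x₀ := by
      rw [map_sub, hΦb, hΦb]; abel
    rw [← this, hAΦ]
  -- the map
  set P : ∀ i, V →L[ℝ] EuclideanSpace ℝ (Fin (m i)) := fun i =>
    LinearMap.toContinuousLinearMap ((LinearMap.proj i) ∘ₗ (LinearMap.fst ℝ (MX m) _) ∘ₗ
      A.toLinearMap) with hP
  have hPa : ∀ i v, P i v = (A v).1 i := fun i v => rfl
  set φ : X → MX m := fun x i => P i (b i x - b i x₀) with hφ
  have hφs : ContDiffOn ℝ ∞ φ U :=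
    contDiffOn_pi.2 fun i => (P i).contDiff.comp_contDiffOn ((h.smooth i).sub contDiffOn_const)
  have hφ0 : φ x₀ = 0 := by
    funext i
    show P i (b i x₀ - b i x₀) = 0
    rw [sub_self, map_zero]
  have hbd : ∀ i, HasFDerivAt (b i) (fderiv ℝ (b i) x₀) x₀ := fun i =>
    (((h.smooth i).contDiffAt (h.isOpen_U.mem_nhds h.mem)).differentiableAt (by simp)).hasFDerivAt
  have hφd : ∀ v, (∀ i, P i (fderiv ℝ (b i) x₀ v) = fderiv ℝ φ x₀ v i) := by
    intro v i
    have h1 : HasFDerivAt φ (ContinuousLinearMap.pi fun i => (P i).comp (fderiv ℝ (b i) x₀)) x₀ :=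
      hasFDerivAt_pi.2 fun i => (P i).hasFDerivAt.comp x₀ ((hbd i).sub_const _)
    rw [h1.fderiv]; rfl
  have hφi : ∀ v, fderiv ℝ φ x₀ v = 0 → v = 0 := by
    intro v hv
    refine h.inj v fun i => ?_
    obtain ⟨s, hs⟩ := he3 i v
    have h1 := hφd v i
    rw [hv, ← hs, hPa, hAe] at h1
    simp only [Pi.single_eq_same, Pi.zero_apply] at h1
    rw [← hs, h1, map_zero]
  have key : ∀ i, ∀ x ∈ U, ∃ y : ℝ, b i x - b i x₀ = e i (φ x i) + y • n i := by
    intro i x hx
    obtain ⟨v, y, hvy⟩ := N4 i x hx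
    obtain ⟨s, hs⟩ := he3 i v
    rw [← hs] at hvy
    have : φ x i = s := by
      show P i (b i x - b i x₀) = s
      rw [hvy, hPa, map_add, map_smul, hAe, hAn]
      simp [hmN1]
    exact ⟨y, by rw [this]; exact hvy⟩
  have hne1 : ∀ i : Fin 3, i + 1 ≠ i := by decide
  set Y : Fin 3 → X → ℝ := fun i x => B (b i x - b i x₀) (b i x₀ - b (i + 1) x₀) with hY
  have key2 : ∀ i, ∀ x ∈ U, b i x - b i x₀ = e i (φ x i) + Y i x • n i ∧
      μ i * Y i x ^ 2 + 2 * Y i x + ‖φ x i‖ ^ 2 = 0 := by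
    intro i x hx
    obtain ⟨y, hy⟩ := key i x hx
    have hYy : Y i x = y := by
      show B (b i x - b i x₀) (b i x₀ - b (i + 1) x₀) = y
      rw [hy, map_add, map_smul, LinearMap.add_apply, LinearMap.smul_apply, hek,
        N3 i (i + 1) (hne1 i), smul_eq_mul]
      ring
    rw [hYy]
    refine ⟨hy, ?_⟩
    have h1 := h.null i (i + 1) (hne1 i).symm x hx x₀ h.mem
    have e1 : b i x - b (i + 1) x₀ = (b i x₀ - b (i + 1) x₀) + (e i (φ x i) + y • n i) := by
      rw [← hy]; abel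
    have c1 : B (b i x₀ - b (i + 1) x₀) (b i x₀ - b (i + 1) x₀) = 0 := h.orth_bb i (i + 1) (i + 1) i
    have c2 : B (b i x₀ - b (i + 1) x₀) (e i (φ x i)) = 0 := by rw [hB]; exact hek _ _ _ _
    have c3 : B (b i x₀ - b (i + 1) x₀) (n i) = 1 := by rw [hB]; exact N3 i (i + 1) (hne1 i)
    have c4 : B (n i) (e i (φ x i)) = 0 := by rw [hB]; exact hen _ _ _
    rw [e1] at h1
    simp only [map_add, map_smul, LinearMap.add_apply, LinearMap.smul_apply, smul_eq_mul, c1, c2,
      c3, c4, hek, hen, he1, N3 i (i + 1) (hne1 i), real_inner_self_eq_norm_sq] at h1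
    show B (n i) (n i) * y ^ 2 + 2 * y + ‖φ x i‖ ^ 2 = 0
    linarith
  have hY0 : ∀ i, Y i x₀ = 0 := by
    intro i
    show B (b i x₀ - b i x₀) _ = 0
    rw [sub_self, map_zero, LinearMap.zero_apply]
  have hYc : ∀ i, ContinuousAt (Y i) x₀ := by
    intro i
    have h1 : Continuous (fun v => B v (b i x₀ - b (i + 1) x₀)) :=
      (B.flip (b i x₀ - b (i + 1) x₀)).continuous_of_finiteDimensional
    exact h1.continuousAt.comp ((hbd i).continuousAt.sub continuousAt_const)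
  have hPn : {x : X | ∀ i, 0 < 1 + μ i * Y i x} ∈ 𝓝 x₀ := by
    have h1 : ∀ᶠ x in 𝓝 x₀, ∀ i, 0 < 1 + μ i * Y i x := by
      rw [Filter.eventually_all]
      intro i
      have h2 : ContinuousAt (fun x => 1 + μ i * Y i x) x₀ :=
        continuousAt_const.add (continuousAt_const.mul (hYc i))
      refine h2.eventually_const_lt ?_
      show 0 < 1 + μ i * Y i x₀
      rw [hY0, mul_zero, add_zero]; exact one_pos
    exact h1
  obtain ⟨ψ, N, N', hd, hxN, hNU, hNP, -⟩ := exists_diffeo h.isOpen_U hφs h.mem hφi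
    (by rw [hdX, hdMX]) hPn (Filter.univ_mem (f := 𝓝 (φ x₀)))
  have key3 : ∀ x ∈ N, ∀ i, A (b i x - b i x₀) = mb m μ i (φ x) - mBase m i ∧
      μ i * ‖φ x i‖ ^ 2 < 1 := by
    intro x hx i
    obtain ⟨h1, h2⟩ := key2 i x (hNU hx)
    obtain ⟨h3, h4⟩ := root_eq h2 (hNP hx i)
    refine ⟨?_, h4⟩
    rw [h1, map_add, map_smul, hAe, hAn, h3]
    unfold mb
    abel
  refine ⟨μ, hμ, ⟨A, ⟨1, one_pos, hAB⟩, φ, ψ, N, N', hd, hxN, hNU, ?_, hφ0, ?_⟩, ?_⟩
  · intro y hy i
    have h1 := key3 (ψ y) (hd.maps_right y hy) i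
    rw [hd.right_inv y hy] at h1
    exact h1.2
  · intro x hx
    unfold mFam triFam
    rw [Submodule.map_span, ← Set.range_comp]
    congr 1
    apply congrArg
    funext p
    show A (b p.1 x - b p.2 x) = mb m μ p.1 (φ x) - mb m μ p.2 (φ x)
    have e1 : b p.1 x - b p.2 x = (b p.1 x - b p.1 x₀) + (b p.1 x₀ - b p.2 x₀) -
        (b p.2 x - b p.2 x₀) := by abel
    rw [e1, map_sub, map_add, (key3 x hx p.1).1, (key3 x hx p.2).1, hAb]
    abel
  · rintro i n' ⟨u1, u2, u3⟩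
    have hno : n' = n i := by
      by_contra hcon
      have hev : ∀ᶠ x in 𝓝 x₀, b i x = b i x₀ := by
        filter_upwards [u3, h.isOpen_U.mem_nhds h.mem] with x hx hxU
        obtain ⟨v', t, h1⟩ := hx
        obtain ⟨h2, h3⟩ := key2 i x hxU
        obtain ⟨v, hv⟩ := he2 i (φ x i)
        rw [hv] at h2
        have h4 : fderiv ℝ (b i) x₀ (v - v') = t • n' - Y i x • n i := by
          rw [map_sub]
          have : fderiv ℝ (b i) x₀ v + Y i x • n i = fderiv ℝ (b i) x₀ v' + t • n' := by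
            rw [← h1, ← h2]
          rw [sub_eq_sub_iff_add_eq_add, this]
          abel
        have h5 : fderiv ℝ (b i) x₀ (v - v') = 0 := by
          by_contra h6
          have h7 := h.pos i _ h6
          have h8 : B (fderiv ℝ (b i) x₀ (v - v')) (fderiv ℝ (b i) x₀ (v - v')) = 0 := by
            rw [hB]
            nth_rewrite 2 [h4]
            rw [hB, map_sub, map_smul, map_smul, LinearMap.sub_apply, LinearMap.smul_apply,
              LinearMap.smul_apply, u1, N1, smul_zero, smul_zero, sub_zero]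
          linarith
        rw [h5] at h4
        have h9 : t • n' = Y i x • n i := (sub_eq_zero.1 h4.symm)
        have h10 : t = Y i x := by
          have h11 := congrArg (fun z => B z (b i x₀ - b (i + 1) x₀)) h9
          simp only [map_smul, LinearMap.smul_apply, smul_eq_mul, N3 i (i + 1) (hne1 i),
            u2 (i + 1) (hne1 i), mul_one] at h11
          exact h11
        rw [h10] at h9
        have h12 : Y i x = 0 := by
          by_contra h13
          exact hcon (smul_right_injective V h13 h9)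
        rw [h12] at h3 h2
        have h14 : ‖φ x i‖ ^ 2 = 0 := by linarith
        have h15 : φ x i = 0 := norm_eq_zero.1 (pow_eq_zero_iff (two_ne_zero) |>.1 h14)
        rw [h15, map_zero] at hv
        rw [← hv, zero_smul, add_zero] at h2
        exact sub_eq_zero.1 h2
      have h16 : fderiv ℝ (b i) x₀ = 0 := by
        have h17 : b i =ᶠ[𝓝 x₀] fun _ => b i x₀ := hev
        rw [h17.fderiv_eq]
        simp
      exact h.ne i h16
    rw [hno]

end

end DupinClass

end S_TripleB
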