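import Mathlib
import Pool.Agent.H31.DC.D3
import Pool.Agent.H31.DC.D4

/-! Reducible Dupin hypersurfaces, part D10 (several modules joined to save build time). -/

section S_MF1_pf

open scoped RealInnerProductSpace ContDiff Topology
open Module Set

namespace DupinClass

section

variable {m : Fin 3 → ℕ} {μ : Fin 3 → ℝ}

theorem mForm_apply (v w : MV m) : mForm m μ v w = ∑ i, ⟪v.1 i, w.1 i⟫
      + (v.2.2.2.2 * w.2.1 + v.2.1 * w.2.2.2.2) - (v.2.2.2.1 * w.2.2.1 + v.2.2.1 * w.2.2.2.1)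
      + μ 0 * v.2.2.2.1 * w.2.2.2.1 + μ 1 * v.2.2.2.2 * w.2.2.2.2 := rfl

theorem mForm_isSymm' : (mForm m μ).IsSymm := by
  constructor
  intro v w
  simp only [mForm_apply]
  have h : ∑ i, ⟪v.1 i, w.1 i⟫ = ∑ i, ⟪w.1 i, v.1 i⟫ :=
    Finset.sum_congr rfl fun i _ => real_inner_comm _ _
  rw [h]
  ring

theorem mForm_nondegenerate' : (mForm m μ).Nondegenerate := by
  have key : ∀ v : MV m, (∀ w, mForm m μ v w = 0) → v = 0 := by
    intro v hv
    have h1 : ∀ i, v.1 i = 0 := by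
      intro i
      have := hv (Pi.single i (v.1 i), 0)
      rw [mForm_apply] at this
      simp only [Prod.fst_zero, Prod.snd_zero, mul_zero, add_zero, sub_zero] at this
      rw [Finset.sum_eq_single i] at this
      · simpa using this
      · intro j _ hj
        simp [Pi.single_eq_of_ne hj]
      · simp
    have h2 := hv (0, 0, 0, 0, 1)
    have h3 := hv (0, 0, 0, 1, 0)
    have h4 := hv (0, 0, 1, 0, 0)
    have h5 := hv (0, 1, 0, 0, 0)
    simp only [mForm_apply, Pi.zero_apply, inner_zero_right, Finset.sum_const_zero, mul_zero,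
      mul_one, add_zero, zero_add, sub_zero, zero_sub, neg_eq_zero] at h2 h3 h4 h5
    obtain ⟨x, a, b, c, d⟩ := v
    simp only at h1 h2 h3 h4 h5
    subst h4 h5
    have hx : x = 0 := funext h1
    subst hx
    simp only [mul_zero, add_zero, neg_eq_zero] at h2 h3
    subst h2 h3
    rfl
  refine ⟨key, fun v hv => key v fun w => ?_⟩
  rw [mForm_isSymm'.eq]
  exact hv w

theorem finrank_MX' : finrank ℝ (MX m) = m 0 + m 1 + m 2 := by
  rw [Module.finrank_pi_fintype, Fin.sum_univ_three]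
  simp

theorem finrank_MV' : finrank ℝ (MV m) = finrank ℝ (MX m) + 4 := by
  simp [Module.finrank_prod]

theorem isOpen_mU' : IsOpen (mU m μ) := by
  have : mU m μ = ⋂ i, {s : MX m | μ i * ‖s i‖ ^ 2 < 1} := by
    ext s; simp [mU]
  rw [this]
  refine isOpen_iInter_of_finite fun i => ?_
  exact isOpen_lt (by fun_prop) continuous_const

/-- `y = yfun μ t` satisfies `μ y² + 2 y + t = 0` and `1 + μ y = √(1 - μ t) > 0`. -/
theorem yfun_spec' {μ t : ℝ} (h : μ * t < 1) :
    μ * yfun μ t ^ 2 + 2 * yfun μ t + t = 0 ∧ 1 + μ * yfun μ t = √(1 - μ * t) ∧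
      0 < 1 + μ * yfun μ t := by
  have hw : 0 < √(1 - μ * t) := Real.sqrt_pos.2 (by linarith)
  have hw2 : √(1 - μ * t) ^ 2 = 1 - μ * t := Real.sq_sqrt (by linarith)
  unfold yfun
  set w := √(1 - μ * t) with hwdef
  have h1 : 1 + w ≠ 0 := by positivity
  have h2 : 1 + μ * (-t / (1 + w)) = w := by
    field_simp
    nlinarith
  refine ⟨?_, h2, by rw [h2]; exact hw⟩
  field_simp
  linear_combination t * hw2

theorem mN_mN' (hμ : μ 0 + μ 1 + μ 2 = 0) (i j : Fin 3) :
    mForm m μ (mN m μ i) (mN m μ j) = if i = j then μ i else 0 := by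
  have h2 : μ 2 = -μ 0 - μ 1 := by linarith
  fin_cases i <;> fin_cases j <;>
    (simp [mForm_apply, mN, h2]; try ring)

theorem mN_mBase' (i j : Fin 3) (h : j ≠ i) :
    mForm m μ (mN m μ i) (mBase m i - mBase m j) = 1 := by
  fin_cases i <;> fin_cases j <;>
    first
      | exact absurd rfl h
      | simp [mForm_apply, mN, mBase]

theorem mBase_null (i j : Fin 3) :
    mForm m μ (mBase m i - mBase m j) (mBase m i - mBase m j) = 0 := by
  fin_cases i <;> fin_cases j <;>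
    simp [mForm_apply, mBase]

theorem mForm_zero_right (x y : MX m) (z : ℝ × ℝ × ℝ × ℝ) :
    mForm m μ (x, 0) (y, z) = ∑ i, ⟪x i, y i⟫ := by
  simp [mForm_apply]

theorem mForm_single_mN (x : MX m) (i : Fin 3) :
    mForm m μ (x, 0) (mN m μ i) = 0 := by
  fin_cases i <;> simp [mForm_apply, mN]

theorem mForm_single_mBase (x : MX m) (i : Fin 3) :
    mForm m μ (x, 0) (mBase m i) = 0 := by
  fin_cases i <;> simp [mForm_apply, mBase]

theorem mForm_single_single (i : Fin 3) (a b : EuclideanSpace ℝ (Fin (m i))) :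
    mForm m μ (Pi.single i a, 0) (Pi.single i b, 0) = ⟪a, b⟫ := by
  rw [mForm_zero_right, Finset.sum_eq_single i]
  · simp
  · intro j _ hj
    simp [Pi.single_eq_of_ne hj]
  · simp

theorem mForm_single_single_ne {i j : Fin 3} (hij : i ≠ j) (a : EuclideanSpace ℝ (Fin (m i)))
    (b : EuclideanSpace ℝ (Fin (m j))) :
    mForm m μ (Pi.single i a, 0) (Pi.single j b, 0) = 0 := by
  rw [mForm_zero_right]
  refine Finset.sum_eq_zero fun l _ => ?_
  by_cases h : l = i
  · subst h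
    rw [Pi.single_eq_of_ne hij, inner_zero_right]
  · rw [Pi.single_eq_of_ne h, inner_zero_left]

theorem mb_null' (hμ : μ 0 + μ 1 + μ 2 = 0) {i j : Fin 3} (hij : i ≠ j) {s t : MX m}
    (hs : s ∈ mU m μ) (ht : t ∈ mU m μ) :
    mForm m μ (mb m μ i s - mb m μ j t) (mb m μ i s - mb m μ j t) = 0 := by
  set B := mForm m μ with hB
  have hsym : ∀ v w, B v w = B w v := mForm_isSymm'.eq
  set c := mBase m i - mBase m j with hc
  set p : MV m := (Pi.single i (s i), 0) with hp
  set q : MV m := (Pi.single j (t j), 0) with hq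
  set y := yfun (μ i) (‖s i‖ ^ 2) with hy
  set z := yfun (μ j) (‖t j‖ ^ 2) with hz
  have e : mb m μ i s - mb m μ j t = c + p + y • mN m μ i - q - z • mN m μ j := by
    simp only [mb, hc, hp, hq, hy, hz]; abel
  have h1 : B c c = 0 := mBase_null i j
  have h2 : B p c = 0 := by rw [hc, map_sub, mForm_single_mBase, mForm_single_mBase, sub_zero]
  have h3 : B q c = 0 := by rw [hc, map_sub, mForm_single_mBase, mForm_single_mBase, sub_zero]
  have h4 : B (mN m μ i) c = 1 := mN_mBase' i j hij.symm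
  have h5 : B (mN m μ j) c = -1 := by
    have := mN_mBase' (m := m) (μ := μ) j i hij
    rw [← neg_sub, map_neg] at this
    rw [hB, hc]; linarith
  have h6 : B p p = ‖s i‖ ^ 2 := by
    rw [hB, hp, mForm_single_single, real_inner_self_eq_norm_sq]
  have h7 : B q q = ‖t j‖ ^ 2 := by
    rw [hB, hq, mForm_single_single, real_inner_self_eq_norm_sq]
  have h8 : B p q = 0 := mForm_single_single_ne hij _ _
  have h9 : ∀ l, B p (mN m μ l) = 0 := fun l => mForm_single_mN _ l
  have h10 : ∀ l, B q (mN m μ l) = 0 := fun l => mForm_single_mN _ l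
  have h11 : B (mN m μ i) (mN m μ i) = μ i := by rw [hB, mN_mN' hμ, if_pos rfl]
  have h12 : B (mN m μ j) (mN m μ j) = μ j := by rw [hB, mN_mN' hμ, if_pos rfl]
  have h13 : B (mN m μ i) (mN m μ j) = 0 := by rw [hB, mN_mN' hμ, if_neg hij]
  have hy' := (yfun_spec' (hs i)).1
  have hz' := (yfun_spec' (ht j)).1
  rw [← hy] at hy'
  rw [← hz] at hz'
  rw [e]
  simp only [map_add, map_sub, map_smul, LinearMap.add_apply, LinearMap.sub_apply,
    LinearMap.smul_apply, smul_eq_mul]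
  rw [hsym c p, hsym c q, hsym c (mN m μ i), hsym c (mN m μ j), hsym q p, hsym (mN m μ i) p,
    hsym (mN m μ i) q, hsym (mN m μ j) p, hsym (mN m μ j) q, hsym (mN m μ j) (mN m μ i)]
  rw [h1, h2, h3, h4, h5, h6, h7, h8, h9, h9, h10, h10, h11, h12, h13]
  linear_combination hy' + hz'

theorem hasDerivAt_yfun {μ t : ℝ} (h : μ * t < 1) :
    HasDerivAt (yfun μ) (-1 / (2 * √(1 - μ * t))) t := by
  have hw : 0 < √(1 - μ * t) := Real.sqrt_pos.2 (by linarith)
  have hw2 : √(1 - μ * t) ^ 2 = 1 - μ * t := Real.sq_sqrt (by linarith)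
  have h1 : HasDerivAt (fun t => 1 - μ * t) (-μ) t := by
    simpa using ((hasDerivAt_id t).const_mul μ).const_sub 1
  have h2 := h1.sqrt (by linarith : (1 - μ * t) ≠ 0)
  have h3 : HasDerivAt (fun t => -t) (-1) t := (hasDerivAt_id t).neg
  have h4 := h3.div (h2.const_add 1) (by positivity)
  have h5 : (1 : ℝ) + √(1 - μ * t) ≠ 0 := by positivity
  set w := √(1 - μ * t) with hwdef
  have h6 : w ≠ 0 := hw.ne'
  have e : (-1 * (1 + w) - -t * (-μ / (2 * w))) / (1 + w) ^ 2 = -1 / (2 * w) := by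
    rw [div_eq_div_iff (by positivity) (by positivity)]
    field_simp
    linear_combination (-1) * hw2
  rw [e] at h4
  exact h4

theorem hasFDerivAt_mb {i : Fin 3} {s : MX m} (hs : s ∈ mU m μ) :
    ∃ D : MX m →L[ℝ] MV m, HasFDerivAt (mb m μ i) D s ∧
      ∀ v, D v = (Pi.single i (v i), 0) + (-⟪s i, v i⟫ / √(1 - μ i * ‖s i‖ ^ 2)) • mN m μ i := by
  have h1 := hasDerivAt_yfun (hs i)
  have h2 := hasFDerivAt_apply (𝕜 := ℝ) (F' := fun j => EuclideanSpace ℝ (Fin (m j))) i s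
  have h3 := h2.norm_sq
  have h4 := h1.comp_hasFDerivAt s h3
  let L : MX m →L[ℝ] MV m := (ContinuousLinearMap.inl ℝ (MX m) (ℝ × ℝ × ℝ × ℝ)).comp
        ((ContinuousLinearMap.single ℝ (fun j => EuclideanSpace ℝ (Fin (m j))) i).comp
          (ContinuousLinearMap.proj (R := ℝ) (φ := fun j => EuclideanSpace ℝ (Fin (m j))) i))
  have hL : ∀ v, L v = (Pi.single i (v i), 0) := fun v => rfl
  have h5 : HasFDerivAt (fun s : MX m => (((Pi.single i (s i) : MX m), (0 : ℝ × ℝ × ℝ × ℝ)) : MV m))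
      L s := by
    have := L.hasFDerivAt (x := s)
    exact this.congr_of_eventuallyEq (Filter.Eventually.of_forall fun v => (hL v).symm)
  have h6 := ((h5.const_add (mBase m i)).add (h4.smul_const (mN m μ i)))
  refine ⟨_, h6, fun v => ?_⟩
  have hw : 0 < √(1 - μ i * ‖s i‖ ^ 2) := Real.sqrt_pos.2 (by linarith [hs i])
  simp only [add_apply, hL, ContinuousLinearMap.smulRight_apply,
    smul_apply, ContinuousLinearMap.comp_apply, ContinuousLinearMap.proj_apply,
    innerSL_apply_apply, smul_eq_mul, nsmul_eq_mul, Nat.cast_ofNat]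
  congr 2
  field_simp

theorem fderiv_mb {i : Fin 3} {s : MX m} (hs : s ∈ mU m μ) (v : MX m) :
    fderiv ℝ (mb m μ i) s v
      = (Pi.single i (v i), 0) + (-⟪s i, v i⟫ / √(1 - μ i * ‖s i‖ ^ 2)) • mN m μ i := by
  obtain ⟨D, h1, h2⟩ := hasFDerivAt_mb (i := i) hs
  rw [h1.fderiv, h2]

theorem smooth_mb' (i : Fin 3) : ContDiffOn ℝ ∞ (mb m μ i) (mU m μ) := by
  have h2 : ContDiff ℝ ∞ (fun s : MX m => s i) :=
    (ContinuousLinearMap.proj (R := ℝ) (φ := fun j => EuclideanSpace ℝ (Fin (m j))) i).contDiff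
  have h3 : ContDiff ℝ ∞ (fun s : MX m => ‖s i‖ ^ 2) := h2.norm_sq ℝ
  have h4 : ContDiffOn ℝ ∞ (fun s : MX m => √(1 - μ i * ‖s i‖ ^ 2)) (mU m μ) := by
    refine ContDiffOn.sqrt (contDiff_const.sub (contDiff_const.mul h3)).contDiffOn ?_
    intro s hs
    have := hs i
    linarith
  have h5 : ContDiffOn ℝ ∞ (fun s : MX m => yfun (μ i) (‖s i‖ ^ 2)) (mU m μ) := by
    refine ContDiffOn.div h3.neg.contDiffOn (contDiffOn_const.add h4) ?_
    intro s _
    positivity
  have h6 : ContDiff ℝ ∞ (fun s : MX m =>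
      (((Pi.single i (s i) : MX m), (0 : ℝ × ℝ × ℝ × ℝ)) : MV m)) := by
    refine ContDiff.prodMk ?_ contDiff_const
    exact (ContinuousLinearMap.single ℝ (fun j => EuclideanSpace ℝ (Fin (m j))) i).contDiff.comp h2
  exact (contDiffOn_const.add h6.contDiffOn).add (h5.smul contDiffOn_const)

/-- The derivative of the canonical triple: it depends on the `i`-th component of the direction
only, and its norm is positive if this component is not zero. -/
theorem mb_pos' (hμ : μ 0 + μ 1 + μ 2 = 0) {i : Fin 3} {s : MX m} (hs : s ∈ mU m μ) {v : MX m}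
    (hv : v i ≠ 0) :
    0 < mForm m μ (fderiv ℝ (mb m μ i) s v) (fderiv ℝ (mb m μ i) s v) := by
  rw [fderiv_mb hs]
  set y := -⟪s i, v i⟫ / √(1 - μ i * ‖s i‖ ^ 2) with hy
  have hpos : 0 < 1 - μ i * ‖s i‖ ^ 2 := by linarith [hs i]
  have hy2 : y ^ 2 * (1 - μ i * ‖s i‖ ^ 2) = ⟪s i, v i⟫ ^ 2 := by
    rw [hy, div_pow, Real.sq_sqrt hpos.le]
    field_simp
  have e : mForm m μ ((Pi.single i (v i), 0) + y • mN m μ i) ((Pi.single i (v i), 0) + y • mN m μ i)
      = ‖v i‖ ^ 2 + μ i * y ^ 2 := by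
    simp only [map_add, map_smul, LinearMap.add_apply, LinearMap.smul_apply, smul_eq_mul]
    rw [mForm_isSymm'.eq (mN m μ i) (Pi.single i (v i), 0), mForm_single_mN, mForm_single_single,
      mN_mN' hμ, if_pos rfl, real_inner_self_eq_norm_sq]
    ring
  rw [e]
  have hv2 : 0 < ‖v i‖ ^ 2 := by positivity
  by_cases h0 : 0 ≤ μ i
  · positivity
  · push Not at h0
    have hcs : ⟪s i, v i⟫ ^ 2 ≤ ‖s i‖ ^ 2 * ‖v i‖ ^ 2 := by
      have := real_inner_mul_inner_self_le (s i) (v i)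
      rw [real_inner_self_eq_norm_sq, real_inner_self_eq_norm_sq] at this
      nlinarith
    by_contra hcon
    push Not at hcon
    have h1 : (‖v i‖ ^ 2 + μ i * y ^ 2) * (1 - μ i * ‖s i‖ ^ 2) ≤ 0 :=
      mul_nonpos_of_nonpos_of_nonneg hcon hpos.le
    nlinarith [mul_nonneg (neg_nonneg.2 h0.le) (sub_nonneg.2 hcs)]

theorem mb_deriv_zero' {i : Fin 3} {s : MX m} (hs : s ∈ mU m μ) {v : MX m} (hv : v i = 0) :
    fderiv ℝ (mb m μ i) s v = 0 := by
  rw [fderiv_mb hs, hv]
  simp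

theorem mb_li' {s : MX m} (hs : s ∈ mU m μ) (hμ : μ 0 + μ 1 + μ 2 = 0) :
    LinearIndependent ℝ ![mb m μ 1 s - mb m μ 2 s, mb m μ 2 s - mb m μ 0 s] := by
  rw [LinearIndependent.pair_iff]
  intro a b hab
  have key : ∀ i j : Fin 3, mForm m μ (mb m μ i s) (mN m μ j)
      = mForm m μ (mN m μ j) (mBase m i) + if i = j then μ i * yfun (μ i) (‖s i‖ ^ 2) else 0 := by
    intro i j
    unfold mb
    simp only [map_add, map_smul, LinearMap.add_apply, LinearMap.smul_apply, smul_eq_mul]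
    rw [mForm_single_mN, mN_mN' hμ, mForm_isSymm'.eq]
    split_ifs <;> ring
  have h0 : mForm m μ (a • (mb m μ 1 s - mb m μ 2 s) + b • (mb m μ 2 s - mb m μ 0 s)) (mN m μ 0)
      = 0 := by rw [hab]; simp
  have h1 : mForm m μ (a • (mb m μ 1 s - mb m μ 2 s) + b • (mb m μ 2 s - mb m μ 0 s)) (mN m μ 1)
      = 0 := by rw [hab]; simp
  simp only [map_add, map_sub, map_smul, LinearMap.add_apply, LinearMap.sub_apply,
    LinearMap.smul_apply, smul_eq_mul, key] at h0 h1
  have e00 : mForm m μ (mN m μ 0) (mBase m 0) = 1 := by simp [mForm_apply, mN, mBase]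
  have e01 : mForm m μ (mN m μ 0) (mBase m 1) = 0 := by simp [mForm_apply, mN, mBase]
  have e02 : mForm m μ (mN m μ 0) (mBase m 2) = 0 := by simp [mForm_apply, mN, mBase]
  have e10 : mForm m μ (mN m μ 1) (mBase m 0) = 0 := by simp [mForm_apply, mN, mBase]
  have e11 : mForm m μ (mN m μ 1) (mBase m 1) = 1 := by simp [mForm_apply, mN, mBase]
  have e12 : mForm m μ (mN m μ 1) (mBase m 2) = 0 := by simp [mForm_apply, mN, mBase]
  rw [e00, e01, e02] at h0
  rw [e10, e11, e12] at h1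
  simp at h0 h1
  have p0 := (yfun_spec' (hs 0)).2.2
  have p1 := (yfun_spec' (hs 1)).2.2
  constructor
  · rcases h1 with h | h
    · exact h
    · linarith
  · rcases h0 with h | h
    · exact h
    · linarith

/-- The canonical triple satisfies the hypotheses at every point of its domain. -/
theorem mb_tripleHyp' (hμ : μ 0 + μ 1 + μ 2 = 0) (hm : ∀ i, 1 ≤ m i) {s : MX m}
    (hs : s ∈ mU m μ) : TripleHyp (mForm m μ) (mb m μ) (mU m μ) s where
  symm := mForm_isSymm'
  nondeg := mForm_nondegenerate'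
  dim := finrank_MV'
  isOpen_U := isOpen_mU'
  mem := hs
  smooth := smooth_mb'
  null := fun i j hij x hx y hy => mb_null' hμ hij hx hy
  pos := fun i v hv => mb_pos' hμ hs fun h => hv (mb_deriv_zero' hs h)
  ne := fun i h => by
    have hi := hm i
    let e : EuclideanSpace ℝ (Fin (m i)) := EuclideanSpace.single ⟨0, by omega⟩ 1
    have he : e ≠ 0 := by
      intro h
      have := congrArg (fun x => x ⟨0, by omega⟩) h
      simp [e] at this
    have h2 : (Pi.single i e : MX m) i ≠ 0 := by simpa using he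
    have h3 := mb_pos' hμ hs h2
    rw [h] at h3
    simp at h3
  inj := fun v hv => by
    funext i
    by_contra h
    have h3 := mb_pos' hμ hs (i := i) (v := v) h
    rw [hv i] at h3
    simp at h3
  li := mb_li' hs hμ

end

end DupinClass

end S_MF1_pf

section S_ModelFacts

open scoped RealInnerProductSpace ContDiff Topology
open Module Set

namespace DupinClass

section

variable {m : Fin 3 → ℕ} {μ : Fin 3 → ℝ}

theorem mForm_isSymm : (mForm m μ).IsSymm := mForm_isSymm'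

theorem mForm_nondegenerate : (mForm m μ).Nondegenerate := mForm_nondegenerate'

theorem finrank_MX : finrank ℝ (MX m) = m 0 + m 1 + m 2 := finrank_MX'

theorem finrank_MV : finrank ℝ (MV m) = finrank ℝ (MX m) + 4 := finrank_MV'

theorem isOpen_mU : IsOpen (mU m μ) := isOpen_mU'

/-- `y = yfun μ t` satisfies `μ y² + 2 y + t = 0` and `1 + μ y = √(1 - μ t) > 0`. -/
theorem yfun_spec {μ t : ℝ} (h : μ * t < 1) :
    μ * yfun μ t ^ 2 + 2 * yfun μ t + t = 0 ∧ 1 + μ * yfun μ t = √(1 - μ * t) ∧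
      0 < 1 + μ * yfun μ t := yfun_spec' h

theorem mN_mN (hμ : μ 0 + μ 1 + μ 2 = 0) (i j : Fin 3) :
    mForm m μ (mN m μ i) (mN m μ j) = if i = j then μ i else 0 := mN_mN' hμ i j

theorem mN_mBase (i j : Fin 3) (h : j ≠ i) :
    mForm m μ (mN m μ i) (mBase m i - mBase m j) = 1 := mN_mBase' i j h

theorem smooth_mb (i : Fin 3) : ContDiffOn ℝ ∞ (mb m μ i) (mU m μ) := smooth_mb' i

theorem mb_null (hμ : μ 0 + μ 1 + μ 2 = 0) {i j : Fin 3} (hij : i ≠ j) {s t : MX m}
    (hs : s ∈ mU m μ) (ht : t ∈ mU m μ) :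
    mForm m μ (mb m μ i s - mb m μ j t) (mb m μ i s - mb m μ j t) = 0 := mb_null' hμ hij hs ht

/-- The derivative of the canonical triple: it depends on the `i`-th component of the direction
only, and its norm is positive if this component is not zero. -/
theorem mb_pos (hμ : μ 0 + μ 1 + μ 2 = 0) {i : Fin 3} {s : MX m} (hs : s ∈ mU m μ) {v : MX m}
    (hv : v i ≠ 0) :
    0 < mForm m μ (fderiv ℝ (mb m μ i) s v) (fderiv ℝ (mb m μ i) s v) := mb_pos' hμ hs hv

theorem mb_deriv_zero {i : Fin 3} {s : MX m} (hs : s ∈ mU m μ) {v : MX m} (hv : v i = 0) :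
    fderiv ℝ (mb m μ i) s v = 0 := mb_deriv_zero' hs hv

theorem mb_li {s : MX m} (hs : s ∈ mU m μ) (hμ : μ 0 + μ 1 + μ 2 = 0) :
    LinearIndependent ℝ ![mb m μ 1 s - mb m μ 2 s, mb m μ 2 s - mb m μ 0 s] := mb_li' hs hμ

/-- The canonical triple satisfies the hypotheses at every point of its domain. -/
theorem mb_tripleHyp (hμ : μ 0 + μ 1 + μ 2 = 0) (hm : ∀ i, 1 ≤ m i) {s : MX m}
    (hs : s ∈ mU m μ) : TripleHyp (mForm m μ) (mb m μ) (mU m μ) s := mb_tripleHyp' hμ hm hs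

end

end DupinClass

end S_ModelFacts

section S_MF2_pf

open scoped RealInnerProductSpace ContDiff Topology
open Module Set

namespace DupinClass

theorem triFam_eq_pair {X V : Type} [NormedAddCommGroup X] [NormedSpace ℝ X]
    [NormedAddCommGroup V] [NormedSpace ℝ V] (b : Fin 3 → X → V) (x : X) :
    triFam b x = Submodule.span ℝ {b 1 x - b 2 x, b 2 x - b 0 x} := by
  apply le_antisymm
  · rw [triFam, Submodule.span_le]
    rintro _ ⟨⟨i, j⟩, rfl⟩
    rw [SetLike.mem_coe, Submodule.mem_span_pair]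
    fin_cases i <;> fin_cases j
    · exact ⟨0, 0, by simp⟩
    · refine ⟨-1, -1, ?_⟩
      simp only [Fin.zero_eta, Fin.mk_one]; module
    · refine ⟨0, -1, ?_⟩
      simp only [Fin.zero_eta, Fin.reduceFinMk]; module
    · refine ⟨1, 1, ?_⟩
      simp only [Fin.zero_eta, Fin.mk_one]; module
    · exact ⟨0, 0, by simp⟩
    · refine ⟨1, 0, ?_⟩
      simp only [Fin.mk_one, Fin.reduceFinMk]; module
    · refine ⟨0, 1, ?_⟩
      simp only [Fin.zero_eta, Fin.reduceFinMk]; module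
    · refine ⟨-1, 0, ?_⟩
      simp only [Fin.mk_one, Fin.reduceFinMk]; module
    · exact ⟨0, 0, by simp⟩
  · rw [Submodule.span_le]
    rintro v (rfl | rfl)
    · exact Submodule.subset_span ⟨(1, 2), rfl⟩
    · exact Submodule.subset_span ⟨(2, 0), rfl⟩

section

variable {m : Fin 3 → ℕ} {μ : Fin 3 → ℝ}

theorem mb_zero_eq (s : MX m) :
    mb m μ 0 s = (Pi.single 0 (s 0), 0, -1, yfun (μ 0) (‖s 0‖ ^ 2), 0) := by
  simp [mb, mBase, mN]

theorem mb_one_eq (s : MX m) :
    mb m μ 1 s = (Pi.single 1 (s 1), 1, 0, 0, yfun (μ 1) (‖s 1‖ ^ 2)) := by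
  simp [mb, mBase, mN]

theorem mb_two_eq (s : MX m) :
    mb m μ 2 s = (Pi.single 2 (s 2), yfun (μ 2) (‖s 2‖ ^ 2) * μ 1,
      yfun (μ 2) (‖s 2‖ ^ 2) * (-μ 0), -yfun (μ 2) (‖s 2‖ ^ 2), -yfun (μ 2) (‖s 2‖ ^ 2)) := by
  simp [mb, mBase, mN]

theorem mForm_mN_one (v : MV m) : mForm m μ v (mN m μ 1) = v.2.1 + μ 1 * v.2.2.2.2 := by
  simp [mForm, mN]

theorem mForm_mN_zero (v : MV m) : mForm m μ v (mN m μ 0) = -v.2.2.1 + μ 0 * v.2.2.2.1 := by
  simp [mForm, mN]

/-- The curvature vectors of the canonical family are the multiples of the differences. -/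
theorem curvVec_mFam_iff (hμ : μ 0 + μ 1 + μ 2 = 0) (hm : ∀ i, 1 ≤ m i) {s : MX m}
    (hs : s ∈ mU m μ) (v : MV m) :
    CurvVec (mFam m μ) s v ↔ v ≠ 0 ∧ ∃ i : Fin 3, ∃ c : ℝ,
      v = c • (mb m μ (i + 1) s - mb m μ (i + 2) s) := by
  have hnhds : mU m μ ∈ 𝓝 s := isOpen_mU.mem_nhds hs
  have hdb : ∀ i, HasFDerivAt (mb m μ i) (fderiv ℝ (mb m μ i) s) s := fun i =>
    (((smooth_mb i).contDiffAt hnhds).differentiableAt (by simp)).hasFDerivAt
  constructor
  · rintro ⟨hv, σ, hσd, hσ, hσs, w, hw, hdw⟩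
    refine ⟨hv, ?_⟩
    have hT := mb_tripleHyp hμ hm hs
    -- the coefficients
    let α : MX m → ℝ := fun y =>
      ((σ y).2.1 + μ 1 * (σ y).2.2.2.2) * (1 + μ 1 * (mb m μ 1 y).2.2.2.2)⁻¹
    let β : MX m → ℝ := fun y =>
      -(-(σ y).2.2.1 + μ 0 * (σ y).2.2.2.1) * (1 + μ 0 * (mb m μ 0 y).2.2.2.1)⁻¹
    have hσ1 : DifferentiableAt ℝ (fun y => (σ y).2) s := hσd.snd
    have hσ2 : DifferentiableAt ℝ (fun y => (σ y).2.1) s := hσ1.fst
    have hσ3 : DifferentiableAt ℝ (fun y => (σ y).2.2) s := hσ1.snd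
    have hσ4 : DifferentiableAt ℝ (fun y => (σ y).2.2.1) s := hσ3.fst
    have hσ5 : DifferentiableAt ℝ (fun y => (σ y).2.2.2) s := hσ3.snd
    have hσ6 : DifferentiableAt ℝ (fun y => (σ y).2.2.2.1) s := hσ5.fst
    have hσ7 : DifferentiableAt ℝ (fun y => (σ y).2.2.2.2) s := hσ5.snd
    have hm1 : DifferentiableAt ℝ (fun y => (mb m μ 1 y).2.2.2.2) s :=
      (hdb 1).differentiableAt.snd.snd.snd.snd
    have hm0 : DifferentiableAt ℝ (fun y => (mb m μ 0 y).2.2.2.1) s :=
      (hdb 0).differentiableAt.snd.snd.snd.fst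
    have hpos1 : ∀ y ∈ mU m μ, 0 < 1 + μ 1 * (mb m μ 1 y).2.2.2.2 := by
      intro y hy
      rw [mb_one_eq]
      exact (yfun_spec (hy 1)).2.2
    have hpos0 : ∀ y ∈ mU m μ, 0 < 1 + μ 0 * (mb m μ 0 y).2.2.2.1 := by
      intro y hy
      rw [mb_zero_eq]
      exact (yfun_spec (hy 0)).2.2
    have hαd : DifferentiableAt ℝ α s := by
      have h1 : DifferentiableAt ℝ (fun y => (σ y).2.1 + μ 1 * (σ y).2.2.2.2) s :=
        hσ2.add (hσ7.const_mul _)
      have h2 : DifferentiableAt ℝ (fun y => 1 + μ 1 * (mb m μ 1 y).2.2.2.2) s :=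
        (hm1.const_mul _).const_add _
      have h3 : (fun y => 1 + μ 1 * (mb m μ 1 y).2.2.2.2) s ≠ 0 := (hpos1 s hs).ne'
      have h4 := DifferentiableAt.fun_mul h1 (DifferentiableAt.fun_inv h2 h3)
      exact h4
    have hβd : DifferentiableAt ℝ β s := by
      have h1 : DifferentiableAt ℝ (fun y => -(-(σ y).2.2.1 + μ 0 * (σ y).2.2.2.1)) s :=
        (hσ4.neg.add (hσ6.const_mul _)).neg
      have h2 : DifferentiableAt ℝ (fun y => 1 + μ 0 * (mb m μ 0 y).2.2.2.1) s :=
        (hm0.const_mul _).const_add _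
      have h3 : (fun y => 1 + μ 0 * (mb m μ 0 y).2.2.2.1) s ≠ 0 := (hpos0 s hs).ne'
      have h4 := DifferentiableAt.fun_mul h1 (DifferentiableAt.fun_inv h2 h3)
      exact h4
    have hcoef : ∀ y ∈ mU m μ, σ y ∈ mFam m μ y →
        σ y = α y • (mb m μ 1 y - mb m μ 2 y) + β y • (mb m μ 2 y - mb m μ 0 y) := by
      intro y hy hσy
      rw [mFam, triFam_eq_pair, Submodule.mem_span_pair] at hσy
      obtain ⟨a, b, hab⟩ := hσy
      have h1 := hpos1 y hy
      have h0 := hpos0 y hy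
      have ha : α y = a := by
        show ((σ y).2.1 + μ 1 * (σ y).2.2.2.2) * (1 + μ 1 * (mb m μ 1 y).2.2.2.2)⁻¹ = a
        rw [← div_eq_mul_inv, div_eq_iff h1.ne', ← hab, mb_zero_eq, mb_one_eq, mb_two_eq]
        simp only [Prod.snd_add, Prod.fst_add, Prod.smul_snd, Prod.smul_fst, Prod.snd_sub,
          Prod.fst_sub, smul_eq_mul]
        ring
      have hb : β y = b := by
        show -(-(σ y).2.2.1 + μ 0 * (σ y).2.2.2.1) * (1 + μ 0 * (mb m μ 0 y).2.2.2.1)⁻¹ = b
        rw [← div_eq_mul_inv, div_eq_iff h0.ne', ← hab, mb_zero_eq, mb_one_eq, mb_two_eq]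
        simp only [Prod.snd_add, Prod.fst_add, Prod.smul_snd, Prod.smul_fst, Prod.snd_sub,
          Prod.fst_sub, smul_eq_mul]
        ring
      rw [ha, hb, hab]
    have hev : σ =ᶠ[𝓝 s] fun y =>
        α y • (mb m μ 1 y - mb m μ 2 y) + β y • (mb m μ 2 y - mb m μ 0 y) := by
      filter_upwards [hσ, hnhds] with y h1 h2 using hcoef y h2 h1
    have hder : HasFDerivAt (fun y =>
        α y • (mb m μ 1 y - mb m μ 2 y) + β y • (mb m μ 2 y - mb m μ 0 y))
        ((α s • (fderiv ℝ (mb m μ 1) s - fderiv ℝ (mb m μ 2) s) +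
          (fderiv ℝ α s).smulRight (mb m μ 1 s - mb m μ 2 s)) +
         (β s • (fderiv ℝ (mb m μ 2) s - fderiv ℝ (mb m μ 0) s) +
          (fderiv ℝ β s).smulRight (mb m μ 2 s - mb m μ 0 s))) s :=
      (hαd.hasFDerivAt.smul ((hdb 1).sub (hdb 2))).add
        (hβd.hasFDerivAt.smul ((hdb 2).sub (hdb 0)))
    have hfd := hev.fderiv_eq (𝕜 := ℝ)
    rw [hder.fderiv] at hfd
    set F : Fin 3 → MV m := fun i => fderiv ℝ (mb m μ i) s w with hF
    have hE : α s • (F 1 - F 2) + β s • (F 2 - F 0) ∈ mFam m μ s := by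
      have h1 : mb m μ 1 s - mb m μ 2 s ∈ mFam m μ s := Submodule.subset_span ⟨(1, 2), rfl⟩
      have h2 : mb m μ 2 s - mb m μ 0 s ∈ mFam m μ s := Submodule.subset_span ⟨(2, 0), rfl⟩
      have h3 : α s • (F 1 - F 2) + β s • (F 2 - F 0) = fderiv ℝ σ s w -
          (fderiv ℝ α s w) • (mb m μ 1 s - mb m μ 2 s) -
          (fderiv ℝ β s w) • (mb m μ 2 s - mb m μ 0 s) := by
        rw [hfd]
        simp only [add_apply, smul_apply,
          sub_apply, ContinuousLinearMap.smulRight_apply, hF]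
        abel
      rw [h3]
      exact Submodule.sub_mem _ (Submodule.sub_mem _ hdw (Submodule.smul_mem _ _ h1))
        (Submodule.smul_mem _ _ h2)
    have hQ : mForm m μ (α s • (F 1 - F 2) + β s • (F 2 - F 0))
        (α s • (F 1 - F 2) + β s • (F 2 - F 0)) = 0 := by
      rw [mFam, triFam_eq_pair, Submodule.mem_span_pair] at hE
      obtain ⟨a, b, hab⟩ := hE
      rw [← hab]
      have h1 := hT.orth_bb 1 2 2 1
      have h2 := hT.orth_bb 1 2 0 2
      have h3 := hT.orth_bb 2 0 2 1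
      have h4 := hT.orth_bb 2 0 0 2
      simp only [map_add, map_smul, LinearMap.add_apply, LinearMap.smul_apply, smul_eq_mul,
        h1, h2, h3, h4]
      ring
    have hQ2 : β s ^ 2 * mForm m μ (F 0) (F 0) + α s ^ 2 * mForm m μ (F 1) (F 1) +
        (β s - α s) ^ 2 * mForm m μ (F 2) (F 2) = 0 := by
      have h01 : mForm m μ (F 0) (F 1) = 0 := hT.orth_dd (by decide) w w
      have h02 : mForm m μ (F 0) (F 2) = 0 := hT.orth_dd (by decide) w w
      have h10 : mForm m μ (F 1) (F 0) = 0 := hT.orth_dd (by decide) w w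
      have h12 : mForm m μ (F 1) (F 2) = 0 := hT.orth_dd (by decide) w w
      have h20 : mForm m μ (F 2) (F 0) = 0 := hT.orth_dd (by decide) w w
      have h21 : mForm m μ (F 2) (F 1) = 0 := hT.orth_dd (by decide) w w
      rw [← hQ]
      simp only [map_add, map_smul, map_sub, LinearMap.add_apply, LinearMap.smul_apply,
        LinearMap.sub_apply, smul_eq_mul, h01, h02, h10, h12, h20, h21]
      ring
    have hnn : ∀ i, 0 ≤ mForm m μ (F i) (F i) := by
      intro i
      by_cases hwi : w i = 0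
      · have : F i = 0 := mb_deriv_zero hs hwi
        rw [this]; simp
      · exact (mb_pos hμ hs hwi).le
    have hF0 := mul_nonneg (sq_nonneg (β s)) (hnn 0)
    have hF1 := mul_nonneg (sq_nonneg (α s)) (hnn 1)
    have hF2 := mul_nonneg (sq_nonneg (β s - α s)) (hnn 2)
    have hvs : v = α s • (mb m μ 1 s - mb m μ 2 s) + β s • (mb m μ 2 s - mb m μ 0 s) := by
      rw [← hσs]; exact hcoef s hs hσ.self_of_nhds
    obtain ⟨i, hi⟩ : ∃ i, w i ≠ 0 := by
      by_contra hcon
      push Not at hcon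
      exact hw (funext hcon)
    have hp := mb_pos hμ hs hi
    fin_cases i
    · have h1 : β s ^ 2 * mForm m μ (F 0) (F 0) = 0 := by linarith
      rcases mul_eq_zero.1 h1 with h | h
      · refine ⟨0, α s, ?_⟩
        rw [hvs, pow_eq_zero_iff (by norm_num)] at *
        simp [h]
      · exact absurd h hp.ne'
    · have h1 : α s ^ 2 * mForm m μ (F 1) (F 1) = 0 := by linarith
      rcases mul_eq_zero.1 h1 with h | h
      · refine ⟨1, β s, ?_⟩
        rw [hvs, pow_eq_zero_iff (by norm_num)] at *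
        simp [h]
      · exact absurd h hp.ne'
    · have h1 : (β s - α s) ^ 2 * mForm m μ (F 2) (F 2) = 0 := by linarith
      rcases mul_eq_zero.1 h1 with h | h
      · refine ⟨2, -α s, ?_⟩
        have h2 : β s = α s := by
          rw [pow_eq_zero_iff (by norm_num)] at h
          linarith
        rw [hvs, h2]
        show _ = -α s • (mb m μ 0 s - mb m μ 1 s)
        module
      · exact absurd h hp.ne'
  · rintro ⟨hv, i, c, rfl⟩
    refine ⟨hv, fun y => c • (mb m μ (i + 1) y - mb m μ (i + 2) y), ?_, ?_, rfl, ?_⟩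
    · exact (((hdb (i + 1)).sub (hdb (i + 2))).const_smul c).differentiableAt
    · exact Filter.Eventually.of_forall fun y =>
        Submodule.smul_mem _ _ (Submodule.subset_span ⟨(i + 1, i + 2), rfl⟩)
    · have hne : Nonempty (Fin (m i)) := ⟨⟨0, hm i⟩⟩
      obtain ⟨e, he⟩ : ∃ e : EuclideanSpace ℝ (Fin (m i)), e ≠ 0 := exists_ne 0
      refine ⟨Pi.single i e, ?_, ?_⟩
      · intro h
        apply he
        have := congrFun h i
        simpa using this
      · have hd : HasFDerivAt (fun y => c • (mb m μ (i + 1) y - mb m μ (i + 2) y))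
            (c • (fderiv ℝ (mb m μ (i + 1)) s - fderiv ℝ (mb m μ (i + 2)) s)) s :=
          ((hdb (i + 1)).sub (hdb (i + 2))).const_smul c
        rw [hd.fderiv]
        have h1 : i + 1 ≠ i := by fin_cases i <;> decide
        have h2 : i + 2 ≠ i := by fin_cases i <;> decide
        rw [smul_apply, sub_apply,
          mb_deriv_zero hs (Pi.single_eq_of_ne h1 e), mb_deriv_zero hs (Pi.single_eq_of_ne h2 e),
          sub_zero, smul_zero]
        exact Submodule.zero_mem _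

end

end DupinClass

end S_MF2_pf

section S_Inv

open scoped RealInnerProductSpace ContDiff Topology
open Module Set

namespace DupinClass

section

variable {m m' : Fin 3 → ℕ} {μ μ' : Fin 3 → ℝ}

/-- the displacement of the `i`-th canonical map -/
noncomputable def vv (m : Fin 3 → ℕ) (μ : Fin 3 → ℝ) (i : Fin 3) (x : EuclideanSpace ℝ (Fin (m i))) :
    MV m := (Pi.single i x, 0) + yfun (μ i) (‖x‖ ^ 2) • mN m μ i

theorem mb_eq_vv (i : Fin 3) (s : MX m) : mb m μ i s = mBase m i + vv m μ i (s i) := by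
  unfold mb vv
  rw [add_assoc]

theorem yfun_zero (a : ℝ) : yfun a 0 = 0 := by simp [yfun]

theorem vv_zero (i : Fin 3) : vv m μ i 0 = 0 := by
  unfold vv
  rw [norm_zero]
  simp [yfun_zero]

theorem mN_fst (i : Fin 3) : (mN m μ i).1 = 0 := by
  fin_cases i <;> simp [mN]

theorem mBase_fst (i : Fin 3) : (mBase m i).1 = 0 := by
  fin_cases i <;> simp [mBase]

theorem vv_fst (i : Fin 3) (x : EuclideanSpace ℝ (Fin (m i))) :
    (vv m μ i x).1 = Pi.single i x := by
  unfold vv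
  simp [mN_fst]

theorem mForm_single_left (i : Fin 3) (x : EuclideanSpace ℝ (Fin (m i))) (v : MV m) :
    mForm m μ (Pi.single i x, 0) v = ⟪x, v.1 i⟫ := by
  have e : mForm m μ (Pi.single i x, 0) v = ∑ l, ⟪(Pi.single i x : MX m) l, v.1 l⟫
      + ((0 : ℝ) * v.2.1 + 0 * v.2.2.2.2) - (0 * v.2.2.1 + 0 * v.2.2.2.1)
      + μ 0 * 0 * v.2.2.2.1 + μ 1 * 0 * v.2.2.2.2 := rfl
  rw [e, Finset.sum_eq_single i]
  · simp
  · intro l _ hl
    rw [Pi.single_eq_of_ne hl, inner_zero_left]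
  · intro hi; exact absurd (Finset.mem_univ i) hi

theorem mForm_comm (v w : MV m) : mForm m μ v w = mForm m μ w v := mForm_isSymm.eq v w

theorem mForm_vv (hμ : μ 0 + μ 1 + μ 2 = 0) (i : Fin 3) (x : EuclideanSpace ℝ (Fin (m i)))
    (hx : μ i * ‖x‖ ^ 2 < 1) :
    mForm m μ (vv m μ i x) (vv m μ i x) = -2 * yfun (μ i) (‖x‖ ^ 2) := by
  have h1 := (yfun_spec hx).1
  have h2 : mForm m μ (Pi.single i x, 0) (Pi.single i x, 0) = ‖x‖ ^ 2 := by
    rw [mForm_single_left]; simp
  have h3 : mForm m μ (Pi.single i x, 0) (mN m μ i) = 0 := by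
    rw [mForm_single_left, mN_fst]; simp
  have h4 : mForm m μ (mN m μ i) (Pi.single i x, 0) = 0 := by
    rw [mForm_comm, h3]
  have h5 : mForm m μ (mN m μ i) (mN m μ i) = μ i := by
    rw [mN_mN hμ]; simp
  unfold vv
  simp only [map_add, map_smul, LinearMap.add_apply, LinearMap.smul_apply, smul_eq_mul, h2, h3, h4,
    h5]
  linarith

/-- The core computation for one component. -/
theorem inv_core (hμ : μ 0 + μ 1 + μ 2 = 0) (hμ' : μ' 0 + μ' 1 + μ' 2 = 0) (A : MV m ≃ₗ[ℝ] MV m')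
    {c : ℝ} (hA : ∀ v w, mForm m' μ' (A v) (A w) = c * mForm m μ v w) {e δ : ℝ}
    (he : e ≠ 0) (hδ : 0 < δ) (i j : Fin 3) (hmi : 1 ≤ m i)
    (H : ∀ x, ‖x‖ < δ → μ i * ‖x‖ ^ 2 < 1 ∧ ∃ r, μ' j * ‖r‖ ^ 2 < 1 ∧
      A (vv m μ i x) = e • vv m' μ' j r) :
    (∀ x, ∃ r, A (Pi.single i x, 0) = (Pi.single j r, 0)) ∧
      ∃ w, A (mN m μ i) = (Pi.single j w, 0) + (c / e) • mN m' μ' j := by
  have hy : ∀ x r, μ i * ‖x‖ ^ 2 < 1 → μ' j * ‖r‖ ^ 2 < 1 → A (vv m μ i x) = e • vv m' μ' j r →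
      yfun (μ' j) (‖r‖ ^ 2) = c / e ^ 2 * yfun (μ i) (‖x‖ ^ 2) := by
    intro x r hx hr h
    have h1 := hA (vv m μ i x) (vv m μ i x)
    rw [h, map_smul, map_smul, LinearMap.smul_apply, mForm_vv hμ' j r hr, mForm_vv hμ i x hx,
      smul_eq_mul, smul_eq_mul] at h1
    have he2 : e ^ 2 ≠ 0 := pow_ne_zero 2 he
    field_simp
    linarith
  -- a nonzero small vector
  obtain ⟨x₀, hx₀, hx₀δ⟩ : ∃ x₀ : EuclideanSpace ℝ (Fin (m i)), x₀ ≠ 0 ∧ ‖x₀‖ < δ := by
    have : Nonempty (Fin (m i)) := ⟨⟨0, hmi⟩⟩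
    obtain ⟨z, hz⟩ := exists_ne (0 : EuclideanSpace ℝ (Fin (m i)))
    have hz' : 0 < ‖z‖ := norm_pos_iff.2 hz
    refine ⟨(δ / 2 / ‖z‖) • z, smul_ne_zero (by positivity) hz, ?_⟩
    rw [norm_smul, Real.norm_of_nonneg (by positivity), div_mul_cancel₀ _ hz'.ne']
    linarith
  have hP2 : ∃ w, A (mN m μ i) = (Pi.single j w, 0) + (c / e) • mN m' μ' j := by
    obtain ⟨h1, r₁, hr₁, hA₁⟩ := H x₀ hx₀δ
    obtain ⟨h2, r₂, hr₂, hA₂⟩ := H (-x₀) (by rwa [norm_neg])
    have hy₁ := hy _ _ h1 hr₁ hA₁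
    have hy₂ := hy _ _ h2 hr₂ hA₂
    rw [norm_neg] at hy₂
    set y := yfun (μ i) (‖x₀‖ ^ 2) with hyd
    have hy0 : y ≠ 0 := by
      intro h0
      have h3 := (yfun_spec h1).1
      rw [← hyd, h0] at h3
      have h4 : ‖x₀‖ ^ 2 = 0 := by linarith
      exact hx₀ (norm_eq_zero.1 (pow_eq_zero_iff two_ne_zero |>.1 h4))
    have h5 : vv m μ i x₀ + vv m μ i (-x₀) = (2 * y) • mN m μ i := by
      unfold vv
      rw [norm_neg, ← hyd, Pi.single_neg, two_mul, add_smul]
      have : ((Pi.single i x₀ : MX m), (0 : ℝ × ℝ × ℝ × ℝ)) + ((-Pi.single i x₀ : MX m), 0) = 0 := by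
        rw [Prod.mk_add_mk, add_neg_cancel, add_zero]; rfl
      calc _ = (((Pi.single i x₀ : MX m), (0 : ℝ × ℝ × ℝ × ℝ)) + ((-Pi.single i x₀ : MX m), 0))
            + (y • mN m μ i + y • mN m μ i) := by abel
        _ = _ := by rw [this, zero_add]
    have h6 : (2 * y) • A (mN m μ i) = ((Pi.single j (e • (r₁ + r₂)) : MX m'), 0) +
        (2 * y * (c / e)) • mN m' μ' j := by
      rw [← map_smul, ← h5, map_add, hA₁, hA₂, ← smul_add]
      unfold vv
      rw [hy₁, hy₂, Pi.single_smul, Pi.single_add]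
      have e1 : ((e • (Pi.single j r₁ + Pi.single j r₂) : MX m'), (0 : ℝ × ℝ × ℝ × ℝ)) =
          e • (((Pi.single j r₁ : MX m'), (0 : ℝ × ℝ × ℝ × ℝ)) + ((Pi.single j r₂ : MX m'), 0)) := by
        rw [Prod.mk_add_mk, Prod.smul_mk, add_zero, smul_zero]
      rw [e1]
      have e2 : (2 * y * (c / e)) • mN m' μ' j =
          e • ((c / e ^ 2 * y) • mN m' μ' j + (c / e ^ 2 * y) • mN m' μ' j) := by
        rw [← add_smul, smul_smul]
        congr 1
        field_simp
        ring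
      rw [e2, ← smul_add]
      congr 1
      abel
    refine ⟨((2 * y)⁻¹ * e) • (r₁ + r₂), ?_⟩
    have h2y : 2 * y ≠ 0 := mul_ne_zero two_ne_zero hy0
    have h7 := congrArg (fun z => (2 * y)⁻¹ • z) h6
    simp only [smul_smul, inv_mul_cancel₀ h2y, one_smul, smul_add] at h7
    rw [h7]
    congr 1
    · rw [Prod.smul_mk, smul_zero, mul_smul, Pi.single_smul]
      simp [smul_add]
    · congr 1
      field_simp
  refine ⟨?_, hP2⟩
  obtain ⟨w, hw⟩ := hP2
  have hsmall : ∀ x, ‖x‖ < δ → ∃ r, A (Pi.single i x, 0) = (Pi.single j r, 0) := by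
    intro x hx
    obtain ⟨h1, r, hr, hAr⟩ := H x hx
    have hyr := hy _ _ h1 hr hAr
    set y := yfun (μ i) (‖x‖ ^ 2) with hyd
    refine ⟨e • r - y • w, ?_⟩
    have h2 : ((Pi.single i x : MX m), (0 : ℝ × ℝ × ℝ × ℝ)) = vv m μ i x - y • mN m μ i := by
      unfold vv
      rw [← hyd]; abel
    rw [h2, map_sub, map_smul, hAr, hw]
    unfold vv
    rw [hyr, Pi.single_sub, Pi.single_smul, Pi.single_smul]
    have e1 : ((e • (Pi.single j r : MX m') - y • (Pi.single j w : MX m') : MX m'),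
        (0 : ℝ × ℝ × ℝ × ℝ)) =
        e • ((Pi.single j r : MX m'), (0 : ℝ × ℝ × ℝ × ℝ)) - y • ((Pi.single j w : MX m'), 0) := by
      refine Prod.ext ?_ ?_ <;> simp
    rw [e1, smul_add, smul_add, smul_smul, smul_smul]
    have e2 : e * (c / e ^ 2 * y) = y * (c / e) := by field_simp
    rw [e2]
    abel
  intro x
  have hx1 : 0 < ‖x‖ + 1 := by positivity
  obtain ⟨r, hr⟩ := hsmall ((δ / (‖x‖ + 1)) • x) (by
    rw [norm_smul, Real.norm_of_nonneg (by positivity), div_mul_eq_mul_div, div_lt_iff₀ hx1]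
    nlinarith [norm_nonneg x])
  refine ⟨((‖x‖ + 1) / δ) • r, ?_⟩
  have e3 : ((Pi.single i x : MX m), (0 : ℝ × ℝ × ℝ × ℝ)) =
      ((‖x‖ + 1) / δ) • ((Pi.single i ((δ / (‖x‖ + 1)) • x) : MX m), (0 : ℝ × ℝ × ℝ × ℝ)) := by
    rw [Prod.smul_mk, smul_zero, ← Pi.single_smul, smul_smul]
    have : (‖x‖ + 1) / δ * (δ / (‖x‖ + 1)) = 1 := by field_simp
    rw [this, one_smul]
  rw [e3, map_smul, hr, Prod.smul_mk, smul_zero, Pi.single_smul]

/-! ### the lines of curvature vectors -/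

theorem perm_of_lines {V V' : Type} [AddCommGroup V] [Module ℝ V] [AddCommGroup V'] [Module ℝ V']
    {k : Fin 3 → V} {k' : Fin 3 → V'} (hs : k 0 + k 1 + k 2 = 0) (hs' : k' 0 + k' 1 + k' 2 = 0)
    (hl : LinearIndependent ℝ ![k 0, k 1]) (hl' : LinearIndependent ℝ ![k' 0, k' 1])
    (A : V ≃ₗ[ℝ] V') (h : ∀ i, ∃ j, ∃ a : ℝ, A (k i) = a • k' j) :
    ∃ (π : Equiv.Perm (Fin 3)) (a : ℝ), a ≠ 0 ∧ ∀ i, A (k i) = a • k' (π i) := by
  have hk2 : k 2 = -k 0 - k 1 := by
    rw [eq_sub_iff_add_eq, eq_neg_iff_add_eq_zero, ← hs]; abel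
  have hk2' : k' 2 = -k' 0 - k' 1 := by
    rw [eq_sub_iff_add_eq, eq_neg_iff_add_eq_zero, ← hs']; abel
  have hli := LinearIndependent.pair_iff.1 hl
  have hli' := LinearIndependent.pair_iff.1 hl'
  have hpair : ∀ i j, i ≠ j → ∀ x y : ℝ, x • k i + y • k j = 0 → x = 0 ∧ y = 0 := by
    intro i j hij x y hxy
    fin_cases i <;> fin_cases j <;> simp only [Fin.zero_eta, Fin.mk_one, Fin.reduceFinMk, ne_eq,
      not_true_eq_false] at hij hxy
    · exact hli x y hxy
    · have := hli (x - y) (-y) (by rw [← hxy, hk2]; module)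
      constructor <;> linarith [this.1, this.2]
    · have := hli y x (by rw [← hxy]; abel)
      exact ⟨this.2, this.1⟩
    · have := hli (-y) (x - y) (by rw [← hxy, hk2]; module)
      constructor <;> linarith [this.1, this.2]
    · have := hli (y - x) (-x) (by rw [← hxy, hk2]; module)
      constructor <;> linarith [this.1, this.2]
    · have := hli (-x) (y - x) (by rw [← hxy, hk2]; module)
      constructor <;> linarith [this.1, this.2]
  choose p a hp using h
  have hne3 : ∀ i : Fin 3, i ≠ i + 1 := by decide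
  have ha : ∀ i, a i ≠ 0 := by
    intro i h0
    have h1 : A (k i) = 0 := by rw [hp, h0, zero_smul]
    have h2 : k i = 0 := (LinearEquiv.map_eq_zero_iff A).1 h1
    have h3 := (hpair i (i + 1) (hne3 i) 1 0 (by rw [h2]; simp)).1
    exact one_ne_zero h3
  have hinj : Function.Injective p := by
    intro i j hij
    by_contra hne
    have h1 : A (a j • k i + (-a i) • k j) = 0 := by
      rw [map_add, map_smul, map_smul, hp, hp, hij]
      module
    exact ha j (hpair i j hne _ _ ((LinearEquiv.map_eq_zero_iff A).1 h1)).1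
  set π : Equiv.Perm (Fin 3) := Equiv.ofBijective p (Finite.injective_iff_bijective.1 hinj) with hπ
  have hπp : ∀ i, π i = p i := fun i => rfl
  have hsum : ∑ j, a (π.symm j) • k' j = 0 := by
    rw [← Equiv.sum_comp π]
    simp only [Equiv.symm_apply_apply]
    have : ∀ i, a i • k' (π i) = A (k i) := fun i => by rw [hp, hπp]
    simp only [this]
    rw [← map_sum, Fin.sum_univ_three, hs, map_zero]
  rw [Fin.sum_univ_three, hk2'] at hsum
  have h1 := hli' (a (π.symm 0) - a (π.symm 2)) (a (π.symm 1) - a (π.symm 2)) (by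
    rw [← hsum]; module)
  have hall : ∀ j, a (π.symm j) = a (π.symm 0) := by
    intro j
    fin_cases j
    · rfl
    · show a (π.symm 1) = _
      linarith [h1.1, h1.2]
    · show a (π.symm 2) = _
      linarith [h1.1, h1.2]
  refine ⟨π, a (π.symm 0), ha _, fun i => ?_⟩
  rw [hp, hπp]
  congr 1
  have := hall (π i)
  rwa [π.symm_apply_apply] at this

/-- the curvature vectors -/
noncomputable def kv (m : Fin 3 → ℕ) (μ : Fin 3 → ℝ) (s : MX m) (i : Fin 3) : MV m :=
  mb m μ (i + 1) s - mb m μ (i + 2) s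

theorem kv_sum (s : MX m) : kv m μ s 0 + kv m μ s 1 + kv m μ s 2 = 0 := by
  show (mb m μ 1 s - mb m μ 2 s) + (mb m μ 2 s - mb m μ 0 s) + (mb m μ 0 s - mb m μ 1 s) = 0
  abel

theorem kv_li (hμ : μ 0 + μ 1 + μ 2 = 0) {s : MX m} (hs : s ∈ mU m μ) :
    LinearIndependent ℝ ![kv m μ s 0, kv m μ s 1] := mb_li hs hμ

theorem kv_ne (hμ : μ 0 + μ 1 + μ 2 = 0) {s : MX m} (hs : s ∈ mU m μ) (i : Fin 3) :
    kv m μ s i ≠ 0 := by
  have h1 := LinearIndependent.pair_iff.1 (kv_li hμ hs)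
  have h2 := kv_sum (μ := μ) s
  intro h0
  fin_cases i
  · have := (h1 1 0 (by simpa using h0)).1
    exact one_ne_zero this
  · have := (h1 0 1 (by simpa using h0)).2
    exact one_ne_zero this
  · have h0' : kv m μ s 2 = 0 := h0
    rw [h0', add_zero] at h2
    have := (h1 1 1 (by simpa using h2)).1
    exact one_ne_zero this

theorem exists_perm_at (hm : ∀ i, 1 ≤ m i) (hm' : ∀ i, 1 ≤ m' i) (hμ : μ 0 + μ 1 + μ 2 = 0)
    (hμ' : μ' 0 + μ' 1 + μ' 2 = 0) (A : MV m ≃ₗ[ℝ] MV m') {φ : MX m → MX m'} {ψ : MX m' → MX m}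
    {N : Set (MX m)} {N' : Set (MX m')} (hd : Diffeo φ ψ N N') (hN : N ⊆ mU m μ)
    (hN' : N' ⊆ mU m' μ') (hL : ∀ y ∈ N, (mFam m μ y).map A.toLinearMap = mFam m' μ' (φ y))
    {s : MX m} (hs : s ∈ N) :
    ∃ (π : Equiv.Perm (Fin 3)) (a : ℝ), a ≠ 0 ∧
      ∀ i, A (kv m μ s i) = a • kv m' μ' (φ s) (π i) := by
  refine perm_of_lines (kv_sum s) (kv_sum (φ s)) (kv_li hμ (hN hs))
    (kv_li hμ' (hN' (hd.maps_left s hs))) A fun i => ?_
  have h1 : CurvVec (mFam m μ) s (kv m μ s i) :=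
    (curvVec_mFam_iff hμ hm (hN hs) _).2 ⟨kv_ne hμ (hN hs) i, i, 1, by rw [one_smul]; rfl⟩
  have h2 := h1.map A hd hs hL
  obtain ⟨_, j, a, h3⟩ := (curvVec_mFam_iff hμ' hm' (hN' (hd.maps_left s hs)) _).1 h2
  exact ⟨j, a, h3⟩

theorem continuousAt_kv {s : MX m} (hs : s ∈ mU m μ) (i : Fin 3) :
    ContinuousAt (fun s => kv m μ s i) s := by
  have h1 : ∀ l, ContinuousAt (mb m μ l) s := fun l =>
    ((smooth_mb (m := m) (μ := μ) l).continuousOn).continuousAt (isOpen_mU.mem_nhds hs)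
  exact (h1 _).sub (h1 _)

/-- the permutation is locally constant -/
theorem exists_perm_near (hm : ∀ i, 1 ≤ m i) (hm' : ∀ i, 1 ≤ m' i) (hμ : μ 0 + μ 1 + μ 2 = 0)
    (hμ' : μ' 0 + μ' 1 + μ' 2 = 0) (A : MV m ≃ₗ[ℝ] MV m') {φ : MX m → MX m'} {ψ : MX m' → MX m}
    {N : Set (MX m)} {N' : Set (MX m')} (hd : Diffeo φ ψ N N') (hN : N ⊆ mU m μ)
    (hN' : N' ⊆ mU m' μ') (hL : ∀ y ∈ N, (mFam m μ y).map A.toLinearMap = mFam m' μ' (φ y))
    {s₀ : MX m} (hs : s₀ ∈ N) :
    ∃ (π : Equiv.Perm (Fin 3)), ∀ᶠ s in 𝓝 s₀, s ∈ N ∧ ∃ a : ℝ, a ≠ 0 ∧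
      ∀ i, A (kv m μ s i) = a • kv m' μ' (φ s) (π i) := by
  obtain ⟨π, a, ha, hπ⟩ := exists_perm_at hm hm' hμ hμ' A hd hN hN' hL hs
  refine ⟨π, ?_⟩
  have hφc : ContinuousAt φ s₀ :=
    (hd.smooth_left.continuousOn).continuousAt (hd.isOpen_left.mem_nhds hs)
  have hAc : Continuous A := A.toLinearMap.continuous_of_finiteDimensional
  have hopen : ∀ i j, j ≠ π i → ∀ᶠ s in 𝓝 s₀,
      LinearIndependent ℝ ![A (kv m μ s i), kv m' μ' (φ s) j] := by
    intro i j hij
    have hc : ContinuousAt (fun s => (![A (kv m μ s i), kv m' μ' (φ s) j] : Fin 2 → MV m')) s₀ := by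
      refine continuousAt_pi.2 fun l => ?_
      fin_cases l
      · exact hAc.continuousAt.comp (continuousAt_kv (hN hs) i)
      · exact (continuousAt_kv (hN' (hd.maps_left s₀ hs)) j).comp hφc
    have h0 : LinearIndependent ℝ ![A (kv m μ s₀ i), kv m' μ' (φ s₀) j] := by
      rw [hπ i, LinearIndependent.pair_iff]
      intro x y hxy
      have hs' := hN' (hd.maps_left s₀ hs)
      have hk := LinearIndependent.pair_iff.1 (kv_li hμ' hs')
      have hk2 : kv m' μ' (φ s₀) 2 = -kv m' μ' (φ s₀) 0 - kv m' μ' (φ s₀) 1 := by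
        rw [eq_sub_iff_add_eq, eq_neg_iff_add_eq_zero, ← kv_sum (μ := μ') (φ s₀)]; abel
      rw [smul_smul] at hxy
      generalize π i = l at hxy hij
      have h5 : x * a = 0 ∧ y = 0 := by
        fin_cases l <;> fin_cases j <;> simp only [Fin.zero_eta, Fin.mk_one, Fin.reduceFinMk, ne_eq,
          not_true_eq_false] at hij hxy
        · exact hk _ _ hxy
        · have := hk (x * a - y) (-y) (by rw [← hxy, hk2]; module)
          constructor <;> linarith [this.1, this.2]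
        · have := hk y (x * a) (by rw [← hxy]; abel)
          exact ⟨this.2, this.1⟩
        · have := hk (-y) (x * a - y) (by rw [← hxy, hk2]; module)
          constructor <;> linarith [this.1, this.2]
        · have := hk (y - x * a) (-(x * a)) (by rw [← hxy, hk2]; module)
          constructor <;> linarith [this.1, this.2]
        · have := hk (-(x * a)) (y - x * a) (by rw [← hxy, hk2]; module)
          constructor <;> linarith [this.1, this.2]
      exact ⟨(mul_eq_zero.1 h5.1).resolve_right ha, h5.2⟩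
    exact hc.eventually (isOpen_setOfPred_linearIndependent.mem_nhds h0)
  have hall : ∀ᶠ s in 𝓝 s₀, ∀ i j, j ≠ π i →
      LinearIndependent ℝ ![A (kv m μ s i), kv m' μ' (φ s) j] := by
    rw [Filter.eventually_all]
    intro i
    rw [Filter.eventually_all]
    intro j
    by_cases hij : j = π i
    · exact Filter.Eventually.of_forall fun s h => absurd hij h
    · filter_upwards [hopen i j hij] with s hs _ using hs
  filter_upwards [hall, hd.isOpen_left.mem_nhds hs] with s h1 h2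
  refine ⟨h2, ?_⟩
  obtain ⟨π', a', ha', hπ'⟩ := exists_perm_at hm hm' hμ hμ' A hd hN hN' hL h2
  refine ⟨a', ha', fun i => ?_⟩
  rw [hπ' i]
  by_cases h3 : π' i = π i
  · rw [h3]
  · exfalso
    have h4 := LinearIndependent.pair_iff.1 (h1 i (π' i) h3) 1 (-a') (by
      rw [hπ' i]; module)
    exact one_ne_zero h4.1

theorem kv_congr {s t : MX m} (i : Fin 3) (h1 : s (i + 1) = t (i + 1)) (h2 : s (i + 2) = t (i + 2)) :
    kv m μ s i = kv m μ t i := by
  unfold kv
  rw [mb_eq_vv, mb_eq_vv, mb_eq_vv, mb_eq_vv, h1, h2]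

theorem kv_two (s : MX m) (i : Fin 3) : kv m μ s (i + 2) = mb m μ i s - mb m μ (i + 1) s := by
  have e1 : ∀ i : Fin 3, i + 2 + 1 = i := by decide
  have e2 : ∀ i : Fin 3, i + 2 + 2 = i + 1 := by decide
  unfold kv
  rw [e1, e2]

theorem kv_one (s : MX m) (i : Fin 3) : kv m μ s (i + 1) = mb m μ (i + 2) s - mb m μ i s := by
  have e1 : ∀ i : Fin 3, i + 1 + 1 = i + 2 := by decide
  have e2 : ∀ i : Fin 3, i + 1 + 2 = i := by decide
  unfold kv
  rw [e1, e2]

theorem kv_fst (s : MX m) (i : Fin 3) :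
    (kv m μ s i).1 = Pi.single (i + 1) (s (i + 1)) - Pi.single (i + 2) (s (i + 2)) := by
  unfold kv
  rw [mb_eq_vv, mb_eq_vv, Prod.fst_sub, Prod.fst_add, Prod.fst_add, mBase_fst, mBase_fst, vv_fst,
    vv_fst, zero_add, zero_add]

/-- The displacement vectors correspond. -/
theorem inv_disp (hμ' : μ' 0 + μ' 1 + μ' 2 = 0) (A : MV m ≃ₗ[ℝ] MV m') {φ : MX m → MX m'}
    {a a' : ℝ} (ha' : a' ≠ 0) (π : Equiv.Perm (Fin 3))
    (h0 : ∀ i, A (kv m μ 0 i) = a • kv m' μ' 0 (π i)) (i : Fin 3)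
    (x : EuclideanSpace ℝ (Fin (m i)))
    (hs : ∀ l, A (kv m μ (Pi.single i x) l) = a' • kv m' μ' (φ (Pi.single i x)) (π l)) :
    A (vv m μ i x) = (if π (i + 2) = π i + 2 then a else -a) •
      vv m' μ' (π i) (φ (Pi.single i x) (π i)) := by
  have n1 : ∀ i : Fin 3, i + 1 ≠ i := by decide
  have n2 : ∀ i : Fin 3, i + 2 ≠ i := by decide
  have n3 : ∀ i : Fin 3, i + 1 ≠ i + 2 := by decide
  have n4 : ∀ j k : Fin 3, k ≠ j → k = j + 1 ∨ k = j + 2 := by decide
  set s : MX m := Pi.single i x with hsd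
  set t := φ s with ht
  set j := π i with hj
  have hsi : s i = x := by rw [hsd, Pi.single_eq_same]
  have hs1 : s (i + 1) = 0 := by rw [hsd, Pi.single_eq_of_ne (n1 i)]
  have hs2 : s (i + 2) = 0 := by rw [hsd, Pi.single_eq_of_ne (n2 i)]
  have h1 : kv m μ s i = kv m μ 0 i := kv_congr i (by rw [hs1]; rfl) (by rw [hs2]; rfl)
  have h2 : a' • kv m' μ' t j = a • kv m' μ' 0 j := by
    rw [← hs i, h1, h0]
  have h3 : a' • ((Pi.single (j + 1) (t (j + 1)) : MX m') - Pi.single (j + 2) (t (j + 2))) = 0 := by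
    have := congrArg Prod.fst h2
    rw [Prod.smul_fst, Prod.smul_fst, kv_fst, kv_fst] at this
    rw [this]
    simp
  have h4 := (smul_eq_zero.1 h3).resolve_left ha'
  have ht1 : t (j + 1) = 0 := by
    have := congrFun h4 (j + 1)
    rw [Pi.sub_apply, Pi.single_eq_same, Pi.single_eq_of_ne (n3 j), sub_zero] at this
    exact this
  have ht2 : t (j + 2) = 0 := by
    have := congrFun h4 (j + 2)
    rw [Pi.sub_apply, Pi.single_eq_same, Pi.single_eq_of_ne (n3 j).symm, zero_sub] at this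
    exact neg_eq_zero.1 this
  have h5 : kv m' μ' t j = kv m' μ' 0 j := kv_congr j (by rw [ht1]; rfl) (by rw [ht2]; rfl)
  have h6 : a' = a := by
    rw [h5] at h2
    exact smul_left_injective ℝ (kv_ne hμ' (zero_mem_mU m' μ') j) h2
  have h7 : kv m μ s (i + 2) - kv m μ 0 (i + 2) = vv m μ i x := by
    rw [kv_two, kv_two, mb_eq_vv, mb_eq_vv, mb_eq_vv, mb_eq_vv, hsi, hs1]
    simp only [Pi.zero_apply, vv_zero]
    abel
  have h8 : A (vv m μ i x) = a • (kv m' μ' t (π (i + 2)) - kv m' μ' 0 (π (i + 2))) := by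
    rw [← h7, map_sub, hs, h0, h6, smul_sub]
  rw [h8]
  split_ifs with hif
  · rw [hif, kv_two, kv_two, mb_eq_vv, mb_eq_vv, mb_eq_vv, mb_eq_vv, ht1]
    simp only [Pi.zero_apply, vv_zero]
    congr 1
    abel
  · have h9 : π (i + 2) = j + 1 :=
      (n4 j (π (i + 2)) (fun h => n2 i (π.injective h))).resolve_right hif
    rw [h9, kv_one, kv_one, mb_eq_vv, mb_eq_vv, mb_eq_vv, mb_eq_vv, ht2]
    simp only [Pi.zero_apply, vv_zero]
    module

/-- **Module INV.** -/
theorem canonical_inv (hm : ∀ i, 1 ≤ m i) (hm' : ∀ i, 1 ≤ m' i) (hμ : μ 0 + μ 1 + μ 2 = 0)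
    (hμ' : μ' 0 + μ' 1 + μ' 2 = 0)
    (h : ConfEqAt (mForm m μ) (mFam m μ) (mU m μ) 0 (mForm m' μ') (mFam m' μ') (mU m' μ') 0) :
    ∃ (π : Equiv.Perm (Fin 3)) (c : ℝ), 0 < c ∧ ∀ i, m' (π i) = m i ∧ μ' (π i) = c * μ i := by
  obtain ⟨A, ⟨c, hc, hA⟩, φ, ψ, N, N', hd, h0N, hN, hN', hφ0, hL⟩ := h
  obtain ⟨π, hπ⟩ := exists_perm_near hm hm' hμ hμ' A hd hN hN' hL h0N
  obtain ⟨δ, hδ, hball⟩ := Metric.eventually_nhds_iff_ball.1 hπ
  obtain ⟨_, a, ha, ha0⟩ := hball 0 (Metric.mem_ball_self hδ)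
  rw [hφ0] at ha0
  set e : Fin 3 → ℝ := fun i => if π (i + 2) = π i + 2 then a else -a with hed
  have he2 : ∀ i, e i ^ 2 = a ^ 2 := by
    intro i
    show (if π (i + 2) = π i + 2 then a else -a) ^ 2 = a ^ 2
    split_ifs
    · rfl
    · rw [neg_sq]
  have he0 : ∀ i, e i ≠ 0 := by
    intro i h0
    have := he2 i
    rw [h0] at this
    exact pow_ne_zero 2 ha (by rw [← this]; ring)
  have hH : ∀ i, ∀ x : EuclideanSpace ℝ (Fin (m i)), ‖x‖ < δ → μ i * ‖x‖ ^ 2 < 1 ∧
      ∃ r, μ' (π i) * ‖r‖ ^ 2 < 1 ∧ A (vv m μ i x) = e i • vv m' μ' (π i) r := by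
    intro i x hx
    have hsb : (Pi.single i x : MX m) ∈ Metric.ball (0 : MX m) δ := by
      rw [mem_ball_zero_iff, pi_norm_lt_iff hδ]
      intro l
      by_cases hl : l = i
      · subst hl
        rw [Pi.single_eq_same]; exact hx
      · rw [Pi.single_eq_of_ne hl, norm_zero]; exact hδ
    obtain ⟨hsN, a', ha', hs'⟩ := hball _ hsb
    refine ⟨?_, φ (Pi.single i x) (π i), hN' (hd.maps_left _ hsN) (π i), ?_⟩
    · have := hN hsN i
      rwa [Pi.single_eq_same] at this
    · exact inv_disp hμ' A ha' π ha0 i x hs'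
  have hcore := fun i => inv_core hμ hμ' A hA (he0 i) hδ i (π i) (hm i) (hH i)
  -- the linear maps
  set T : ∀ i, EuclideanSpace ℝ (Fin (m i)) →ₗ[ℝ] EuclideanSpace ℝ (Fin (m' (π i))) := fun i =>
    (LinearMap.proj (π i)) ∘ₗ (LinearMap.fst ℝ (MX m') (ℝ × ℝ × ℝ × ℝ)) ∘ₗ A.toLinearMap ∘ₗ
      (LinearMap.inl ℝ (MX m) (ℝ × ℝ × ℝ × ℝ)) ∘ₗ
      (LinearMap.single ℝ (fun i => EuclideanSpace ℝ (Fin (m i))) i) with hT
  have hTa : ∀ i x, T i x = (A (Pi.single i x, 0)).1 (π i) := fun i x => rfl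
  have hAT : ∀ i x, A (Pi.single i x, 0) = (Pi.single (π i) (T i x), 0) := by
    intro i x
    obtain ⟨r, hr⟩ := (hcore i).1 x
    rw [hTa, hr]
    simp
  have hTinj : ∀ i, Function.Injective (T i) := by
    intro i
    rw [← LinearMap.ker_eq_bot, LinearMap.ker_eq_bot']
    intro x hx
    have h1 := hAT i x
    rw [hx, Pi.single_zero] at h1
    have h2 : ((Pi.single i x : MX m), (0 : ℝ × ℝ × ℝ × ℝ)) = 0 :=
      (LinearEquiv.map_eq_zero_iff A).1 h1
    have h3 := congrFun (congrArg Prod.fst h2) i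
    simpa using h3
  have hle : ∀ i, m i ≤ m' (π i) := by
    intro i
    have := LinearMap.finrank_le_finrank_of_injective (hTinj i)
    simpa using this
  have hsum : ∑ i, m i = ∑ i, m' (π i) := by
    rw [Equiv.sum_comp π m', Fin.sum_univ_three, Fin.sum_univ_three]
    have h1 := A.finrank_eq
    rw [finrank_MV, finrank_MV, finrank_MX, finrank_MX] at h1
    omega
  have heq : ∀ i, m i = m' (π i) := by
    have := (Finset.sum_eq_sum_iff_of_le (fun i _ => hle i)).1 hsum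
    exact fun i => this i (Finset.mem_univ i)
  have hTsurj : ∀ i, Function.Surjective (T i) := by
    intro i
    have h1 : finrank ℝ (EuclideanSpace ℝ (Fin (m i))) =
        finrank ℝ (EuclideanSpace ℝ (Fin (m' (π i)))) := by
      simp [heq i]
    exact (LinearMap.injective_iff_surjective_of_finrank_eq_finrank h1).1 (hTinj i)
  refine ⟨π, a ^ 2 / c, by positivity, fun i => ⟨(heq i).symm, ?_⟩⟩
  obtain ⟨w, hw⟩ := (hcore i).2
  have hw0 : w = 0 := by
    obtain ⟨x, hx⟩ := hTsurj i w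
    have h1 := hA (mN m μ i) (Pi.single i x, 0)
    rw [hAT, hx, hw, mForm_comm, mForm_single_left, mForm_comm, mForm_single_left, mN_fst] at h1
    simp only [Pi.zero_apply, inner_zero_right, mul_zero, Prod.fst_add, Prod.smul_fst, mN_fst,
      smul_zero, add_zero, Pi.single_eq_same] at h1
    exact inner_self_eq_zero.1 h1
  have h1 := hA (mN m μ i) (mN m μ i)
  rw [hw, hw0, Pi.single_zero] at h1
  have e1 : (((0 : MX m'), (0 : ℝ × ℝ × ℝ × ℝ)) : MV m') = 0 := rfl
  rw [e1, zero_add, map_smul, map_smul, LinearMap.smul_apply, mN_mN hμ', mN_mN hμ, if_pos rfl,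
    if_pos rfl, smul_eq_mul, smul_eq_mul] at h1
  rw [← he2 i]
  have h2 := he0 i
  have hc' := hc.ne'
  field_simp at h1 ⊢
  linarith

end

end DupinClass

end S_Inv

section S_Rel

open scoped RealInnerProductSpace ContDiff Topology
open Module Set

namespace DupinClass

section

variable {m m' : Fin 3 → ℕ} {μ μ' : Fin 3 → ℝ}

/-- combinations of three affinely independent points -/
theorem rel_li_aux {V : Type} [AddCommGroup V] [Module ℝ V] (P : Fin 3 → V)
    (h : LinearIndependent ℝ ![P 1 - P 2, P 2 - P 0]) (w : Fin 3 → ℝ) (hw : ∑ i, w i = 0)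
    (hs : ∑ i, w i • P i = 0) : ∀ i, w i = 0 := by
  rw [LinearIndependent.pair_iff] at h
  rw [Fin.sum_univ_three] at hw hs
  have h0 : w 0 = -(w 1 + w 2) := by linarith
  have h1 := h (w 1) (w 1 + w 2) (by
    rw [← hs, h0]
    module)
  intro i
  fin_cases i
  · simp only [Fin.zero_eta, Fin.isValue]; linarith [h1.2]
  · exact h1.1
  · simp only [Fin.reduceFinMk]; linarith [h1.1, h1.2]

theorem yfun_zero_rel (a : ℝ) : yfun a 0 = 0 := by simp [yfun]

theorem mb_zero (i : Fin 3) : mb m μ i 0 = mBase m i := by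
  simp [mb, yfun_zero_rel]

/-- the linear part of the canonical triple at zero -/
noncomputable def relD (m : Fin 3 → ℕ) (i : Fin 3) : MX m →L[ℝ] MV m :=
  (ContinuousLinearMap.inl ℝ (MX m) (ℝ × ℝ × ℝ × ℝ)).comp
    ((ContinuousLinearMap.single ℝ (fun i : Fin 3 => EuclideanSpace ℝ (Fin (m i))) i).comp
      (ContinuousLinearMap.proj i))

theorem relD_apply (i : Fin 3) (v : MX m) : relD m i v = (Pi.single i (v i), 0) := rfl

theorem yfun_hasDeriv (a : ℝ) : DifferentiableAt ℝ (yfun a) 0 := by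
  unfold yfun
  apply DifferentiableAt.div
  · exact differentiableAt_id.neg
  · apply DifferentiableAt.add (differentiableAt_const _)
    apply DifferentiableAt.sqrt
    · exact (differentiableAt_const _).sub (differentiableAt_id.const_mul _)
    · simp
  · simp

theorem mb_hasFDerivAt_zero (i : Fin 3) :
    HasFDerivAt (mb m μ i) (relD m i) 0 := by
  have h1 : HasFDerivAt (fun s : MX m => ‖s i‖ ^ 2) (0 : MX m →L[ℝ] ℝ) 0 := by
    have h2 : HasFDerivAt (fun s : MX m => s i)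
        (ContinuousLinearMap.proj (R := ℝ) (φ := fun i : Fin 3 => EuclideanSpace ℝ (Fin (m i))) i)
        0 := (ContinuousLinearMap.proj (R := ℝ)
          (φ := fun i : Fin 3 => EuclideanSpace ℝ (Fin (m i))) i).hasFDerivAt
    have h3 := h2.norm_sq
    refine h3.congr_fderiv ?_
    ext v
    simp
  have h4 : HasFDerivAt (fun s : MX m => yfun (μ i) (‖s i‖ ^ 2)) (0 : MX m →L[ℝ] ℝ) 0 := by
    have h5 : HasFDerivAt (yfun (μ i)) (fderiv ℝ (yfun (μ i)) 0) (‖(0 : MX m) i‖ ^ 2) := by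
      have : ‖(0 : MX m) i‖ ^ 2 = 0 := by simp
      rw [this]
      exact (yfun_hasDeriv (μ i)).hasFDerivAt
    have h6 := h5.comp (0 : MX m) h1
    refine h6.congr_fderiv ?_
    ext v
    simp
  have h7 : HasFDerivAt (fun s : MX m => yfun (μ i) (‖s i‖ ^ 2) • mN m μ i)
      (0 : MX m →L[ℝ] MV m) 0 := by
    have := h4.smul_const (mN m μ i)
    refine this.congr_fderiv ?_
    ext v <;> simp
  have h8 : HasFDerivAt (fun s : MX m => mBase m i + relD m i s) (relD m i) 0 :=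
    (relD m i).hasFDerivAt.const_add _
  have h9 := h8.add h7
  rw [add_zero] at h9
  exact h9

theorem mForm_mN_single (i j : Fin 3) (v : MX m) :
    mForm m μ (mN m μ i) (Pi.single j (v j), 0) = 0 := by
  fin_cases i <;> simp [mForm, mN]

theorem rel_finrank (hμ : μ 0 + μ 1 + μ 2 = 0) (i : Fin 3) :
    finrank ℝ (fderiv ℝ (mb m μ i) 0).toLinearMap.range = m i := by
  rw [(mb_hasFDerivAt_zero (m := m) (μ := μ) i).fderiv]
  have h1 := LinearMap.finrank_range_add_finrank_ker (relD m i).toLinearMap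
  let p : MX m →ₗ[ℝ] EuclideanSpace ℝ (Fin (m i)) := LinearMap.proj i
  have h2 := LinearMap.finrank_range_add_finrank_ker p
  have hsurj : Function.Surjective p := LinearMap.proj_surjective i
  have hker : LinearMap.ker (relD m i).toLinearMap = LinearMap.ker p := by
    ext v
    rw [LinearMap.mem_ker, LinearMap.mem_ker]
    show relD m i v = 0 ↔ v i = 0
    rw [relD_apply, Prod.mk_eq_zero]
    simp
  rw [LinearMap.range_eq_top.2 hsurj, finrank_top, finrank_euclideanSpace, Fintype.card_fin] at h2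
  rw [hker] at h1
  omega

/-- the scaled and permuted canonical triple -/
noncomputable def relB (m' : Fin 3 → ℕ) (μ' : Fin 3 → ℝ) (π : Equiv.Perm (Fin 3)) (r : ℝ)
    (i : Fin 3) (s : MX m') : MV m' := r • mb m' μ' (π i) s

theorem relB_fderiv (π : Equiv.Perm (Fin 3)) (r : ℝ) (i : Fin 3) :
    fderiv ℝ (relB m' μ' π r i) 0 = r • relD m' (π i) :=
  ((mb_hasFDerivAt_zero (m := m') (μ := μ') (π i)).const_smul r).fderiv

theorem rel_triFam (π : Equiv.Perm (Fin 3)) {r : ℝ} (hr : r ≠ 0) :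
    triFam (relB m' μ' π r) = mFam m' μ' := by
  funext s
  unfold mFam triFam
  apply le_antisymm
  · rw [Submodule.span_le]
    rintro _ ⟨⟨i, j⟩, rfl⟩
    show r • mb m' μ' (π i) s - r • mb m' μ' (π j) s ∈ _
    rw [← smul_sub]
    exact Submodule.smul_mem _ _ (Submodule.subset_span ⟨(π i, π j), rfl⟩)
  · rw [Submodule.span_le]
    rintro _ ⟨⟨i, j⟩, rfl⟩
    have h : mb m' μ' i s - mb m' μ' j s =
        r⁻¹ • (relB m' μ' π r (π.symm i) s - relB m' μ' π r (π.symm j) s) := by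
      unfold relB
      rw [Equiv.apply_symm_apply, Equiv.apply_symm_apply, ← smul_sub, smul_smul,
        inv_mul_cancel₀ hr, one_smul]
    show mb m' μ' i s - mb m' μ' j s ∈ _
    rw [h]
    exact Submodule.smul_mem _ _ (Submodule.subset_span ⟨(π.symm i, π.symm j), rfl⟩)

theorem rel_tripleHyp (hμ' : μ' 0 + μ' 1 + μ' 2 = 0) (hm' : ∀ i, 1 ≤ m' i)
    (π : Equiv.Perm (Fin 3)) {r : ℝ} (hr : r ≠ 0) :
    TripleHyp (mForm m' μ') (relB m' μ' π r) (mU m' μ') 0 := by
  have h := mb_tripleHyp (m := m') (μ := μ') hμ' hm' (zero_mem_mU m' μ')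
  have hD : ∀ i, fderiv ℝ (mb m' μ' i) 0 = relD m' i := fun i =>
    (mb_hasFDerivAt_zero (m := m') (μ := μ') i).fderiv
  refine ⟨h.symm, h.nondeg, h.dim, h.isOpen_U, h.mem, fun i => (h.smooth (π i)).const_smul r,
    ?_, ?_, ?_, ?_, ?_⟩
  · intro i j hij x hx y hy
    have h1 := h.null (π i) (π j) (fun e => hij (π.injective e)) x hx y hy
    unfold relB
    rw [← smul_sub, map_smul, map_smul, LinearMap.smul_apply, h1, smul_zero, smul_zero]
  · intro i v hv
    rw [relB_fderiv] at hv ⊢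
    have h0 : relD m' (π i) v ≠ 0 := fun e => hv (by
      rw [_root_.smul_apply, e, smul_zero])
    have h1 := h.pos (π i) v (by rw [hD]; exact h0)
    rw [hD] at h1
    rw [_root_.smul_apply, map_smul, map_smul, LinearMap.smul_apply, smul_eq_mul,
      smul_eq_mul, ← mul_assoc]
    exact mul_pos (mul_self_pos.2 hr) h1
  · intro i
    rw [relB_fderiv]
    have h1 := h.ne (π i)
    rw [hD] at h1
    exact smul_ne_zero hr h1
  · intro v hv
    apply h.inj
    intro i
    have h1 := hv (π.symm i)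
    rw [relB_fderiv, Equiv.apply_symm_apply, _root_.smul_apply] at h1
    rw [hD]
    exact (smul_eq_zero.1 h1).resolve_left hr
  · rw [LinearIndependent.pair_iff]
    intro a b hab
    have h1 := rel_li_aux (fun i => mb m' μ' i 0) h.li (fun j => ![-b, a, b - a] (π.symm j))
      (by
        rw [Equiv.sum_comp π.symm (fun i => (![-b, a, b - a] : Fin 3 → ℝ) i),
          Fin.sum_univ_three]
        simp)
      (by
        have h2 : ∑ j, (![-b, a, b - a] : Fin 3 → ℝ) (π.symm j) • mb m' μ' j 0 =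
            ∑ i, (![-b, a, b - a] : Fin 3 → ℝ) i • mb m' μ' (π i) 0 := by
          rw [← Equiv.sum_comp π.symm
            (fun i => (![-b, a, b - a] : Fin 3 → ℝ) i • mb m' μ' (π i) 0)]
          simp
        rw [h2, Fin.sum_univ_three]
        have h3 : r • ((-b) • mb m' μ' (π 0) 0 + a • mb m' μ' (π 1) 0 +
            (b - a) • mb m' μ' (π 2) 0) = 0 := by
          rw [← hab]
          unfold relB
          module
        have h4 := (smul_eq_zero.1 h3).resolve_left hr
        simpa using h4)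
    have h2 := h1 (π 0)
    have h3 := h1 (π 1)
    rw [Equiv.symm_apply_apply] at h2 h3
    simp only [Matrix.cons_val_zero, Matrix.cons_val_one, neg_eq_zero] at h2 h3
    exact ⟨h3, h2⟩

/-- **Module REL.** -/
theorem canonical_rel (hm : ∀ i, 1 ≤ m i) (hμ : μ 0 + μ 1 + μ 2 = 0)
    (π : Equiv.Perm (Fin 3)) {c : ℝ} (hc : 0 < c)
    (h : ∀ i, m' (π i) = m i ∧ μ' (π i) = c * μ i) :
    ConfEqAt (mForm m μ) (mFam m μ) (mU m μ) 0 (mForm m' μ') (mFam m' μ') (mU m' μ') 0 := by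
  have hμ' : μ' 0 + μ' 1 + μ' 2 = 0 := by
    have h1 : ∑ i, μ' (π i) = ∑ i, μ' i := Equiv.sum_comp π μ'
    rw [Fin.sum_univ_three, Fin.sum_univ_three, (h 0).2, (h 1).2, (h 2).2] at h1
    rw [← h1]
    linear_combination c * hμ
  have hm' : ∀ i, 1 ≤ m' i := by
    intro i
    have h1 := (h (π.symm i)).1
    rw [Equiv.apply_symm_apply] at h1
    rw [h1]
    exact hm _
  set r : ℝ := √c with hrdef
  have hr0 : 0 < r := Real.sqrt_pos.2 hc
  have hr : r ≠ 0 := hr0.ne'
  have hrr : r * r = c := Real.mul_self_sqrt hc.le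
  have hT := rel_tripleHyp (m' := m') (μ' := μ') hμ' hm' π hr
  have hrank : ∀ i, finrank ℝ (fderiv ℝ (relB m' μ' π r i) 0).toLinearMap.range = m i := by
    intro i
    rw [relB_fderiv]
    have h1 := rel_finrank (m := m') (μ := μ') hμ' (π i)
    rw [(mb_hasFDerivAt_zero (m := m') (μ := μ') (π i)).fderiv, (h i).1] at h1
    have h2 : (r • relD m' (π i) : MX m' →L[ℝ] MV m').toLinearMap =
        r • (relD m' (π i)).toLinearMap := rfl
    rw [h2, LinearMap.range_smul _ _ hr]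
    exact h1
  obtain ⟨μ'', hsum, hconf, hn⟩ := hT.confEq hrank
  have hμeq : μ'' = μ := by
    funext i
    have h1 := hn i (r⁻¹ • mN m' μ' (π i)) ⟨?_, ?_, ?_⟩
    · rw [h1, map_smul, map_smul, LinearMap.smul_apply, mN_mN hμ', if_pos rfl, (h i).2,
        smul_eq_mul, smul_eq_mul, ← hrr]
      field_simp
    · intro v
      rw [relB_fderiv, _root_.smul_apply, relD_apply, map_smul, map_smul,
        LinearMap.smul_apply, mForm_mN_single, smul_zero, smul_zero]
    · intro j hj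
      unfold relB
      rw [← smul_sub, map_smul, map_smul, LinearMap.smul_apply, mb_zero, mb_zero,
        mN_mBase _ _ (fun e => hj (π.injective e)), smul_smul, mul_inv_cancel₀ hr, one_smul]
    · refine Filter.Eventually.of_forall fun x => ⟨x, r * r * yfun (μ' (π i)) (‖x (π i)‖ ^ 2), ?_⟩
      rw [relB_fderiv, _root_.smul_apply, relD_apply]
      unfold relB
      rw [mb_zero]
      unfold mb
      have h5 : (r * r * yfun (μ' (π i)) (‖x (π i)‖ ^ 2)) • r⁻¹ • mN m' μ' (π i) =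
          r • (yfun (μ' (π i)) (‖x (π i)‖ ^ 2) • mN m' μ' (π i)) := by
        rw [smul_smul, smul_smul]
        congr 1
        field_simp
      rw [h5]
      module
  subst hμeq
  rw [rel_triFam π hr] at hconf
  exact hconf.symm

end

end DupinClass

end S_Rel
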