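import Mathlib
import Pool.Agent.H31.DC.D3
import Pool.Agent.H31.DC.D4

/-! Reducible Dupin hypersurfaces, part D5 (several modules joined to save build time). -/

section S_Prod

open scoped ContDiff Topology
open Module Set

namespace DupinClass

/-- linear left inverse along a complement -/
theorem exists_factor {Y V : Type} [NormedAddCommGroup Y] [NormedSpace ℝ Y]
    [FiniteDimensional ℝ Y] [NormedAddCommGroup V] [NormedSpace ℝ V] [FiniteDimensional ℝ V]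
    (A : Y →L[ℝ] V) (K : Submodule ℝ Y) (h : IsCompl A.toLinearMap.ker K) :
    ∃ P : V →L[ℝ] Y, (∀ v, P v ∈ K) ∧ (∀ y ∈ K, P (A y) = y) ∧
      ∀ y ∈ A.toLinearMap.ker, P (A y) = 0 := by
  have hinj : (A.toLinearMap ∘ₗ K.subtype).ker = ⊥ := by
    rw [LinearMap.ker_eq_bot']
    intro x hx
    have h1 : (x : Y) ∈ A.toLinearMap.ker := by simpa using hx
    have h2 := Submodule.disjoint_def.1 h.disjoint (x : Y) h1 x.2
    exact Subtype.ext h2
  obtain ⟨g, hg⟩ := LinearMap.exists_leftInverse_of_injective _ hinj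
  refine ⟨LinearMap.toContinuousLinearMap (K.subtype ∘ₗ g), fun v => ?_, fun y hy => ?_,
    fun y hy => ?_⟩
  · simp
  · have := LinearMap.congr_fun hg ⟨y, hy⟩
    simp only [LinearMap.comp_apply, Submodule.subtype_apply, LinearMap.id_apply] at this
    simp only [LinearMap.coe_toContinuousLinearMap', LinearMap.comp_apply]
    rw [show g (A y) = ⟨y, hy⟩ from this]
    rfl
  · have : A y = 0 := by simpa using hy
    rw [this, map_zero]

/-- **Module F1 (product lemma).** Let `z₁, z₂` be smooth on the open set `U ⊆ Y`, such that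
`ker dz₁(y) ⊕ ker dz₂(y) = Y` for all `y ∈ U`. Then every `y₀ ∈ U` has an open neighbourhood `N`
such that for all `y, y' ∈ N` there is `y'' ∈ U` with `z₁ y'' = z₁ y`, `z₂ y'' = z₂ y'`. -/
theorem exists_prod_nhd {Y V₁ V₂ : Type} [NormedAddCommGroup Y] [NormedSpace ℝ Y]
    [FiniteDimensional ℝ Y] [NormedAddCommGroup V₁] [NormedSpace ℝ V₁] [FiniteDimensional ℝ V₁]
    [NormedAddCommGroup V₂] [NormedSpace ℝ V₂] [FiniteDimensional ℝ V₂]
    {U : Set Y} (hU : IsOpen U) {z₁ : Y → V₁} {z₂ : Y → V₂}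
    (h₁ : ContDiffOn ℝ ∞ z₁ U) (h₂ : ContDiffOn ℝ ∞ z₂ U)
    (hc : ∀ y ∈ U, IsCompl (fderiv ℝ z₁ y).toLinearMap.ker (fderiv ℝ z₂ y).toLinearMap.ker)
    {y₀ : Y} (hy₀ : y₀ ∈ U) :
    ∃ N : Set Y, IsOpen N ∧ y₀ ∈ N ∧ N ⊆ U ∧
      ∀ y ∈ N, ∀ y' ∈ N, ∃ y'' ∈ U, z₁ y'' = z₁ y ∧ z₂ y'' = z₂ y' := by
  set K₁ := (fderiv ℝ z₁ y₀).toLinearMap.ker with hK₁
  set K₂ := (fderiv ℝ z₂ y₀).toLinearMap.ker with hK₂
  have hc0 : IsCompl K₁ K₂ := hc y₀ hy₀
  obtain ⟨P₁, hP₁, hP₁a, hP₁b⟩ := exists_factor (fderiv ℝ z₁ y₀) K₂ hc0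
  obtain ⟨P₂, hP₂, hP₂a, hP₂b⟩ := exists_factor (fderiv ℝ z₂ y₀) K₁ hc0.symm
  -- derivatives
  have hd₁ : ∀ y ∈ U, HasFDerivAt z₁ (fderiv ℝ z₁ y) y := fun y hy =>
    ((h₁.contDiffAt (hU.mem_nhds hy)).differentiableAt (by simp)).hasFDerivAt
  have hd₂ : ∀ y ∈ U, HasFDerivAt z₂ (fderiv ℝ z₂ y) y := fun y hy =>
    ((h₂.contDiffAt (hU.mem_nhds hy)).differentiableAt (by simp)).hasFDerivAt
  set Φ : Y → Y := fun y => P₁ (z₁ y) + P₂ (z₂ y) with hΦ
  have hΦd : ∀ y ∈ U, HasFDerivAt Φ (P₁ ∘L fderiv ℝ z₁ y + P₂ ∘L fderiv ℝ z₂ y) y := fun y hy =>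
    (P₁.hasFDerivAt.comp y (hd₁ y hy)).add (P₂.hasFDerivAt.comp y (hd₂ y hy))
  have hΦc : ContDiffOn ℝ ∞ Φ U :=
    (P₁.contDiff.comp_contDiffOn h₁).add (P₂.contDiff.comp_contDiffOn h₂)
  have hid : P₁ ∘L fderiv ℝ z₁ y₀ + P₂ ∘L fderiv ℝ z₂ y₀ = ContinuousLinearMap.id ℝ Y := by
    ext y
    obtain ⟨a, ha, b, hb, rfl⟩ := Submodule.mem_sup.1
      (show y ∈ K₁ ⊔ K₂ by rw [hc0.sup_eq_top]; trivial)
    simp only [add_apply, ContinuousLinearMap.comp_apply, map_add,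
      ContinuousLinearMap.id_apply]
    rw [hP₁a b hb, hP₁b a ha, hP₂a a ha, hP₂b b hb]
    simp
  have hstrict : HasStrictFDerivAt Φ ((ContinuousLinearEquiv.refl ℝ Y : Y ≃L[ℝ] Y) : Y →L[ℝ] Y) y₀ := by
    refine (hΦc.contDiffAt (hU.mem_nhds hy₀)).hasStrictFDerivAt' ?_ (by simp)
    have := hΦd y₀ hy₀
    rw [hid] at this
    exact this
  set e := hstrict.toOpenPartialHomeomorph Φ with he
  have he_coe : (e : Y → Y) = Φ := hstrict.toOpenPartialHomeomorph_coe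
  have he_mem : y₀ ∈ e.source := hstrict.mem_toOpenPartialHomeomorph_source
  -- the good region
  have hgood : ∀ᶠ y in 𝓝 y₀, y ∈ U ∧ y ∈ e.source ∧
      ∃ L : Y ≃L[ℝ] Y, (L : Y →L[ℝ] Y) = fderiv ℝ Φ y := by
    have hcont : ContinuousAt (fderiv ℝ Φ) y₀ :=
      (hΦc.continuousOn_fderiv_of_isOpen hU (by simp)).continuousAt (hU.mem_nhds hy₀)
    have h0 : fderiv ℝ Φ y₀ = ((ContinuousLinearEquiv.refl ℝ Y : Y ≃L[ℝ] Y) : Y →L[ℝ] Y) :=
      hstrict.hasFDerivAt.fderiv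
    have h1 : range ((↑) : (Y ≃L[ℝ] Y) → (Y →L[ℝ] Y)) ∈ 𝓝 (fderiv ℝ Φ y₀) := by
      rw [h0]; exact ContinuousLinearEquiv.nhds _
    filter_upwards [hU.mem_nhds hy₀, e.open_source.mem_nhds he_mem, hcont h1] with y a b c
    obtain ⟨L, hL⟩ := c
    exact ⟨a, b, L, hL⟩
  set w₀ := Φ y₀ with hw₀
  have hw₀t : w₀ ∈ e.target := by
    have := e.map_source he_mem
    rwa [he_coe] at this
  have hsymm0 : e.symm w₀ = y₀ := by
    have := e.left_inv he_mem
    rwa [he_coe] at this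
  have hgood2 : ∀ᶠ w in 𝓝 w₀, w ∈ e.target ∧ (e.symm w ∈ U ∧ e.symm w ∈ e.source ∧
      ∃ L : Y ≃L[ℝ] Y, (L : Y →L[ℝ] Y) = fderiv ℝ Φ (e.symm w)) := by
    have hc1 : ContinuousAt e.symm w₀ := e.symm.continuousAt hw₀t
    rw [ContinuousAt, hsymm0] at hc1
    filter_upwards [e.open_target.mem_nhds hw₀t, hc1.eventually hgood] with w a b
    exact ⟨a, b⟩
  obtain ⟨δ, hδ, hball⟩ := Metric.eventually_nhds_iff_ball.1 hgood2
  -- kernels
  have hker : ∀ y ∈ U, (∃ L : Y ≃L[ℝ] Y, (L : Y →L[ℝ] Y) = fderiv ℝ Φ y) →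
      (∀ x, P₁ (fderiv ℝ z₁ y x) = 0 → fderiv ℝ z₁ y x = 0) ∧
      (∀ x, P₂ (fderiv ℝ z₂ y x) = 0 → fderiv ℝ z₂ y x = 0) := by
    rintro y hy ⟨L, hL⟩
    set A₁ := fderiv ℝ z₁ y
    set A₂ := fderiv ℝ z₂ y
    have hfd : fderiv ℝ Φ y = P₁ ∘L A₁ + P₂ ∘L A₂ := (hΦd y hy).fderiv
    have hle₁ : A₁.toLinearMap.ker ≤ (P₁ ∘L A₁).toLinearMap.ker := by
      intro x hx
      have : A₁ x = 0 := by simpa using hx
      simp [this]
    have hle₂ : A₂.toLinearMap.ker ≤ (P₂ ∘L A₂).toLinearMap.ker := by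
      intro x hx
      have : A₂ x = 0 := by simpa using hx
      simp [this]
    have hdisj : (P₁ ∘L A₁).toLinearMap.ker ⊓ (P₂ ∘L A₂).toLinearMap.ker = ⊥ := by
      rw [eq_bot_iff]
      rintro x ⟨hx1, hx2⟩
      have h1 : P₁ (A₁ x) = 0 := by simpa using hx1
      have h2 : P₂ (A₂ x) = 0 := by simpa using hx2
      have h3 : L x = 0 := by
        have : (L : Y →L[ℝ] Y) x = (P₁ ∘L A₁ + P₂ ∘L A₂) x := by rw [hL, hfd]
        simpa [h1, h2] using this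
      simpa using h3
    have hd1 : finrank ℝ A₁.toLinearMap.ker + finrank ℝ A₂.toLinearMap.ker = finrank ℝ Y :=
      Submodule.finrank_add_eq_of_isCompl (hc y hy)
    have hd2 : finrank ℝ (P₁ ∘L A₁).toLinearMap.ker + finrank ℝ (P₂ ∘L A₂).toLinearMap.ker ≤
        finrank ℝ Y := by
      have := Submodule.finrank_sup_add_finrank_inf_eq (P₁ ∘L A₁).toLinearMap.ker
        (P₂ ∘L A₂).toLinearMap.ker
      rw [hdisj, finrank_bot, add_zero] at this
      rw [← this]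
      exact Submodule.finrank_le _
    have hf1 := Submodule.finrank_mono hle₁
    have hf2 := Submodule.finrank_mono hle₂
    have he1 : A₁.toLinearMap.ker = (P₁ ∘L A₁).toLinearMap.ker :=
      Submodule.eq_of_le_of_finrank_eq hle₁ (by omega)
    have he2 : A₂.toLinearMap.ker = (P₂ ∘L A₂).toLinearMap.ker :=
      Submodule.eq_of_le_of_finrank_eq hle₂ (by omega)
    constructor
    · intro x hx
      have : x ∈ (P₁ ∘L A₁).toLinearMap.ker := by simpa using hx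
      rw [← he1] at this
      simpa using this
    · intro x hx
      have : x ∈ (P₂ ∘L A₂).toLinearMap.ker := by simpa using hx
      rw [← he2] at this
      simpa using this
  -- continuous projections
  set p₁ : Y →L[ℝ] Y := P₁ ∘L fderiv ℝ z₁ y₀ with hp₁
  set p₂ : Y →L[ℝ] Y := P₂ ∘L fderiv ℝ z₂ y₀ with hp₂
  have hp : ∀ w, p₁ w + p₂ w = w := fun w => by
    have := DFunLike.congr_fun hid w
    simpa using this
  have hp₁K : ∀ w, p₁ w ∈ K₂ := fun w => hP₁ _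
  have hp₂K : ∀ w, p₂ w ∈ K₁ := fun w => hP₂ _
  have hp₁P : ∀ v, p₁ (P₁ v) = P₁ v := fun v => hP₁a _ (hP₁ v)
  have hp₁P' : ∀ v, p₁ (P₂ v) = 0 := fun v => hP₁b _ (hP₂ v)
  have hp₂P : ∀ v, p₂ (P₂ v) = P₂ v := fun v => hP₂a _ (hP₂ v)
  have hp₂P' : ∀ v, p₂ (P₁ v) = 0 := fun v => hP₂b _ (hP₁ v)
  -- `z₁` is constant along `K₁` segments of the ball
  have hderiv : ∀ w ∈ Metric.ball w₀ δ, ∃ S : Y →L[ℝ] Y, HasFDerivAt e.symm S w ∧
      (∀ x, p₁ x = 0 → fderiv ℝ z₁ (e.symm w) (S x) = 0) ∧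
      (∀ x, p₂ x = 0 → fderiv ℝ z₂ (e.symm w) (S x) = 0) := by
    intro w hw
    obtain ⟨ht, hUw, hsw, L, hL⟩ := hball w hw
    have hLd : HasFDerivAt e (L : Y →L[ℝ] Y) (e.symm w) := by
      rw [he_coe, hL]
      exact (hΦd _ hUw).differentiableAt.hasFDerivAt
    refine ⟨(L.symm : Y →L[ℝ] Y), e.hasFDerivAt_symm ht hLd, ?_, ?_⟩
    · intro x hx
      refine (hker _ hUw ⟨L, hL⟩).1 _ ?_
      have h1 : (L : Y →L[ℝ] Y) (L.symm x) = x := by simp
      rw [hL, (hΦd _ hUw).fderiv] at h1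
      have h2 := congrArg p₁ h1
      rw [hx] at h2
      simp only [add_apply, ContinuousLinearMap.comp_apply, map_add] at h2
      rw [hp₁P, hp₁P', add_zero] at h2
      exact h2
    · intro x hx
      refine (hker _ hUw ⟨L, hL⟩).2 _ ?_
      have h1 : (L : Y →L[ℝ] Y) (L.symm x) = x := by simp
      rw [hL, (hΦd _ hUw).fderiv] at h1
      have h2 := congrArg p₂ h1
      rw [hx] at h2
      simp only [add_apply, ContinuousLinearMap.comp_apply, map_add] at h2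
      rw [hp₂P, hp₂P', zero_add] at h2
      exact h2
  have hconst₁ : ∀ w ∈ Metric.ball w₀ δ, ∀ w' ∈ Metric.ball w₀ δ, p₁ (w' - w) = 0 →
      z₁ (e.symm w') = z₁ (e.symm w) := by
    intro w hw w' hw' hp0
    have hseg : ∀ t ∈ Icc (0 : ℝ) 1, w + t • (w' - w) ∈ Metric.ball w₀ δ := by
      intro t ht
      have := (convex_ball w₀ δ).add_smul_sub_mem hw hw' ht
      exact this
    have hD : ∀ t ∈ Icc (0 : ℝ) 1,
        HasDerivWithinAt (fun t : ℝ => z₁ (e.symm (w + t • (w' - w)))) 0 (Icc 0 1) t := by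
      intro t ht
      obtain ⟨S, hS, hS1, _⟩ := hderiv _ (hseg t ht)
      obtain ⟨_, hUw, _⟩ := hball _ (hseg t ht)
      have h1 : HasDerivAt (fun t : ℝ => w + t • (w' - w)) (w' - w) t := by
        have := ((hasDerivAt_id t).smul_const (w' - w)).const_add w
        simpa using this
      have h2 := hS.comp_hasDerivAt t h1
      have h3 := (hd₁ _ hUw).comp_hasDerivAt t h2
      rw [hS1 _ hp0] at h3
      exact h3.hasDerivWithinAt
    have hcst := constant_of_derivWithin_zero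
      (fun t ht => (hD t ht).differentiableWithinAt)
      (fun t ht => (hD t (Ico_subset_Icc_self ht)).derivWithin
        (uniqueDiffOn_Icc zero_lt_one t (Ico_subset_Icc_self ht))) 1 (right_mem_Icc.2 zero_le_one)
    simpa using hcst
  have hconst₂ : ∀ w ∈ Metric.ball w₀ δ, ∀ w' ∈ Metric.ball w₀ δ, p₂ (w' - w) = 0 →
      z₂ (e.symm w') = z₂ (e.symm w) := by
    intro w hw w' hw' hp0
    have hseg : ∀ t ∈ Icc (0 : ℝ) 1, w + t • (w' - w) ∈ Metric.ball w₀ δ := by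
      intro t ht
      have := (convex_ball w₀ δ).add_smul_sub_mem hw hw' ht
      exact this
    have hD : ∀ t ∈ Icc (0 : ℝ) 1,
        HasDerivWithinAt (fun t : ℝ => z₂ (e.symm (w + t • (w' - w)))) 0 (Icc 0 1) t := by
      intro t ht
      obtain ⟨S, hS, _, hS1⟩ := hderiv _ (hseg t ht)
      obtain ⟨_, hUw, _⟩ := hball _ (hseg t ht)
      have h1 : HasDerivAt (fun t : ℝ => w + t • (w' - w)) (w' - w) t := by
        have := ((hasDerivAt_id t).smul_const (w' - w)).const_add w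
        simpa using this
      have h2 := hS.comp_hasDerivAt t h1
      have h3 := (hd₂ _ hUw).comp_hasDerivAt t h2
      rw [hS1 _ hp0] at h3
      exact h3.hasDerivWithinAt
    have hcst := constant_of_derivWithin_zero
      (fun t ht => (hD t ht).differentiableWithinAt)
      (fun t ht => (hD t (Ico_subset_Icc_self ht)).derivWithin
        (uniqueDiffOn_Icc zero_lt_one t (Ico_subset_Icc_self ht))) 1 (right_mem_Icc.2 zero_le_one)
    simpa using hcst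
  -- the neighbourhood
  set C : ℝ := ‖p₁‖ + ‖p₂‖ + 1 with hC
  have hCpos : 1 ≤ C := by
    have := norm_nonneg p₁
    have := norm_nonneg p₂
    linarith
  have hεpos : 0 < δ / C := by positivity
  have hεle : δ / C ≤ δ := div_le_self hδ.le hCpos
  refine ⟨U ∩ (e.source ∩ e ⁻¹' Metric.ball w₀ (δ / C)),
    hU.inter (e.isOpen_inter_preimage Metric.isOpen_ball), ⟨hy₀, he_mem, ?_⟩, inter_subset_left, ?_⟩
  · rw [mem_preimage, he_coe]
    exact Metric.mem_ball_self hεpos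
  rintro y ⟨hyU, hys, hyb⟩ y' ⟨hyU', hys', hyb'⟩
  have hyb1 : e y ∈ Metric.ball w₀ (δ / C) := hyb
  have hyb1' : e y' ∈ Metric.ball w₀ (δ / C) := hyb'
  set w := e y with hw
  set w' := e y' with hw'
  set w'' := p₁ w + p₂ w' with hw''
  have hwB : w ∈ Metric.ball w₀ δ := Metric.ball_subset_ball hεle hyb1
  have hwB' : w' ∈ Metric.ball w₀ δ := Metric.ball_subset_ball hεle hyb1'
  have hwB'' : w'' ∈ Metric.ball w₀ δ := by
    rw [mem_ball_iff_norm] at hyb1 hyb1' ⊢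
    have h1 : w'' - w₀ = p₁ (w - w₀) + p₂ (w' - w₀) := by
      rw [hw'', map_sub, map_sub]
      nth_rewrite 1 [← hp w₀]
      abel
    rw [h1]
    calc ‖p₁ (w - w₀) + p₂ (w' - w₀)‖ ≤ ‖p₁‖ * ‖w - w₀‖ + ‖p₂‖ * ‖w' - w₀‖ :=
          (norm_add_le _ _).trans (add_le_add (p₁.le_opNorm _) (p₂.le_opNorm _))
      _ ≤ ‖p₁‖ * (δ / C) + ‖p₂‖ * (δ / C) := by gcongr
      _ = (C - 1) * (δ / C) := by rw [hC]; ring
      _ < C * (δ / C) := by nlinarith
      _ = δ := by field_simp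
  have hcomp₁ : p₁ (w'' - w) = 0 := by
    have h1 : w'' - w = p₂ (w' - w) := by
      rw [hw'', map_sub]
      nth_rewrite 2 [← hp w]
      abel
    rw [h1]
    exact hP₁b _ (hp₂K _)
  have hcomp₂ : p₂ (w'' - w') = 0 := by
    have h1 : w'' - w' = p₁ (w - w') := by
      rw [hw'', map_sub]
      nth_rewrite 2 [← hp w']
      abel
    rw [h1]
    exact hP₂b _ (hp₁K _)
  refine ⟨e.symm w'', (hball w'' hwB'').2.1, ?_, ?_⟩
  · rw [hconst₁ w hwB w'' hwB'' hcomp₁, hw, e.left_inv hys]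
  · rw [hconst₂ w' hwB' w'' hwB'' hcomp₂, hw', e.left_inv hys']

end DupinClass

end S_Prod

section S_Star

open scoped RealInnerProductSpace ContDiff Topology
open Module Set

namespace DupinClass

section

variable {X Y V : Type} [NormedAddCommGroup X] [NormedSpace ℝ X] [FiniteDimensional ℝ X]
  [NormedAddCommGroup Y] [NormedSpace ℝ Y] [FiniteDimensional ℝ Y]
  [NormedAddCommGroup V] [NormedSpace ℝ V] [FiniteDimensional ℝ V]

/-- Hypotheses: the family `x ↦ span {z₁ (u x) + s x, z₂ (u x) + s x}`. -/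
structure StarHyp (B : LinearMap.BilinForm ℝ V) (U : Set X) (x₀ : X) (u : X → Y) (N : Set Y)
    (z₁ z₂ : Y → V) (s : X → V) : Prop where
  symm : B.IsSymm
  nondeg : B.Nondegenerate
  dim : finrank ℝ V = finrank ℝ X + 4
  isOpen_U : IsOpen U
  mem : x₀ ∈ U
  isOpen_N : IsOpen N
  maps : ∀ x ∈ U, u x ∈ N
  smooth_u : ContDiffOn ℝ ∞ u U
  smooth_z₁ : ContDiffOn ℝ ∞ z₁ N
  smooth_z₂ : ContDiffOn ℝ ∞ z₂ N
  smooth_s : ContDiffOn ℝ ∞ s U
  isCompl : ∀ y ∈ N, IsCompl (fderiv ℝ z₁ y).toLinearMap.ker (fderiv ℝ z₂ y).toLinearMap.ker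
  ne₁ : fderiv ℝ z₁ (u x₀) ≠ 0
  ne₂ : fderiv ℝ z₂ (u x₀) ≠ 0
  ne₃ : fderiv ℝ s x₀ ≠ 0
  null₁₂ : ∀ y ∈ N, B (z₁ y - z₂ y) (z₁ y - z₂ y) = 0
  null₁ : ∀ y ∈ N, ∀ x ∈ U, B (z₁ y + s x) (z₁ y + s x) = 0
  null₂ : ∀ y ∈ N, ∀ x ∈ U, B (z₂ y + s x) (z₂ y + s x) = 0
  pos₁ : ∀ v, fderiv ℝ z₁ (u x₀) v ≠ 0 → 0 < B (fderiv ℝ z₁ (u x₀) v) (fderiv ℝ z₁ (u x₀) v)
  pos₂ : ∀ v, fderiv ℝ z₂ (u x₀) v ≠ 0 → 0 < B (fderiv ℝ z₂ (u x₀) v) (fderiv ℝ z₂ (u x₀) v)
  pos₃ : ∀ v, fderiv ℝ s x₀ v ≠ 0 → 0 < B (fderiv ℝ s x₀ v) (fderiv ℝ s x₀ v)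
  surj : ∀ w, ∃ v, fderiv ℝ u x₀ v = w
  inj : ∀ v, fderiv ℝ u x₀ v = 0 → fderiv ℝ s x₀ v = 0 → v = 0
  li : LinearIndependent ℝ ![z₁ (u x₀) + s x₀, z₂ (u x₀) + s x₀]

variable {B : LinearMap.BilinForm ℝ V} {U : Set X} {x₀ : X} {u : X → Y} {N : Set Y}
    {z₁ z₂ : Y → V} {s : X → V}

theorem StarHyp.fderiv_comp₁ (h : StarHyp B U x₀ u N z₁ z₂ s) :
    fderiv ℝ (fun x => z₁ (u x)) x₀ = (fderiv ℝ z₁ (u x₀)).comp (fderiv ℝ u x₀) := by
  have hu : DifferentiableAt ℝ u x₀ :=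
    (h.smooth_u.contDiffAt (h.isOpen_U.mem_nhds h.mem)).differentiableAt (by simp)
  have hz : DifferentiableAt ℝ z₁ (u x₀) :=
    (h.smooth_z₁.contDiffAt (h.isOpen_N.mem_nhds (h.maps _ h.mem))).differentiableAt (by simp)
  exact fderiv_comp x₀ hz hu

theorem StarHyp.fderiv_comp₂ (h : StarHyp B U x₀ u N z₁ z₂ s) :
    fderiv ℝ (fun x => z₂ (u x)) x₀ = (fderiv ℝ z₂ (u x₀)).comp (fderiv ℝ u x₀) := by
  have hu : DifferentiableAt ℝ u x₀ :=
    (h.smooth_u.contDiffAt (h.isOpen_U.mem_nhds h.mem)).differentiableAt (by simp)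
  have hz : DifferentiableAt ℝ z₂ (u x₀) :=
    (h.smooth_z₂.contDiffAt (h.isOpen_N.mem_nhds (h.maps _ h.mem))).differentiableAt (by simp)
  exact fderiv_comp x₀ hz hu

/-- The null triple of a star family. -/
def starTriple (u : X → Y) (z₁ z₂ : Y → V) (s : X → V) : Fin 3 → X → V :=
  ![fun x => z₁ (u x), fun x => z₂ (u x), fun x => -s x]

theorem triFam_starTriple (u : X → Y) (z₁ z₂ : Y → V) (s : X → V) :
    triFam (starTriple u z₁ z₂ s) =
      fun x => Submodule.span ℝ {z₁ (u x) + s x, z₂ (u x) + s x} := by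
  funext x
  set S : Submodule ℝ V := Submodule.span ℝ {z₁ (u x) + s x, z₂ (u x) + s x} with hS
  have h1 : z₁ (u x) + s x ∈ S := Submodule.subset_span (by simp)
  have h2 : z₂ (u x) + s x ∈ S := Submodule.subset_span (by simp)
  have hb0 : starTriple u z₁ z₂ s 0 x = z₁ (u x) := rfl
  have hb1 : starTriple u z₁ z₂ s 1 x = z₂ (u x) := rfl
  have hb2 : starTriple u z₁ z₂ s 2 x = -s x := rfl
  have h12 : z₁ (u x) - z₂ (u x) ∈ S := by
    have := S.sub_mem h1 h2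
    rwa [add_sub_add_right_eq_sub] at this
  apply le_antisymm
  · unfold triFam
    rw [Submodule.span_le]
    rintro _ ⟨⟨i, j⟩, rfl⟩
    simp only [SetLike.mem_coe]
    have key : ∀ i : Fin 3, starTriple u z₁ z₂ s i x - starTriple u z₁ z₂ s 2 x ∈ S := by
      intro i
      fin_cases i
      · change starTriple u z₁ z₂ s 0 x - _ ∈ S
        rw [hb0, hb2, sub_neg_eq_add]
        exact h1
      · change starTriple u z₁ z₂ s 1 x - _ ∈ S
        rw [hb1, hb2, sub_neg_eq_add]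
        exact h2
      · change starTriple u z₁ z₂ s 2 x - _ ∈ S
        rw [sub_self]
        exact S.zero_mem
    have := S.sub_mem (key i) (key j)
    rwa [sub_sub_sub_cancel_right] at this
  · rw [hS, Submodule.span_le]
    intro v hv
    rcases hv with rfl | hv
    · have : z₁ (u x) + s x =
          starTriple u z₁ z₂ s 0 x - starTriple u z₁ z₂ s 2 x := by
        rw [hb0, hb2, sub_neg_eq_add]
      rw [this]
      exact Submodule.subset_span ⟨(0, 2), rfl⟩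
    · rw [Set.mem_singleton_iff] at hv
      have : v = starTriple u z₁ z₂ s 1 x - starTriple u z₁ z₂ s 2 x := by
        rw [hv, hb1, hb2, sub_neg_eq_add]
      rw [this]
      exact Submodule.subset_span ⟨(1, 2), rfl⟩

theorem StarHyp.tripleHyp (h : StarHyp B U x₀ u N z₁ z₂ s) :
    ∃ U₁ : Set X, U₁ ⊆ U ∧ TripleHyp B (starTriple u z₁ z₂ s) U₁ x₀ := by
  obtain ⟨N₁, hN₁o, hy₀, hN₁N, hprod⟩ := exists_prod_nhd h.isOpen_N h.smooth_z₁ h.smooth_z₂
    h.isCompl (h.maps _ h.mem)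
  have hd0 : fderiv ℝ (starTriple u z₁ z₂ s 0) x₀ =
      (fderiv ℝ z₁ (u x₀)).comp (fderiv ℝ u x₀) := h.fderiv_comp₁
  have hd1 : fderiv ℝ (starTriple u z₁ z₂ s 1) x₀ =
      (fderiv ℝ z₂ (u x₀)).comp (fderiv ℝ u x₀) := h.fderiv_comp₂
  have hd2 : fderiv ℝ (starTriple u z₁ z₂ s 2) x₀ = -fderiv ℝ s x₀ := fderiv_neg
  have hneg : ∀ a b : V, B (a - b) (a - b) = B (b - a) (b - a) := by
    intro a b
    have : a - b = -(b - a) := (neg_sub b a).symm
    rw [this, map_neg, map_neg, LinearMap.neg_apply, neg_neg]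
  have hU₁o : IsOpen (U ∩ u ⁻¹' N₁) :=
    h.smooth_u.continuousOn.isOpen_inter_preimage h.isOpen_U hN₁o
  refine ⟨U ∩ u ⁻¹' N₁, Set.inter_subset_left, ?_⟩
  refine ⟨h.symm, h.nondeg, h.dim, hU₁o, ⟨h.mem, hy₀⟩, ?_, ?_, ?_, ?_, ?_, ?_⟩
  · intro i
    fin_cases i
    · exact h.smooth_z₁.comp (h.smooth_u.mono Set.inter_subset_left)
        (fun x hx => hN₁N hx.2)
    · exact h.smooth_z₂.comp (h.smooth_u.mono Set.inter_subset_left)
        (fun x hx => hN₁N hx.2)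
    · exact (h.smooth_s.mono Set.inter_subset_left).neg
  · have h01 : ∀ x ∈ U ∩ u ⁻¹' N₁, ∀ y ∈ U ∩ u ⁻¹' N₁,
        B (z₁ (u x) - z₂ (u y)) (z₁ (u x) - z₂ (u y)) = 0 := by
      intro x hx y hy
      obtain ⟨y'', hy'', e1, e2⟩ := hprod (u x) hx.2 (u y) hy.2
      rw [← e1, ← e2]
      exact h.null₁₂ y'' hy''
    have h02 : ∀ x ∈ U ∩ u ⁻¹' N₁, ∀ y ∈ U ∩ u ⁻¹' N₁,
        B (z₁ (u x) - -s y) (z₁ (u x) - -s y) = 0 := by
      intro x hx y hy
      rw [sub_neg_eq_add]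
      exact h.null₁ (u x) (hN₁N hx.2) y hy.1
    have h12 : ∀ x ∈ U ∩ u ⁻¹' N₁, ∀ y ∈ U ∩ u ⁻¹' N₁,
        B (z₂ (u x) - -s y) (z₂ (u x) - -s y) = 0 := by
      intro x hx y hy
      rw [sub_neg_eq_add]
      exact h.null₂ (u x) (hN₁N hx.2) y hy.1
    intro i j hij x hx y hy
    fin_cases i <;> fin_cases j
    · exact absurd rfl hij
    · exact h01 x hx y hy
    · exact h02 x hx y hy
    · exact (hneg _ _).trans (h01 y hy x hx)
    · exact absurd rfl hij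
    · exact h12 x hx y hy
    · exact (hneg _ _).trans (h02 y hy x hx)
    · exact (hneg _ _).trans (h12 y hy x hx)
    · exact absurd rfl hij
  · intro i v hv
    fin_cases i
    · change fderiv ℝ (starTriple u z₁ z₂ s 0) x₀ v ≠ 0 at hv
      change 0 < B (fderiv ℝ (starTriple u z₁ z₂ s 0) x₀ v)
        (fderiv ℝ (starTriple u z₁ z₂ s 0) x₀ v)
      rw [hd0] at hv ⊢
      exact h.pos₁ _ hv
    · change fderiv ℝ (starTriple u z₁ z₂ s 1) x₀ v ≠ 0 at hv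
      change 0 < B (fderiv ℝ (starTriple u z₁ z₂ s 1) x₀ v)
        (fderiv ℝ (starTriple u z₁ z₂ s 1) x₀ v)
      rw [hd1] at hv ⊢
      exact h.pos₂ _ hv
    · change fderiv ℝ (starTriple u z₁ z₂ s 2) x₀ v ≠ 0 at hv
      change 0 < B (fderiv ℝ (starTriple u z₁ z₂ s 2) x₀ v)
        (fderiv ℝ (starTriple u z₁ z₂ s 2) x₀ v)
      rw [hd2] at hv ⊢
      have hv' : fderiv ℝ s x₀ v ≠ 0 := by
        intro h0
        apply hv
        rw [neg_apply, h0, neg_zero]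
      have := h.pos₃ v hv'
      rwa [neg_apply, map_neg, map_neg, LinearMap.neg_apply, neg_neg]
  · intro i
    fin_cases i
    · change fderiv ℝ (starTriple u z₁ z₂ s 0) x₀ ≠ 0
      rw [hd0]
      intro h0
      apply h.ne₁
      ext w
      obtain ⟨v, rfl⟩ := h.surj w
      exact DFunLike.congr_fun h0 v
    · change fderiv ℝ (starTriple u z₁ z₂ s 1) x₀ ≠ 0
      rw [hd1]
      intro h0
      apply h.ne₂
      ext w
      obtain ⟨v, rfl⟩ := h.surj w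
      exact DFunLike.congr_fun h0 v
    · change fderiv ℝ (starTriple u z₁ z₂ s 2) x₀ ≠ 0
      rw [hd2]
      exact neg_ne_zero.2 h.ne₃
  · intro v hv
    have e0 := hv 0
    have e1 := hv 1
    have e2 := hv 2
    rw [hd0] at e0
    rw [hd1] at e1
    rw [hd2, neg_apply, neg_eq_zero] at e2
    have hc := (h.isCompl (u x₀) (h.maps _ h.mem)).disjoint
    have hdu : fderiv ℝ u x₀ v = 0 := by
      have := Submodule.disjoint_def.1 hc (fderiv ℝ u x₀ v)
        (LinearMap.mem_ker.2 e0) (LinearMap.mem_ker.2 e1)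
      exact this
    exact h.inj v hdu e2
  · have hli := h.li
    rw [LinearIndependent.pair_iff] at hli ⊢
    intro p q hpq
    have e : p • (starTriple u z₁ z₂ s 1 x₀ - starTriple u z₁ z₂ s 2 x₀) +
        q • (starTriple u z₁ z₂ s 2 x₀ - starTriple u z₁ z₂ s 0 x₀) =
        (-q) • (z₁ (u x₀) + s x₀) + p • (z₂ (u x₀) + s x₀) := by
      change p • (z₂ (u x₀) - -s x₀) + q • (-s x₀ - z₁ (u x₀)) = _
      module
    rw [e] at hpq
    obtain ⟨h1, h2⟩ := hli (-q) p hpq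
    exact ⟨h2, neg_eq_zero.1 h1⟩

/-- **Module T\*.** -/
theorem StarHyp.confEq (h : StarHyp B U x₀ u N z₁ z₂ s) {m : Fin 3 → ℕ}
    (h0 : finrank ℝ (fderiv ℝ z₁ (u x₀)).toLinearMap.range = m 0)
    (h1 : finrank ℝ (fderiv ℝ z₂ (u x₀)).toLinearMap.range = m 1)
    (h2 : finrank ℝ (fderiv ℝ s x₀).toLinearMap.range = m 2) :
    ∃ μ : Fin 3 → ℝ, μ 0 + μ 1 + μ 2 = 0 ∧
      ConfEqAt B (fun x => Submodule.span ℝ {z₁ (u x) + s x, z₂ (u x) + s x}) U x₀
        (mForm m μ) (mFam m μ) (mU m μ) 0 ∧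
      (∀ n, (∀ v, B n (fderiv ℝ z₁ (u x₀) v) = 0) → B n (z₁ (u x₀) - z₂ (u x₀)) = 1 →
        B n (z₁ (u x₀) + s x₀) = 1 →
        (∀ᶠ y in 𝓝 (u x₀), ∃ v, ∃ t : ℝ,
          z₁ y - z₁ (u x₀) = fderiv ℝ z₁ (u x₀) v + t • n) → μ 0 = B n n) ∧
      (∀ n, (∀ v, B n (fderiv ℝ s x₀ v) = 0) → B n (z₁ (u x₀) + s x₀) = -1 →
        B n (z₂ (u x₀) + s x₀) = -1 →
        (∀ᶠ x in 𝓝 x₀, ∃ v, ∃ t : ℝ, s x - s x₀ = fderiv ℝ s x₀ v + t • n) → μ 2 = B n n) := by
  obtain ⟨U₁, hU₁, hT⟩ := h.tripleHyp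
  have hd0 : fderiv ℝ (starTriple u z₁ z₂ s 0) x₀ =
      (fderiv ℝ z₁ (u x₀)).comp (fderiv ℝ u x₀) := h.fderiv_comp₁
  have hd1 : fderiv ℝ (starTriple u z₁ z₂ s 1) x₀ =
      (fderiv ℝ z₂ (u x₀)).comp (fderiv ℝ u x₀) := h.fderiv_comp₂
  have hd2 : fderiv ℝ (starTriple u z₁ z₂ s 2) x₀ = -fderiv ℝ s x₀ := fderiv_neg
  have hsurj : (fderiv ℝ u x₀).toLinearMap.range = ⊤ := by
    rw [LinearMap.range_eq_top]
    intro w
    obtain ⟨v, hv⟩ := h.surj w
    exact ⟨v, hv⟩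
  have hm : ∀ i, finrank ℝ (fderiv ℝ (starTriple u z₁ z₂ s i) x₀).toLinearMap.range = m i := by
    intro i
    fin_cases i
    · change finrank ℝ (fderiv ℝ (starTriple u z₁ z₂ s 0) x₀).toLinearMap.range = m 0
      rw [hd0, ContinuousLinearMap.toLinearMap_comp, LinearMap.range_comp, hsurj,
        Submodule.map_top]
      exact h0
    · change finrank ℝ (fderiv ℝ (starTriple u z₁ z₂ s 1) x₀).toLinearMap.range = m 1
      rw [hd1, ContinuousLinearMap.toLinearMap_comp, LinearMap.range_comp, hsurj,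
        Submodule.map_top]
      exact h1
    · change finrank ℝ (fderiv ℝ (starTriple u z₁ z₂ s 2) x₀).toLinearMap.range = m 2
      have hr : (-fderiv ℝ s x₀).toLinearMap.range = (fderiv ℝ s x₀).toLinearMap.range := by
        ext w
        simp only [LinearMap.mem_range]
        constructor
        · rintro ⟨v, hv⟩
          refine ⟨-v, ?_⟩
          rw [← hv]
          simp
        · rintro ⟨v, hv⟩
          refine ⟨-v, ?_⟩
          rw [← hv]
          simp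
      rw [hd2, hr]
      exact h2
  obtain ⟨μ, hμ, hconf, hnorm⟩ := hT.confEq hm
  rw [triFam_starTriple] at hconf
  refine ⟨μ, hμ, hconf.mono hU₁, ?_, ?_⟩
  · intro n hn1 hn2 hn3 hn4
    apply hnorm 0 n
    refine ⟨?_, ?_, ?_⟩
    · intro v
      rw [hd0]
      exact hn1 _
    · intro j hj
      fin_cases j
      · exact absurd rfl hj
      · exact hn2
      · change B n (z₁ (u x₀) - -s x₀) = 1
        rw [sub_neg_eq_add]
        exact hn3
    · have hcont : Filter.Tendsto u (𝓝 x₀) (𝓝 (u x₀)) :=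
        (h.smooth_u.contDiffAt (h.isOpen_U.mem_nhds h.mem)).continuousAt
      filter_upwards [hcont.eventually hn4] with x hx
      obtain ⟨w, t, hw⟩ := hx
      obtain ⟨v, rfl⟩ := h.surj w
      refine ⟨v, t, ?_⟩
      rw [hd0]
      exact hw
  · intro n hn1 hn2 hn3 hn4
    apply hnorm 2 n
    refine ⟨?_, ?_, ?_⟩
    · intro v
      rw [hd2, neg_apply, map_neg, hn1, neg_zero]
    · intro j hj
      fin_cases j
      · change B n (-s x₀ - z₁ (u x₀)) = 1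
        have : -s x₀ - z₁ (u x₀) = -(z₁ (u x₀) + s x₀) := by abel
        rw [this, map_neg, hn2, neg_neg]
      · change B n (-s x₀ - z₂ (u x₀)) = 1
        have : -s x₀ - z₂ (u x₀) = -(z₂ (u x₀) + s x₀) := by abel
        rw [this, map_neg, hn3, neg_neg]
      · exact absurd rfl hj
    · filter_upwards [hn4] with x hx
      obtain ⟨v, t, hv⟩ := hx
      refine ⟨v, -t, ?_⟩
      rw [hd2]
      change -s x - -s x₀ = (-fderiv ℝ s x₀) v + (-t) • n
      rw [neg_apply, neg_smul, ← neg_add, ← hv]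
      abel

end

end DupinClass

end S_Star

section S_Tube

open scoped RealInnerProductSpace ContDiff Topology
open Module Set

namespace DupinClass

section

variable {X Y E G : Type} [NormedAddCommGroup X] [NormedSpace ℝ X] [FiniteDimensional ℝ X]
  [NormedAddCommGroup Y] [NormedSpace ℝ Y] [FiniteDimensional ℝ Y]
  [NormedAddCommGroup E] [InnerProductSpace ℝ E] [FiniteDimensional ℝ E]
  [NormedAddCommGroup G] [InnerProductSpace ℝ G] [FiniteDimensional ℝ G]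

/-- Two pairwise distinct smooth functions as in the definition of proper Dupin, for `g = 2`. -/
structure TwoDupin (W : EHyp Y E) (κ₁ κ₂ : Y → ℝ) : Prop where
  smooth₁ : ContDiffOn ℝ ∞ κ₁ W.U
  smooth₂ : ContDiffOn ℝ ∞ κ₂ W.U
  ne : ∀ y ∈ W.U, κ₁ y ≠ κ₂ y
  ne_bot₁ : ∀ y ∈ W.U, prin W.f W.ν (κ₁ y) y ≠ ⊥
  ne_bot₂ : ∀ y ∈ W.U, prin W.f W.ν (κ₂ y) y ≠ ⊥
  top : ∀ y ∈ W.U, prin W.f W.ν (κ₁ y) y ⊔ prin W.f W.ν (κ₂ y) y = ⊤
  deriv₁ : ∀ y ∈ W.U, ∀ v ∈ prin W.f W.ν (κ₁ y) y, fderiv ℝ κ₁ y v = 0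
  deriv₂ : ∀ y ∈ W.U, ∀ v ∈ prin W.f W.ν (κ₂ y) y, fderiv ℝ κ₂ y v = 0

theorem ProperDupin.twoDupin {W : EHyp Y E} (h : ProperDupin W.f W.ν W.U 2) :
    ∃ κ₁ κ₂, TwoDupin W κ₁ κ₂ := by
  obtain ⟨κ, h1, h2, h3, h4, h5⟩ := h
  refine ⟨κ 0, κ 1, ⟨h1 0, h1 1, fun y hy => h2 y hy 0 1 (by decide), fun y hy => h3 y hy 0,
    fun y hy => h3 y hy 1, fun y hy => ?_, fun y hy => h5 y hy 0, fun y hy => h5 y hy 1⟩⟩
  rw [eq_top_iff, ← h4 y hy]
  exact iSup_le (Fin.forall_fin_two.2 ⟨le_sup_left, le_sup_right⟩)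

variable (E G) in
/-- The linear map `J_r` (embedding composed with a parallel transformation). -/
noncomputable def tubeJ (r : ℝ) :
    (ℝ × WithLp 2 (ℝ × E) × ℝ) →ₗ[ℝ] (ℝ × WithLp 2 (ℝ × WithLp 2 (E × G)) × ℝ) where
  toFun v := (v.1 - (v.1 + (WithLp.ofLp v.2.1).1) * r ^ 2 / 2,
    WithLp.toLp 2 ((WithLp.ofLp v.2.1).1 + (v.1 + (WithLp.ofLp v.2.1).1) * r ^ 2 / 2,
      WithLp.toLp 2 ((WithLp.ofLp v.2.1).2, 0)),
    -r * (v.1 + (WithLp.ofLp v.2.1).1))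
  map_add' := by
    intro v w
    refine Prod.ext ?_ (Prod.ext ?_ ?_)
    · simp; ring
    · refine WithLp.ofLp_injective 2 (Prod.ext ?_ ?_)
      · simp; ring
      · refine WithLp.ofLp_injective 2 (Prod.ext ?_ ?_) <;> simp
    · simp; ring
  map_smul' := by
    intro t v
    refine Prod.ext ?_ (Prod.ext ?_ ?_)
    · simp; ring
    · refine WithLp.ofLp_injective 2 (Prod.ext ?_ ?_)
      · simp; ring
      · refine WithLp.ofLp_injective 2 (Prod.ext ?_ ?_) <;> simp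
    · simp; ring

variable (E) in
/-- The third member of the triple (with the opposite sign) of a tube. -/
noncomputable def tubeS (r : ℝ) (a : ℝ) (η : G) : ℝ × WithLp 2 (ℝ × WithLp 2 (E × G)) × ℝ :=
  (r / a, WithLp.toLp 2 (-(r / a), WithLp.toLp 2 (0, a⁻¹ • η)), a⁻¹)

theorem tube_vec {w N : E} {r a κ : ℝ} {η : G} (hN : ‖N‖ = 1) (ha : a ≠ 0)
    (haη : a ^ 2 + ‖η‖ ^ 2 = 1) {F ν : WithLp 2 (E × G)}
    (hf : F = WithLp.toLp 2 (w + (r * a) • N, r • η))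
    (hν : ν = WithLp.toLp 2 (a • N, η)) :
    tubeJ E G r (κ • ptSph w + plSph w N) + tubeS E r a η
      = κ • ptSph F + (a⁻¹ - r * κ) • plSph F ν := by
  have hF : ‖F‖ ^ 2 = ‖w‖ ^ 2 + 2 * r * a * ⟪w, N⟫ + r ^ 2 := by
    rw [hf, WithLp.prod_norm_sq_eq_of_L2]
    simp only [WithLp.toLp_fst, WithLp.toLp_snd, norm_smul, mul_pow, Real.norm_eq_abs, sq_abs]
    rw [@norm_add_sq_real]
    simp only [inner_smul_right, norm_smul, mul_pow, Real.norm_eq_abs, sq_abs, hN, one_pow]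
    linear_combination r ^ 2 * haη
  have hFν : ⟪F, ν⟫ = a * ⟪w, N⟫ + r := by
    rw [hf, hν, WithLp.prod_inner_apply]
    simp only [inner_add_left, inner_smul_left, inner_smul_right, RCLike.conj_to_real,
      real_inner_self_eq_norm_sq, hN]
    linear_combination r * haη
  refine Prod.ext ?_ (Prod.ext ?_ ?_)
  · simp only [tubeJ, tubeS, ptSph, plSph, hF, hFν]
    simp
    field_simp
    ring
  · refine WithLp.ofLp_injective 2 (Prod.ext ?_ ?_)
    · simp only [tubeJ, tubeS, ptSph, plSph, hF, hFν]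
      simp
      field_simp
      ring
    · refine WithLp.ofLp_injective 2 (Prod.ext ?_ ?_)
      · simp only [tubeJ, tubeS, ptSph, plSph, hf, hν]
        simp
        match_scalars
        · field_simp
        · field_simp
          ring
      · simp only [tubeJ, tubeS, ptSph, plSph, hf, hν]
        simp
        module
  · simp only [tubeJ, tubeS, ptSph, plSph]
    simp
    ring

/-- The lift of a tube at a point with `a ≠ 0`. -/
theorem tube_lift {W : EHyp Y E} {κ₁ κ₂ : Y → ℝ} (hW : TwoDupin W κ₁ κ₂) {r : ℝ}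
    {T : EHyp X (WithLp 2 (E × G))} {x : X} (hx : x ∈ T.U) {y : Y} (hy : y ∈ W.U) {a : ℝ} {η : G}
    (ha : a ≠ 0) (haη : a ^ 2 + ‖η‖ ^ 2 = 1)
    (hf : T.f x = WithLp.toLp 2 (W.f y + (r * a) • W.ν y, r • η))
    (hν : T.ν x = WithLp.toLp 2 (a • W.ν y, η)) :
    T.toSphere.lift x = Submodule.span ℝ
      {tubeJ E G r (W.kmap κ₁ y) + tubeS E r a η, tubeJ E G r (W.kmap κ₂ y) + tubeS E r a η} := by
  rw [T.lift_toSphere hx, EHyp.kmap, EHyp.kmap, tube_vec (W.norm_ν y hy) ha haη hf hν,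
    tube_vec (W.norm_ν y hy) ha haη hf hν]
  have hne := sub_ne_zero.2 (hW.ne y hy)
  set P := ptSph (T.f x)
  set K := plSph (T.f x) (T.ν x)
  set k₁ := κ₁ y
  set k₂ := κ₂ y
  apply le_antisymm
  · rw [Submodule.span_le, Set.insert_subset_iff, Set.singleton_subset_iff]
    simp only [SetLike.mem_coe, Submodule.mem_span_pair]
    refine ⟨⟨(k₁ - k₂)⁻¹ * (1 - r * a * k₂), -(k₁ - k₂)⁻¹ * (1 - r * a * k₁), ?_⟩, ⟨a * (-k₂) * (k₁ - k₂)⁻¹, a * k₁ * (k₁ - k₂)⁻¹, ?_⟩⟩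
    · match_scalars
      · field_simp
        ring
      · field_simp
        ring
    · match_scalars
      · field_simp
        ring
      · field_simp
        ring
  · rw [Submodule.span_le, Set.insert_subset_iff, Set.singleton_subset_iff]
    simp only [SetLike.mem_coe, Submodule.mem_span_pair]
    exact ⟨⟨_, _, rfl⟩, ⟨_, _, rfl⟩⟩

/-- At a point with `a = 0` a tube has only two principal curvatures. -/
theorem tube_prin_of_eq_zero {W : EHyp Y E} {r : ℝ} (hr : 0 < r)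
    {T : EHyp X (WithLp 2 (E × G))} {u : X → Y} {a : X → ℝ} {η : X → G}
    (hu : ContDiffOn ℝ ∞ u T.U) (ha : ContDiffOn ℝ ∞ a T.U) (hη : ContDiffOn ℝ ∞ η T.U)
    (h : ∀ x ∈ T.U, u x ∈ W.U ∧ a x ^ 2 + ‖η x‖ ^ 2 = 1 ∧
      T.f x = WithLp.toLp 2 (W.f (u x) + (r * a x) • W.ν (u x), r • η x) ∧
      T.ν x = WithLp.toLp 2 (a x • W.ν (u x), η x)) {x₀ : X} (hx₀ : x₀ ∈ T.U) (ha₀ : a x₀ = 0)
    {k : ℝ} (hk : prin T.f T.ν k x₀ ≠ ⊥) : k = 0 ∨ k = -1 / r := by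
  by_contra hcon
  push Not at hcon
  obtain ⟨hk0, hkr⟩ := hcon
  have hkr' : 1 + k * r ≠ 0 := by
    intro h0
    apply hkr
    field_simp
    linarith
  obtain ⟨v, hv, hv0⟩ := Submodule.exists_mem_ne_zero_of_ne_bot hk
  have hU : T.U ∈ 𝓝 x₀ := T.isOpen_U.mem_nhds hx₀
  obtain ⟨hux, -, -, -⟩ := h x₀ hx₀
  have hWU : W.U ∈ 𝓝 (u x₀) := W.isOpen_U.mem_nhds hux
  have du := (((hu x₀ hx₀).contDiffAt hU).differentiableAt (by simp)).hasFDerivAt
  have da := (((ha x₀ hx₀).contDiffAt hU).differentiableAt (by simp)).hasFDerivAt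
  have dη := (((hη x₀ hx₀).contDiffAt hU).differentiableAt (by simp)).hasFDerivAt
  have dw := (((W.smooth_f _ hux).contDiffAt hWU).differentiableAt (by simp)).hasFDerivAt
  have dN := (((W.smooth_ν _ hux).contDiffAt hWU).differentiableAt (by simp)).hasFDerivAt
  have dwu := dw.comp x₀ du
  have dNu := dN.comp x₀ du
  have dF : HasFDerivAt T.f (((WithLp.prodContinuousLinearEquiv 2 ℝ E G).symm :
      (E × G) →L[ℝ] WithLp 2 (E × G)).comp _) x₀ :=
    ((((WithLp.prodContinuousLinearEquiv 2 ℝ E G).symm :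
      (E × G) →L[ℝ] WithLp 2 (E × G)).hasFDerivAt).comp x₀
      ((dwu.add ((da.const_mul r).smul dNu)).prodMk (dη.const_smul r))).congr_of_eventuallyEq
      (by filter_upwards [hU] with x hx using (h x hx).2.2.1)
  have dν : HasFDerivAt T.ν (((WithLp.prodContinuousLinearEquiv 2 ℝ E G).symm :
      (E × G) →L[ℝ] WithLp 2 (E × G)).comp _) x₀ :=
    ((((WithLp.prodContinuousLinearEquiv 2 ℝ E G).symm :
      (E × G) →L[ℝ] WithLp 2 (E × G)).hasFDerivAt).comp x₀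
      ((da.smul dNu).prodMk dη)).congr_of_eventuallyEq
      (by filter_upwards [hU] with x hx using (h x hx).2.2.2)
  have hv' : fderiv ℝ T.ν x₀ v + k • fderiv ℝ T.f x₀ v = 0 := by
    simpa [prin] using hv
  have hFv : fderiv ℝ T.f x₀ v = WithLp.toLp 2 (fderiv ℝ W.f (u x₀) (fderiv ℝ u x₀ v)
      + (r * fderiv ℝ a x₀ v) • W.ν (u x₀), r • fderiv ℝ η x₀ v) := by
    rw [dF.fderiv]
    simp [ha₀]
  have hνv : fderiv ℝ T.ν x₀ v = WithLp.toLp 2 ((fderiv ℝ a x₀ v) • W.ν (u x₀),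
      fderiv ℝ η x₀ v) := by
    rw [dν.fderiv]
    simp [ha₀]
  rw [hFv, hνv] at hv'
  have h1 := congrArg (fun z => (WithLp.ofLp z).1) hv'
  have h2 := congrArg (fun z => (WithLp.ofLp z).2) hv'
  simp only [WithLp.ofLp_add, WithLp.ofLp_smul, Prod.fst_add, Prod.smul_fst, WithLp.ofLp_zero,
    Prod.fst_zero, Prod.snd_add, Prod.smul_snd, Prod.snd_zero] at h1 h2
  have h3 : (1 + k * r) • fderiv ℝ η x₀ v = 0 := by
    rw [← h2]; module
  have h4 : fderiv ℝ η x₀ v = 0 := (smul_eq_zero.1 h3).resolve_left hkr'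
  have h5 := congrArg (fun z => ⟪z, W.ν (u x₀)⟫) h1
  simp only [inner_add_left, inner_smul_left, RCLike.conj_to_real, W.inner_df _ hux,
    real_inner_self_eq_norm_sq, W.norm_ν _ hux, inner_zero_left] at h5
  have h6 : fderiv ℝ a x₀ v = 0 := by
    have : (1 + k * r) * fderiv ℝ a x₀ v = 0 := by linear_combination h5
    exact (mul_eq_zero.1 this).resolve_left hkr'
  rw [h6] at h1
  have h7 : fderiv ℝ W.f (u x₀) (fderiv ℝ u x₀ v) = 0 := by
    have : k • fderiv ℝ W.f (u x₀) (fderiv ℝ u x₀ v) = 0 := by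
      rw [← h1]; module
    exact (smul_eq_zero.1 this).resolve_left hk0
  apply hv0
  apply T.immersion x₀ hx₀
  rw [hFv, h4, h6, h7]
  simp

end

end DupinClass

end S_Tube
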