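import Mathlib
import Pool.Agent.H31.DC.D5

/-! Reducible Dupin hypersurfaces, part D6 (several modules joined to save build time). -/

section S_TU2_pf

open scoped RealInnerProductSpace ContDiff Topology
open Module Set

namespace DupinClass

section

variable {X Y E G : Type} [NormedAddCommGroup X] [NormedSpace ℝ X]
  [NormedAddCommGroup Y] [NormedSpace ℝ Y]
  [NormedAddCommGroup E] [InnerProductSpace ℝ E]
  [NormedAddCommGroup G] [InnerProductSpace ℝ G]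

theorem tubeJ_tubeJ (r : ℝ) (v w : ℝ × WithLp 2 (ℝ × E) × ℝ) :
    lieForm _ (tubeJ E G r v) (tubeJ E G r w) = lieForm _ v w + v.2.2 * w.2.2 := by
  simp only [lieForm, tubeJ, LinearMap.mk₂_apply, LinearMap.coe_mk, AddHom.coe_mk]
  simp [WithLp.prod_inner_apply]
  ring

theorem tubeJ_tubeS (r : ℝ) (v : ℝ × WithLp 2 (ℝ × E) × ℝ) {a : ℝ} (η : G) :
    lieForm _ (tubeJ E G r v) (tubeS E r a η) = 0 := by
  simp only [lieForm, tubeJ, tubeS, LinearMap.mk₂_apply, LinearMap.coe_mk, AddHom.coe_mk]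
  simp [WithLp.prod_inner_apply]
  ring

theorem tubeS_tubeS (r : ℝ) {a : ℝ} {η : G} (ha : a ≠ 0) (haη : a ^ 2 + ‖η‖ ^ 2 = 1) :
    lieForm _ (tubeS E r a η) (tubeS E r a η) = -1 := by
  simp only [lieForm, tubeS, LinearMap.mk₂_apply, WithLp.prod_inner_apply, inner_smul_left,
    inner_smul_right, real_inner_self_eq_norm_sq, RCLike.conj_to_real, Real.norm_eq_abs, sq_abs,
    norm_zero]
  field_simp
  linear_combination haη

/-- The derivative of `tubeS`, along a direction with the derivatives `a'`, `η'` of `a`, `η`. -/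
noncomputable def tubeS' (E : Type) [NormedAddCommGroup E] [InnerProductSpace ℝ E]
    (r a : ℝ) (η : G) (a' : ℝ) (η' : G) :
    ℝ × WithLp 2 (ℝ × WithLp 2 (E × G)) × ℝ :=
  (-(r * a' / a ^ 2), WithLp.toLp 2 (r * a' / a ^ 2,
    WithLp.toLp 2 (0, a⁻¹ • η' - (a' / a ^ 2) • η)), -(a' / a ^ 2))

theorem tubeS'_tubeS' (r : ℝ) {a a' : ℝ} {η η' : G} (ha : a ≠ 0) (haη : a ^ 2 + ‖η‖ ^ 2 = 1)
    (haη' : a * a' + ⟪η, η'⟫ = 0) :
    lieForm _ (tubeS' E r a η a' η') (tubeS' E r a η a' η') = (‖η'‖ ^ 2 + a' ^ 2) / a ^ 2 := by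
  have h1 : ⟪η, η'⟫ = -(a * a') := by linarith
  have h2 : ‖η‖ ^ 2 = 1 - a ^ 2 := by linarith
  simp only [lieForm, tubeS', LinearMap.mk₂_apply, WithLp.prod_inner_apply, inner_smul_left,
    inner_smul_right, RCLike.conj_to_real, inner_sub_left, inner_sub_right, real_inner_comm η η',
    h1, inner_zero_left, real_inner_self_eq_norm_sq, h2, Real.norm_eq_abs, sq_abs]
  field_simp
  ring

theorem kmap_snd_snd (W : EHyp Y E) (κ : Y → ℝ) (y : Y) : (W.kmap κ y).2.2 = 1 := by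
  simp [EHyp.kmap, ptSph, plSph]

theorem kmap_t (W : EHyp Y E) (κ : Y → ℝ) (y : Y) :
    (W.kmap κ y).1 + (WithLp.ofLp (W.kmap κ y).2.1).1 = κ y := by
  simp [EHyp.kmap, ptSph, plSph]
  ring

variable [FiniteDimensional ℝ X] [FiniteDimensional ℝ Y] [FiniteDimensional ℝ E]
  [FiniteDimensional ℝ G]

theorem kmap_fderiv_eq_zero_iff {W : EHyp Y E} {κ : Y → ℝ} (hκ : ContDiffOn ℝ ∞ κ W.U) {y : Y}
    (hy : y ∈ W.U) (hd : ∀ v ∈ prin W.f W.ν (κ y) y, fderiv ℝ κ y v = 0) (v : Y) :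
    fderiv ℝ (W.kmap κ) y v = 0 ↔ v ∈ prin W.f W.ν (κ y) y := by
  have hmem : v ∈ prin W.f W.ν (κ y) y ↔ fderiv ℝ W.ν y v + κ y • fderiv ℝ W.f y v = 0 := by
    simp [prin]
  constructor
  · intro h
    have h1 := W.fderiv_fderiv_kmap hκ hy v
    rw [h] at h1
    simp only [map_zero] at h1
    rw [hmem, ← norm_eq_zero]
    exact pow_eq_zero_iff (two_ne_zero) |>.1 h1.symm
  · intro h
    rw [W.fderiv_kmap hκ hy, hd v h, hmem.1 h]
    simp

theorem differentiableAt_kmap {W : EHyp Y E} {κ : Y → ℝ} (hκ : ContDiffOn ℝ ∞ κ W.U) {y : Y}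
    (hy : y ∈ W.U) : DifferentiableAt ℝ (W.kmap κ) y :=
  ((W.kmap_smooth hκ y hy).contDiffAt (W.isOpen_U.mem_nhds hy)).differentiableAt (by simp)

theorem tu2_fderiv_tubeJ_kmap {W : EHyp Y E} {κ : Y → ℝ} (hκ : ContDiffOn ℝ ∞ κ W.U) {y : Y}
    (hy : y ∈ W.U) (r : ℝ) (v : Y) :
    fderiv ℝ (fun y => tubeJ E G r (W.kmap κ y)) y v
      = tubeJ E G r (fderiv ℝ (W.kmap κ) y v) := by
  have h1 := (differentiableAt_kmap hκ hy).hasFDerivAt
  have h2 := ((tubeJ E G r).toContinuousLinearMap.hasFDerivAt (x := W.kmap κ y)).comp y h1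
  have h3 := h2.fderiv
  have h4 : (fun y => tubeJ E G r (W.kmap κ y))
      = (tubeJ E G r).toContinuousLinearMap ∘ W.kmap κ := rfl
  rw [h4, h3]
  rfl

theorem smooth_tubeJ_kmap {W : EHyp Y E} {κ : Y → ℝ} (hκ : ContDiffOn ℝ ∞ κ W.U) (r : ℝ) :
    ContDiffOn ℝ ∞ (fun y => tubeJ E G r (W.kmap κ y)) W.U :=
  (tubeJ E G r).toContinuousLinearMap.contDiff.comp_contDiffOn (W.kmap_smooth hκ)

theorem tubeJ_fderiv_self {W : EHyp Y E} {κ : Y → ℝ} (hκ : ContDiffOn ℝ ∞ κ W.U) {y : Y}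
    (hy : y ∈ W.U) (r : ℝ) (v : Y) :
    lieForm _ (fderiv ℝ (fun y => tubeJ E G r (W.kmap κ y)) y v)
      (fderiv ℝ (fun y => tubeJ E G r (W.kmap κ y)) y v)
      = ‖fderiv ℝ W.ν y v + κ y • fderiv ℝ W.f y v‖ ^ 2 := by
  rw [tu2_fderiv_tubeJ_kmap hκ hy, tubeJ_tubeJ, W.fderiv_kmap_snd hκ hy, W.fderiv_fderiv_kmap hκ hy]
  ring

theorem tubeJ_fderiv_eq_zero_iff {W : EHyp Y E} {κ : Y → ℝ} (hκ : ContDiffOn ℝ ∞ κ W.U) {y : Y}
    (hy : y ∈ W.U) (hd : ∀ v ∈ prin W.f W.ν (κ y) y, fderiv ℝ κ y v = 0) (r : ℝ) (v : Y) :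
    fderiv ℝ (fun y => tubeJ E G r (W.kmap κ y)) y v = 0 ↔ v ∈ prin W.f W.ν (κ y) y := by
  rw [← kmap_fderiv_eq_zero_iff hκ hy hd, tu2_fderiv_tubeJ_kmap hκ hy]
  constructor
  · intro h
    have h1 := tubeJ_fderiv_self (G := G) hκ hy r v
    rw [tu2_fderiv_tubeJ_kmap hκ hy, h] at h1
    simp only [map_zero] at h1
    rw [kmap_fderiv_eq_zero_iff hκ hy hd]
    have h2 : fderiv ℝ W.ν y v + κ y • fderiv ℝ W.f y v = 0 := by
      rw [← norm_eq_zero]
      exact pow_eq_zero_iff (two_ne_zero) |>.1 h1.symm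
    simpa [prin] using h2
  · intro h
    rw [h, map_zero]

theorem tubeJ_pos {W : EHyp Y E} {κ : Y → ℝ} (hκ : ContDiffOn ℝ ∞ κ W.U) {y : Y}
    (hy : y ∈ W.U) (hd : ∀ v ∈ prin W.f W.ν (κ y) y, fderiv ℝ κ y v = 0) (r : ℝ) (v : Y)
    (hv : fderiv ℝ (fun y => tubeJ E G r (W.kmap κ y)) y v ≠ 0) :
    0 < lieForm _ (fderiv ℝ (fun y => tubeJ E G r (W.kmap κ y)) y v)
      (fderiv ℝ (fun y => tubeJ E G r (W.kmap κ y)) y v) := by
  rw [tubeJ_fderiv_self hκ hy]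
  have h1 : fderiv ℝ W.ν y v + κ y • fderiv ℝ W.f y v ≠ 0 := by
    intro h
    apply hv
    rw [tubeJ_fderiv_eq_zero_iff hκ hy hd]
    simpa [prin] using h
  positivity

theorem tubeJ_ker {W : EHyp Y E} {κ : Y → ℝ} (hκ : ContDiffOn ℝ ∞ κ W.U) {y : Y}
    (hy : y ∈ W.U) (hd : ∀ v ∈ prin W.f W.ν (κ y) y, fderiv ℝ κ y v = 0) (r : ℝ) :
    (fderiv ℝ (fun y => tubeJ E G r (W.kmap κ y)) y).toLinearMap.ker = prin W.f W.ν (κ y) y := by
  ext v
  rw [← tubeJ_fderiv_eq_zero_iff (G := G) hκ hy hd r v]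
  rfl

theorem tubeS_hasFDerivAt {r : ℝ} {a : X → ℝ} {η : X → G} {x : X} {a' : X →L[ℝ] ℝ}
    {η' : X →L[ℝ] G} (ha : HasFDerivAt a a' x) (hη : HasFDerivAt η η' x) (h0 : a x ≠ 0) :
    ∃ D : X →L[ℝ] (ℝ × WithLp 2 (ℝ × WithLp 2 (E × G)) × ℝ),
      HasFDerivAt (fun x => tubeS E r (a x) (η x)) D x ∧
      ∀ v, D v = tubeS' E r (a x) (η x) (a' v) (η' v) := by
  have hi : HasFDerivAt (fun x => (a x)⁻¹) (-(a x ^ 2)⁻¹ • a') x :=
    (hasDerivAt_inv h0).comp_hasFDerivAt x ha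
  have h1 := hi.const_mul r
  have h2 := h1.neg
  have h3 := hi.smul hη
  have h4 := (((WithLp.prodContinuousLinearEquiv 2 ℝ E G).symm :
      (E × G) →L[ℝ] WithLp 2 (E × G)).hasFDerivAt).comp x
      ((hasFDerivAt_const (0 : E) x).prodMk h3)
  have h5 := (((WithLp.prodContinuousLinearEquiv 2 ℝ ℝ (WithLp 2 (E × G))).symm :
      (ℝ × WithLp 2 (E × G)) →L[ℝ] WithLp 2 (ℝ × WithLp 2 (E × G))).hasFDerivAt).comp x
      (h2.prodMk h4)
  have h6 := h1.prodMk (h5.prodMk hi)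
  refine ⟨_, h6.congr_of_eventuallyEq (Filter.Eventually.of_forall fun y => ?_), fun v => ?_⟩
  · simp only [tubeS, div_eq_mul_inv]
    rfl
  · simp only [tubeS', ContinuousLinearMap.prod_apply, ContinuousLinearMap.comp_apply,
      smul_apply, smul_eq_mul, neg_apply, add_apply, ContinuousLinearMap.smulRight_apply,
      zero_apply]
    refine Prod.ext ?_ (Prod.ext ?_ ?_)
    · simp only []
      field_simp
    · refine WithLp.ofLp_injective 2 (Prod.ext ?_ ?_)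
      · simp
        field_simp
      · refine WithLp.ofLp_injective 2 (Prod.ext ?_ ?_)
        · simp
        · simp
          module
    · simp only []
      field_simp

theorem tu2_fderiv_f {W : EHyp Y E} {r : ℝ}
    {T : EHyp X (WithLp 2 (E × G))} {u : X → Y} {a : X → ℝ} {η : X → G}
    (hu : ContDiffOn ℝ ∞ u T.U) (ha : ContDiffOn ℝ ∞ a T.U) (hη : ContDiffOn ℝ ∞ η T.U)
    (h : ∀ x ∈ T.U, u x ∈ W.U ∧ a x ^ 2 + ‖η x‖ ^ 2 = 1 ∧
      T.f x = WithLp.toLp 2 (W.f (u x) + (r * a x) • W.ν (u x), r • η x) ∧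
      T.ν x = WithLp.toLp 2 (a x • W.ν (u x), η x)) {x₀ : X} (hx₀ : x₀ ∈ T.U) (v : X)
    (hv₁ : fderiv ℝ u x₀ v = 0) (hv₂ : fderiv ℝ a x₀ v = 0) (hv₃ : fderiv ℝ η x₀ v = 0) :
    v = 0 := by
  have hU : T.U ∈ 𝓝 x₀ := T.isOpen_U.mem_nhds hx₀
  obtain ⟨hux, -, -, -⟩ := h x₀ hx₀
  have hWU : W.U ∈ 𝓝 (u x₀) := W.isOpen_U.mem_nhds hux
  have du := (((hu x₀ hx₀).contDiffAt hU).differentiableAt (by simp)).hasFDerivAt
  have da := (((ha x₀ hx₀).contDiffAt hU).differentiableAt (by simp)).hasFDerivAt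
  have dη := (((hη x₀ hx₀).contDiffAt hU).differentiableAt (by simp)).hasFDerivAt
  have dw := (((W.smooth_f _ hux).contDiffAt hWU).differentiableAt (by simp)).hasFDerivAt
  have dN := (((W.smooth_ν _ hux).contDiffAt hWU).differentiableAt (by simp)).hasFDerivAt
  have dwu := dw.comp x₀ du
  have dNu := dN.comp x₀ du
  have dF : HasFDerivAt T.f (((WithLp.prodContinuousLinearEquiv 2 ℝ E G).symm :
      (E × G) →L[ℝ] WithLp 2 (E × G)).comp _) x₀ :=
    ((((WithLp.prodContinuousLinearEquiv 2 ℝ E G).symm :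
      (E × G) →L[ℝ] WithLp 2 (E × G)).hasFDerivAt).comp x₀
      ((dwu.add ((da.const_mul r).smul dNu)).prodMk (dη.const_smul r))).congr_of_eventuallyEq
      (by filter_upwards [hU] with x hx using (h x hx).2.2.1)
  apply T.immersion x₀ hx₀
  rw [dF.fderiv]
  simp [hv₁, hv₂, hv₃]

theorem tube_constraint {T : EHyp X (WithLp 2 (E × G))} {a : X → ℝ} {η : X → G}
    (ha : ContDiffOn ℝ ∞ a T.U) (hη : ContDiffOn ℝ ∞ η T.U)
    (h : ∀ x ∈ T.U, a x ^ 2 + ‖η x‖ ^ 2 = 1) {x₀ : X} (hx₀ : x₀ ∈ T.U) (v : X) :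
    a x₀ * fderiv ℝ a x₀ v + ⟪η x₀, fderiv ℝ η x₀ v⟫ = 0 := by
  have hU : T.U ∈ 𝓝 x₀ := T.isOpen_U.mem_nhds hx₀
  have da := (((ha x₀ hx₀).contDiffAt hU).differentiableAt (by simp)).hasFDerivAt
  have dη := (((hη x₀ hx₀).contDiffAt hU).differentiableAt (by simp)).hasFDerivAt
  have h1 := (da.mul da).add dη.norm_sq
  have h2 : HasFDerivAt (fun _ : X => (1 : ℝ)) (0 : X →L[ℝ] ℝ) x₀ := hasFDerivAt_const _ _
  have h3 : (fun _ : X => (1 : ℝ)) =ᶠ[𝓝 x₀] (fun x => a x * a x + ‖η x‖ ^ 2) := by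
    filter_upwards [hU] with x hx
    have := h x hx
    linarith [this, sq (a x)]
  have h4 := (h1.congr_of_eventuallyEq h3).unique h2
  have h5 := congrArg (fun L : X →L[ℝ] ℝ => L v) h4
  simp only [add_apply, smul_apply, smul_eq_mul, ContinuousLinearMap.comp_apply,
    innerSL_apply_apply, zero_apply, nsmul_eq_mul, Nat.cast_ofNat] at h5
  linarith

/-- The null triple of a tube around a hypersurface with two principal curvatures. -/
theorem tube_starHyp {W : EHyp Y E} {κ₁ κ₂ : Y → ℝ} (hW : TwoDupin W κ₁ κ₂) {r : ℝ} (hr : 0 < r)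
    (hG : 1 ≤ finrank ℝ G) {T : EHyp X (WithLp 2 (E × G))} {u : X → Y} {a : X → ℝ} {η : X → G}
    (hu : ContDiffOn ℝ ∞ u T.U) (ha : ContDiffOn ℝ ∞ a T.U) (hη : ContDiffOn ℝ ∞ η T.U)
    (h : ∀ x ∈ T.U, u x ∈ W.U ∧ a x ^ 2 + ‖η x‖ ^ 2 = 1 ∧
      T.f x = WithLp.toLp 2 (W.f (u x) + (r * a x) • W.ν (u x), r • η x) ∧
      T.ν x = WithLp.toLp 2 (a x • W.ν (u x), η x)) {x₀ : X} (hx₀ : x₀ ∈ T.U) (ha₀ : a x₀ ≠ 0) :
    StarHyp (lieForm (WithLp 2 (ℝ × WithLp 2 (E × G)))) (T.U ∩ {x | a x ≠ 0}) x₀ u W.U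
      (fun y => tubeJ E G r (W.kmap κ₁ y)) (fun y => tubeJ E G r (W.kmap κ₂ y))
      (fun x => tubeS E r (a x) (η x)) := by
  have hU : T.U ∈ 𝓝 x₀ := T.isOpen_U.mem_nhds hx₀
  obtain ⟨hux, -, -, -⟩ := h x₀ hx₀
  have du := (((hu x₀ hx₀).contDiffAt hU).differentiableAt (by simp)).hasFDerivAt
  have da := (((ha x₀ hx₀).contDiffAt hU).differentiableAt (by simp)).hasFDerivAt
  have dη := (((hη x₀ hx₀).contDiffAt hU).differentiableAt (by simp)).hasFDerivAt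
  have hcon := tube_constraint ha hη (fun x hx => (h x hx).2.1) hx₀
  obtain ⟨D, hD, hDv⟩ := tubeS_hasFDerivAt (E := E) (r := r) da dη ha₀
  have hDf : ∀ v, fderiv ℝ (fun x => tubeS E r (a x) (η x)) x₀ v
      = tubeS' E r (a x₀) (η x₀) (fderiv ℝ a x₀ v) (fderiv ℝ η x₀ v) := by
    intro v; rw [hD.fderiv, hDv]
  have hQ : ∀ v, lieForm _ (fderiv ℝ (fun x => tubeS E r (a x) (η x)) x₀ v)
      (fderiv ℝ (fun x => tubeS E r (a x) (η x)) x₀ v)
      = (‖fderiv ℝ η x₀ v‖ ^ 2 + (fderiv ℝ a x₀ v) ^ 2) / (a x₀) ^ 2 := by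
    intro v
    rw [hDf, tubeS'_tubeS' r ha₀ (h x₀ hx₀).2.1 (hcon v)]
  have hQ0 : ∀ v, fderiv ℝ (fun x => tubeS E r (a x) (η x)) x₀ v = 0 →
      fderiv ℝ η x₀ v = 0 ∧ fderiv ℝ a x₀ v = 0 := by
    intro v hv
    have h1 := hQ v
    rw [hv] at h1
    simp only [map_zero] at h1
    have h2 : ‖fderiv ℝ η x₀ v‖ ^ 2 + (fderiv ℝ a x₀ v) ^ 2 = 0 := by
      have h3 := (div_eq_zero_iff.1 h1.symm).resolve_right (by positivity)
      exact h3
    have h3 : 0 ≤ ‖fderiv ℝ η x₀ v‖ ^ 2 := by positivity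
    have h4 : 0 ≤ (fderiv ℝ a x₀ v) ^ 2 := by positivity
    constructor
    · rw [← norm_eq_zero]
      exact pow_eq_zero_iff two_ne_zero |>.1 (by linarith)
    · exact pow_eq_zero_iff two_ne_zero |>.1 (by linarith)
  have ha_of_η : ∀ v, fderiv ℝ η x₀ v = 0 → fderiv ℝ a x₀ v = 0 := by
    intro v hv
    have h1 := hcon v
    rw [hv, inner_zero_right, add_zero] at h1
    exact (mul_eq_zero.1 h1).resolve_left ha₀
  -- the pair (u, η) is a local diffeomorphism at the point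
  let Λ : X →ₗ[ℝ] Y × G := (fderiv ℝ u x₀).toLinearMap.prod (fderiv ℝ η x₀).toLinearMap
  have hΛinj : Function.Injective Λ := by
    rw [injective_iff_map_eq_zero]
    intro v hv
    have h1 : fderiv ℝ u x₀ v = 0 := congrArg Prod.fst hv
    have h2 : fderiv ℝ η x₀ v = 0 := congrArg Prod.snd hv
    exact tu2_fderiv_f hu ha hη h hx₀ v h1 (ha_of_η v h2) h2
  have hdimX : finrank ℝ X = finrank ℝ (Y × G) := by
    have h1 := T.dim
    have h2 := W.dim
    have h3 : finrank ℝ (WithLp 2 (E × G)) = finrank ℝ E + finrank ℝ G := by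
      rw [(WithLp.linearEquiv 2 ℝ (E × G)).finrank_eq, Module.finrank_prod]
    rw [Module.finrank_prod]
    omega
  have hΛsurj : Function.Surjective Λ :=
    (LinearMap.injective_iff_surjective_of_finrank_eq_finrank hdimX).1 hΛinj
  have hsQ : ∀ x ∈ T.U ∩ {x | a x ≠ 0}, lieForm _ (tubeS E r (a x) (η x))
      (tubeS E r (a x) (η x)) = -1 := fun x hx => tubeS_tubeS r hx.2 (h x hx.1).2.1
  have hsym := (lieForm_isSymm (H := WithLp 2 (ℝ × WithLp 2 (E × G)))).eq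
  have hk : ∀ κ κ' : Y → ℝ, ∀ y ∈ W.U, lieForm _ (tubeJ E G r (W.kmap κ y))
      (tubeJ E G r (W.kmap κ' y)) = 1 := by
    intro κ κ' y hy
    rw [tubeJ_tubeJ, W.kmap_kmap hy, kmap_snd_snd, kmap_snd_snd]
    ring
  have hJS : ∀ κ : Y → ℝ, ∀ y ∈ W.U, ∀ x ∈ T.U ∩ {x | a x ≠ 0},
      lieForm _ (tubeJ E G r (W.kmap κ y) + tubeS E r (a x) (η x))
        (tubeJ E G r (W.kmap κ y) + tubeS E r (a x) (η x)) = 0 := by
    intro κ y hy x hx
    simp only [map_add, LinearMap.add_apply]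
    rw [hsQ x hx, hk κ κ y hy, hsym (tubeS E r (a x) (η x)), tubeJ_tubeS]
    ring
  have hopen : IsOpen (T.U ∩ {x | a x ≠ 0}) :=
    ha.continuousOn.isOpen_inter_preimage T.isOpen_U isOpen_ne
  refine
    { symm := lieForm_isSymm
      nondeg := lieForm_nondegenerate
      dim := ?_
      isOpen_U := hopen
      mem := ⟨hx₀, ha₀⟩
      isOpen_N := W.isOpen_U
      maps := fun x hx => (h x hx.1).1
      smooth_u := hu.mono inter_subset_left
      smooth_z₁ := smooth_tubeJ_kmap hW.smooth₁ r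
      smooth_z₂ := smooth_tubeJ_kmap hW.smooth₂ r
      smooth_s := ?_
      isCompl := fun y hy => ?_
      ne₁ := fun h0 => ?_
      ne₂ := fun h0 => ?_
      ne₃ := fun h0 => ?_
      null₁₂ := fun y hy => ?_
      null₁ := hJS κ₁
      null₂ := hJS κ₂
      pos₁ := tubeJ_pos hW.smooth₁ hux (hW.deriv₁ _ hux) r
      pos₂ := tubeJ_pos hW.smooth₂ hux (hW.deriv₂ _ hux) r
      pos₃ := fun v hv => ?_
      surj := fun w => ?_
      inj := fun v h1 h2 => ?_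
      li := ?_ }
  · have h1 := T.dim
    rw [(WithLp.linearEquiv 2 ℝ (E × G)).finrank_eq, Module.finrank_prod] at h1
    rw [Module.finrank_prod, Module.finrank_prod,
      (WithLp.linearEquiv 2 ℝ (ℝ × WithLp 2 (E × G))).finrank_eq, Module.finrank_prod,
      (WithLp.linearEquiv 2 ℝ (E × G)).finrank_eq, Module.finrank_prod, Module.finrank_self]
    omega
  · have ha' : ContDiffOn ℝ ∞ a (T.U ∩ {x | a x ≠ 0}) := ha.mono inter_subset_left
    have hη' : ContDiffOn ℝ ∞ η (T.U ∩ {x | a x ≠ 0}) := hη.mono inter_subset_left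
    have hi : ContDiffOn ℝ ∞ (fun x => (a x)⁻¹) (T.U ∩ {x | a x ≠ 0}) :=
      ha'.inv fun x hx => hx.2
    have hd : ContDiffOn ℝ ∞ (fun x => r / a x) (T.U ∩ {x | a x ≠ 0}) :=
      contDiffOn_const.div ha' fun x hx => hx.2
    have hE : ContDiff ℝ ∞ (fun z : E × G => WithLp.toLp 2 z) :=
      (WithLp.prodContinuousLinearEquiv 2 ℝ E G).symm.contDiff
    have hE' : ContDiff ℝ ∞ (fun z : ℝ × WithLp 2 (E × G) => WithLp.toLp 2 z) :=
      (WithLp.prodContinuousLinearEquiv 2 ℝ ℝ (WithLp 2 (E × G))).symm.contDiff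
    exact hd.prodMk ((hE'.comp_contDiffOn (hd.neg.prodMk
      (hE.comp_contDiffOn (contDiffOn_const.prodMk (hi.smul hη'))))).prodMk hi)
  · rw [tubeJ_ker hW.smooth₁ hy (hW.deriv₁ y hy), tubeJ_ker hW.smooth₂ hy (hW.deriv₂ y hy)]
    exact ⟨W.disjoint_prin hy (hW.ne y hy), codisjoint_iff.2 (hW.top y hy)⟩
  · have h1 := tubeJ_ker (G := G) hW.smooth₁ hux (hW.deriv₁ _ hux) r
    rw [h0] at h1
    have h2 := W.disjoint_prin hux (hW.ne _ hux)
    rw [← h1] at h2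
    apply hW.ne_bot₂ _ hux
    simpa using h2
  · have h1 := tubeJ_ker (G := G) hW.smooth₂ hux (hW.deriv₂ _ hux) r
    rw [h0] at h1
    have h2 := W.disjoint_prin hux (hW.ne _ hux)
    rw [← h1] at h2
    apply hW.ne_bot₁ _ hux
    simpa using h2
  · have : Nontrivial G := Module.nontrivial_of_finrank_pos (R := ℝ) (by omega)
    obtain ⟨g, hg⟩ := exists_ne (0 : G)
    obtain ⟨v, hv⟩ := hΛsurj (0, g)
    have h2 : fderiv ℝ η x₀ v = g := congrArg Prod.snd hv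
    have h3 := (hQ0 v (by rw [h0]; rfl)).1
    exact hg (h2.symm.trans h3)
  · simp only [map_sub, LinearMap.sub_apply]
    rw [hk _ _ y hy, hk _ _ y hy, hk _ _ y hy, hk _ _ y hy]
    ring
  · rw [hQ]
    have h1 : ¬ (fderiv ℝ η x₀ v = 0 ∧ fderiv ℝ a x₀ v = 0) := by
      rintro ⟨h1, h2⟩
      apply hv
      rw [hDf, h1, h2]
      simp [tubeS']
    by_cases h2 : fderiv ℝ η x₀ v = 0
    · exact absurd ⟨h2, ha_of_η v h2⟩ h1
    · positivity
  · obtain ⟨v, hv⟩ := hΛsurj (w, 0)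
    exact ⟨v, congrArg Prod.fst hv⟩
  · obtain ⟨h3, h4⟩ := hQ0 v h2
    exact tu2_fderiv_f hu ha hη h hx₀ v h1 h4 h3
  · rw [LinearIndependent.pair_iff]
    intro c₁ c₂ hc
    have h1 := congrArg (fun z => z.1 + (WithLp.ofLp z.2.1).1) hc
    have h2 := congrArg (fun z => z.2.2) hc
    have e1 := kmap_t W κ₁ (u x₀)
    have e2 := kmap_t W κ₂ (u x₀)
    simp [tubeJ, tubeS] at h1 h2
    change (W.kmap κ₁ (u x₀)).1 + (W.kmap κ₁ (u x₀)).2.1.fst = κ₁ (u x₀) at e1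
    change (W.kmap κ₂ (u x₀)).1 + (W.kmap κ₂ (u x₀)).2.1.fst = κ₂ (u x₀) at e2
    have h3 : c₁ * κ₁ (u x₀) + c₂ * κ₂ (u x₀) = 0 := by
      linear_combination h1 - c₁ * e1 - c₂ * e2
    rw [e1, e2] at h2
    have h4 : (c₁ + c₂) * (a x₀)⁻¹ = 0 := by linear_combination h2 + r * h3
    have h5 : c₁ + c₂ = 0 := (mul_eq_zero.1 h4).resolve_right (inv_ne_zero ha₀)
    have h6 : c₁ * (κ₁ (u x₀) - κ₂ (u x₀)) = 0 := by linear_combination h3 - κ₂ (u x₀) * h5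
    have h7 : c₁ = 0 := (mul_eq_zero.1 h6).resolve_right (sub_ne_zero.2 (hW.ne _ hux))
    exact ⟨h7, by linarith⟩

end

end DupinClass

end S_TU2_pf

section S_TU3_pf

open scoped RealInnerProductSpace ContDiff Topology
open Module Set

namespace DupinClass

section

variable {X Y E G : Type} [NormedAddCommGroup X] [NormedSpace ℝ X] [FiniteDimensional ℝ X]
  [NormedAddCommGroup Y] [NormedSpace ℝ Y] [FiniteDimensional ℝ Y]
  [NormedAddCommGroup E] [InnerProductSpace ℝ E] [FiniteDimensional ℝ E]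
  [NormedAddCommGroup G] [InnerProductSpace ℝ G] [FiniteDimensional ℝ G]

theorem tubeJ_eq_zero {r : ℝ} (hr : r ≠ 0) {v : ℝ × WithLp 2 (ℝ × E) × ℝ} (hv : v.2.2 = 0)
    (h : tubeJ E G r v = 0) : v = 0 := by
  obtain ⟨t, w, q⟩ := v
  simp only at hv
  subst hv
  obtain ⟨w⟩ := w
  obtain ⟨w0, e⟩ := w
  simp only [tubeJ, LinearMap.coe_mk, AddHom.coe_mk, Prod.mk_eq_zero] at h
  obtain ⟨h1, h2, h3⟩ := h
  have h4 : t + w0 = 0 := by
    rcases mul_eq_zero.1 h3 with h | h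
    · exact absurd (neg_eq_zero.1 h) hr
    · exact h
  rw [h4] at h1 h2
  have h5 := congrArg WithLp.ofLp h2
  simp only [WithLp.ofLp_zero, zero_mul, zero_div, add_zero, Prod.mk_eq_zero] at h5
  have h6 := congrArg WithLp.ofLp h5.2
  simp only [WithLp.ofLp_zero, Prod.mk_eq_zero] at h6
  have h7 : t = 0 := by simpa using h1
  rw [h7, h5.1, h6.1]
  rfl

theorem fderiv_tubeJ_kmap (W : EHyp Y E) {κ : Y → ℝ} (hκ : ContDiffOn ℝ ∞ κ W.U) {r : ℝ} {y : Y}
    (hy : y ∈ W.U) (v : Y) :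
    fderiv ℝ (fun y => tubeJ E G r (W.kmap κ y)) y v = tubeJ E G r (fderiv ℝ (W.kmap κ) y v) := by
  have hd : DifferentiableAt ℝ (W.kmap κ) y :=
    ((W.kmap_smooth hκ).contDiffAt (W.isOpen_U.mem_nhds hy)).differentiableAt (by simp)
  have h := ((tubeJ E G r).toContinuousLinearMap.hasFDerivAt (x := W.kmap κ y)).comp y hd.hasFDerivAt
  have h2 : HasFDerivAt (fun y => tubeJ E G r (W.kmap κ y))
      ((tubeJ E G r).toContinuousLinearMap.comp (fderiv ℝ (W.kmap κ) y)) y := h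
  rw [h2.fderiv]
  rfl

theorem ker_fderiv_tubeJ_kmap (W : EHyp Y E) {κ : Y → ℝ} (hκ : ContDiffOn ℝ ∞ κ W.U) {r : ℝ}
    (hr : r ≠ 0) {y : Y} (hy : y ∈ W.U)
    (hd : ∀ v ∈ prin W.f W.ν (κ y) y, fderiv ℝ κ y v = 0) :
    (fderiv ℝ (fun y => tubeJ E G r (W.kmap κ y)) y).toLinearMap.ker = prin W.f W.ν (κ y) y := by
  ext v
  rw [LinearMap.mem_ker]
  change fderiv ℝ (fun y => tubeJ E G r (W.kmap κ y)) y v = 0 ↔ _
  rw [fderiv_tubeJ_kmap W hκ hy]
  have hprin : v ∈ prin W.f W.ν (κ y) y ↔ fderiv ℝ W.ν y v + κ y • fderiv ℝ W.f y v = 0 := by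
    unfold prin
    rw [LinearMap.mem_ker]
    rfl
  constructor
  · intro h
    have h0 := tubeJ_eq_zero hr (W.fderiv_kmap_snd hκ hy v) h
    have h1 := W.fderiv_fderiv_kmap hκ hy v
    rw [h0] at h1
    rw [hprin]
    have h2 : ‖fderiv ℝ W.ν y v + κ y • fderiv ℝ W.f y v‖ ^ 2 = 0 := by
      rw [← h1]; simp
    exact norm_eq_zero.1 (pow_eq_zero_iff (two_ne_zero) |>.1 h2)
  · intro h
    rw [W.fderiv_kmap hκ hy, hd v h, (hprin.1 h)]
    simp [tubeJ]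

/-- the four coordinates of `tubeS` -/
noncomputable def tubeI (E G : Type) [NormedAddCommGroup E] [InnerProductSpace ℝ E]
    [NormedAddCommGroup G] [InnerProductSpace ℝ G] (r : ℝ) :
    (G × ℝ) →ₗ[ℝ] (ℝ × WithLp 2 (ℝ × WithLp 2 (E × G)) × ℝ) where
  toFun p := (r * p.2, WithLp.toLp 2 (-(r * p.2), WithLp.toLp 2 (0, p.1)), p.2)
  map_add' := by
    intro p q
    refine Prod.ext ?_ (Prod.ext ?_ ?_)
    · simp [mul_add]
    · refine (WithLp.ofLp_injective 2) ?_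
      refine Prod.ext ?_ ?_
      · simp [mul_add]; ring
      · refine (WithLp.ofLp_injective 2) ?_
        refine Prod.ext ?_ ?_
        · simp
        · simp
    · simp
  map_smul' := by
    intro t p
    refine Prod.ext ?_ (Prod.ext ?_ ?_)
    · simp; ring
    · refine (WithLp.ofLp_injective 2) ?_
      refine Prod.ext ?_ ?_
      · simp; ring
      · refine (WithLp.ofLp_injective 2) ?_
        refine Prod.ext ?_ ?_
        · simp
        · simp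
    · simp

theorem tubeS_eq (r a : ℝ) (η : G) : tubeS E r a η = tubeI E G r (a⁻¹ • η, a⁻¹) := by
  simp only [tubeS, tubeI, LinearMap.coe_mk, AddHom.coe_mk, div_eq_mul_inv]

theorem lieForm_tubeI (r : ℝ) (p q : G × ℝ) :
    lieForm _ (tubeI E G r p) (tubeI E G r q) = ⟪p.1, q.1⟫ - p.2 * q.2 := by
  simp only [lieForm, LinearMap.mk₂_apply, tubeI, LinearMap.coe_mk, AddHom.coe_mk,
    WithLp.prod_inner_apply, inner_zero_left, inner_zero_right]
  simp
  ring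

theorem lieForm_tubeJ_tubeI (r : ℝ) (v : ℝ × WithLp 2 (ℝ × E) × ℝ) (q : G × ℝ) :
    lieForm _ (tubeJ E G r v) (tubeI E G r q) = 0 := by
  simp only [lieForm, LinearMap.mk₂_apply, tubeI, tubeJ, LinearMap.coe_mk, AddHom.coe_mk,
    WithLp.prod_inner_apply, inner_zero_left, inner_zero_right]
  simp
  ring

theorem lieForm_comm' {H : Type} [NormedAddCommGroup H] [InnerProductSpace ℝ H]
    (v w : ℝ × H × ℝ) : lieForm H v w = lieForm H w v := by
  simp only [lieForm, LinearMap.mk₂_apply]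
  rw [real_inner_comm]
  ring

theorem finrank_wlp {A A' : Type} [NormedAddCommGroup A] [InnerProductSpace ℝ A]
    [FiniteDimensional ℝ A] [NormedAddCommGroup A'] [InnerProductSpace ℝ A']
    [FiniteDimensional ℝ A'] : finrank ℝ (WithLp 2 (A × A')) = finrank ℝ A + finrank ℝ A' := by
  rw [(WithLp.linearEquiv 2 ℝ (A × A')).finrank_eq, Module.finrank_prod]

/-- **Module TUBE.** -/
theorem tube_confEq {W : EHyp Y E} {κ₁ κ₂ : Y → ℝ} (hW : TwoDupin W κ₁ κ₂) {r : ℝ} (hr : 0 < r)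
    (hG : 1 ≤ finrank ℝ G) {T : EHyp X (WithLp 2 (E × G))} {u : X → Y} {a : X → ℝ} {η : X → G}
    (hu : ContDiffOn ℝ ∞ u T.U) (ha : ContDiffOn ℝ ∞ a T.U) (hη : ContDiffOn ℝ ∞ η T.U)
    (h : ∀ x ∈ T.U, u x ∈ W.U ∧ a x ^ 2 + ‖η x‖ ^ 2 = 1 ∧
      T.f x = WithLp.toLp 2 (W.f (u x) + (r * a x) • W.ν (u x), r • η x) ∧
      T.ν x = WithLp.toLp 2 (a x • W.ν (u x), η x)) {x₀ : X} (hx₀ : x₀ ∈ T.U) (ha₀ : a x₀ ≠ 0)
    {m : Fin 3 → ℕ} (h0 : finrank ℝ (prin W.f W.ν (κ₂ (u x₀)) (u x₀)) = m 0)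
    (h1 : finrank ℝ (prin W.f W.ν (κ₁ (u x₀)) (u x₀)) = m 1) (h2 : finrank ℝ G = m 2) :
    ∃ μ : Fin 3 → ℝ, μ 0 + μ 1 + μ 2 = 0 ∧ μ 2 = -1 ∧
      ConfEqAt (lieForm _) T.toSphere.lift T.U x₀ (mForm m μ) (mFam m μ) (mU m μ) 0 ∧
      (∀ n, (∀ v, lieForm _ n (fderiv ℝ (fun y => tubeJ E G r (W.kmap κ₁ y)) (u x₀) v) = 0) →
        lieForm _ n (tubeJ E G r (W.kmap κ₁ (u x₀)) - tubeJ E G r (W.kmap κ₂ (u x₀))) = 1 →
        lieForm _ n (tubeJ E G r (W.kmap κ₁ (u x₀)) + tubeS E r (a x₀) (η x₀)) = 1 →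
        (∀ᶠ y in 𝓝 (u x₀), ∃ v, ∃ t : ℝ,
          tubeJ E G r (W.kmap κ₁ y) - tubeJ E G r (W.kmap κ₁ (u x₀))
            = fderiv ℝ (fun y => tubeJ E G r (W.kmap κ₁ y)) (u x₀) v + t • n) →
        μ 0 = lieForm _ n n) := by
  have hS := tube_starHyp hW hr hG hu ha hη h hx₀ ha₀
  have hy₀ : u x₀ ∈ W.U := (h x₀ hx₀).1
  have hdimX : finrank ℝ X = finrank ℝ Y + finrank ℝ G := by
    have e1 := T.dim
    have e2 := W.dim
    rw [finrank_wlp] at e1
    omega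
  -- ranks of the two Gauss type maps
  have hcompl : IsCompl (prin W.f W.ν (κ₁ (u x₀)) (u x₀)) (prin W.f W.ν (κ₂ (u x₀)) (u x₀)) :=
    ⟨W.disjoint_prin hy₀ (hW.ne _ hy₀), codisjoint_iff.2 (hW.top _ hy₀)⟩
  have hsumY := Submodule.finrank_add_eq_of_isCompl hcompl
  have r1 : finrank ℝ (fderiv ℝ (fun y => tubeJ E G r (W.kmap κ₁ y)) (u x₀)).toLinearMap.range
      = m 0 := by
    have e := LinearMap.finrank_range_add_finrank_ker
      (fderiv ℝ (fun y => tubeJ E G r (W.kmap κ₁ y)) (u x₀)).toLinearMap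
    rw [ker_fderiv_tubeJ_kmap W hW.smooth₁ hr.ne' hy₀ (hW.deriv₁ _ hy₀)] at e
    omega
  have r2 : finrank ℝ (fderiv ℝ (fun y => tubeJ E G r (W.kmap κ₂ y)) (u x₀)).toLinearMap.range
      = m 1 := by
    have e := LinearMap.finrank_range_add_finrank_ker
      (fderiv ℝ (fun y => tubeJ E G r (W.kmap κ₂ y)) (u x₀)).toLinearMap
    rw [ker_fderiv_tubeJ_kmap W hW.smooth₂ hr.ne' hy₀ (hW.deriv₂ _ hy₀)] at e
    omega
  -- the third map
  set U' : Set X := T.U ∩ {x | a x ≠ 0} with hU'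
  have hx₀' : x₀ ∈ U' := ⟨hx₀, ha₀⟩
  have hU'o : IsOpen U' := hS.isOpen_U
  set p : X → G × ℝ := fun x => ((a x)⁻¹ • η x, (a x)⁻¹) with hp
  have hinv : ContDiffOn ℝ ∞ (fun x => (a x)⁻¹) U' :=
    (ha.mono inter_subset_left).inv (fun x hx => hx.2)
  have hpsm : ContDiffOn ℝ ∞ p U' := (hinv.smul (hη.mono inter_subset_left)).prodMk hinv
  have hpd : HasFDerivAt p (fderiv ℝ p x₀) x₀ :=
    ((hpsm.contDiffAt (hU'o.mem_nhds hx₀')).differentiableAt (by simp)).hasFDerivAt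
  set D := fderiv ℝ p x₀ with hD
  have hseq : (fun x => tubeS E r (a x) (η x)) = fun x => (tubeI E G r) (p x) := by
    funext x
    exact tubeS_eq r (a x) (η x)
  have hsd : ∀ v, fderiv ℝ (fun x => tubeS E r (a x) (η x)) x₀ v = tubeI E G r (D v) := by
    intro v
    rw [hseq]
    have e1 := ((tubeI E G r).toContinuousLinearMap.hasFDerivAt (x := p x₀)).comp x₀ hpd
    have e2 : HasFDerivAt (fun x => (tubeI E G r) (p x))
      ((tubeI E G r).toContinuousLinearMap.comp D) x₀ := e1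
    rw [e2.fderiv]
    rfl
  have hIinj : Function.Injective (tubeI E G r) := by
    intro q q' hq
    have e1 : q.2 = q'.2 := congrArg (fun z : ℝ × WithLp 2 (ℝ × WithLp 2 (E × G)) × ℝ => z.2.2) hq
    have e2 : q.1 = q'.1 :=
      congrArg (fun z : ℝ × WithLp 2 (ℝ × WithLp 2 (E × G)) × ℝ =>
        (WithLp.ofLp (WithLp.ofLp z.2.1).2).2) hq
    exact Prod.ext e2 e1
  have hnorm : ∀ x ∈ U', ⟪(p x).1, (p x).1⟫ - (p x).2 * (p x).2 = -1 := by
    intro x hx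
    have e1 := (h x hx.1).2.1
    have e2 : a x ≠ 0 := hx.2
    simp only [hp, inner_smul_left, inner_smul_right, RCLike.conj_to_real, real_inner_self_eq_norm_sq]
    field_simp
    linarith
  have hconstr : ∀ v, ⟪(p x₀).1, (D v).1⟫ - (p x₀).2 * (D v).2 = 0 := by
    intro v
    have d1 := hpd.fst
    have d2 := hpd.snd
    have d3 := (d1.inner ℝ d1).sub (d2.mul d2)
    have d4 : HasFDerivAt (fun x => ⟪(p x).1, (p x).1⟫ - (p x).2 * (p x).2) (0 : X →L[ℝ] ℝ) x₀ := by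
      refine (hasFDerivAt_const (-1 : ℝ) x₀).congr_of_eventuallyEq ?_
      filter_upwards [hU'o.mem_nhds hx₀'] with x hx
      exact hnorm x hx
    have d5 := d3.unique d4
    have d6 := congrArg (fun L : X →L[ℝ] ℝ => L v) d5
    simp [fderivInnerCLM_apply] at d6
    rw [real_inner_comm (p x₀).1 (D v).1] at d6
    linarith
  have hp2 : (p x₀).2 ≠ 0 := inv_ne_zero ha₀
  set ℓ : (G × ℝ) →ₗ[ℝ] ℝ := (innerₗ G (p x₀).1) ∘ₗ (LinearMap.fst ℝ G ℝ)
    - (p x₀).2 • (LinearMap.snd ℝ G ℝ) with hℓ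
  have hℓa : ∀ q, ℓ q = ⟪(p x₀).1, q.1⟫ - (p x₀).2 * q.2 := by
    intro q
    simp [hℓ]
  have hℓr : finrank ℝ ℓ.range = 1 := by
    have : ℓ.range = ⊤ := by
      rw [LinearMap.range_eq_top]
      intro t
      refine ⟨(0, -(t / (p x₀).2)), ?_⟩
      rw [hℓa]
      simp
      field_simp
    rw [this, finrank_top, Module.finrank_self]
  have hKdim : finrank ℝ ℓ.ker = finrank ℝ G := by
    have e := LinearMap.finrank_range_add_finrank_ker ℓ
    rw [hℓr, Module.finrank_prod, Module.finrank_self] at e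
    omega
  have hDle : D.toLinearMap.range ≤ ℓ.ker := by
    rintro _ ⟨v, rfl⟩
    rw [LinearMap.mem_ker, hℓa]
    exact hconstr v
  have hDge : finrank ℝ G ≤ finrank ℝ D.toLinearMap.range := by
    have hi : Function.Injective
        ((fderiv ℝ u x₀).toLinearMap.prod D.toLinearMap.rangeRestrict) := by
      rw [← LinearMap.ker_eq_bot, LinearMap.ker_eq_bot']
      intro v hv
      have e1 : fderiv ℝ u x₀ v = 0 := congrArg Prod.fst hv
      have e2 : D v = 0 := congrArg (fun z => (z.2 : G × ℝ)) hv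
      refine hS.inj v e1 ?_
      rw [hsd, e2, map_zero]
    have e := LinearMap.finrank_le_finrank_of_injective hi
    rw [Module.finrank_prod] at e
    omega
  have hDeq : D.toLinearMap.range = ℓ.ker :=
    Submodule.eq_of_le_of_finrank_le hDle (by rw [hKdim]; exact hDge)
  have hrange : (fderiv ℝ (fun x => tubeS E r (a x) (η x)) x₀).toLinearMap.range
      = Submodule.map (tubeI E G r) D.toLinearMap.range := by
    ext w
    constructor
    · rintro ⟨v, rfl⟩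
      exact ⟨D v, ⟨v, rfl⟩, (hsd v).symm⟩
    · rintro ⟨_, ⟨v, rfl⟩, rfl⟩
      exact ⟨v, hsd v⟩
  have r3 : finrank ℝ (fderiv ℝ (fun x => tubeS E r (a x) (η x)) x₀).toLinearMap.range = m 2 := by
    rw [hrange, (Submodule.equivMapOfInjective (tubeI E G r) hIinj D.toLinearMap.range).symm.finrank_eq,
      hDeq, hKdim, h2]
  obtain ⟨μ, hμ, ⟨A, hA, φ, ψ, N, N', hφ, hxN, hNU, hNU', hφx, hL⟩, hn0, hn2⟩ :=
    hS.confEq r1 r2 r3
  refine ⟨μ, hμ, ?_, ⟨A, hA, φ, ψ, N, N', hφ, hxN, fun x hx => (hNU hx).1, hNU', hφx, ?_⟩, hn0⟩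
  · -- the normal of the third map is its value
    have e := hn2 (tubeS E r (a x₀) (η x₀)) ?_ ?_ ?_ ?_
    · rw [e, tubeS_eq, lieForm_tubeI]
      exact hnorm x₀ hx₀'
    · intro v
      rw [hsd, tubeS_eq, lieForm_tubeI]
      exact hconstr v
    · rw [map_add, tubeS_eq, lieForm_comm', lieForm_tubeJ_tubeI, lieForm_tubeI, zero_add]
      exact hnorm x₀ hx₀'
    · rw [map_add, tubeS_eq, lieForm_comm', lieForm_tubeJ_tubeI, lieForm_tubeI, zero_add]
      exact hnorm x₀ hx₀'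
    · refine Filter.Eventually.of_forall ?_
      intro x
      set q : G × ℝ := p x - p x₀ with hq
      have hk : q + (ℓ q) • p x₀ ∈ ℓ.ker := by
        rw [LinearMap.mem_ker, map_add, map_smul, hℓa (p x₀), hnorm x₀ hx₀']
        simp
      rw [← hDeq] at hk
      obtain ⟨v, hv⟩ := hk
      refine ⟨v, -(ℓ q), ?_⟩
      have hv' : D v = q + (ℓ q) • p x₀ := hv
      rw [hsd, hv', tubeS_eq, tubeS_eq, ← map_sub, ← map_smul, ← map_add]
      congr 1
      change q = q + (ℓ q) • p x₀ + (-(ℓ q)) • p x₀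
      rw [neg_smul, add_neg_cancel_right]
  · intro x hx
    have hxU := hNU hx
    rw [← hL x hx]
    congr 1
    exact tube_lift hW hxU.1 (h x hxU.1).1 hxU.2 (h x hxU.1).2.1 (h x hxU.1).2.2.1
      (h x hxU.1).2.2.2

end

end DupinClass

end S_TU3_pf
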