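import Mathlib
import Pool.Agent.H31.DC.D2
import Pool.Agent.H31.DC.D5

/-! Reducible Dupin hypersurfaces, part D7 (several modules joined to save build time). -/

section S_TM1_pf

open scoped RealInnerProductSpace ContDiff Topology
open Module Set

namespace DupinClass

/-! ## The tube over a hypersurface without positive principal curvatures: proofs -/

section Tube

variable {Y E : Type} [NormedAddCommGroup Y] [NormedSpace ℝ Y] [FiniteDimensional ℝ Y]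
  [NormedAddCommGroup E] [InnerProductSpace ℝ E] [FiniteDimensional ℝ E]

/-- The derivative of the unit normal field is orthogonal to the normal. -/
theorem EHyp.inner_dν' (W : EHyp Y E) {y : Y} (hy : y ∈ W.U) (v : Y) :
    ⟪fderiv ℝ W.ν y v, W.ν y⟫ = 0 := by
  have hd : HasFDerivAt W.ν (fderiv ℝ W.ν y) y :=
    ((W.smooth_ν.contDiffAt (W.isOpen_U.mem_nhds hy)).differentiableAt (by simp)).hasFDerivAt
  have h1 : HasFDerivAt (fun z => ‖W.ν z‖ ^ 2)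
      ((2 : ℝ) • (innerSL ℝ (W.ν y)).comp (fderiv ℝ W.ν y)) y := by
    have := hd.norm_sq
    convert this using 1
    ext w
    simp [two_smul]
  have h2 : (fun z => ‖W.ν z‖ ^ 2) =ᶠ[𝓝 y] fun _ => (1 : ℝ) := by
    filter_upwards [W.isOpen_U.mem_nhds hy] with z hz
    rw [W.norm_ν z hz]
    norm_num
  have h3 : HasFDerivAt (fun z => ‖W.ν z‖ ^ 2) (0 : Y →L[ℝ] ℝ) y :=
    (hasFDerivAt_const (1 : ℝ) y).congr_of_eventuallyEq h2
  have h4 := h1.unique h3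
  have h5 := congrArg (fun l : Y →L[ℝ] ℝ => l v) h4
  simp at h5
  rw [real_inner_comm]
  exact h5

theorem EHyp.hasFDerivAt_f' (W : EHyp Y E) {y : Y} (hy : y ∈ W.U) :
    HasFDerivAt W.f (fderiv ℝ W.f y) y :=
  ((W.smooth_f.contDiffAt (W.isOpen_U.mem_nhds hy)).differentiableAt (by simp)).hasFDerivAt

theorem EHyp.hasFDerivAt_ν' (W : EHyp Y E) {y : Y} (hy : y ∈ W.U) :
    HasFDerivAt W.ν (fderiv ℝ W.ν y) y :=
  ((W.smooth_ν.contDiffAt (W.isOpen_U.mem_nhds hy)).differentiableAt (by simp)).hasFDerivAt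

variable {G : Type} [NormedAddCommGroup G] [InnerProductSpace ℝ G] [FiniteDimensional ℝ G]

theorem one_sub_norm_sq_pos {γ : G} (hγ : ‖γ‖ < 1) : 0 < 1 - ‖γ‖ ^ 2 := by
  nlinarith [norm_nonneg γ]

theorem sqrt_one_sub_pos {γ : G} (hγ : ‖γ‖ < 1) : 0 < √(1 - ‖γ‖ ^ 2) :=
  Real.sqrt_pos.2 (one_sub_norm_sq_pos hγ)

theorem sqrt_one_sub_sq {γ : G} (hγ : ‖γ‖ < 1) : √(1 - ‖γ‖ ^ 2) ^ 2 = 1 - ‖γ‖ ^ 2 :=
  Real.sq_sqrt (one_sub_norm_sq_pos hγ).le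

/-- The derivative of `γ ↦ √(1 - |γ|²)`. -/
theorem hasFDerivAt_sqrt_one_sub {γ : G} (hγ : ‖γ‖ < 1) :
    HasFDerivAt (fun γ : G => √(1 - ‖γ‖ ^ 2)) (-(√(1 - ‖γ‖ ^ 2))⁻¹ • innerSL ℝ γ) γ := by
  have h1 := (hasStrictFDerivAt_norm_sq γ).hasFDerivAt.const_sub 1
  have h2 := h1.sqrt (one_sub_norm_sq_pos hγ).ne'
  refine h2.congr_fderiv ?_
  have := (sqrt_one_sub_pos hγ).ne'
  ext w
  simp [two_smul]
  field_simp
  ring

theorem contDiffOn_sqrt_one_sub :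
    ContDiffOn ℝ ∞ (fun γ : G => √(1 - ‖γ‖ ^ 2)) {γ | ‖γ‖ < 1} := by
  intro γ hγ
  have h1 : ContDiffAt ℝ ∞ (fun γ : G => 1 - ‖γ‖ ^ 2) γ :=
    contDiffAt_const.sub (contDiff_norm_sq ℝ).contDiffAt
  exact (h1.sqrt (one_sub_norm_sq_pos hγ).ne').contDiffWithinAt

variable (W : EHyp Y E) (G)

theorem tube_isOpen_U : IsOpen {z : Y × G | z.1 ∈ W.U ∧ ‖z.2‖ < 1} :=
  (W.isOpen_U.preimage continuous_fst).inter
    (isOpen_lt (continuous_norm.comp continuous_snd) continuous_const)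

theorem tube_smooth_sqrt :
    ContDiffOn ℝ ∞ (fun z : Y × G => √(1 - ‖z.2‖ ^ 2)) {z : Y × G | z.1 ∈ W.U ∧ ‖z.2‖ < 1} :=
  contDiffOn_sqrt_one_sub.comp contDiff_snd.contDiffOn (fun _ hz => hz.2)

theorem tube_smooth_f {r : ℝ} : ContDiffOn ℝ ∞
    (fun z : Y × G => WithLp.toLp 2 (W.f z.1 + (r * √(1 - ‖z.2‖ ^ 2)) • W.ν z.1, r • z.2))
    {z : Y × G | z.1 ∈ W.U ∧ ‖z.2‖ < 1} := by
  have h1 : ContDiffOn ℝ ∞ (fun z : Y × G => W.f z.1) {z : Y × G | z.1 ∈ W.U ∧ ‖z.2‖ < 1} :=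
    W.smooth_f.comp contDiff_fst.contDiffOn (fun _ hz => hz.1)
  have h2 : ContDiffOn ℝ ∞ (fun z : Y × G => W.ν z.1) {z : Y × G | z.1 ∈ W.U ∧ ‖z.2‖ < 1} :=
    W.smooth_ν.comp contDiff_fst.contDiffOn (fun _ hz => hz.1)
  exact (WithLp.contDiff_toLp (𝕜 := ℝ) (p := 2)).comp_contDiffOn
    ((h1.add ((contDiffOn_const.mul (tube_smooth_sqrt G W)).smul h2)).prodMk
      (contDiffOn_const.smul contDiff_snd.contDiffOn))

theorem tube_smooth_ν : ContDiffOn ℝ ∞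
    (fun z : Y × G => WithLp.toLp 2 (√(1 - ‖z.2‖ ^ 2) • W.ν z.1, z.2))
    {z : Y × G | z.1 ∈ W.U ∧ ‖z.2‖ < 1} := by
  have h2 : ContDiffOn ℝ ∞ (fun z : Y × G => W.ν z.1) {z : Y × G | z.1 ∈ W.U ∧ ‖z.2‖ < 1} :=
    W.smooth_ν.comp contDiff_fst.contDiffOn (fun _ hz => hz.1)
  exact (WithLp.contDiff_toLp (𝕜 := ℝ) (p := 2)).comp_contDiffOn
    (((tube_smooth_sqrt G W).smul h2).prodMk contDiff_snd.contDiffOn)

theorem tube_norm_ν (z : Y × G) (hz : z ∈ {z : Y × G | z.1 ∈ W.U ∧ ‖z.2‖ < 1}) :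
    ‖(WithLp.toLp 2 (√(1 - ‖z.2‖ ^ 2) • W.ν z.1, z.2) : WithLp 2 (E × G))‖ = 1 := by
  have h1 := sqrt_one_sub_sq hz.2
  have h2 : ‖(WithLp.toLp 2 (√(1 - ‖z.2‖ ^ 2) • W.ν z.1, z.2) : WithLp 2 (E × G))‖ ^ 2 = 1 := by
    rw [WithLp.prod_norm_sq_eq_of_L2]
    show ‖√(1 - ‖z.2‖ ^ 2) • W.ν z.1‖ ^ 2 + ‖z.2‖ ^ 2 = 1
    rw [norm_smul, W.norm_ν z.1 hz.1, mul_one, Real.norm_eq_abs, sq_abs, h1]
    ring
  have h3 := norm_nonneg (WithLp.toLp 2 (√(1 - ‖z.2‖ ^ 2) • W.ν z.1, z.2) : WithLp 2 (E × G))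
  nlinarith

/-- The derivative of the tube. -/
theorem tube_hasFDerivAt_f {r : ℝ} (z : Y × G) (hz : z ∈ {z : Y × G | z.1 ∈ W.U ∧ ‖z.2‖ < 1}) :
    ∃ D : (Y × G) →L[ℝ] WithLp 2 (E × G), HasFDerivAt
      (fun z : Y × G => (WithLp.toLp 2 (W.f z.1 + (r * √(1 - ‖z.2‖ ^ 2)) • W.ν z.1, r • z.2) :
        WithLp 2 (E × G))) D z ∧
      ∀ v, D v = WithLp.toLp 2 (fderiv ℝ W.f z.1 v.1 + (r * √(1 - ‖z.2‖ ^ 2)) • fderiv ℝ W.ν z.1 v.1
        + (r * (-(√(1 - ‖z.2‖ ^ 2))⁻¹ * ⟪z.2, v.2⟫)) • W.ν z.1, r • v.2) := by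
  have h1 : HasFDerivAt (fun z : Y × G => W.f z.1)
      ((fderiv ℝ W.f z.1).comp (ContinuousLinearMap.fst ℝ Y G)) z :=
    (W.hasFDerivAt_f' hz.1).comp z hasFDerivAt_fst
  have h2 : HasFDerivAt (fun z : Y × G => W.ν z.1)
      ((fderiv ℝ W.ν z.1).comp (ContinuousLinearMap.fst ℝ Y G)) z :=
    (W.hasFDerivAt_ν' hz.1).comp z hasFDerivAt_fst
  have h3 : HasFDerivAt (fun z : Y × G => √(1 - ‖z.2‖ ^ 2))
      ((-(√(1 - ‖z.2‖ ^ 2))⁻¹ • innerSL ℝ z.2).comp (ContinuousLinearMap.snd ℝ Y G)) z :=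
    (hasFDerivAt_sqrt_one_sub hz.2).comp z hasFDerivAt_snd
  have h4 := (h1.add ((h3.const_mul r).smul h2)).prodMk
    ((hasFDerivAt_snd (𝕜 := ℝ) (E := Y) (F := G) (p := z)).const_smul r)
  have h5 := ((WithLp.prodContinuousLinearEquiv 2 ℝ E G).symm.toContinuousLinearMap.hasFDerivAt
    (x := (W.f z.1 + (r * √(1 - ‖z.2‖ ^ 2)) • W.ν z.1, r • z.2))).comp z h4
  refine ⟨_, h5, fun v => ?_⟩
  simp [add_assoc]

/-- The derivative of the unit normal field of the tube. -/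
theorem tube_hasFDerivAt_ν (z : Y × G) (hz : z ∈ {z : Y × G | z.1 ∈ W.U ∧ ‖z.2‖ < 1}) :
    ∃ D : (Y × G) →L[ℝ] WithLp 2 (E × G), HasFDerivAt
      (fun z : Y × G => (WithLp.toLp 2 (√(1 - ‖z.2‖ ^ 2) • W.ν z.1, z.2) :
        WithLp 2 (E × G))) D z ∧
      ∀ v, D v = WithLp.toLp 2 (√(1 - ‖z.2‖ ^ 2) • fderiv ℝ W.ν z.1 v.1
        + (-(√(1 - ‖z.2‖ ^ 2))⁻¹ * ⟪z.2, v.2⟫) • W.ν z.1, v.2) := by
  have h2 : HasFDerivAt (fun z : Y × G => W.ν z.1)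
      ((fderiv ℝ W.ν z.1).comp (ContinuousLinearMap.fst ℝ Y G)) z :=
    (W.hasFDerivAt_ν' hz.1).comp z hasFDerivAt_fst
  have h3 : HasFDerivAt (fun z : Y × G => √(1 - ‖z.2‖ ^ 2))
      ((-(√(1 - ‖z.2‖ ^ 2))⁻¹ • innerSL ℝ z.2).comp (ContinuousLinearMap.snd ℝ Y G)) z :=
    (hasFDerivAt_sqrt_one_sub hz.2).comp z hasFDerivAt_snd
  have h4 := (h3.smul h2).prodMk (hasFDerivAt_snd (𝕜 := ℝ) (E := Y) (F := G) (p := z))
  have h5 := ((WithLp.prodContinuousLinearEquiv 2 ℝ E G).symm.toContinuousLinearMap.hasFDerivAt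
    (x := (√(1 - ‖z.2‖ ^ 2) • W.ν z.1, z.2))).comp z h4
  refine ⟨_, h5, fun v => ?_⟩
  simp

theorem tube_fderiv_f {r : ℝ} {z : Y × G} (hz : z ∈ {z : Y × G | z.1 ∈ W.U ∧ ‖z.2‖ < 1})
    (v : Y × G) :
    fderiv ℝ (fun z : Y × G =>
      (WithLp.toLp 2 (W.f z.1 + (r * √(1 - ‖z.2‖ ^ 2)) • W.ν z.1, r • z.2) :
        WithLp 2 (E × G))) z v
      = WithLp.toLp 2 (fderiv ℝ W.f z.1 v.1 + (r * √(1 - ‖z.2‖ ^ 2)) • fderiv ℝ W.ν z.1 v.1
        + (r * (-(√(1 - ‖z.2‖ ^ 2))⁻¹ * ⟪z.2, v.2⟫)) • W.ν z.1, r • v.2) := by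
  obtain ⟨D, hD, h⟩ := tube_hasFDerivAt_f G W (r := r) z hz
  rw [hD.fderiv]
  exact h v

theorem tube_fderiv_ν {z : Y × G} (hz : z ∈ {z : Y × G | z.1 ∈ W.U ∧ ‖z.2‖ < 1})
    (v : Y × G) :
    fderiv ℝ (fun z : Y × G =>
      (WithLp.toLp 2 (√(1 - ‖z.2‖ ^ 2) • W.ν z.1, z.2) : WithLp 2 (E × G))) z v
      = WithLp.toLp 2 (√(1 - ‖z.2‖ ^ 2) • fderiv ℝ W.ν z.1 v.1
        + (-(√(1 - ‖z.2‖ ^ 2))⁻¹ * ⟪z.2, v.2⟫) • W.ν z.1, v.2) := by
  obtain ⟨D, hD, h⟩ := tube_hasFDerivAt_ν G W z hz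
  rw [hD.fderiv]
  exact h v

theorem tube_inner_df {r : ℝ} (z : Y × G) (hz : z ∈ {z : Y × G | z.1 ∈ W.U ∧ ‖z.2‖ < 1})
    (v : Y × G) :
    ⟪fderiv ℝ (fun z : Y × G =>
      (WithLp.toLp 2 (W.f z.1 + (r * √(1 - ‖z.2‖ ^ 2)) • W.ν z.1, r • z.2) :
        WithLp 2 (E × G))) z v,
      (WithLp.toLp 2 (√(1 - ‖z.2‖ ^ 2) • W.ν z.1, z.2) : WithLp 2 (E × G))⟫ = 0 := by
  rw [tube_fderiv_f G W hz, WithLp.prod_inner_apply]
  simp only [inner_add_left, inner_smul_left, inner_smul_right, W.inner_df z.1 hz.1,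
    W.inner_dν' hz.1, real_inner_self_eq_norm_sq, W.norm_ν z.1 hz.1, RCLike.conj_to_real,
    real_inner_comm z.2 v.2]
  have := (sqrt_one_sub_pos hz.2).ne'
  field_simp
  ring

theorem tube_immersion {r : ℝ} (hr : 0 < r)
    (hW : ∀ y ∈ W.U, ∀ k : ℝ, 0 < k → prin W.f W.ν k y = ⊥) (z : Y × G)
    (hz : z ∈ {z : Y × G | z.1 ∈ W.U ∧ ‖z.2‖ < 1}) (v : Y × G)
    (hv : fderiv ℝ (fun z : Y × G =>
      (WithLp.toLp 2 (W.f z.1 + (r * √(1 - ‖z.2‖ ^ 2)) • W.ν z.1, r • z.2) :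
        WithLp 2 (E × G))) z v = 0) : v = 0 := by
  rw [tube_fderiv_f G W hz] at hv
  have h0 : (fderiv ℝ W.f z.1 v.1 + (r * √(1 - ‖z.2‖ ^ 2)) • fderiv ℝ W.ν z.1 v.1
        + (r * (-(√(1 - ‖z.2‖ ^ 2))⁻¹ * ⟪z.2, v.2⟫)) • W.ν z.1, r • v.2) = ((0 : E), (0 : G)) := by
    have := congrArg WithLp.ofLp hv
    simpa using this
  have h1 : r • v.2 = 0 := congrArg Prod.snd h0
  have h2 : v.2 = 0 := by
    rcases smul_eq_zero.1 h1 with h | h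
    · exact absurd h hr.ne'
    · exact h
  have h3 : fderiv ℝ W.f z.1 v.1 + (r * √(1 - ‖z.2‖ ^ 2)) • fderiv ℝ W.ν z.1 v.1 = 0 := by
    have := congrArg Prod.fst h0
    simpa [h2] using this
  have hω := sqrt_one_sub_pos hz.2
  have hpos : 0 < r * √(1 - ‖z.2‖ ^ 2) := mul_pos hr hω
  have h4 : v.1 ∈ prin W.f W.ν (r * √(1 - ‖z.2‖ ^ 2))⁻¹ z.1 := by
    show fderiv ℝ W.ν z.1 v.1 + (r * √(1 - ‖z.2‖ ^ 2))⁻¹ • fderiv ℝ W.f z.1 v.1 = 0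
    have h5 : (r * √(1 - ‖z.2‖ ^ 2))⁻¹ •
        (fderiv ℝ W.f z.1 v.1 + (r * √(1 - ‖z.2‖ ^ 2)) • fderiv ℝ W.ν z.1 v.1) = 0 := by
      rw [h3, smul_zero]
    rw [smul_add, smul_smul, inv_mul_cancel₀ hpos.ne', one_smul] at h5
    rw [add_comm]
    exact h5
  rw [hW z.1 hz.1 _ (inv_pos.2 hpos), Submodule.mem_bot] at h4
  exact Prod.ext h4 h2

include W in
theorem tube_dim : finrank ℝ (WithLp 2 (E × G)) = finrank ℝ (Y × G) + 1 := by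
  rw [(WithLp.prodContinuousLinearEquiv 2 ℝ E G).toLinearEquiv.finrank_eq, finrank_prod,
    finrank_prod, W.dim]
  ring

variable {r : ℝ}

/-- The equation of the principal vectors of the tube. -/
theorem tube_mem_prin_iff {z : Y × G} (hz : z ∈ {z : Y × G | z.1 ∈ W.U ∧ ‖z.2‖ < 1}) (k : ℝ)
    (v : Y × G) :
    v ∈ prin (fun z : Y × G =>
      (WithLp.toLp 2 (W.f z.1 + (r * √(1 - ‖z.2‖ ^ 2)) • W.ν z.1, r • z.2) : WithLp 2 (E × G)))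
      (fun z : Y × G => (WithLp.toLp 2 (√(1 - ‖z.2‖ ^ 2) • W.ν z.1, z.2) : WithLp 2 (E × G))) k z ↔
    ((1 + k * r) * √(1 - ‖z.2‖ ^ 2)) • fderiv ℝ W.ν z.1 v.1 + k • fderiv ℝ W.f z.1 v.1
        + ((1 + k * r) * (-(√(1 - ‖z.2‖ ^ 2))⁻¹ * ⟪z.2, v.2⟫)) • W.ν z.1 = 0 ∧
      (1 + k * r) • v.2 = 0 := by
  have h0 : v ∈ prin (fun z : Y × G =>
      (WithLp.toLp 2 (W.f z.1 + (r * √(1 - ‖z.2‖ ^ 2)) • W.ν z.1, r • z.2) : WithLp 2 (E × G)))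
      (fun z : Y × G => (WithLp.toLp 2 (√(1 - ‖z.2‖ ^ 2) • W.ν z.1, z.2) : WithLp 2 (E × G))) k z ↔
      fderiv ℝ (fun z : Y × G => (WithLp.toLp 2 (√(1 - ‖z.2‖ ^ 2) • W.ν z.1, z.2) :
        WithLp 2 (E × G))) z v + k • fderiv ℝ (fun z : Y × G =>
      (WithLp.toLp 2 (W.f z.1 + (r * √(1 - ‖z.2‖ ^ 2)) • W.ν z.1, r • z.2) :
        WithLp 2 (E × G))) z v = 0 := Iff.rfl
  rw [h0, tube_fderiv_f G W hz, tube_fderiv_ν G W hz]
  constructor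
  · intro h
    have h1 := congrArg WithLp.ofLp h
    have h2 := congrArg Prod.fst h1
    have h3 := congrArg Prod.snd h1
    simp only [WithLp.ofLp_add, WithLp.ofLp_smul, Prod.fst_add, Prod.snd_add, Prod.smul_fst,
      Prod.smul_snd, WithLp.ofLp_zero, Prod.fst_zero, Prod.snd_zero] at h2 h3
    constructor
    · rw [← h2]
      module
    · rw [← h3]
      module
  · rintro ⟨h2, h3⟩
    apply WithLp.ofLp_injective 2
    apply Prod.ext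
    · simp only [WithLp.ofLp_add, WithLp.ofLp_smul, Prod.fst_add, Prod.smul_fst,
        WithLp.ofLp_zero, Prod.fst_zero]
      rw [← h2]
      module
    · simp only [WithLp.ofLp_add, WithLp.ofLp_smul, Prod.snd_add,
        Prod.smul_snd, WithLp.ofLp_zero, Prod.snd_zero]
      rw [← h3]
      module

/-- The first two principal spaces of the tube. -/
theorem tube_prin_left {z : Y × G} (hz : z ∈ {z : Y × G | z.1 ∈ W.U ∧ ‖z.2‖ < 1}) {k : ℝ}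
    (hk : 0 < 1 - r * √(1 - ‖z.2‖ ^ 2) * k) :
    prin (fun z : Y × G =>
      (WithLp.toLp 2 (W.f z.1 + (r * √(1 - ‖z.2‖ ^ 2)) • W.ν z.1, r • z.2) : WithLp 2 (E × G)))
      (fun z : Y × G => (WithLp.toLp 2 (√(1 - ‖z.2‖ ^ 2) • W.ν z.1, z.2) : WithLp 2 (E × G)))
      (√(1 - ‖z.2‖ ^ 2) * k / (1 - r * √(1 - ‖z.2‖ ^ 2) * k)) z
      = (prin W.f W.ν k z.1).map (LinearMap.inl ℝ Y G) := by
  have hω := sqrt_one_sub_pos hz.2
  have h1 : 1 + (√(1 - ‖z.2‖ ^ 2) * k / (1 - r * √(1 - ‖z.2‖ ^ 2) * k)) * r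
      = (1 - r * √(1 - ‖z.2‖ ^ 2) * k)⁻¹ := by
    have key : ∀ D a : ℝ, D = 1 - r * a → D ≠ 0 → 1 + a / D * r = D⁻¹ := by
      intro D a hD hD0
      field_simp
      linear_combination hD
    exact key _ _ (by ring) hk.ne'
  have h2 : (1 - r * √(1 - ‖z.2‖ ^ 2) * k)⁻¹ ≠ 0 := inv_ne_zero hk.ne'
  ext v
  rw [tube_mem_prin_iff G W hz, h1, Submodule.mem_map]
  constructor
  · rintro ⟨h3, h4⟩
    have h5 : v.2 = 0 := by
      rcases smul_eq_zero.1 h4 with h | h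
      · exact absurd h h2
      · exact h
    refine ⟨v.1, ?_, Prod.ext rfl h5.symm⟩
    show fderiv ℝ W.ν z.1 v.1 + k • fderiv ℝ W.f z.1 v.1 = 0
    rw [h5, inner_zero_right, mul_zero, mul_zero, zero_smul, add_zero] at h3
    have h6 : ((1 - r * √(1 - ‖z.2‖ ^ 2) * k)⁻¹ * √(1 - ‖z.2‖ ^ 2)) •
        (fderiv ℝ W.ν z.1 v.1 + k • fderiv ℝ W.f z.1 v.1) = 0 := by
      rw [← h3, smul_add, smul_smul]
      congr 2
      field_simp
    rcases smul_eq_zero.1 h6 with h | h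
    · exact absurd h (mul_ne_zero h2 hω.ne')
    · exact h
  · rintro ⟨x, hx, rfl⟩
    have hx' : fderiv ℝ W.ν z.1 x + k • fderiv ℝ W.f z.1 x = 0 := hx
    simp only [LinearMap.inl_apply, inner_zero_right, mul_zero, zero_smul, add_zero, smul_zero,
      and_true]
    have h6 : ((1 - r * √(1 - ‖z.2‖ ^ 2) * k)⁻¹ * √(1 - ‖z.2‖ ^ 2)) •
        (fderiv ℝ W.ν z.1 x + k • fderiv ℝ W.f z.1 x) = 0 := by
      rw [hx', smul_zero]
    rw [← h6, smul_add, smul_smul]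
    congr 2
    field_simp

/-- The third principal space of the tube. -/
theorem tube_prin_right (hr : 0 < r) {z : Y × G}
    (hz : z ∈ {z : Y × G | z.1 ∈ W.U ∧ ‖z.2‖ < 1}) :
    prin (fun z : Y × G =>
      (WithLp.toLp 2 (W.f z.1 + (r * √(1 - ‖z.2‖ ^ 2)) • W.ν z.1, r • z.2) : WithLp 2 (E × G)))
      (fun z : Y × G => (WithLp.toLp 2 (√(1 - ‖z.2‖ ^ 2) • W.ν z.1, z.2) : WithLp 2 (E × G)))
      (-1 / r) z = LinearMap.range (LinearMap.inr ℝ Y G) := by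
  have h1 : 1 + (-1 / r) * r = 0 := by
    field_simp
    ring
  ext v
  rw [tube_mem_prin_iff G W hz, h1, LinearMap.mem_range]
  simp only [zero_mul, zero_smul, zero_add, add_zero, and_true]
  constructor
  · intro h
    have h2 : fderiv ℝ W.f z.1 v.1 = 0 := by
      rcases smul_eq_zero.1 h with h | h
      · exact absurd h (by simp [hr.ne'])
      · exact h
    exact ⟨v.2, Prod.ext (W.immersion z.1 hz.1 _ h2).symm rfl⟩
  · rintro ⟨x, rfl⟩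
    simp

/-- The first two principal curvatures of the tube. -/
noncomputable def tubeκ (G : Type) [NormedAddCommGroup G] (r : ℝ) (κ : Y → ℝ) (z : Y × G) : ℝ :=
  √(1 - ‖z.2‖ ^ 2) * κ z.1 / (1 - r * √(1 - ‖z.2‖ ^ 2) * κ z.1)

theorem tubeκ_smooth {κ : Y → ℝ} (hκ : ContDiffOn ℝ ∞ κ W.U)
    (hpos : ∀ z ∈ {z : Y × G | z.1 ∈ W.U ∧ ‖z.2‖ < 1}, 0 < 1 - r * √(1 - ‖z.2‖ ^ 2) * κ z.1) :
    ContDiffOn ℝ ∞ (tubeκ G r κ) {z : Y × G | z.1 ∈ W.U ∧ ‖z.2‖ < 1} := by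
  have h1 : ContDiffOn ℝ ∞ (fun z : Y × G => κ z.1) {z : Y × G | z.1 ∈ W.U ∧ ‖z.2‖ < 1} :=
    hκ.comp contDiff_fst.contDiffOn (fun _ hz => hz.1)
  have h2 := tube_smooth_sqrt G W
  exact (h2.mul h1).div (contDiffOn_const.sub ((contDiffOn_const.mul h2).mul h1))
    (fun z hz => (hpos z hz).ne')

theorem tubeκ_fderiv {κ : Y → ℝ} (hκ : ContDiffOn ℝ ∞ κ W.U) {z : Y × G}
    (hz : z ∈ {z : Y × G | z.1 ∈ W.U ∧ ‖z.2‖ < 1})
    (hpos : 0 < 1 - r * √(1 - ‖z.2‖ ^ 2) * κ z.1) {x : Y} (hx : fderiv ℝ κ z.1 x = 0) :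
    fderiv ℝ (tubeκ G r κ) z (x, 0) = 0 := by
  have hd : HasFDerivAt κ (fderiv ℝ κ z.1) z.1 :=
    ((hκ.contDiffAt (W.isOpen_U.mem_nhds hz.1)).differentiableAt (by simp)).hasFDerivAt
  have h1 : HasFDerivAt (fun z : Y × G => κ z.1)
      ((fderiv ℝ κ z.1).comp (ContinuousLinearMap.fst ℝ Y G)) z := hd.comp z hasFDerivAt_fst
  have h3 : HasFDerivAt (fun z : Y × G => √(1 - ‖z.2‖ ^ 2))
      ((-(√(1 - ‖z.2‖ ^ 2))⁻¹ • innerSL ℝ z.2).comp (ContinuousLinearMap.snd ℝ Y G)) z :=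
    (hasFDerivAt_sqrt_one_sub hz.2).comp z hasFDerivAt_snd
  have h4 := h3.prodMk h1
  have h5 : DifferentiableAt ℝ (fun p : ℝ × ℝ => p.1 * p.2 / (1 - r * p.1 * p.2))
      (√(1 - ‖z.2‖ ^ 2), κ z.1) := by
    have h8 : ContDiffAt ℝ 1 (fun p : ℝ × ℝ => p.1 * p.2 / (1 - r * p.1 * p.2))
        (√(1 - ‖z.2‖ ^ 2), κ z.1) := by
      apply ContDiffAt.div
      · fun_prop
      · fun_prop
      · exact hpos.ne'
    exact h8.differentiableAt (by simp)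
  have h6 := h5.hasFDerivAt.comp z h4
  have h7 : HasFDerivAt (tubeκ G r κ) _ z := h6
  rw [h7.fderiv, ContinuousLinearMap.comp_apply]
  have h9 : ((((-(√(1 - ‖z.2‖ ^ 2))⁻¹ • (innerSL ℝ) z.2).comp
      (ContinuousLinearMap.snd ℝ Y G)).prod ((fderiv ℝ κ z.1).comp
      (ContinuousLinearMap.fst ℝ Y G))) ((x, 0) : Y × G)) = (0 : ℝ × ℝ) := by
    apply Prod.ext
    · simp
    · simpa using hx
  rw [h9, map_zero]

theorem tube_properDupin_aux (hr : 0 < r)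
    (hW : ∀ y ∈ W.U, ∀ k : ℝ, 0 < k → prin W.f W.ν k y = ⊥) (hG : 1 ≤ finrank ℝ G) {m₁ m₂ : ℕ}
    (h : ProperDupinWith W.f W.ν W.U ![m₁, m₂]) :
    ProperDupinWith (fun z : Y × G =>
      (WithLp.toLp 2 (W.f z.1 + (r * √(1 - ‖z.2‖ ^ 2)) • W.ν z.1, r • z.2) : WithLp 2 (E × G)))
      (fun z : Y × G => (WithLp.toLp 2 (√(1 - ‖z.2‖ ^ 2) • W.ν z.1, z.2) : WithLp 2 (E × G)))
      {z : Y × G | z.1 ∈ W.U ∧ ‖z.2‖ < 1} ![m₁, m₂, finrank ℝ G] := by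
  obtain ⟨κ, hs, hne, hm, hrk, htop, hder⟩ := h
  have hnonpos : ∀ y ∈ W.U, ∀ i, κ i y ≤ 0 := by
    intro y hy i
    by_contra hcon
    have h1 := hW y hy _ (not_le.1 hcon)
    have h2 := hrk y hy i
    rw [h1, finrank_bot] at h2
    have := hm i
    omega
  have hpos : ∀ i, ∀ z ∈ {z : Y × G | z.1 ∈ W.U ∧ ‖z.2‖ < 1},
      0 < 1 - r * √(1 - ‖z.2‖ ^ 2) * κ i z.1 := by
    intro i z hz
    have h1 := hnonpos z.1 hz.1 i
    have h2 : 0 < r * √(1 - ‖z.2‖ ^ 2) := mul_pos hr (sqrt_one_sub_pos hz.2)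
    nlinarith
  have hdiff : ∀ z ∈ {z : Y × G | z.1 ∈ W.U ∧ ‖z.2‖ < 1}, tubeκ G r (κ 0) z ≠ tubeκ G r (κ 1) z := by
    intro z hz heq
    have h0 := hpos 0 z hz
    have h1 := hpos 1 z hz
    have hω := sqrt_one_sub_pos hz.2
    apply hne z.1 hz.1 0 1 (by decide)
    unfold tubeκ at heq
    rw [div_eq_div_iff h0.ne' h1.ne'] at heq
    have h2 : √(1 - ‖z.2‖ ^ 2) * κ 0 z.1 = √(1 - ‖z.2‖ ^ 2) * κ 1 z.1 := by
      linear_combination heq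
    exact mul_left_cancel₀ hω.ne' h2
  have hlast : ∀ i, ∀ z ∈ {z : Y × G | z.1 ∈ W.U ∧ ‖z.2‖ < 1}, tubeκ G r (κ i) z ≠ -1 / r := by
    intro i z hz heq
    have h0 := hpos i z hz
    unfold tubeκ at heq
    rw [div_eq_div_iff h0.ne' hr.ne'] at heq
    have : (1 : ℝ) = 0 := by linear_combination heq
    norm_num at this
  refine ⟨![tubeκ G r (κ 0), tubeκ G r (κ 1), fun _ => -1 / r], ?_, ?_, ?_, ?_, ?_, ?_⟩
  · intro i
    fin_cases i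
    · exact tubeκ_smooth G W (hs 0) (hpos 0)
    · exact tubeκ_smooth G W (hs 1) (hpos 1)
    · exact contDiffOn_const
  · intro z hz i j hij
    fin_cases i <;> fin_cases j <;> first | exact absurd rfl hij | skip
    · exact hdiff z hz
    · exact hlast 0 z hz
    · exact (hdiff z hz).symm
    · exact hlast 1 z hz
    · exact (hlast 0 z hz).symm
    · exact (hlast 1 z hz).symm
  · intro i
    fin_cases i
    · exact hm 0
    · exact hm 1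
    · exact hG
  · intro z hz i
    fin_cases i
    · show finrank ℝ (prin _ _ (√(1 - ‖z.2‖ ^ 2) * κ 0 z.1 /
        (1 - r * √(1 - ‖z.2‖ ^ 2) * κ 0 z.1)) z) = m₁
      rw [tube_prin_left G W hz (hpos 0 z hz),
        ← (Submodule.equivMapOfInjective _ (LinearMap.inl_injective (R := ℝ) (M := Y) (M₂ := G))
          _).finrank_eq]
      exact hrk z.1 hz.1 0
    · show finrank ℝ (prin _ _ (√(1 - ‖z.2‖ ^ 2) * κ 1 z.1 /
        (1 - r * √(1 - ‖z.2‖ ^ 2) * κ 1 z.1)) z) = m₂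
      rw [tube_prin_left G W hz (hpos 1 z hz),
        ← (Submodule.equivMapOfInjective _ (LinearMap.inl_injective (R := ℝ) (M := Y) (M₂ := G))
          _).finrank_eq]
      exact hrk z.1 hz.1 1
    · show finrank ℝ (prin _ _ (-1 / r) z) = finrank ℝ G
      rw [tube_prin_right G W hr hz]
      exact LinearMap.finrank_range_of_inj LinearMap.inr_injective
  · intro z hz
    have h1 := htop z.1 hz.1
    rw [eq_top_iff]
    rintro ⟨x, γ⟩ -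
    have hx : x ∈ prin W.f W.ν (κ 0 z.1) z.1 ⊔ prin W.f W.ν (κ 1 z.1) z.1 := by
      have h2 : (⨆ i, prin W.f W.ν (κ i z.1) z.1)
          ≤ prin W.f W.ν (κ 0 z.1) z.1 ⊔ prin W.f W.ν (κ 1 z.1) z.1 := by
        apply iSup_le
        intro i
        fin_cases i
        · exact le_sup_left
        · exact le_sup_right
      exact h2 (h1 ▸ Submodule.mem_top)
    obtain ⟨x₀, hx₀, x₁, hx₁, rfl⟩ := Submodule.mem_sup.1 hx
    have e : ((x₀ + x₁, γ) : Y × G) = (x₀, 0) + (x₁, 0) + (0, γ) := by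
      simp
    rw [e]
    refine Submodule.add_mem _ (Submodule.add_mem _ ?_ ?_) ?_
    · refine (le_iSup (fun i => prin _ _ (![tubeκ G r (κ 0), tubeκ G r (κ 1), fun _ => -1 / r] i z) z)
        0) ?_
      show _ ∈ prin _ _ (√(1 - ‖z.2‖ ^ 2) * κ 0 z.1 / (1 - r * √(1 - ‖z.2‖ ^ 2) * κ 0 z.1)) z
      rw [tube_prin_left G W hz (hpos 0 z hz)]
      exact ⟨x₀, hx₀, rfl⟩
    · refine (le_iSup (fun i => prin _ _ (![tubeκ G r (κ 0), tubeκ G r (κ 1), fun _ => -1 / r] i z) z)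
        1) ?_
      show _ ∈ prin _ _ (√(1 - ‖z.2‖ ^ 2) * κ 1 z.1 / (1 - r * √(1 - ‖z.2‖ ^ 2) * κ 1 z.1)) z
      rw [tube_prin_left G W hz (hpos 1 z hz)]
      exact ⟨x₁, hx₁, rfl⟩
    · refine (le_iSup (fun i => prin _ _ (![tubeκ G r (κ 0), tubeκ G r (κ 1), fun _ => -1 / r] i z) z)
        2) ?_
      show _ ∈ prin _ _ (-1 / r) z
      rw [tube_prin_right G W hr hz]
      exact ⟨γ, rfl⟩
  · intro z hz i v hv
    fin_cases i
    · change v ∈ prin _ _ (√(1 - ‖z.2‖ ^ 2) * κ 0 z.1 / (1 - r * √(1 - ‖z.2‖ ^ 2) * κ 0 z.1)) z at hv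
      rw [tube_prin_left G W hz (hpos 0 z hz)] at hv
      obtain ⟨x, hx, rfl⟩ := hv
      exact tubeκ_fderiv G W (hs 0) hz (hpos 0 z hz) (hder z.1 hz.1 0 x hx)
    · change v ∈ prin _ _ (√(1 - ‖z.2‖ ^ 2) * κ 1 z.1 / (1 - r * √(1 - ‖z.2‖ ^ 2) * κ 1 z.1)) z at hv
      rw [tube_prin_left G W hz (hpos 1 z hz)] at hv
      obtain ⟨x, hx, rfl⟩ := hv
      exact tubeκ_fderiv G W (hs 1) hz (hpos 1 z hz) (hder z.1 hz.1 1 x hx)
    · show fderiv ℝ (fun _ : Y × G => -1 / r) z v = 0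
      simp

end Tube

end DupinClass

end S_TM1_pf

section S_TM2_pf

open scoped RealInnerProductSpace ContDiff Topology
open Module Set

namespace DupinClass

namespace TM2

section general

variable {F : Type} [NormedAddCommGroup F] [InnerProductSpace ℝ F]

omit [InnerProductSpace ℝ F] in
theorem pos_of_lt {β : F} (hβ : ‖β‖ < 1) : 0 < 1 - ‖β‖ ^ 2 := by
  have := norm_nonneg β
  nlinarith

omit [InnerProductSpace ℝ F] in
theorem x0_pos {β : F} (hβ : ‖β‖ < 1) : 0 < √(1 - ‖β‖ ^ 2) := Real.sqrt_pos.2 (pos_of_lt hβ)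

omit [InnerProductSpace ℝ F] in
theorem x0_sq {β : F} (hβ : ‖β‖ < 1) : √(1 - ‖β‖ ^ 2) * √(1 - ‖β‖ ^ 2) = 1 - ‖β‖ ^ 2 :=
  Real.mul_self_sqrt (pos_of_lt hβ).le

/-- Derivative of `β ↦ √(1 - |β|²)`. -/
theorem hasFDerivAt_x0 {β : F} (hβ : ‖β‖ < 1) :
    HasFDerivAt (fun β : F => √(1 - ‖β‖ ^ 2)) (-((√(1 - ‖β‖ ^ 2))⁻¹ • innerSL ℝ β)) β := by
  have h1 : HasFDerivAt (fun β : F => ‖β‖ ^ 2) (2 • innerSL ℝ β) β :=
    (hasStrictFDerivAt_norm_sq β).hasFDerivAt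
  have h2 := (h1.const_sub 1).sqrt (pos_of_lt hβ).ne'
  refine h2.congr_fderiv ?_
  ext v
  have := (x0_pos hβ).ne'
  simp
  field_simp

theorem contDiffAt_x0 {β : F} (hβ : ‖β‖ < 1) :
    ContDiffAt ℝ ∞ (fun β : F => √(1 - ‖β‖ ^ 2)) β :=
  (contDiffAt_const.sub (contDiff_norm_sq ℝ).contDiffAt).sqrt (pos_of_lt hβ).ne'

end general

section sphere

/-- The inclusion of pairs. -/
noncomputable def J (E G : Type) [NormedAddCommGroup E] [InnerProductSpace ℝ E]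
    [NormedAddCommGroup G] [InnerProductSpace ℝ G] : (E × G) →L[ℝ] WithLp 2 (E × G) :=
  (WithLp.prodContinuousLinearEquiv 2 ℝ E G).symm.toContinuousLinearMap

theorem J_apply {E G : Type} [NormedAddCommGroup E] [InnerProductSpace ℝ E]
    [NormedAddCommGroup G] [InnerProductSpace ℝ G] (z : E × G) : J E G z = WithLp.toLp 2 z := rfl

variable {P : Type} [NormedAddCommGroup P] [InnerProductSpace ℝ P]

/-- The chart `α ↦ (√(1 - |α|²), α)` of an open half of the unit sphere. -/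
noncomputable def sph {P : Type} [NormedAddCommGroup P] [InnerProductSpace ℝ P] (α : P) :
    WithLp 2 (ℝ × P) :=
  WithLp.toLp 2 (√(1 - ‖α‖ ^ 2), α)

/-- Derivative of the chart of the sphere. -/
noncomputable def dsph (α : P) :
    P →L[ℝ] WithLp 2 (ℝ × P) :=
  (J ℝ (P)).comp
    ((-((√(1 - ‖α‖ ^ 2))⁻¹ • innerSL ℝ α)).prod (ContinuousLinearMap.id ℝ _))

theorem sph_eq : (sph : P → _) =
    (J ℝ (P)) ∘ fun α => (√(1 - ‖α‖ ^ 2), α) := rfl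

theorem hasFDerivAt_sph {α : P} (hα : ‖α‖ < 1) :
    HasFDerivAt (sph : P → _) (dsph α) α := by
  rw [sph_eq]
  exact (J ℝ (P)).hasFDerivAt.comp α
    ((hasFDerivAt_x0 hα).prodMk (hasFDerivAt_id α))

theorem contDiffAt_sph {α : P} (hα : ‖α‖ < 1) :
    ContDiffAt ℝ ∞ (sph : P → _) α := by
  rw [sph_eq]
  exact (J ℝ (P)).contDiff.contDiffAt.comp α
    ((contDiffAt_x0 hα).prodMk contDiffAt_id)

theorem dsph_apply (α A : P) :
    dsph α A = WithLp.toLp 2 (-((√(1 - ‖α‖ ^ 2))⁻¹ * ⟪α, A⟫), A) := by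
  simp [dsph, J_apply]

theorem dsph_inj {α A : P} (h : dsph α A = 0) : A = 0 := by
  rw [dsph_apply] at h
  exact congrArg (fun z => (WithLp.ofLp z).2) h

theorem inner_pair {E G : Type} [NormedAddCommGroup E] [InnerProductSpace ℝ E]
    [NormedAddCommGroup G] [InnerProductSpace ℝ G] (a a' : E) (b b' : G) :
    ⟪(WithLp.toLp 2 (a, b) : WithLp 2 (E × G)), WithLp.toLp 2 (a', b')⟫ = ⟪a, a'⟫ + ⟪b, b'⟫ := by
  rw [WithLp.prod_inner_apply]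

theorem inner_mul_real (a b : ℝ) : (⟪a, b⟫ : ℝ) = a * b := by
  simp [mul_comm]

theorem pair_smul {E G : Type} [NormedAddCommGroup E] [InnerProductSpace ℝ E]
    [NormedAddCommGroup G] [InnerProductSpace ℝ G] (c : ℝ) (a : E) (b : G) :
    c • (WithLp.toLp 2 (a, b) : WithLp 2 (E × G)) = WithLp.toLp 2 (c • a, c • b) := rfl

theorem pair_add {E G : Type} [NormedAddCommGroup E] [InnerProductSpace ℝ E]
    [NormedAddCommGroup G] [InnerProductSpace ℝ G] (a a' : E) (b b' : G) :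
    (WithLp.toLp 2 (a, b) : WithLp 2 (E × G)) + WithLp.toLp 2 (a', b') =
      WithLp.toLp 2 (a + a', b + b') := rfl

theorem inner_sph_self {α : P} (hα : ‖α‖ < 1) : ⟪sph α, sph α⟫ = 1 := by
  unfold sph
  rw [inner_pair, real_inner_self_eq_norm_sq α]
  rw [inner_mul_real, x0_sq hα]
  ring

theorem inner_dsph {α : P} (hα : ‖α‖ < 1)
    (A : P) : ⟪dsph α A, sph α⟫ = 0 := by
  rw [dsph_apply]
  unfold sph
  rw [inner_pair, inner_mul_real, real_inner_comm α A]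
  have := (x0_pos hα).ne'
  field_simp
  ring

end sphere

section model

variable (P Q : Type) [NormedAddCommGroup P] [InnerProductSpace ℝ P] [FiniteDimensional ℝ P]
  [NormedAddCommGroup Q] [InnerProductSpace ℝ Q] [FiniteDimensional ℝ Q] (ρ : ℝ)

/-- Domain. -/
abbrev XX := P × Q

/-- Target. -/
abbrev EE := WithLp 2 (WithLp 2 (ℝ × P) × Q)

/-- The immersion. -/
noncomputable def mf (z : XX P Q) : EE P Q :=
  WithLp.toLp 2 ((1 + ρ * √(1 - ‖z.2‖ ^ 2)) • sph z.1, ρ • z.2)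

/-- The normal. -/
noncomputable def mν (z : XX P Q) : EE P Q :=
  WithLp.toLp 2 (√(1 - ‖z.2‖ ^ 2) • sph z.1, z.2)

variable {P Q ρ} {z : XX P Q}

theorem hasFDerivAt_mf (h1 : ‖z.1‖ < 1) (h2 : ‖z.2‖ < 1) :
    ∃ D : XX P Q →L[ℝ] EE P Q, HasFDerivAt (mf P Q ρ) D z ∧ ∀ v, D v =
      WithLp.toLp 2 ((1 + ρ * √(1 - ‖z.2‖ ^ 2)) • dsph z.1 v.1 -
        (ρ * ((√(1 - ‖z.2‖ ^ 2))⁻¹ * ⟪z.2, v.2⟫)) • sph z.1, ρ • v.2) := by
  have e1 : HasFDerivAt (fun z : XX P Q => √(1 - ‖z.2‖ ^ 2)) _ z :=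
    (hasFDerivAt_x0 h2).comp z (hasFDerivAt_snd (𝕜 := ℝ) (p := z))
  have e2 : HasFDerivAt (fun z : XX P Q => sph z.1) _ z :=
    (hasFDerivAt_sph h1).comp z (hasFDerivAt_fst (𝕜 := ℝ) (p := z))
  have e3 := ((e1.const_mul ρ).const_add 1).smul e2
  have e4 : HasFDerivAt (fun z : XX P Q => ρ • z.2) _ z :=
    (hasFDerivAt_snd (𝕜 := ℝ) (p := z)).const_smul ρ
  have e5 := (J _ _).hasFDerivAt.comp z (e3.prodMk e4)
  refine ⟨_, e5, fun v => ?_⟩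
  simp [J_apply, sub_eq_add_neg]

theorem hasFDerivAt_mν (h1 : ‖z.1‖ < 1) (h2 : ‖z.2‖ < 1) :
    ∃ D : XX P Q →L[ℝ] EE P Q, HasFDerivAt (mν P Q) D z ∧ ∀ v, D v =
      WithLp.toLp 2 (√(1 - ‖z.2‖ ^ 2) • dsph z.1 v.1 -
        ((√(1 - ‖z.2‖ ^ 2))⁻¹ * ⟪z.2, v.2⟫) • sph z.1, v.2) := by
  have e1 : HasFDerivAt (fun z : XX P Q => √(1 - ‖z.2‖ ^ 2)) _ z :=
    (hasFDerivAt_x0 h2).comp z (hasFDerivAt_snd (𝕜 := ℝ) (p := z))
  have e2 : HasFDerivAt (fun z : XX P Q => sph z.1) _ z :=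
    (hasFDerivAt_sph h1).comp z (hasFDerivAt_fst (𝕜 := ℝ) (p := z))
  have e3 := e1.smul e2
  have e4 : HasFDerivAt (fun z : XX P Q => z.2) _ z := hasFDerivAt_snd (𝕜 := ℝ) (p := z)
  have e5 := (J _ _).hasFDerivAt.comp z (e3.prodMk e4)
  refine ⟨_, e5, fun v => ?_⟩
  simp [J_apply, sub_eq_add_neg]

theorem contDiffAt_mf (h1 : ‖z.1‖ < 1) (h2 : ‖z.2‖ < 1) : ContDiffAt ℝ ∞ (mf P Q ρ) z := by
  have e1 : ContDiffAt ℝ ∞ (fun z : XX P Q => √(1 - ‖z.2‖ ^ 2)) z :=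
    (contDiffAt_x0 h2).comp z contDiffAt_snd
  have e2 : ContDiffAt ℝ ∞ (fun z : XX P Q => sph z.1) z :=
    (contDiffAt_sph h1).comp z contDiffAt_fst
  have e3 := (contDiffAt_const (c := (1 : ℝ))).add ((contDiffAt_const (c := ρ)).mul e1)
  have e4 : ContDiffAt ℝ ∞ (fun z : XX P Q => ρ • z.2) z := contDiffAt_snd.const_smul ρ
  exact (J _ _).contDiff.contDiffAt.comp z ((e3.smul e2).prodMk e4)

theorem contDiffAt_mν (h1 : ‖z.1‖ < 1) (h2 : ‖z.2‖ < 1) : ContDiffAt ℝ ∞ (mν P Q) z := by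
  have e1 : ContDiffAt ℝ ∞ (fun z : XX P Q => √(1 - ‖z.2‖ ^ 2)) z :=
    (contDiffAt_x0 h2).comp z contDiffAt_snd
  have e2 : ContDiffAt ℝ ∞ (fun z : XX P Q => sph z.1) z :=
    (contDiffAt_sph h1).comp z contDiffAt_fst
  exact (J _ _).contDiff.contDiffAt.comp z ((e1.smul e2).prodMk contDiffAt_snd)

/-- The two equations for principal vectors. -/
theorem mem_prin_iff (h1 : ‖z.1‖ < 1) (h2 : ‖z.2‖ < 1) (k : ℝ) (v : XX P Q) :
    v ∈ prin (mf P Q ρ) (mν P Q) k z ↔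
      (√(1 - ‖z.2‖ ^ 2) + k * (1 + ρ * √(1 - ‖z.2‖ ^ 2))) • v.1 = 0 ∧ (1 + k * ρ) • v.2 = 0 := by
  obtain ⟨D, hD, hD'⟩ := hasFDerivAt_mf (ρ := ρ) h1 h2
  obtain ⟨N, hN, hN'⟩ := hasFDerivAt_mν h1 h2
  have e0 : v ∈ prin (mf P Q ρ) (mν P Q) k z ↔ N v + k • D v = 0 := by
    unfold prin
    rw [hD.fderiv, hN.fderiv]
    rfl
  set x := √(1 - ‖z.2‖ ^ 2) with hx
  set t := x⁻¹ * ⟪z.2, v.2⟫ with ht
  have e1 : N v + k • D v = WithLp.toLp 2 ((x + k * (1 + ρ * x)) • dsph z.1 v.1 -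
      ((1 + k * ρ) * t) • sph z.1, (1 + k * ρ) • v.2) := by
    rw [hD', hN', pair_smul, pair_add, ← ht]
    refine congrArg (WithLp.toLp 2) (Prod.ext ?_ ?_)
    · show x • dsph z.1 v.1 - t • sph z.1 +
        k • ((1 + ρ * x) • dsph z.1 v.1 - (ρ * t) • sph z.1) = _
      module
    · show v.2 + k • ρ • v.2 = _
      module
  rw [e0, e1]
  constructor
  · intro h
    have h3 : (1 + k * ρ) • v.2 = 0 := congrArg (fun z => (WithLp.ofLp z).2) h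
    have h4 : (x + k * (1 + ρ * x)) • dsph z.1 v.1 - ((1 + k * ρ) * t) • sph z.1 = 0 :=
      congrArg (fun z => (WithLp.ofLp z).1) h
    have h5 : (1 + k * ρ) * t = 0 := by
      have : (1 + k * ρ) * t = x⁻¹ * ⟪z.2, (1 + k * ρ) • v.2⟫ := by
        rw [inner_smul_right, ht]; ring
      rw [this, h3, inner_zero_right, mul_zero]
    rw [h5, zero_smul, sub_zero, ← map_smul] at h4
    exact ⟨dsph_inj h4, h3⟩
  · rintro ⟨h3, h4⟩
    have h5 : (1 + k * ρ) * t = 0 := by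
      have : (1 + k * ρ) * t = x⁻¹ * ⟪z.2, (1 + k * ρ) • v.2⟫ := by
        rw [inner_smul_right, ht]; ring
      rw [this, h4, inner_zero_right, mul_zero]
    rw [h5, h4, zero_smul, sub_zero, ← map_smul, h3, map_zero]
    rfl

theorem immersion_mf (hρ : 0 < ρ) (h1 : ‖z.1‖ < 1) (h2 : ‖z.2‖ < 1) (v : XX P Q)
    (hv : fderiv ℝ (mf P Q ρ) z v = 0) : v = 0 := by
  obtain ⟨D, hD, hD'⟩ := hasFDerivAt_mf (ρ := ρ) h1 h2
  rw [hD.fderiv, hD'] at hv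
  have h3 : ρ • v.2 = 0 := congrArg (fun z => (WithLp.ofLp z).2) hv
  have h4 : v.2 = 0 := (smul_eq_zero.1 h3).resolve_left hρ.ne'
  have h5 : (1 + ρ * √(1 - ‖z.2‖ ^ 2)) • dsph z.1 v.1 -
      (ρ * ((√(1 - ‖z.2‖ ^ 2))⁻¹ * ⟪z.2, v.2⟫)) • sph z.1 = 0 :=
    congrArg (fun z => (WithLp.ofLp z).1) hv
  rw [h4, inner_zero_right, mul_zero, mul_zero, zero_smul, sub_zero] at h5
  have h6 : 0 < 1 + ρ * √(1 - ‖z.2‖ ^ 2) := by
    have := x0_pos h2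
    positivity
  have h7 := dsph_inj ((smul_eq_zero.1 h5).resolve_left h6.ne')
  exact Prod.ext h7 h4

theorem inner_mf (h1 : ‖z.1‖ < 1) (h2 : ‖z.2‖ < 1) (v : XX P Q) :
    ⟪fderiv ℝ (mf P Q ρ) z v, mν P Q z⟫ = 0 := by
  obtain ⟨D, hD, hD'⟩ := hasFDerivAt_mf (ρ := ρ) h1 h2
  rw [hD.fderiv, hD']
  unfold mν
  rw [inner_pair]
  simp only [inner_sub_left, inner_smul_left, inner_smul_right, inner_dsph h1, inner_sph_self h1,
    RCLike.conj_to_real, mul_zero, zero_sub, mul_one]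
  rw [real_inner_comm z.2 v.2]
  have := (x0_pos h2).ne'
  field_simp
  ring

theorem norm_mν (h1 : ‖z.1‖ < 1) (h2 : ‖z.2‖ < 1) : ‖mν P Q z‖ = 1 := by
  have h3 : ⟪mν P Q z, mν P Q z⟫ = 1 := by
    unfold mν
    rw [inner_pair, inner_smul_left, inner_smul_right, inner_sph_self h1,
      real_inner_self_eq_norm_sq z.2, RCLike.conj_to_real, mul_one, x0_sq h2]
    ring
  rw [real_inner_self_eq_norm_sq] at h3
  have h4 := norm_nonneg (mν P Q z)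
  nlinarith

theorem isOpen_mU' : IsOpen {z : XX P Q | ‖z.1‖ < 1 ∧ ‖z.2‖ < 1} := by
  have h1 : IsOpen {z : XX P Q | ‖z.1‖ < 1} := isOpen_lt continuous_fst.norm continuous_const
  have h2 : IsOpen {z : XX P Q | ‖z.2‖ < 1} := isOpen_lt continuous_snd.norm continuous_const
  exact h1.and h2

theorem finrank_pair (E G : Type) [NormedAddCommGroup E] [InnerProductSpace ℝ E]
    [FiniteDimensional ℝ E] [NormedAddCommGroup G] [InnerProductSpace ℝ G]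
    [FiniteDimensional ℝ G] :
    finrank ℝ (WithLp 2 (E × G)) = finrank ℝ E + finrank ℝ G := by
  rw [(WithLp.prodContinuousLinearEquiv 2 ℝ E G).toLinearEquiv.finrank_eq, finrank_prod]

variable (P Q) in
/-- The hypersurface `W(p, q, ρ)`. -/
noncomputable def modelW' {ρ : ℝ} (hρ : 0 < ρ) : EHyp (XX P Q) (EE P Q) where
  U := {z | ‖z.1‖ < 1 ∧ ‖z.2‖ < 1}
  f := fun z => WithLp.toLp 2 ((1 + ρ * √(1 - ‖z.2‖ ^ 2)) • sph z.1, ρ • z.2)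
  ν := fun z => WithLp.toLp 2 (√(1 - ‖z.2‖ ^ 2) • sph z.1, z.2)
  isOpen_U := isOpen_mU'
  smooth_f := fun _ hz => (contDiffAt_mf hz.1 hz.2).contDiffWithinAt
  smooth_ν := fun _ hz => (contDiffAt_mν hz.1 hz.2).contDiffWithinAt
  norm_ν := fun _ hz => norm_mν hz.1 hz.2
  inner_df := fun _ hz => inner_mf hz.1 hz.2
  immersion := fun _ hz => immersion_mf hρ hz.1 hz.2
  dim := by
    rw [finrank_pair, finrank_pair, finrank_prod, finrank_self]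
    ring

variable (P Q ρ) in
/-- The principal curvature of multiplicity `p`. -/
noncomputable def modelκ' (z : XX P Q) : ℝ :=
  -√(1 - ‖z.2‖ ^ 2) / (1 + ρ * √(1 - ‖z.2‖ ^ 2))

theorem mem_prin₁ (hρ : 0 < ρ) (h1 : ‖z.1‖ < 1) (h2 : ‖z.2‖ < 1) (v : XX P Q) :
    v ∈ prin (mf P Q ρ) (mν P Q) (modelκ' P Q ρ z) z ↔ v.2 = 0 := by
  rw [mem_prin_iff h1 h2]
  have hx := x0_pos h2
  have h3 : 0 < 1 + ρ * √(1 - ‖z.2‖ ^ 2) := by positivity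
  have e1 : √(1 - ‖z.2‖ ^ 2) + modelκ' P Q ρ z * (1 + ρ * √(1 - ‖z.2‖ ^ 2)) = 0 := by
    unfold modelκ'
    field_simp
    ring
  have e2 : 1 + modelκ' P Q ρ z * ρ ≠ 0 := by
    have : 1 + modelκ' P Q ρ z * ρ = 1 / (1 + ρ * √(1 - ‖z.2‖ ^ 2)) := by
      unfold modelκ'
      field_simp
      ring
    rw [this]
    positivity
  rw [e1, zero_smul]
  simp [e2]

theorem mem_prin₂ (hρ : 0 < ρ) (h1 : ‖z.1‖ < 1) (h2 : ‖z.2‖ < 1) (v : XX P Q) :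
    v ∈ prin (mf P Q ρ) (mν P Q) (-1 / ρ) z ↔ v.1 = 0 := by
  rw [mem_prin_iff h1 h2]
  have e1 : √(1 - ‖z.2‖ ^ 2) + -1 / ρ * (1 + ρ * √(1 - ‖z.2‖ ^ 2)) = -1 / ρ := by
    field_simp
    ring
  have e2 : 1 + -1 / ρ * ρ = 0 := by
    field_simp
    ring
  have e3 : -1 / ρ ≠ 0 := by
    have := hρ.ne'
    simp [this]
  rw [e1, e2, zero_smul]
  simp [e3]

theorem modelW_prin_pos' (hρ : 0 < ρ) (h1 : ‖z.1‖ < 1) (h2 : ‖z.2‖ < 1) (k : ℝ) (hk : 0 < k) :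
    prin (mf P Q ρ) (mν P Q) k z = ⊥ := by
  rw [Submodule.eq_bot_iff]
  intro v hv
  rw [mem_prin_iff h1 h2] at hv
  have hx := x0_pos h2
  have h3 : 0 < √(1 - ‖z.2‖ ^ 2) + k * (1 + ρ * √(1 - ‖z.2‖ ^ 2)) := by positivity
  have h4 : 0 < 1 + k * ρ := by positivity
  exact Prod.ext ((smul_eq_zero.1 hv.1).resolve_left h3.ne')
    ((smul_eq_zero.1 hv.2).resolve_left h4.ne')

theorem prin₁_eq (hρ : 0 < ρ) (h1 : ‖z.1‖ < 1) (h2 : ‖z.2‖ < 1) :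
    prin (mf P Q ρ) (mν P Q) (modelκ' P Q ρ z) z =
      LinearMap.range (LinearMap.inl ℝ (P) (Q)) := by
  ext v
  rw [mem_prin₁ hρ h1 h2, LinearMap.mem_range]
  constructor
  · intro h
    exact ⟨v.1, Prod.ext rfl h.symm⟩
  · rintro ⟨a, rfl⟩
    rfl

theorem prin₂_eq (hρ : 0 < ρ) (h1 : ‖z.1‖ < 1) (h2 : ‖z.2‖ < 1) :
    prin (mf P Q ρ) (mν P Q) (-1 / ρ) z =
      LinearMap.range (LinearMap.inr ℝ (P) (Q)) := by
  ext v
  rw [mem_prin₂ hρ h1 h2, LinearMap.mem_range]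
  constructor
  · intro h
    exact ⟨v.2, Prod.ext h.symm rfl⟩
  · rintro ⟨a, rfl⟩
    rfl

theorem finrank_prin₁ (hρ : 0 < ρ) (h1 : ‖z.1‖ < 1) (h2 : ‖z.2‖ < 1) :
    finrank ℝ (prin (mf P Q ρ) (mν P Q) (modelκ' P Q ρ z) z) = finrank ℝ P := by
  rw [prin₁_eq hρ h1 h2, LinearMap.finrank_range_of_inj LinearMap.inl_injective]

theorem finrank_prin₂ (hρ : 0 < ρ) (h1 : ‖z.1‖ < 1) (h2 : ‖z.2‖ < 1) :
    finrank ℝ (prin (mf P Q ρ) (mν P Q) (-1 / ρ) z) = finrank ℝ Q := by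
  rw [prin₂_eq hρ h1 h2, LinearMap.finrank_range_of_inj LinearMap.inr_injective]

theorem sup_prin (hρ : 0 < ρ) (h1 : ‖z.1‖ < 1) (h2 : ‖z.2‖ < 1) :
    prin (mf P Q ρ) (mν P Q) (-1 / ρ) z ⊔ prin (mf P Q ρ) (mν P Q) (modelκ' P Q ρ z) z = ⊤ := by
  rw [eq_top_iff]
  intro v _
  have e : v = (0, v.2) + (v.1, 0) := by simp
  rw [e]
  exact Submodule.add_mem_sup ((mem_prin₂ hρ h1 h2 _).2 rfl) ((mem_prin₁ hρ h1 h2 _).2 rfl)

theorem contDiffAt_κ (hρ : 0 < ρ) (h2 : ‖z.2‖ < 1) : ContDiffAt ℝ ∞ (modelκ' P Q ρ) z := by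
  have e1 : ContDiffAt ℝ ∞ (fun z : XX P Q => √(1 - ‖z.2‖ ^ 2)) z :=
    (contDiffAt_x0 h2).comp z contDiffAt_snd
  have e3 := (contDiffAt_const (c := (1 : ℝ))).add ((contDiffAt_const (c := ρ)).mul e1)
  refine e1.neg.div e3 ?_
  have := x0_pos h2
  positivity

theorem fderiv_κ (hρ : 0 < ρ) (h2 : ‖z.2‖ < 1) {v : XX P Q} (hv : v.2 = 0) :
    fderiv ℝ (modelκ' P Q ρ) z v = 0 := by
  set h : Q → ℝ := fun β =>
    -√(1 - ‖β‖ ^ 2) / (1 + ρ * √(1 - ‖β‖ ^ 2)) with hh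
  have e1 : DifferentiableAt ℝ h z.2 := by
    have e2 : ContDiffAt ℝ ∞ (fun β : Q => √(1 - ‖β‖ ^ 2)) z.2 :=
      contDiffAt_x0 h2
    have e3 := (contDiffAt_const (c := (1 : ℝ))).add ((contDiffAt_const (c := ρ)).mul e2)
    have e4 : ContDiffAt ℝ ∞ h z.2 := e2.neg.div e3 (by
      have := x0_pos h2
      positivity)
    exact e4.differentiableAt (by simp)
  have e5 : HasFDerivAt (modelκ' P Q ρ) _ z :=
    e1.hasFDerivAt.comp z (hasFDerivAt_snd (𝕜 := ℝ) (p := z))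
  rw [e5.fderiv]
  simp [hv]

theorem κ_ne (hρ : 0 < ρ) (h2 : ‖z.2‖ < 1) : -1 / ρ ≠ modelκ' P Q ρ z := by
  unfold modelκ'
  have hx := x0_pos h2
  have h3 : 0 < 1 + ρ * √(1 - ‖z.2‖ ^ 2) := by positivity
  intro h
  rw [div_eq_div_iff hρ.ne' h3.ne'] at h
  nlinarith

theorem ne_bot_of_finrank {S : Submodule ℝ (XX P Q)} {n : ℕ} (h : finrank ℝ S = n) (hn : 1 ≤ n) :
    S ≠ ⊥ := by
  rintro rfl
  rw [finrank_bot] at h
  omega

variable (P Q) in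
theorem modelW_twoDupin' {ρ : ℝ} (hρ : 0 < ρ) (hp : 1 ≤ finrank ℝ P) (hq : 1 ≤ finrank ℝ Q) :
    TwoDupin (modelW' P Q hρ) (fun _ => -1 / ρ) (modelκ' P Q ρ) where
  smooth₁ := contDiffOn_const
  smooth₂ := fun _ hz => (contDiffAt_κ hρ hz.2).contDiffWithinAt
  ne := fun _ hy => κ_ne hρ hy.2
  ne_bot₁ := fun _ hy => ne_bot_of_finrank (finrank_prin₂ hρ hy.1 hy.2) hq
  ne_bot₂ := fun _ hy => ne_bot_of_finrank (finrank_prin₁ hρ hy.1 hy.2) hp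
  top := fun _ hy => sup_prin hρ hy.1 hy.2
  deriv₁ := fun _ _ v _ => by simp
  deriv₂ := fun _ hy v hv => fderiv_κ hρ hy.2 ((mem_prin₁ hρ hy.1 hy.2 v).1 hv)

variable (P Q) in
theorem modelW_properDupin' {ρ : ℝ} (hρ : 0 < ρ) (hp : 1 ≤ finrank ℝ P) (hq : 1 ≤ finrank ℝ Q) :
    ProperDupinWith (modelW' P Q hρ).f (modelW' P Q hρ).ν (modelW' P Q hρ).U ![finrank ℝ P, finrank ℝ Q] := by
  refine ⟨![modelκ' P Q ρ, fun _ => -1 / ρ], ?_, ?_, ?_, ?_, ?_, ?_⟩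
  · intro i
    fin_cases i
    · exact fun _ hz => (contDiffAt_κ hρ hz.2).contDiffWithinAt
    · exact contDiffOn_const
  · intro x hx i j hij
    fin_cases i <;> fin_cases j
    · exact absurd rfl hij
    · exact (κ_ne hρ hx.2).symm
    · exact κ_ne hρ hx.2
    · exact absurd rfl hij
  · intro i
    fin_cases i
    · exact hp
    · exact hq
  · intro x hx i
    fin_cases i
    · exact finrank_prin₁ hρ hx.1 hx.2
    · exact finrank_prin₂ hρ hx.1 hx.2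
  · intro x hx
    rw [eq_top_iff, ← sup_prin hρ hx.1 hx.2]
    refine sup_le ?_ ?_
    · exact le_iSup (fun i => prin (modelW' P Q hρ).f (modelW' P Q hρ).ν
        ((![modelκ' P Q ρ, fun _ => -1 / ρ] : Fin 2 → XX P Q → ℝ) i x) x) 1
    · exact le_iSup (fun i => prin (modelW' P Q hρ).f (modelW' P Q hρ).ν
        ((![modelκ' P Q ρ, fun _ => -1 / ρ] : Fin 2 → XX P Q → ℝ) i x) x) 0
  · intro x hx i
    fin_cases i
    · intro v hv
      exact fderiv_κ hρ hx.2 ((mem_prin₁ hρ hx.1 hx.2 v).1 hv)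
    · intro v _
      show fderiv ℝ (fun _ => -1 / ρ) x v = 0
      simp

end model

end TM2

end DupinClass

end S_TM2_pf
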