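import Mathlib
import Pool.Agent.H31.DC.D2
import Pool.Agent.H31.DC.D3
import Pool.Agent.H31.DC.D5
import Pool.Agent.H31.DC.D9
import Pool.Agent.H31.DC.D10

/-! Reducible Dupin hypersurfaces, part D11 (several modules joined to save build time). -/

section S_Main

open scoped RealInnerProductSpace ContDiff Topology
open Module Set

namespace DupinClass

section

variable {X H : Type} [NormedAddCommGroup X] [NormedSpace ℝ X] [FiniteDimensional ℝ X]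
  [NormedAddCommGroup H] [InnerProductSpace ℝ H] [FiniteDimensional ℝ H]

omit [FiniteDimensional ℝ X] [FiniteDimensional ℝ H] in
theorem ProperDupinWith.properDupin {f ν : X → H} {U : Set X} {g : ℕ} {m : Fin g → ℕ}
    (h : ProperDupinWith f ν U m) : ProperDupin f ν U g := by
  obtain ⟨κ, h1, h2, h3, h4, h5, h6⟩ := h
  refine ⟨κ, h1, h2, fun x hx i hb => ?_, h5, h6⟩
  have := h4 x hx i
  rw [hb, finrank_bot] at this
  have := h3 i
  omega

/-- A tube which is Lie equivalent to a hypersurface with three principal curvatures has `a ≠ 0`. -/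
theorem tube_a_ne_zero {M : SHyp X H} (h3 : ProperDupin M.f M.ν M.U 3) {x : X} (hx : x ∈ M.U)
    {Y E G X' : Type} [NormedAddCommGroup Y] [NormedSpace ℝ Y] [FiniteDimensional ℝ Y]
    [NormedAddCommGroup E] [InnerProductSpace ℝ E] [FiniteDimensional ℝ E]
    [NormedAddCommGroup G] [InnerProductSpace ℝ G] [FiniteDimensional ℝ G]
    [NormedAddCommGroup X'] [NormedSpace ℝ X'] [FiniteDimensional ℝ X']
    {W : EHyp Y E} {r : ℝ} (hr : 0 < r)
    {T : EHyp X' (WithLp 2 (E × G))} {u : X' → Y} {a : X' → ℝ} {η : X' → G}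
    (hu : ContDiffOn ℝ ∞ u T.U) (ha : ContDiffOn ℝ ∞ a T.U) (hη : ContDiffOn ℝ ∞ η T.U)
    (h : ∀ x ∈ T.U, u x ∈ W.U ∧ a x ^ 2 + ‖η x‖ ^ 2 = 1 ∧
      T.f x = WithLp.toLp 2 (W.f (u x) + (r * a x) • W.ν (u x), r • η x) ∧
      T.ν x = WithLp.toLp 2 (a x • W.ν (u x), η x)) {x' : X'} (hx' : x' ∈ T.U)
    (hL : M.LieEq x T.toSphere x') : a x' ≠ 0 := by
  intro ha0
  obtain ⟨κ, -, hne, hprin, -, -⟩ := h3
  obtain ⟨A, hA, φ, ψ, N, N', hd, hxN, hN, hN', hφ, hLL⟩ := hL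
  have key : ∀ i : Fin 3, ∃ k c : ℝ, (k = 0 ∨ k = -1 / r) ∧ c ≠ 0 ∧
      A (κ i x, κ i x • M.f x + M.ν x, 1) = c • ((1 + ‖T.f x'‖ ^ 2) / 2 * k + ⟪T.f x', T.ν x'⟫,
        ((1 + ‖T.f x'‖ ^ 2) / 2 * k + ⟪T.f x', T.ν x'⟫) • T.toSphere.f x' + T.toSphere.ν x', 1) := by
    intro i
    have h1 := M.curvVec hx (hprin x hx i)
    have h2 := h1.map A hd hxN hLL
    rw [hφ] at h2
    obtain ⟨k, c, hk, hc, hv⟩ := T.toSphere.exists_of_curvVec hx' h2
    have hpos : (1 + ‖T.f x'‖ ^ 2) / 2 ≠ 0 := by positivity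
    have hk' : k = (1 + ‖T.f x'‖ ^ 2) / 2 * ((k - ⟪T.f x', T.ν x'⟫) / ((1 + ‖T.f x'‖ ^ 2) / 2))
        + ⟪T.f x', T.ν x'⟫ := by
      rw [mul_div_cancel₀ _ hpos]; ring
    rw [hk', T.prin_toSphere hx'] at hk
    refine ⟨_, c, tube_prin_of_eq_zero hr hu ha hη h hx' ha0 hk, hc, ?_⟩
    rw [← hk']
    exact hv
  choose k c hk hc hv using key
  obtain ⟨i, j, hij, hkij⟩ : ∃ i j : Fin 3, i ≠ j ∧ k i = k j := by
    rcases hk 0 with h0 | h0 <;> rcases hk 1 with h1 | h1 <;> rcases hk 2 with h2 | h2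
    · exact ⟨0, 1, by decide, by rw [h0, h1]⟩
    · exact ⟨0, 1, by decide, by rw [h0, h1]⟩
    · exact ⟨0, 2, by decide, by rw [h0, h2]⟩
    · exact ⟨1, 2, by decide, by rw [h1, h2]⟩
    · exact ⟨1, 2, by decide, by rw [h1, h2]⟩
    · exact ⟨0, 2, by decide, by rw [h0, h2]⟩
    · exact ⟨0, 1, by decide, by rw [h0, h1]⟩
    · exact ⟨0, 1, by decide, by rw [h0, h1]⟩
  have h1 : c j • A (κ i x, κ i x • M.f x + M.ν x, 1)
      = c i • A (κ j x, κ j x • M.f x + M.ν x, 1) := by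
    rw [hv i, hv j, hkij, smul_smul, smul_smul, mul_comm]
  rw [← map_smul, ← map_smul] at h1
  have h2 := A.injective h1
  have h3 := congrArg (fun v : ℝ × H × ℝ => v.2.2) h2
  have h4 := congrArg (fun v : ℝ × H × ℝ => v.1) h2
  simp only [Prod.smul_mk, smul_eq_mul, mul_one] at h3 h4
  rw [h3] at h4
  exact hne x hx i j hij (mul_left_cancel₀ (hc i) h4)

/-- Lie equivalence of hypersurfaces is a conformal equivalence. -/
theorem SHyp.LieEq.confEqAt {X' H' : Type} [NormedAddCommGroup X'] [NormedSpace ℝ X']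
    [NormedAddCommGroup H'] [InnerProductSpace ℝ H'] [FiniteDimensional ℝ H']
    {M : SHyp X H} {x : X} {M' : SHyp X' H'} {x' : X'}
    (hX : 1 ≤ finrank ℝ X) (h : M.LieEq x M' x') :
    ConfEqAt (lieForm H) M.lift M.U x (lieForm H') M'.lift M'.U x' :=
  LieEqAt.confEqAt h fun A hA => lieForm_conf (by rw [M.dim]; omega) A hA

omit [FiniteDimensional ℝ X] in
theorem SHyp.sum_of_confEqAt {M : SHyp X H} {x : X} {m : Fin 3 → ℕ} {μ : Fin 3 → ℝ}
    (h : ConfEqAt (lieForm H) M.lift M.U x (mForm m μ) (mFam m μ) (mU m μ) 0) :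
    m 0 + m 1 + m 2 = finrank ℝ X := by
  obtain ⟨A, -⟩ := h
  have h1 := LinearEquiv.finrank_eq A
  rw [finrank_MV, finrank_MX, Module.finrank_prod, Module.finrank_prod, Module.finrank_self,
    M.dim] at h1
  omega

/-- Every reducible hypersurface is equivalent to a canonical model with `μ₂ = -1`, `μ₀ > 0`. -/
theorem reducible_confEqAt (M : SHyp X H) (h3 : ProperDupin M.f M.ν M.U 3) {x : X} (hx : x ∈ M.U)
    (hM : M.ReducibleAt x) :
    ∃ p q m : ℕ, 1 ≤ p ∧ 1 ≤ q ∧ 1 ≤ m ∧ p + q + m = finrank ℝ X ∧ ∃ (ρ : ℝ), 0 < ρ ∧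
      ConfEqAt (lieForm H) M.lift M.U x (mForm ![p, q, m] ![ρ ^ 2, 1 - ρ ^ 2, -1])
        (mFam ![p, q, m] ![ρ ^ 2, 1 - ρ ^ 2, -1]) (mU ![p, q, m] ![ρ ^ 2, 1 - ρ ^ 2, -1]) 0 := by
  have hX : 1 ≤ finrank ℝ X := by
    obtain ⟨κ, -, -, hprin, -, -⟩ := h3
    by_contra hlt
    have h0 : finrank ℝ X = 0 := by omega
    have : Subsingleton X := Module.finrank_zero_iff.mp h0
    exact hprin x hx 0 (Subsingleton.elim _ _)
  obtain ⟨W, hW, hG, r, hr, T, ⟨u, a, η, hu, ha, hη, h⟩, x', hx', hL⟩ := hM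
  obtain ⟨κ₁, κ₂, hW2⟩ := hW.twoDupin
  have ha0 := tube_a_ne_zero h3 hx hr hu ha hη h hx' hL
  have hC := hL.confEqAt hX
  obtain ⟨μ, hμ, hμ2, hT, -⟩ := tube_confEq hW2 hr hG hu ha hη h hx' ha0
    (m := ![finrank ℝ (prin W.f W.ν (κ₂ (u x')) (u x')),
      finrank ℝ (prin W.f W.ν (κ₁ (u x')) (u x')), finrank ℝ _]) rfl rfl rfl
  have hMC := hC.trans hT
  have hm := SHyp.sum_of_confEqAt hMC
  have hp1 : 1 ≤ finrank ℝ (prin W.f W.ν (κ₁ (u x')) (u x')) :=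
    Submodule.one_le_finrank_iff.mpr (hW2.ne_bot₁ _ (h x' hx').1)
  have hp2 : 1 ≤ finrank ℝ (prin W.f W.ν (κ₂ (u x')) (u x')) :=
    Submodule.one_le_finrank_iff.mpr (hW2.ne_bot₂ _ (h x' hx').1)
  simp only [Matrix.cons_val_zero, Matrix.cons_val_one, Matrix.cons_val] at hm
  rcases lt_or_ge 0 (μ 0) with h0 | h0
  · refine ⟨_, _, _, hp2, hp1, hG, hm, √(μ 0), Real.sqrt_pos.mpr h0, ?_⟩
    have hμe : μ = ![√(μ 0) ^ 2, 1 - √(μ 0) ^ 2, -1] := by
      rw [Real.sq_sqrt h0.le]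
      funext i
      fin_cases i
      · rfl
      · simp only [Fin.mk_one, Matrix.cons_val_one, Matrix.cons_val_zero]; linarith
      · simpa using hμ2
    rw [hμe] at hMC
    convert hMC using 2
  · have h1 : 0 < μ 1 := by linarith
    refine ⟨_, _, _, hp1, hp2, hG, by omega, √(μ 1), Real.sqrt_pos.mpr h1, ?_⟩
    refine hMC.trans (canonical_rel ?_ hμ (Equiv.swap 0 1) one_pos ?_)
    · intro i
      fin_cases i
      · exact hp2
      · exact hp1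
      · exact hG
    · intro i
      rw [Real.sq_sqrt h1.le]
      fin_cases i
      · simp; linarith
      · simp
      · have : (Equiv.swap (0 : Fin 3) 1) 2 = 2 := by decide
        simp [this, hμ2]

variable {P Q R : Type} [NormedAddCommGroup P] [InnerProductSpace ℝ P] [FiniteDimensional ℝ P]
  [NormedAddCommGroup Q] [InnerProductSpace ℝ Q] [FiniteDimensional ℝ Q]
  [NormedAddCommGroup R] [InnerProductSpace ℝ R] [FiniteDimensional ℝ R]

theorem modelT_confEq_of {p q m : ℕ} (hP : finrank ℝ P = p) (hQ : finrank ℝ Q = q)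
    (hR : finrank ℝ R = m) (hp : 1 ≤ p) (hq : 1 ≤ q) (hm : 1 ≤ m) {ρ r : ℝ} (hρ : 0 < ρ)
    (hr : 0 < r) {y} (hy : y ∈ (modelT P Q R hρ hr).U) :
    ConfEqAt (lieForm _) (modelT P Q R hρ hr).toSphere.lift (modelT P Q R hρ hr).U y
      (mForm ![p, q, m] ![ρ ^ 2, 1 - ρ ^ 2, -1]) (mFam ![p, q, m] ![ρ ^ 2, 1 - ρ ^ 2, -1])
      (mU ![p, q, m] ![ρ ^ 2, 1 - ρ ^ 2, -1]) 0 := by
  subst hP hQ hR
  exact modelT_confEq hp hq hm hρ hr hy

theorem main₁ (M : SHyp X H) (h3 : ProperDupin M.f M.ν M.U 3) {x : X} (hx : x ∈ M.U)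
    (hM : M.ReducibleAt x) :
    ∃ p q m : ℕ, 1 ≤ p ∧ 1 ≤ q ∧ 1 ≤ m ∧ p + q + m = finrank ℝ X ∧ ∃ (ρ : ℝ) (hρ : 0 < ρ),
      ∀ (r : ℝ) (hr : 0 < r), ∀ y ∈ (modelT (EuclideanSpace ℝ (Fin p)) (EuclideanSpace ℝ (Fin q))
        (EuclideanSpace ℝ (Fin m)) hρ hr).U,
        M.LieEq x (modelT (EuclideanSpace ℝ (Fin p)) (EuclideanSpace ℝ (Fin q))
        (EuclideanSpace ℝ (Fin m)) hρ hr).toSphere y := by
  obtain ⟨p, q, m, hp, hq, hm, hsum, ρ, hρ, hC⟩ := reducible_confEqAt M h3 hx hM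
  refine ⟨p, q, m, hp, hq, hm, hsum, ρ, hρ, fun r hr y hy => ?_⟩
  exact (hC.trans (modelT_confEq_of (finrank_euclideanSpace_fin) (finrank_euclideanSpace_fin)
    (finrank_euclideanSpace_fin) hp hq hm hρ hr hy).symm).lieEqAt

theorem main₂ (hp : 1 ≤ finrank ℝ P) (hq : 1 ≤ finrank ℝ Q) (hm : 1 ≤ finrank ℝ R)
    {ρ r : ℝ} (hρ : 0 < ρ) (hr : 0 < r) :
    ProperDupinWith (modelT P Q R hρ hr).toSphere.f (modelT P Q R hρ hr).toSphere.ν
        (modelT P Q R hρ hr).toSphere.U ![finrank ℝ P, finrank ℝ Q, finrank ℝ R] ∧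
      ∀ y ∈ (modelT P Q R hρ hr).U, (modelT P Q R hρ hr).toSphere.ReducibleAt y := by
  have h1 := (modelW P Q hρ).tube_properDupin R hr
    (modelW_prin_pos P Q hρ) hm (modelW_properDupin P Q hρ hp hq)
  refine ⟨EHyp.properDupinWith_toSphere _ h1, fun y hy => ?_⟩
  exact .tube (modelW P Q hρ) (modelW_properDupin P Q hρ hp hq).properDupin hm r hr
    (modelT P Q R hρ hr) (EHyp.tube_isTube _ _ _ _) y hy
    (ConfEqAt.refl (modelT P Q R hρ hr).isOpen_U hy).lieEqAt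

variable {P' Q' R' : Type} [NormedAddCommGroup P'] [InnerProductSpace ℝ P']
  [FiniteDimensional ℝ P'] [NormedAddCommGroup Q'] [InnerProductSpace ℝ Q']
  [FiniteDimensional ℝ Q'] [NormedAddCommGroup R'] [InnerProductSpace ℝ R']
  [FiniteDimensional ℝ R']

theorem main₃ {p q m p' q' m' : ℕ} (hP : finrank ℝ P = p) (hQ : finrank ℝ Q = q)
    (hR : finrank ℝ R = m) (hP' : finrank ℝ P' = p') (hQ' : finrank ℝ Q' = q')
    (hR' : finrank ℝ R' = m') (hp : 1 ≤ p) (hq : 1 ≤ q) (hm : 1 ≤ m) (hp' : 1 ≤ p')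
    (hq' : 1 ≤ q') (hm' : 1 ≤ m') {ρ r ρ' r' : ℝ} (hρ : 0 < ρ) (hr : 0 < r) (hρ' : 0 < ρ')
    (hr' : 0 < r') {y y'} (hy : y ∈ (modelT P Q R hρ hr).U)
    (hy' : y' ∈ (modelT P' Q' R' hρ' hr').U) :
    (modelT P Q R hρ hr).toSphere.LieEq y (modelT P' Q' R' hρ' hr').toSphere y' ↔
      ∃ (π : Equiv.Perm (Fin 3)) (c : ℝ), 0 < c ∧ ∀ i, ![p', q', m'] (π i) = ![p, q, m] i ∧
        ![ρ' ^ 2, 1 - ρ' ^ 2, -1] (π i) = c * ![ρ ^ 2, 1 - ρ ^ 2, -1] i := by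
  have h1 := modelT_confEq_of hP hQ hR hp hq hm hρ hr hy
  have h2 := modelT_confEq_of hP' hQ' hR' hp' hq' hm' hρ' hr' hy'
  have hμ : ∀ ρ : ℝ, ![ρ ^ 2, 1 - ρ ^ 2, -1] (0 : Fin 3) + ![ρ ^ 2, 1 - ρ ^ 2, -1] (1 : Fin 3)
      + ![ρ ^ 2, 1 - ρ ^ 2, -1] (2 : Fin 3) = (0 : ℝ) := by
    intro ρ
    simp
  have hmm : ∀ i, 1 ≤ ![p, q, m] i := by
    intro i; fin_cases i <;> assumption
  have hmm' : ∀ i, 1 ≤ ![p', q', m'] i := by
    intro i; fin_cases i <;> assumption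
  constructor
  · intro h
    have hX : 1 ≤ finrank ℝ ((P × Q) × R) := by
      rw [Module.finrank_prod, Module.finrank_prod]
      omega
    exact canonical_inv hmm hmm' (hμ ρ) (hμ ρ') ((h1.symm.trans (h.confEqAt hX)).trans h2)
  · rintro ⟨π, c, hc, h⟩
    exact ((h1.trans (canonical_rel hmm (hμ ρ) π hc h)).trans h2.symm).lieEqAt

end

end DupinClass

end S_Main

section S_S2Star

open scoped RealInnerProductSpace ContDiff Topology
open Module Set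

namespace DupinClass

section

variable {X Y Z V : Type} [NormedAddCommGroup X] [NormedSpace ℝ X] [FiniteDimensional ℝ X]
  [NormedAddCommGroup Y] [NormedSpace ℝ Y] [FiniteDimensional ℝ Y]
  [NormedAddCommGroup V] [NormedSpace ℝ V] [FiniteDimensional ℝ V]
  [AddCommGroup Z] [Module ℝ Z] [FiniteDimensional ℝ Z]

/-- General form of `StarHyp.confEq`: the kernels of the derivatives of `z₁`, `z₂` are given
subspaces `K₁`, `K₂`, and `q` is a linear map which is injective on the kernel of `du`. -/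
theorem star_canon {B : LinearMap.BilinForm ℝ V} {U : Set X} {x₀ : X} {u : X → Y} {N : Set Y}
    {z₁ z₂ : Y → V} {s : X → V} {K₁ K₂ : Y → Submodule ℝ Y} (q : X →ₗ[ℝ] Z)
    (symm : B.IsSymm) (nondeg : B.Nondegenerate) (dim : finrank ℝ V = finrank ℝ X + 4)
    (isOpen_U : IsOpen U) (mem : x₀ ∈ U) (isOpen_N : IsOpen N) (maps : ∀ x ∈ U, u x ∈ N)
    (smooth_u : ContDiffOn ℝ ∞ u U) (smooth_z₁ : ContDiffOn ℝ ∞ z₁ N)
    (smooth_z₂ : ContDiffOn ℝ ∞ z₂ N) (smooth_s : ContDiffOn ℝ ∞ s U)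
    (isCompl : ∀ y ∈ N, IsCompl (K₁ y) (K₂ y)) (hK₁ : K₁ (u x₀) ≠ ⊥) (hK₂ : K₂ (u x₀) ≠ ⊥)
    (hker₁ : ∀ y ∈ N, ∀ v, fderiv ℝ z₁ y v = 0 ↔ v ∈ K₁ y)
    (hker₂ : ∀ y ∈ N, ∀ v, fderiv ℝ z₂ y v = 0 ↔ v ∈ K₂ y)
    (null₁₂ : ∀ y ∈ N, B (z₁ y - z₂ y) (z₁ y - z₂ y) = 0)
    (null₁ : ∀ y ∈ N, ∀ x ∈ U, B (z₁ y + s x) (z₁ y + s x) = 0)
    (null₂ : ∀ y ∈ N, ∀ x ∈ U, B (z₂ y + s x) (z₂ y + s x) = 0)
    (pos₁ : ∀ v, fderiv ℝ z₁ (u x₀) v ≠ 0 → 0 < B (fderiv ℝ z₁ (u x₀) v) (fderiv ℝ z₁ (u x₀) v))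
    (pos₂ : ∀ v, fderiv ℝ z₂ (u x₀) v ≠ 0 → 0 < B (fderiv ℝ z₂ (u x₀) v) (fderiv ℝ z₂ (u x₀) v))
    (pos₃ : ∀ v, fderiv ℝ s x₀ v ≠ 0 → 0 < B (fderiv ℝ s x₀ v) (fderiv ℝ s x₀ v))
    (inj : ∀ v, fderiv ℝ u x₀ v = 0 → fderiv ℝ s x₀ v = 0 → v = 0)
    (hq : ∀ v, fderiv ℝ u x₀ v = 0 → q v = 0 → v = 0)
    (hX : finrank ℝ X = finrank ℝ Y + finrank ℝ Z) (hZ : 1 ≤ finrank ℝ Z)
    (li : LinearIndependent ℝ ![z₁ (u x₀) + s x₀, z₂ (u x₀) + s x₀]) :
    ∃ μ : Fin 3 → ℝ, μ 0 + μ 1 + μ 2 = 0 ∧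
      ConfEqAt B (fun x => Submodule.span ℝ {z₁ (u x) + s x, z₂ (u x) + s x}) U x₀
        (mForm ![finrank ℝ (K₂ (u x₀)), finrank ℝ (K₁ (u x₀)), finrank ℝ Z] μ)
        (mFam ![finrank ℝ (K₂ (u x₀)), finrank ℝ (K₁ (u x₀)), finrank ℝ Z] μ)
        (mU ![finrank ℝ (K₂ (u x₀)), finrank ℝ (K₁ (u x₀)), finrank ℝ Z] μ) 0 ∧
      (∀ n, (∀ v, B n (fderiv ℝ z₁ (u x₀) v) = 0) → B n (z₁ (u x₀) - z₂ (u x₀)) = 1 →
        B n (z₁ (u x₀) + s x₀) = 1 →
        (∀ᶠ y in 𝓝 (u x₀), ∃ v, ∃ t : ℝ,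
          z₁ y - z₁ (u x₀) = fderiv ℝ z₁ (u x₀) v + t • n) → μ 0 = B n n) ∧
      (∀ n, (∀ v, B n (fderiv ℝ s x₀ v) = 0) → B n (z₁ (u x₀) + s x₀) = -1 →
        B n (z₂ (u x₀) + s x₀) = -1 →
        (∀ᶠ x in 𝓝 x₀, ∃ v, ∃ t : ℝ, s x - s x₀ = fderiv ℝ s x₀ v + t • n) → μ 2 = B n n) := by
  have hN₀ : u x₀ ∈ N := maps _ mem
  have hc := isCompl _ hN₀
  have k₁ : ∀ y ∈ N, (fderiv ℝ z₁ y).toLinearMap.ker = K₁ y := by
    intro y hy; ext v; exact hker₁ y hy v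
  have k₂ : ∀ y ∈ N, (fderiv ℝ z₂ y).toLinearMap.ker = K₂ y := by
    intro y hy; ext v; exact hker₂ y hy v
  -- surjectivity of the derivative of `u`
  have hΛ : Function.Injective ((fderiv ℝ u x₀).toLinearMap.prod q) := by
    rw [← LinearMap.ker_eq_bot, LinearMap.ker_eq_bot']
    intro v hv
    exact hq v (congrArg Prod.fst hv) (congrArg Prod.snd hv)
  have hΛs : Function.Surjective ((fderiv ℝ u x₀).toLinearMap.prod q) :=
    (LinearMap.injective_iff_surjective_of_finrank_eq_finrank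
      (by rw [hX, Module.finrank_prod])).1 hΛ
  have surj : ∀ w, ∃ v, fderiv ℝ u x₀ v = w := by
    intro w
    obtain ⟨v, hv⟩ := hΛs (w, 0)
    exact ⟨v, congrArg Prod.fst hv⟩
  have ne₃ : fderiv ℝ s x₀ ≠ 0 := by
    intro h0
    have : Nontrivial Z := Module.nontrivial_of_finrank_pos (R := ℝ) (by omega)
    obtain ⟨w, hw⟩ := exists_ne (0 : Z)
    obtain ⟨v, hv⟩ := hΛs (0, w)
    have h1 : v = 0 := inj v (congrArg Prod.fst hv) (by rw [h0]; rfl)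
    apply hw
    have h2 : q v = w := congrArg Prod.snd hv
    rw [← h2, h1, map_zero]
  have ne₁ : fderiv ℝ z₁ (u x₀) ≠ 0 := by
    intro h0
    have h1 : K₁ (u x₀) = ⊤ := by
      rw [eq_top_iff]
      intro v _
      rw [← hker₁ _ hN₀, h0]
      rfl
    apply hK₂
    have := hc.inf_eq_bot
    rwa [h1, top_inf_eq] at this
  have ne₂ : fderiv ℝ z₂ (u x₀) ≠ 0 := by
    intro h0
    have h1 : K₂ (u x₀) = ⊤ := by
      rw [eq_top_iff]
      intro v _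
      rw [← hker₂ _ hN₀, h0]
      rfl
    apply hK₁
    have := hc.inf_eq_bot
    rwa [h1, inf_top_eq] at this
  have hS : StarHyp B U x₀ u N z₁ z₂ s :=
    { symm := symm
      nondeg := nondeg
      dim := dim
      isOpen_U := isOpen_U
      mem := mem
      isOpen_N := isOpen_N
      maps := maps
      smooth_u := smooth_u
      smooth_z₁ := smooth_z₁
      smooth_z₂ := smooth_z₂
      smooth_s := smooth_s
      isCompl := fun y hy => by rw [k₁ y hy, k₂ y hy]; exact isCompl y hy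
      ne₁ := ne₁
      ne₂ := ne₂
      ne₃ := ne₃
      null₁₂ := null₁₂
      null₁ := null₁
      null₂ := null₂
      pos₁ := pos₁
      pos₂ := pos₂
      pos₃ := pos₃
      surj := surj
      inj := inj
      li := li }
  have hsum := Submodule.finrank_add_eq_of_isCompl hc
  have e1 := LinearMap.finrank_range_add_finrank_ker (fderiv ℝ z₁ (u x₀)).toLinearMap
  have e2 := LinearMap.finrank_range_add_finrank_ker (fderiv ℝ z₂ (u x₀)).toLinearMap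
  rw [k₁ _ hN₀] at e1
  rw [k₂ _ hN₀] at e2
  obtain ⟨μ, hμ, hC, h0, h2⟩ := hS.confEq (m := ![finrank ℝ (K₂ (u x₀)), finrank ℝ (K₁ (u x₀)),
    finrank ℝ (fderiv ℝ s x₀).toLinearMap.range]) (by simp; omega) (by simp; omega) (by simp)
  have h3 : finrank ℝ (fderiv ℝ s x₀).toLinearMap.range = finrank ℝ Z := by
    obtain ⟨A, -⟩ := hC
    have h1 := LinearEquiv.finrank_eq A
    rw [finrank_MV, finrank_MX, dim] at h1
    simp only [Matrix.cons_val_zero, Matrix.cons_val_one, Matrix.cons_val] at h1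
    omega
  rw [h3] at hC
  exact ⟨μ, hμ, hC, h0, h2⟩

end

section

variable {X E : Type} [NormedAddCommGroup X] [NormedSpace ℝ X] [FiniteDimensional ℝ X]
  [NormedAddCommGroup E] [InnerProductSpace ℝ E] [FiniteDimensional ℝ E]

omit [FiniteDimensional ℝ E] in
theorem pt_pl_li (p n : E) {a b : ℝ} (h : a • ptSph p + b • plSph p n = 0) : a = 0 ∧ b = 0 := by
  have h2 := congrArg (fun v : ℝ × WithLp 2 (ℝ × E) × ℝ => v.2.2) h
  have hb : b = 0 := by simpa [ptSph, plSph] using h2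
  rw [hb, zero_smul, add_zero] at h
  have h1 := congrArg (fun v : ℝ × WithLp 2 (ℝ × E) × ℝ => v.1) h
  have h3 : a * ((1 + ‖p‖ ^ 2) / 2) = 0 := by simpa [ptSph] using h1
  have h4 : (1 + ‖p‖ ^ 2) / 2 ≠ 0 := by positivity
  exact ⟨(mul_eq_zero.1 h3).resolve_right h4, hb⟩

/-- The lift in terms of two members of the pencil of spheres. -/
theorem EHyp.lift_eq_of (T : EHyp X E) {x : X} (hx : x ∈ T.U) {k₁ k₂ c₁ c₂ : ℝ} (hk : k₁ ≠ k₂)
    (h1 : c₁ ≠ 0) (h2 : c₂ ≠ 0) {a₁ a₂ : ℝ × WithLp 2 (ℝ × E) × ℝ}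
    (ha₁ : a₁ = c₁ • (k₁ • ptSph (T.f x) + plSph (T.f x) (T.ν x)))
    (ha₂ : a₂ = c₂ • (k₂ • ptSph (T.f x) + plSph (T.f x) (T.ν x))) :
    T.toSphere.lift x = Submodule.span ℝ {a₁, a₂} ∧ LinearIndependent ℝ ![a₁, a₂] := by
  rw [T.lift_toSphere hx]
  set P := ptSph (T.f x) with hP
  set K := plSph (T.f x) (T.ν x) with hK
  have hne : k₁ - k₂ ≠ 0 := sub_ne_zero.2 hk
  constructor
  · apply le_antisymm
    · rw [Submodule.span_le, Set.insert_subset_iff, Set.singleton_subset_iff]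
      simp only [SetLike.mem_coe, Submodule.mem_span_pair]
      refine ⟨⟨(k₁ - k₂)⁻¹ * c₁⁻¹, -((k₁ - k₂)⁻¹ * c₂⁻¹), ?_⟩,
        ⟨-(k₁ - k₂)⁻¹ * k₂ * c₁⁻¹, (k₁ - k₂)⁻¹ * k₁ * c₂⁻¹, ?_⟩⟩
      · rw [ha₁, ha₂]
        match_scalars
        · field_simp
          ring
        · field_simp
          ring
      · rw [ha₁, ha₂]
        match_scalars
        · field_simp
          ring
        · field_simp
          ring
    · rw [Submodule.span_le, Set.insert_subset_iff, Set.singleton_subset_iff]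
      simp only [SetLike.mem_coe, Submodule.mem_span_pair]
      exact ⟨⟨c₁ * k₁, c₁, by rw [ha₁]; module⟩, ⟨c₂ * k₂, c₂, by rw [ha₂]; module⟩⟩
  · rw [LinearIndependent.pair_iff]
    intro a b hab
    rw [ha₁, ha₂] at hab
    have h3 : (a * c₁ * k₁ + b * c₂ * k₂) • P + (a * c₁ + b * c₂) • K = 0 := by
      rw [← hab]; module
    obtain ⟨h4, h5⟩ := pt_pl_li _ _ h3
    have h6 : a * c₁ = -(b * c₂) := by linarith
    have h7 : b * c₂ * (k₂ - k₁) = 0 := by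
      rw [h6] at h4; linarith
    have h8 : b = 0 := by
      have h9 := (mul_eq_zero.1 h7).resolve_right (sub_ne_zero.2 hk.symm)
      exact (mul_eq_zero.1 h9).resolve_right h2
    refine ⟨?_, h8⟩
    rw [h8, zero_mul, neg_zero] at h6
    exact (mul_eq_zero.1 h6).resolve_right h1

end

end DupinClass

end S_S2Star

section S_S2Defs

open scoped RealInnerProductSpace ContDiff Topology
open Module Set

namespace DupinClass

/-! ## Three distinct principal curvatures -/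

section

variable {X X' E H : Type} [NormedAddCommGroup X] [NormedSpace ℝ X]
  [NormedAddCommGroup H] [InnerProductSpace ℝ H]
  [NormedAddCommGroup X'] [NormedSpace ℝ X'] [FiniteDimensional ℝ X']
  [NormedAddCommGroup E] [InnerProductSpace ℝ E] [FiniteDimensional ℝ E]

/-- A hypersurface of Euclidean space which is Lie equivalent to a hypersurface with three principal
curvatures has, besides any two given numbers, a third one which is a principal curvature. -/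
theorem exists_third [FiniteDimensional ℝ X] [FiniteDimensional ℝ H]
    {M : SHyp X H} (h3 : ProperDupin M.f M.ν M.U 3) {x : X} (hx : x ∈ M.U)
    {T : EHyp X' E} {x' : X'} (hx' : x' ∈ T.U) (hL : M.LieEq x T.toSphere x') (a b : ℝ) :
    ∃ k : ℝ, k ≠ a ∧ k ≠ b ∧ prin T.f T.ν k x' ≠ ⊥ := by
  by_contra hcon
  push Not at hcon
  obtain ⟨κ, -, hne, hprin, -, -⟩ := h3
  obtain ⟨A, hA, φ, ψ, N, N', hd, hxN, hN, hN', hφ, hLL⟩ := hL
  have key : ∀ i : Fin 3, ∃ k c : ℝ, (k = a ∨ k = b) ∧ c ≠ 0 ∧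
      A (κ i x, κ i x • M.f x + M.ν x, 1) = c • ((1 + ‖T.f x'‖ ^ 2) / 2 * k + ⟪T.f x', T.ν x'⟫,
        ((1 + ‖T.f x'‖ ^ 2) / 2 * k + ⟪T.f x', T.ν x'⟫) • T.toSphere.f x' + T.toSphere.ν x', 1) := by
    intro i
    have h1 := M.curvVec hx (hprin x hx i)
    have h2 := h1.map A hd hxN hLL
    rw [hφ] at h2
    obtain ⟨k, c, hk, hc, hv⟩ := T.toSphere.exists_of_curvVec hx' h2
    have hpos : (1 + ‖T.f x'‖ ^ 2) / 2 ≠ 0 := by positivity
    have hk' : k = (1 + ‖T.f x'‖ ^ 2) / 2 * ((k - ⟪T.f x', T.ν x'⟫) / ((1 + ‖T.f x'‖ ^ 2) / 2))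
        + ⟪T.f x', T.ν x'⟫ := by
      rw [mul_div_cancel₀ _ hpos]; ring
    rw [hk', T.prin_toSphere hx'] at hk
    refine ⟨(k - ⟪T.f x', T.ν x'⟫) / ((1 + ‖T.f x'‖ ^ 2) / 2), c, ?_, hc, ?_⟩
    · by_contra hab
      push Not at hab
      exact hk (hcon _ hab.1 hab.2)
    · rw [← hk']
      exact hv
  choose k c hk hc hv using key
  obtain ⟨i, j, hij, hkij⟩ : ∃ i j : Fin 3, i ≠ j ∧ k i = k j := by
    rcases hk 0 with h0 | h0 <;> rcases hk 1 with h1 | h1 <;> rcases hk 2 with h2 | h2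
    · exact ⟨0, 1, by decide, by rw [h0, h1]⟩
    · exact ⟨0, 1, by decide, by rw [h0, h1]⟩
    · exact ⟨0, 2, by decide, by rw [h0, h2]⟩
    · exact ⟨1, 2, by decide, by rw [h1, h2]⟩
    · exact ⟨1, 2, by decide, by rw [h1, h2]⟩
    · exact ⟨0, 2, by decide, by rw [h0, h2]⟩
    · exact ⟨0, 1, by decide, by rw [h0, h1]⟩
    · exact ⟨0, 1, by decide, by rw [h0, h1]⟩
  have h1 : c j • A (κ i x, κ i x • M.f x + M.ν x, 1)
      = c i • A (κ j x, κ j x • M.f x + M.ν x, 1) := by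
    rw [hv i, hv j, hkij, smul_smul, smul_smul, mul_comm]
  rw [← map_smul, ← map_smul] at h1
  have h2 := A.injective h1
  have h3 := congrArg (fun v : ℝ × H × ℝ => v.2.2) h2
  have h4 := congrArg (fun v : ℝ × H × ℝ => v.1) h2
  simp only [Prod.smul_mk, smul_eq_mul, mul_one] at h3 h4
  rw [h3] at h4
  exact hne x hx i j hij (mul_left_cancel₀ (hc i) h4)

end

end DupinClass

end S_S2Defs

section S_S2Cases

open scoped RealInnerProductSpace ContDiff Topology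
open Module Set

namespace DupinClass

section

variable {Y E : Type} [NormedAddCommGroup Y] [NormedSpace ℝ Y]
  [NormedAddCommGroup E] [InnerProductSpace ℝ E]

theorem mem_prin {f ν : Y → E} {y : Y} {k : ℝ} {v : Y} :
    v ∈ prin f ν k y ↔ fderiv ℝ ν y v + k • fderiv ℝ f y v = 0 := by
  simp [prin]

/-- Distinct principal curvatures have disjoint spaces of principal vectors. -/
theorem disjoint_prin {f ν : Y → E} {y : Y} (himm : ∀ v, fderiv ℝ f y v = 0 → v = 0) {k k' : ℝ}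
    (hk : k ≠ k') : Disjoint (prin f ν k y) (prin f ν k' y) := by
  rw [Submodule.disjoint_def]
  intro v h1 h2
  rw [mem_prin] at h1 h2
  apply himm
  have h3 : (k - k') • fderiv ℝ f y v = 0 := by
    rw [sub_smul, ← sub_eq_zero.2 (h1.trans h2.symm)]
    module
  exact (smul_eq_zero.1 h3).resolve_left (sub_ne_zero.2 hk)

theorem isCompl_prin {f ν : Y → E} {y : Y} (himm : ∀ v, fderiv ℝ f y v = 0 → v = 0) {k₁ k₂ : ℝ}
    (hk : k₁ ≠ k₂) (htop : prin f ν k₁ y ⊔ prin f ν k₂ y = ⊤) :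
    IsCompl (prin f ν k₁ y) (prin f ν k₂ y) :=
  ⟨disjoint_prin himm hk, codisjoint_iff.2 htop⟩

/-- If the principal spaces of `k₁`, `k₂` span, then there is no other principal curvature. -/
theorem eq_of_mem_prin {f ν : Y → E} {y : Y} (himm : ∀ v, fderiv ℝ f y v = 0 → v = 0) {k₁ k₂ k : ℝ}
    (htop : prin f ν k₁ y ⊔ prin f ν k₂ y = ⊤) (h12 : k₁ ≠ k₂) {v : Y} (hv0 : v ≠ 0)
    (hv : v ∈ prin f ν k y) : k = k₁ ∨ k = k₂ := by
  by_contra hcon
  push Not at hcon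
  obtain ⟨a, ha, b, hb, hab⟩ := Submodule.mem_sup.1 (htop ▸ Submodule.mem_top : v ∈
    prin f ν k₁ y ⊔ prin f ν k₂ y)
  have ha' := mem_prin.1 ha
  have hb' := mem_prin.1 hb
  have hv' := mem_prin.1 hv
  rw [← hab, map_add, map_add] at hv'
  have h1 : (k - k₁) • fderiv ℝ f y a + (k - k₂) • fderiv ℝ f y b = 0 := by
    have e1 : fderiv ℝ ν y a = -(k₁ • fderiv ℝ f y a) := eq_neg_of_add_eq_zero_left ha'
    have e2 : fderiv ℝ ν y b = -(k₂ • fderiv ℝ f y b) := eq_neg_of_add_eq_zero_left hb'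
    rw [e1, e2] at hv'
    rw [← hv']
    module
  have h2 : (k - k₁) • a + (k - k₂) • b = 0 := by
    apply himm
    rw [map_add, map_smul, map_smul, h1]
  have hd := disjoint_prin (ν := ν) himm h12
  rw [Submodule.disjoint_def] at hd
  have h3 : (k - k₁) • a = 0 := by
    apply hd _ (Submodule.smul_mem _ _ ha)
    have : (k - k₁) • a = -((k - k₂) • b) := eq_neg_of_add_eq_zero_left h2
    rw [this]
    exact Submodule.neg_mem _ (Submodule.smul_mem _ _ hb)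
  rw [h3, zero_add] at h2
  have h4 := (smul_eq_zero.1 h3).resolve_left (sub_ne_zero.2 hcon.1)
  have h5 := (smul_eq_zero.1 h2).resolve_left (sub_ne_zero.2 hcon.2)
  apply hv0
  rw [← hab, h4, h5, add_zero]

end

end DupinClass

end S_S2Cases
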