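import Mathlib
import Pool.Agent.H31.DC.D11

/-! Reducible Dupin hypersurfaces, part D12 (several modules joined to save build time). -/

section S_S2ZeroD

open scoped RealInnerProductSpace ContDiff Topology
open Module Set

namespace DupinClass

section

variable {P Q : Type} [NormedAddCommGroup P] [InnerProductSpace ℝ P] [FiniteDimensional ℝ P]
  [NormedAddCommGroup Q] [InnerProductSpace ℝ Q] [FiniteDimensional ℝ Q]

/-- The unit normal of the hypersurface `W₀`. -/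
noncomputable def zν (z : P × Q) : WithLp 2 (WithLp 2 (P × Q) × ℝ) :=
  (1 + ‖z.1‖ ^ 2 + ‖z.2‖ ^ 2)⁻¹ • WithLp.toLp 2 (WithLp.toLp 2 ((-2 : ℝ) • z.1, (2 : ℝ) • z.2),
    ‖z.1‖ ^ 2 + ‖z.2‖ ^ 2 - 1)

/-- The hypersurface `W₀`: `(|τ|² σ, (1 + |σ|²) τ, |τ|²) / (1 + |σ|² + |τ|²)`, `τ ≠ 0`. -/
noncomputable def zf (z : P × Q) : WithLp 2 (WithLp 2 (P × Q) × ℝ) :=
  (1 + ‖z.1‖ ^ 2 + ‖z.2‖ ^ 2)⁻¹ • WithLp.toLp 2 (WithLp.toLp 2 (‖z.2‖ ^ 2 • z.1,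
    (1 + ‖z.1‖ ^ 2) • z.2), ‖z.2‖ ^ 2)

end

end DupinClass

end S_S2ZeroD
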