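import Mathlib
import Pool.Agent.H31.DC.D11
import Pool.Agent.H31.DC.D12

/-! Reducible Dupin hypersurfaces, part D13 (several modules joined to save build time). -/

section S_S2W0_pf

open scoped RealInnerProductSpace ContDiff Topology
open Module Set

namespace DupinClass

section

variable {P Q : Type} [NormedAddCommGroup P] [InnerProductSpace ℝ P] [FiniteDimensional ℝ P]
  [NormedAddCommGroup Q] [InnerProductSpace ℝ Q] [FiniteDimensional ℝ Q]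

variable (P Q) in
/-- the identity map from the product to the `L²` product -/
noncomputable def s2w0_L : ((P × Q) × ℝ) →L[ℝ] WithLp 2 (WithLp 2 (P × Q) × ℝ) :=
  (WithLp.prodContinuousLinearEquiv 2 ℝ (WithLp 2 (P × Q)) ℝ).symm.toContinuousLinearMap.comp
    (((WithLp.prodContinuousLinearEquiv 2 ℝ P Q).symm.toContinuousLinearMap).prodMap
      (ContinuousLinearMap.id ℝ ℝ))

omit [FiniteDimensional ℝ P] [FiniteDimensional ℝ Q] in
theorem s2w0_L_apply (a : P) (b : Q) (c : ℝ) :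
    s2w0_L P Q ((a, b), c) = WithLp.toLp 2 (WithLp.toLp 2 (a, b), c) := rfl

omit [FiniteDimensional ℝ P] [FiniteDimensional ℝ Q] in
theorem s2w0_inner (w w' : (P × Q) × ℝ) :
    ⟪s2w0_L P Q w, s2w0_L P Q w'⟫ = ⟪w.1.1, w'.1.1⟫ + ⟪w.1.2, w'.1.2⟫ + w.2 * w'.2 := by
  obtain ⟨⟨a, b⟩, c⟩ := w
  obtain ⟨⟨a', b'⟩, c'⟩ := w'
  rw [s2w0_L_apply, s2w0_L_apply, WithLp.prod_inner_apply, WithLp.prod_inner_apply]
  simp [mul_comm]

/-- the numerator of `zν` -/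
noncomputable def s2w0_A (z : P × Q) : (P × Q) × ℝ :=
  (((-2 : ℝ) • z.1, (2 : ℝ) • z.2), ‖z.1‖ ^ 2 + ‖z.2‖ ^ 2 - 1)

/-- the numerator of `zf` -/
noncomputable def s2w0_B (z : P × Q) : (P × Q) × ℝ :=
  ((‖z.2‖ ^ 2 • z.1, (1 + ‖z.1‖ ^ 2) • z.2), ‖z.2‖ ^ 2)

omit [FiniteDimensional ℝ P] [FiniteDimensional ℝ Q] in
theorem s2w0_zν (z : P × Q) :
    zν z = (1 + ‖z.1‖ ^ 2 + ‖z.2‖ ^ 2)⁻¹ • s2w0_L P Q (s2w0_A z) := rfl

omit [FiniteDimensional ℝ P] [FiniteDimensional ℝ Q] in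
theorem s2w0_zf (z : P × Q) :
    zf z = (1 + ‖z.1‖ ^ 2 + ‖z.2‖ ^ 2)⁻¹ • s2w0_L P Q (s2w0_B z) := rfl

omit [FiniteDimensional ℝ P] [FiniteDimensional ℝ Q] in
theorem s2w0_pos (z : P × Q) : 0 < 1 + ‖z.1‖ ^ 2 + ‖z.2‖ ^ 2 := by positivity

omit [FiniteDimensional ℝ P] [FiniteDimensional ℝ Q] in
theorem s2w0_n1 : ContDiff ℝ ∞ (fun z : P × Q => ‖z.1‖ ^ 2) := contDiff_fst.norm_sq ℝ

omit [FiniteDimensional ℝ P] [FiniteDimensional ℝ Q] in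
theorem s2w0_n2 : ContDiff ℝ ∞ (fun z : P × Q => ‖z.2‖ ^ 2) := contDiff_snd.norm_sq ℝ

/-- **Module S2W0.** -/
theorem zν_smooth : ContDiff ℝ ∞ (zν : P × Q → _) := by
  have h1 : ContDiff ℝ ∞ (fun z : P × Q => (1 + ‖z.1‖ ^ 2 + ‖z.2‖ ^ 2)⁻¹) :=
    ((contDiff_const.add s2w0_n1).add s2w0_n2).inv fun z => (s2w0_pos z).ne'
  have h2 : ContDiff ℝ ∞ (s2w0_A : P × Q → (P × Q) × ℝ) :=
    ((contDiff_fst.const_smul (-2 : ℝ)).prodMk (contDiff_snd.const_smul (2 : ℝ))).prodMk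
        ((s2w0_n1.add s2w0_n2).sub contDiff_const)
  exact h1.smul ((s2w0_L P Q).contDiff.comp h2)

theorem zf_smooth : ContDiff ℝ ∞ (zf : P × Q → _) := by
  have h1 : ContDiff ℝ ∞ (fun z : P × Q => (1 + ‖z.1‖ ^ 2 + ‖z.2‖ ^ 2)⁻¹) :=
    ((contDiff_const.add s2w0_n1).add s2w0_n2).inv fun z => (s2w0_pos z).ne'
  have h2 : ContDiff ℝ ∞ (s2w0_B : P × Q → (P × Q) × ℝ) :=
    ((s2w0_n2.smul contDiff_fst).prodMk ((contDiff_const.add s2w0_n1).smul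
        contDiff_snd)).prodMk s2w0_n2
  exact h1.smul ((s2w0_L P Q).contDiff.comp h2)

theorem zν_norm (z : P × Q) : ‖zν z‖ = 1 := by
  have hp := s2w0_pos z
  have h1 : ‖zν z‖ ^ 2 = 1 := by
    rw [← real_inner_self_eq_norm_sq, s2w0_zν, real_inner_smul_left, real_inner_smul_right,
      s2w0_inner]
    simp only [s2w0_A]
    rw [real_inner_smul_left, real_inner_smul_right, real_inner_smul_left, real_inner_smul_right,
      real_inner_self_eq_norm_sq, real_inner_self_eq_norm_sq]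
    field_simp
    ring
  have h2 : 0 ≤ ‖zν z‖ := norm_nonneg _
  nlinarith

omit [FiniteDimensional ℝ P] [FiniteDimensional ℝ Q] in
theorem s2w0_hd1 (z : P × Q) : HasFDerivAt (fun z : P × Q => ‖z.1‖ ^ 2)
    ((2 : ℕ) • (innerSL ℝ z.1).comp (ContinuousLinearMap.fst ℝ P Q)) z := by
  have h := (hasFDerivAt_fst (𝕜 := ℝ) (p := z)).norm_sq
  exact h

omit [FiniteDimensional ℝ P] [FiniteDimensional ℝ Q] in
theorem s2w0_hd2 (z : P × Q) : HasFDerivAt (fun z : P × Q => ‖z.2‖ ^ 2)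
    ((2 : ℕ) • (innerSL ℝ z.2).comp (ContinuousLinearMap.snd ℝ P Q)) z := by
  have h := (hasFDerivAt_snd (𝕜 := ℝ) (p := z)).norm_sq
  exact h

omit [FiniteDimensional ℝ P] [FiniteDimensional ℝ Q] in
theorem s2w0_quot {N : P × Q → (P × Q) × ℝ} {N' : P × Q →L[ℝ] (P × Q) × ℝ} {z : P × Q}
    (hN : HasFDerivAt N N' z) (v : P × Q) :
    fderiv ℝ (fun z : P × Q => (1 + ‖z.1‖ ^ 2 + ‖z.2‖ ^ 2)⁻¹ • s2w0_L P Q (N z)) z v =
      s2w0_L P Q ((1 + ‖z.1‖ ^ 2 + ‖z.2‖ ^ 2)⁻¹ • N' v -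
        (2 * (⟪z.1, v.1⟫ + ⟪z.2, v.2⟫) / (1 + ‖z.1‖ ^ 2 + ‖z.2‖ ^ 2) ^ 2) • N z) := by
  have h1 := ((s2w0_hd1 z).const_add 1).add (s2w0_hd2 z)
  have h2 := (hasDerivAt_inv (s2w0_pos z).ne').comp_hasFDerivAt z h1
  have h3 := h2.smul (((s2w0_L P Q).hasFDerivAt).comp z hN)
  have h4 : fderiv ℝ (fun z : P × Q => (1 + ‖z.1‖ ^ 2 + ‖z.2‖ ^ 2)⁻¹ • s2w0_L P Q (N z)) z = _ :=
    h3.fderiv
  rw [h4]
  simp only [add_apply, smul_apply, ContinuousLinearMap.comp_apply,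
    ContinuousLinearMap.smulRight_apply, map_sub, map_smul, Function.comp_apply,
    ContinuousLinearMap.coe_fst', ContinuousLinearMap.coe_snd', innerSL_apply_apply, smul_eq_mul,
    nsmul_eq_mul, Nat.cast_ofNat]
  rw [sub_eq_add_neg, ← neg_smul]
  congr 2
  have hp := s2w0_pos z
  field_simp
  

omit [FiniteDimensional ℝ P] [FiniteDimensional ℝ Q] in
theorem s2w0_dA (z v : P × Q) : fderiv ℝ zν z v = s2w0_L P Q
    ((1 + ‖z.1‖ ^ 2 + ‖z.2‖ ^ 2)⁻¹ • (((-2 : ℝ) • v.1, (2 : ℝ) • v.2),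
        2 * (⟪z.1, v.1⟫ + ⟪z.2, v.2⟫)) -
      (2 * (⟪z.1, v.1⟫ + ⟪z.2, v.2⟫) / (1 + ‖z.1‖ ^ 2 + ‖z.2‖ ^ 2) ^ 2) • s2w0_A z) := by
  have h1 : HasFDerivAt (s2w0_A : P × Q → (P × Q) × ℝ) _ z :=
    (((hasFDerivAt_fst (𝕜 := ℝ) (p := z)).const_smul (-2 : ℝ)).prodMk
      ((hasFDerivAt_snd (𝕜 := ℝ) (p := z)).const_smul (2 : ℝ))).prodMk
        (((s2w0_hd1 z).add (s2w0_hd2 z)).sub_const 1)
  have h2 := s2w0_quot h1 v
  refine (show fderiv ℝ zν z v = _ from h2).trans ?_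
  congr 2
  simp only [ContinuousLinearMap.prod_apply, smul_apply, add_apply,
    ContinuousLinearMap.comp_apply, ContinuousLinearMap.coe_fst', ContinuousLinearMap.coe_snd',
    innerSL_apply_apply, nsmul_eq_mul, Nat.cast_ofNat]
  rw [mul_add]

omit [FiniteDimensional ℝ P] [FiniteDimensional ℝ Q] in
theorem s2w0_dB (z v : P × Q) : fderiv ℝ zf z v = s2w0_L P Q
    ((1 + ‖z.1‖ ^ 2 + ‖z.2‖ ^ 2)⁻¹ • ((‖z.2‖ ^ 2 • v.1 + (2 * ⟪z.2, v.2⟫) • z.1,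
        (1 + ‖z.1‖ ^ 2) • v.2 + (2 * ⟪z.1, v.1⟫) • z.2), 2 * ⟪z.2, v.2⟫) -
      (2 * (⟪z.1, v.1⟫ + ⟪z.2, v.2⟫) / (1 + ‖z.1‖ ^ 2 + ‖z.2‖ ^ 2) ^ 2) • s2w0_B z) := by
  have h1 : HasFDerivAt (s2w0_B : P × Q → (P × Q) × ℝ) _ z :=
    (((s2w0_hd2 z).smul (hasFDerivAt_fst (𝕜 := ℝ) (p := z))).prodMk
      (((s2w0_hd1 z).const_add 1).smul (hasFDerivAt_snd (𝕜 := ℝ) (p := z)))).prodMk
        (s2w0_hd2 z)
  have h2 := s2w0_quot h1 v
  refine (show fderiv ℝ zf z v = _ from h2).trans ?_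
  congr 2
  simp only [ContinuousLinearMap.prod_apply, smul_apply, add_apply,
    ContinuousLinearMap.comp_apply, ContinuousLinearMap.coe_fst', ContinuousLinearMap.coe_snd',
    ContinuousLinearMap.smulRight_apply,
    innerSL_apply_apply, nsmul_eq_mul, Nat.cast_ofNat]

theorem zν_conf (z v : P × Q) : ‖fderiv ℝ zν z v‖ ^ 2
    = 4 * (‖v.1‖ ^ 2 + ‖v.2‖ ^ 2) / (1 + ‖z.1‖ ^ 2 + ‖z.2‖ ^ 2) ^ 2 := by
  have hp := s2w0_pos z
  rw [s2w0_dA, ← real_inner_self_eq_norm_sq, s2w0_inner]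
  simp only [s2w0_A, Prod.smul_mk, Prod.mk_sub_mk, smul_smul, smul_eq_mul]
  simp only [inner_sub_left, inner_sub_right, real_inner_smul_left, real_inner_smul_right]
  rw [real_inner_comm z.1 v.1, real_inner_comm z.2 v.2]
  simp only [real_inner_self_eq_norm_sq]
  field_simp
  ring

/-- Hint: `zf z = (σ, 0, (1 - |σ|²) / 2) + ((1 + |σ|²) / 2) • zν z` (use it for the directions
`(0, τ')`) and `zf z = (0, τ, |τ|² / 2) - (|τ|² / 2) • zν z` (for the directions `(σ', 0)`). -/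
theorem zf_fderiv (z v : P × Q) : fderiv ℝ zf z v
    = fderiv ℝ zν z (-(‖z.2‖ ^ 2 / 2) • v.1, ((1 + ‖z.1‖ ^ 2) / 2) • v.2) := by
  have hp := s2w0_pos z
  rw [s2w0_dA, s2w0_dB]
  congr 1
  simp only [s2w0_A, s2w0_B, Prod.smul_mk, Prod.mk_sub_mk, smul_smul, smul_eq_mul,
    real_inner_smul_right, smul_add]
  refine Prod.ext (Prod.ext ?_ ?_) ?_
  · simp only []
    have h1 : (1 + ‖z.1‖ ^ 2 + ‖z.2‖ ^ 2)⁻¹ * (2 * ⟪z.2, v.2⟫) -
      2 * (⟪z.1, v.1⟫ + ⟪z.2, v.2⟫) / (1 + ‖z.1‖ ^ 2 + ‖z.2‖ ^ 2) ^ 2 * ‖z.2‖ ^ 2 =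
      - (2 * (-(‖z.2‖ ^ 2 / 2) * ⟪z.1, v.1⟫ + (1 + ‖z.1‖ ^ 2) / 2 * ⟪z.2, v.2⟫) /
        (1 + ‖z.1‖ ^ 2 + ‖z.2‖ ^ 2) ^ 2 * (-2)) := by
      field_simp
      ring
    linear_combination (norm := module) h1 • z.1
  · simp only []
    have h1 : (1 + ‖z.1‖ ^ 2 + ‖z.2‖ ^ 2)⁻¹ * (2 * ⟪z.1, v.1⟫) -
      2 * (⟪z.1, v.1⟫ + ⟪z.2, v.2⟫) / (1 + ‖z.1‖ ^ 2 + ‖z.2‖ ^ 2) ^ 2 * (1 + ‖z.1‖ ^ 2) =
      - (2 * (-(‖z.2‖ ^ 2 / 2) * ⟪z.1, v.1⟫ + (1 + ‖z.1‖ ^ 2) / 2 * ⟪z.2, v.2⟫) /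
        (1 + ‖z.1‖ ^ 2 + ‖z.2‖ ^ 2) ^ 2 * 2) := by
      field_simp
      ring
    linear_combination (norm := module) h1 • z.2
  · simp only []
    field_simp
    ring

end

end DupinClass

end S_S2W0_pf

section S_S2ZeroB0

open scoped RealInnerProductSpace ContDiff Topology
open Module Set

namespace DupinClass

section

variable (P Q : Type) [NormedAddCommGroup P] [InnerProductSpace ℝ P] [FiniteDimensional ℝ P]
  [NormedAddCommGroup Q] [InnerProductSpace ℝ Q] [FiniteDimensional ℝ Q]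

variable {P Q} in
theorem zν_fderiv_inj {z v : P × Q} (h : fderiv ℝ zν z v = 0) : v = 0 := by
  have h1 := zν_conf z v
  rw [h, norm_zero] at h1
  have h2 : (1 + ‖z.1‖ ^ 2 + ‖z.2‖ ^ 2) ^ 2 ≠ 0 := by positivity
  have h3 : ‖v.1‖ ^ 2 + ‖v.2‖ ^ 2 = 0 := by
    have h4 : 4 * (‖v.1‖ ^ 2 + ‖v.2‖ ^ 2) = 0 :=
      (div_eq_zero_iff.1 (by rw [← h1]; norm_num)).resolve_right h2
    linarith
  have h5 : ‖v.1‖ ^ 2 = 0 := by nlinarith [sq_nonneg ‖v.1‖, sq_nonneg ‖v.2‖]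
  have h6 : ‖v.2‖ ^ 2 = 0 := by nlinarith [sq_nonneg ‖v.1‖, sq_nonneg ‖v.2‖]
  exact Prod.ext (norm_eq_zero.1 (pow_eq_zero_iff two_ne_zero |>.1 h5))
    (norm_eq_zero.1 (pow_eq_zero_iff two_ne_zero |>.1 h6))

variable {P Q} in
theorem zν_inner_fderiv (z v : P × Q) : ⟪fderiv ℝ zν z v, zν z⟫ = 0 := by
  have h0 : HasFDerivAt (zν : P × Q → _) (fderiv ℝ zν z) z :=
    (zν_smooth.differentiable (by simp) z).hasFDerivAt
  have h1 : HasFDerivAt (fun z : P × Q => ⟪zν z, zν z⟫) _ z := h0.inner ℝ h0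
  have h2 : HasFDerivAt (fun z : P × Q => ⟪zν z, zν z⟫) (0 : P × Q →L[ℝ] ℝ) z := by
    have : (fun z : P × Q => ⟪zν z, zν z⟫) = fun _ => (1 : ℝ) := by
      funext z
      rw [real_inner_self_eq_norm_sq, zν_norm, one_pow]
    rw [this]
    exact hasFDerivAt_const _ _
  have h3 := DFunLike.congr_fun (h1.unique h2) v
  simp only [fderivInnerCLM_apply, ContinuousLinearMap.comp_apply, ContinuousLinearMap.prod_apply,
    zero_apply] at h3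
  rw [real_inner_comm (zν z) (fderiv ℝ zν z v)]
  linarith [real_inner_comm (zν z) (fderiv ℝ zν z v)]

theorem isEHyp_zeroW_aux : IsEHyp (H := WithLp 2 (WithLp 2 (P × Q) × ℝ)) {z : P × Q | z.2 ≠ 0}
    zf zν where
  isOpen_U := isOpen_ne.preimage continuous_snd
  smooth_f := zf_smooth.contDiffOn
  smooth_ν := zν_smooth.contDiffOn
  norm_ν := fun z _ => zν_norm z
  inner_df := fun z _ v => by rw [zf_fderiv, zν_inner_fderiv]
  immersion := fun z hz v hv => by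
    rw [zf_fderiv] at hv
    have h1 := zν_fderiv_inj hv
    have h2 : -(‖z.2‖ ^ 2 / 2) ≠ 0 := by
      have : 0 < ‖z.2‖ := norm_pos_iff.2 hz
      have : 0 < ‖z.2‖ ^ 2 / 2 := by positivity
      linarith
    have h3 : (1 + ‖z.1‖ ^ 2) / 2 ≠ 0 := by positivity
    exact Prod.ext ((smul_eq_zero.1 (congrArg Prod.fst h1)).resolve_left h2)
      ((smul_eq_zero.1 (congrArg Prod.snd h1)).resolve_left h3)
  dim := by
    rw [(WithLp.linearEquiv 2 ℝ (WithLp 2 (P × Q) × ℝ)).finrank_eq, Module.finrank_prod,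
      (WithLp.linearEquiv 2 ℝ (P × Q)).finrank_eq, Module.finrank_self]

end

end DupinClass

end S_S2ZeroB0

section S_S2CylA

open scoped RealInnerProductSpace ContDiff Topology
open Module Set

namespace DupinClass

section

variable {Y E : Type} [NormedAddCommGroup Y] [NormedSpace ℝ Y] [FiniteDimensional ℝ Y]
  [NormedAddCommGroup E] [InnerProductSpace ℝ E] [FiniteDimensional ℝ E]
  (W : EHyp Y E) (G : Type) [NormedAddCommGroup G] [InnerProductSpace ℝ G] [FiniteDimensional ℝ G]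

omit [FiniteDimensional ℝ Y] [FiniteDimensional ℝ E] [FiniteDimensional ℝ G] in
theorem cyl_smooth_f : ContDiffOn ℝ ∞ (fun z : Y × G => (WithLp.toLp 2 (W.f z.1, z.2) :
    WithLp 2 (E × G))) {z | z.1 ∈ W.U} :=
  (WithLp.prodContinuousLinearEquiv 2 ℝ E G).symm.contDiff.comp_contDiffOn
    ((W.smooth_f.comp contDiff_fst.contDiffOn fun _ hz => hz).prodMk contDiff_snd.contDiffOn)

omit [FiniteDimensional ℝ Y] [FiniteDimensional ℝ E] [FiniteDimensional ℝ G] in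
theorem cyl_smooth_ν : ContDiffOn ℝ ∞ (fun z : Y × G => (WithLp.toLp 2 (W.ν z.1, 0) :
    WithLp 2 (E × G))) {z | z.1 ∈ W.U} :=
  (WithLp.prodContinuousLinearEquiv 2 ℝ E G).symm.contDiff.comp_contDiffOn
    ((W.smooth_ν.comp contDiff_fst.contDiffOn fun _ hz => hz).prodMk contDiffOn_const)

omit [FiniteDimensional ℝ G] in
theorem cyl_fderiv_f {z : Y × G} (hz : z.1 ∈ W.U) (v : Y × G) :
    fderiv ℝ (fun z : Y × G => (WithLp.toLp 2 (W.f z.1, z.2) : WithLp 2 (E × G))) z v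
      = WithLp.toLp 2 (fderiv ℝ W.f z.1 v.1, v.2) := by
  have h1 := (W.wf_hasFDerivAt_f hz).comp z hasFDerivAt_fst
  have h2 := h1.prodMk (hasFDerivAt_snd (𝕜 := ℝ) (p := z))
  have h3 := ((WithLp.prodContinuousLinearEquiv 2 ℝ E G).symm :
    (E × G) →L[ℝ] WithLp 2 (E × G)).hasFDerivAt.comp z h2
  have h4 : HasFDerivAt (fun z : Y × G => (WithLp.toLp 2 (W.f z.1, z.2) : WithLp 2 (E × G))) _ z :=
    h3
  rw [h4.fderiv]
  rfl

omit [FiniteDimensional ℝ G] in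
theorem cyl_fderiv_ν {z : Y × G} (hz : z.1 ∈ W.U) (v : Y × G) :
    fderiv ℝ (fun z : Y × G => (WithLp.toLp 2 (W.ν z.1, 0) : WithLp 2 (E × G))) z v
      = WithLp.toLp 2 (fderiv ℝ W.ν z.1 v.1, 0) := by
  have h1 := (W.wf_hasFDerivAt_ν hz).comp z hasFDerivAt_fst
  have h2 := h1.prodMk (hasFDerivAt_const (0 : G) z)
  have h3 := ((WithLp.prodContinuousLinearEquiv 2 ℝ E G).symm :
    (E × G) →L[ℝ] WithLp 2 (E × G)).hasFDerivAt.comp z h2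
  have h4 : HasFDerivAt (fun z : Y × G => (WithLp.toLp 2 (W.ν z.1, 0) : WithLp 2 (E × G))) _ z :=
    h3
  rw [h4.fderiv]
  rfl

theorem isEHyp_cyl_aux : IsEHyp {z : Y × G | z.1 ∈ W.U}
    (fun z => WithLp.toLp 2 (W.f z.1, z.2)) (fun z => WithLp.toLp 2 (W.ν z.1, 0)) where
  isOpen_U := W.isOpen_U.preimage continuous_fst
  smooth_f := cyl_smooth_f W G
  smooth_ν := cyl_smooth_ν W G
  norm_ν := fun z hz => by
    rw [← sq_eq_sq₀ (norm_nonneg _) zero_le_one, WithLp.prod_norm_sq_eq_of_L2]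
    simp [W.norm_ν z.1 hz]
  inner_df := fun z hz v => by
    rw [cyl_fderiv_f W G hz, WithLp.prod_inner_apply]
    simp [W.inner_df z.1 hz]
  immersion := fun z hz v hv => by
    rw [cyl_fderiv_f W G hz] at hv
    have h1 := congrArg (fun w => (WithLp.ofLp w).1) hv
    have h2 := congrArg (fun w => (WithLp.ofLp w).2) hv
    exact Prod.ext (W.immersion z.1 hz _ h1) h2
  dim := by
    rw [(WithLp.linearEquiv 2 ℝ (E × G)).finrank_eq, Module.finrank_prod, Module.finrank_prod,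
      W.dim]
    omega

end

end DupinClass

end S_S2CylA
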