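import Mathlib
import Pool.Agent.H31.DC.D13

/-! Reducible Dupin hypersurfaces, part D14 (several modules joined to save build time). -/

section S_S2ModDef

open scoped RealInnerProductSpace ContDiff Topology
open Module Set

namespace DupinClass

/-! ## The hypersurfaces `Z` -/

section

variable (P Q : Type) [NormedAddCommGroup P] [InnerProductSpace ℝ P] [FiniteDimensional ℝ P]
  [NormedAddCommGroup Q] [InnerProductSpace ℝ Q] [FiniteDimensional ℝ Q]

theorem isEHyp_zeroW : IsEHyp (H := WithLp 2 (WithLp 2 (P × Q) × ℝ)) {z : P × Q | z.2 ≠ 0} zf zν :=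
  isEHyp_zeroW_aux P Q

/-- The hypersurface `W₀(p, q)` of `ℝ^{p + q + 1}`. -/
noncomputable def zeroW : EHyp (P × Q) (WithLp 2 (WithLp 2 (P × Q) × ℝ)) :=
  EHyp.of {z : P × Q | z.2 ≠ 0} zf zν (isEHyp_zeroW P Q)

end

section

variable {Y E : Type} [NormedAddCommGroup Y] [NormedSpace ℝ Y] [FiniteDimensional ℝ Y]
  [NormedAddCommGroup E] [InnerProductSpace ℝ E] [FiniteDimensional ℝ E]
  (W : EHyp Y E) (G : Type) [NormedAddCommGroup G] [InnerProductSpace ℝ G] [FiniteDimensional ℝ G]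

theorem isEHyp_cyl : IsEHyp {z : Y × G | z.1 ∈ W.U}
    (fun z => WithLp.toLp 2 (W.f z.1, z.2)) (fun z => WithLp.toLp 2 (W.ν z.1, 0)) :=
  isEHyp_cyl_aux W G

/-- The cylinder `W × G` in `E × G` over the hypersurface `W` of `E`. -/
noncomputable def EHyp.cyl : EHyp (Y × G) (WithLp 2 (E × G)) :=
  EHyp.of {z : Y × G | z.1 ∈ W.U} (fun z => WithLp.toLp 2 (W.f z.1, z.2))
    (fun z => WithLp.toLp 2 (W.ν z.1, 0)) (isEHyp_cyl W G)

end

section

variable (P Q : Type) [NormedAddCommGroup P] [InnerProductSpace ℝ P] [FiniteDimensional ℝ P]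
  [NormedAddCommGroup Q] [InnerProductSpace ℝ Q] [FiniteDimensional ℝ Q]
  (R : Type) [NormedAddCommGroup R] [InnerProductSpace ℝ R] [FiniteDimensional ℝ R]

/-- The model `Z(p, q, m)`: the cylinder `W₀(p, q) × ℝ^m`. -/
noncomputable def modelZ : EHyp ((P × Q) × R) (WithLp 2 (WithLp 2 (WithLp 2 (P × Q) × ℝ) × R)) :=
  (zeroW P Q).cyl R

end

end DupinClass

end S_S2ModDef
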