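import Mathlib
import Pool.Agent.H31.DC.D11
import Pool.Agent.H31.DC.D14

/-! Reducible Dupin hypersurfaces, part D15 (several modules joined to save build time). -/

section S_S2ZeroB

open scoped RealInnerProductSpace ContDiff Topology
open Module Set

namespace DupinClass

section

variable (P Q : Type) [NormedAddCommGroup P] [InnerProductSpace ℝ P] [FiniteDimensional ℝ P]
  [NormedAddCommGroup Q] [InnerProductSpace ℝ Q] [FiniteDimensional ℝ Q]

variable {P Q}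

/-- The principal curvature of multiplicity `q`. -/
noncomputable def zκ₁ (z : P × Q) : ℝ := -2 / (1 + ‖z.1‖ ^ 2)

/-- The principal curvature of multiplicity `p`. -/
noncomputable def zκ₂ (z : P × Q) : ℝ := 2 / ‖z.2‖ ^ 2

theorem zero_mem_prin_iff {z : P × Q} {k : ℝ} (v : P × Q) : v ∈ prin (zeroW P Q).f (zeroW P Q).ν k z ↔
    (1 - k * (‖z.2‖ ^ 2 / 2)) • v.1 = 0 ∧ (1 + k * ((1 + ‖z.1‖ ^ 2) / 2)) • v.2 = 0 := by
  rw [mem_prin]
  change fderiv ℝ zν z v + k • fderiv ℝ zf z v = 0 ↔ _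
  rw [zf_fderiv, ← map_smul, ← map_add]
  constructor
  · intro h
    have h1 := zν_fderiv_inj h
    constructor
    · refine Eq.trans ?_ (congrArg Prod.fst h1)
      simp only [Prod.fst_add, Prod.smul_fst]
      module
    · refine Eq.trans ?_ (congrArg Prod.snd h1)
      simp only [Prod.snd_add, Prod.smul_snd]
      module
  · rintro ⟨h1, h2⟩
    rw [← map_zero (fderiv ℝ zν z)]
    congr 1
    refine Prod.ext ?_ ?_
    · refine Eq.trans ?_ h1
      simp only [Prod.fst_add, Prod.smul_fst]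
      module
    · refine Eq.trans ?_ h2
      simp only [Prod.snd_add, Prod.smul_snd]
      module

theorem zero_prin₁ {z : P × Q} (v : P × Q) :
    v ∈ prin (zeroW P Q).f (zeroW P Q).ν (zκ₁ z) z ↔ v.1 = 0 := by
  have h0 : 0 < 1 + ‖z.1‖ ^ 2 := by positivity
  have h1 : 1 + zκ₁ z * ((1 + ‖z.1‖ ^ 2) / 2) = 0 := by
    unfold zκ₁; field_simp; ring
  have h2 : 1 - zκ₁ z * (‖z.2‖ ^ 2 / 2) ≠ 0 := by
    have : 0 ≤ ‖z.2‖ ^ 2 / (1 + ‖z.1‖ ^ 2) := by positivity
    have h3 : 1 - zκ₁ z * (‖z.2‖ ^ 2 / 2) = 1 + ‖z.2‖ ^ 2 / (1 + ‖z.1‖ ^ 2) := by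
      unfold zκ₁; field_simp; ring
    rw [h3]; positivity
  rw [zero_mem_prin_iff, h1, zero_smul, smul_eq_zero, or_iff_right h2]
  simp

theorem zero_prin₂ {z : P × Q} (hz : z.2 ≠ 0) (v : P × Q) :
    v ∈ prin (zeroW P Q).f (zeroW P Q).ν (zκ₂ z) z ↔ v.2 = 0 := by
  have h0 : 0 < ‖z.2‖ := norm_pos_iff.2 hz
  have h1 : 1 - zκ₂ z * (‖z.2‖ ^ 2 / 2) = 0 := by
    unfold zκ₂; field_simp; ring
  have h2 : 1 + zκ₂ z * ((1 + ‖z.1‖ ^ 2) / 2) ≠ 0 := by
    have : 0 < zκ₂ z := by unfold zκ₂; positivity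
    positivity
  rw [zero_mem_prin_iff, h1, zero_smul, smul_eq_zero, or_iff_right h2]
  simp

theorem zero_prin_zero {z : P × Q} : prin (zeroW P Q).f (zeroW P Q).ν 0 z = ⊥ := by
  rw [eq_bot_iff]
  intro v hv
  rw [zero_mem_prin_iff] at hv
  simp only [zero_mul, sub_zero, add_zero, one_smul] at hv
  exact Prod.ext hv.1 hv.2

end

end DupinClass

end S_S2ZeroB

section S_S2W0B_pf

open scoped RealInnerProductSpace ContDiff Topology
open Module Set

namespace DupinClass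

/-! ## Module S2W0B: the hypersurface `W₀` is proper Dupin -/

section

variable {P Q : Type} [NormedAddCommGroup P] [InnerProductSpace ℝ P] [FiniteDimensional ℝ P]
  [NormedAddCommGroup Q] [InnerProductSpace ℝ Q] [FiniteDimensional ℝ Q]

theorem s2w0b_prin₁_eq (z : P × Q) : prin (zeroW P Q).f (zeroW P Q).ν (zκ₁ z) z
    = LinearMap.range (LinearMap.inr ℝ P Q) := by
  ext v
  rw [zero_prin₁, LinearMap.mem_range]
  constructor
  · intro h
    exact ⟨v.2, Prod.ext h.symm rfl⟩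
  · rintro ⟨x, rfl⟩
    rfl

theorem s2w0b_prin₂_eq {z : P × Q} (hz : z.2 ≠ 0) :
    prin (zeroW P Q).f (zeroW P Q).ν (zκ₂ z) z = LinearMap.range (LinearMap.inl ℝ P Q) := by
  ext v
  rw [zero_prin₂ hz, LinearMap.mem_range]
  constructor
  · intro h
    exact ⟨v.1, Prod.ext rfl h.symm⟩
  · rintro ⟨x, rfl⟩
    rfl

theorem zeroW_finrank₁ {z : P × Q} :
    finrank ℝ (prin (zeroW P Q).f (zeroW P Q).ν (zκ₁ z) z) = finrank ℝ Q := by
  rw [s2w0b_prin₁_eq]
  exact LinearMap.finrank_range_of_inj LinearMap.inr_injective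

theorem zeroW_finrank₂ {z : P × Q} (hz : z.2 ≠ 0) :
    finrank ℝ (prin (zeroW P Q).f (zeroW P Q).ν (zκ₂ z) z) = finrank ℝ P := by
  rw [s2w0b_prin₂_eq hz]
  exact LinearMap.finrank_range_of_inj LinearMap.inl_injective

theorem s2w0b_smooth₁ : ContDiff ℝ ∞ (zκ₁ : P × Q → ℝ) := by
  refine contDiff_const.div (contDiff_const.add (contDiff_fst.norm_sq ℝ)) ?_
  intro z
  positivity

theorem s2w0b_smooth₂ : ContDiffOn ℝ ∞ (zκ₂ : P × Q → ℝ) (zeroW P Q).U := by
  refine contDiffOn_const.div (contDiff_snd.norm_sq ℝ).contDiffOn ?_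
  intro z hz
  have : 0 < ‖z.2‖ := norm_pos_iff.2 hz
  positivity

theorem s2w0b_ne {z : P × Q} (hz : z.2 ≠ 0) : zκ₁ z < 0 ∧ 0 < zκ₂ z := by
  have h1 : 0 < ‖z.2‖ := norm_pos_iff.2 hz
  constructor
  · unfold zκ₁
    apply div_neg_of_neg_of_pos
    · norm_num
    · positivity
  · unfold zκ₂
    positivity

theorem s2w0b_deriv₁ {z v : P × Q} (hv : v.1 = 0) : fderiv ℝ (zκ₁ : P × Q → ℝ) z v = 0 := by
  have h1 : Differentiable ℝ (fun σ : P => -2 / (1 + ‖σ‖ ^ 2)) := by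
    have h2 : ContDiff ℝ ∞ (fun σ : P => -2 / (1 + ‖σ‖ ^ 2)) :=
      contDiff_const.div (contDiff_const.add (contDiff_id.norm_sq ℝ)) (fun z => by positivity)
    exact h2.differentiable (by simp)
  have h3 := (h1 z.1).hasFDerivAt.comp z hasFDerivAt_fst
  have h4 : HasFDerivAt (zκ₁ : P × Q → ℝ) _ z := h3
  rw [h4.fderiv, ContinuousLinearMap.comp_apply, ContinuousLinearMap.coe_fst', hv, map_zero]

theorem s2w0b_deriv₂ {z v : P × Q} (hz : z.2 ≠ 0) (hv : v.2 = 0) :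
    fderiv ℝ (zκ₂ : P × Q → ℝ) z v = 0 := by
  have h1 : DifferentiableAt ℝ (fun τ : Q => 2 / ‖τ‖ ^ 2) z.2 := by
    have h2 : ContDiffAt ℝ ∞ (fun τ : Q => 2 / ‖τ‖ ^ 2) z.2 :=
      contDiffAt_const.div (contDiffAt_id.norm_sq ℝ) (by
        have : 0 < ‖z.2‖ := norm_pos_iff.2 hz
        simpa using hz)
    exact h2.differentiableAt (by simp)
  have h3 := h1.hasFDerivAt.comp z hasFDerivAt_snd
  have h4 : HasFDerivAt (zκ₂ : P × Q → ℝ) _ z := h3
  rw [h4.fderiv, ContinuousLinearMap.comp_apply, ContinuousLinearMap.coe_snd', hv, map_zero]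

theorem s2w0b_top {z : P × Q} (hz : z.2 ≠ 0) :
    prin (zeroW P Q).f (zeroW P Q).ν (zκ₁ z) z ⊔ prin (zeroW P Q).f (zeroW P Q).ν (zκ₂ z) z = ⊤ := by
  rw [eq_top_iff]
  intro v _
  have e : v = (0, v.2) + (v.1, 0) := by simp
  rw [e]
  exact Submodule.add_mem_sup ((zero_prin₁ _).2 rfl) ((zero_prin₂ hz _).2 rfl)

/-- **Module S2W0B.** -/
theorem zeroW_twoDupin (hp : 1 ≤ finrank ℝ P) (hq : 1 ≤ finrank ℝ Q) :
    TwoDupin (zeroW P Q) zκ₁ zκ₂ where
  smooth₁ := s2w0b_smooth₁.contDiffOn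
  smooth₂ := s2w0b_smooth₂
  ne := fun z hz => ((s2w0b_ne hz).1.trans (s2w0b_ne hz).2).ne
  ne_bot₁ := fun z _ h => by
    have h1 := zeroW_finrank₁ (z := z)
    rw [h, finrank_bot] at h1
    omega
  ne_bot₂ := fun z hz h => by
    have h1 := zeroW_finrank₂ (z := z) hz
    rw [h, finrank_bot] at h1
    omega
  top := fun z hz => s2w0b_top hz
  deriv₁ := fun z _ v hv => s2w0b_deriv₁ ((zero_prin₁ v).1 hv)
  deriv₂ := fun z hz v hv => s2w0b_deriv₂ hz ((zero_prin₂ hz v).1 hv)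

theorem zeroW_properDupin (hp : 1 ≤ finrank ℝ P) (hq : 1 ≤ finrank ℝ Q) :
    ProperDupinWith (zeroW P Q).f (zeroW P Q).ν (zeroW P Q).U ![finrank ℝ P, finrank ℝ Q] := by
  have h := zeroW_twoDupin hp hq
  refine ⟨![zκ₂, zκ₁], ?_, ?_, ?_, ?_, ?_, ?_⟩
  · intro i
    fin_cases i
    · exact h.smooth₂
    · exact h.smooth₁
  · intro z hz i j hij
    fin_cases i <;> fin_cases j <;> first | exact absurd rfl hij | skip
    · exact (h.ne z hz).symm
    · exact h.ne z hz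
  · intro i
    fin_cases i
    · exact hp
    · exact hq
  · intro z hz i
    fin_cases i
    · exact zeroW_finrank₂ hz
    · exact zeroW_finrank₁
  · intro z hz
    rw [eq_top_iff, ← h.top z hz]
    apply sup_le
    · exact le_iSup (fun i => prin (zeroW P Q).f (zeroW P Q).ν ((![zκ₂, zκ₁] : Fin 2 → _) i z) z) 1
    · exact le_iSup (fun i => prin (zeroW P Q).f (zeroW P Q).ν ((![zκ₂, zκ₁] : Fin 2 → _) i z) z) 0
  · intro z hz i v hv
    fin_cases i
    · exact h.deriv₂ z hz v hv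
    · exact h.deriv₁ z hz v hv

end

end DupinClass

end S_S2W0B_pf

section S_S2CylDef

open scoped RealInnerProductSpace ContDiff Topology
open Module Set

namespace DupinClass

section

variable {Y E : Type} [NormedAddCommGroup Y] [NormedSpace ℝ Y] [FiniteDimensional ℝ Y]
  [NormedAddCommGroup E] [InnerProductSpace ℝ E] [FiniteDimensional ℝ E]
  (W : EHyp Y E) (G : Type) [NormedAddCommGroup G] [InnerProductSpace ℝ G] [FiniteDimensional ℝ G]

theorem EHyp.cyl_isCylinder : IsCylinder W (W.cyl G) :=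
  ⟨Prod.fst, Prod.snd, contDiff_fst.contDiffOn, contDiff_snd.contDiffOn,
    fun _ hz => ⟨hz, rfl, rfl⟩⟩

end

end DupinClass

end S_S2CylDef

section S_S2CylD

open scoped RealInnerProductSpace ContDiff Topology
open Module Set

namespace DupinClass

section

variable {X Y E G : Type} [NormedAddCommGroup X] [NormedSpace ℝ X] [FiniteDimensional ℝ X]
  [NormedAddCommGroup Y] [NormedSpace ℝ Y] [FiniteDimensional ℝ Y]
  [NormedAddCommGroup E] [InnerProductSpace ℝ E] [FiniteDimensional ℝ E]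
  [NormedAddCommGroup G] [InnerProductSpace ℝ G] [FiniteDimensional ℝ G]

variable (E G) in
/-- The embedding of the Lie space of `E` in that of `E × G`. -/
noncomputable def cylJ :
    (ℝ × WithLp 2 (ℝ × E) × ℝ) →ₗ[ℝ] (ℝ × WithLp 2 (ℝ × WithLp 2 (E × G)) × ℝ) where
  toFun v := (v.1, WithLp.toLp 2 ((WithLp.ofLp v.2.1).1,
      WithLp.toLp 2 ((WithLp.ofLp v.2.1).2, 0)), v.2.2)
  map_add' := by
    intro v w
    refine Prod.ext ?_ (Prod.ext ?_ ?_)
    · simp
    · refine WithLp.ofLp_injective 2 (Prod.ext ?_ ?_)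
      · simp
      · refine WithLp.ofLp_injective 2 (Prod.ext ?_ ?_) <;> simp
    · simp
  map_smul' := by
    intro t v
    refine Prod.ext ?_ (Prod.ext ?_ ?_)
    · simp
    · refine WithLp.ofLp_injective 2 (Prod.ext ?_ ?_)
      · simp
      · refine WithLp.ofLp_injective 2 (Prod.ext ?_ ?_) <;> simp
    · simp

variable (E) in
/-- The third member of the triple (with the opposite sign) of a cylinder. -/
noncomputable def cylS (t : G) : ℝ × WithLp 2 (ℝ × WithLp 2 (E × G)) × ℝ :=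
  (‖t‖ ^ 2 / 2, WithLp.toLp 2 (-(‖t‖ ^ 2 / 2), WithLp.toLp 2 (0, t)), 0)

end

end DupinClass

end S_S2CylD

section S_S2ZeroM



end S_S2ZeroM
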