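import Mathlib
import Pool.Agent.H31.DC.D6
import Pool.Agent.H31.DC.D15

/-! Reducible Dupin hypersurfaces, part D16 (several modules joined to save build time). -/

section S_S2CYLA_pf

open scoped RealInnerProductSpace ContDiff Topology
open Module Set

namespace DupinClass

section

variable {X Y E G : Type} [NormedAddCommGroup X] [NormedSpace ℝ X] [FiniteDimensional ℝ X]
  [NormedAddCommGroup Y] [NormedSpace ℝ Y] [FiniteDimensional ℝ Y]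
  [NormedAddCommGroup E] [InnerProductSpace ℝ E] [FiniteDimensional ℝ E]
  [NormedAddCommGroup G] [InnerProductSpace ℝ G] [FiniteDimensional ℝ G]

omit [FiniteDimensional ℝ X] [FiniteDimensional ℝ Y] [FiniteDimensional ℝ E]
  [FiniteDimensional ℝ G] in
theorem s2_differentiableAt {A : Type} [NormedAddCommGroup A] [NormedSpace ℝ A] {f : X → A}
    {U : Set X} (hf : ContDiffOn ℝ ∞ f U) (hU : IsOpen U) {x : X} (hx : x ∈ U) :
    HasFDerivAt f (fderiv ℝ f x) x :=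
  ((hf.contDiffAt (hU.mem_nhds hx)).differentiableAt (by simp)).hasFDerivAt

theorem cyl_fderiv {W : EHyp Y E} {T : EHyp X (WithLp 2 (E × G))} {u : X → Y} {t : X → G}
    (hu : ContDiffOn ℝ ∞ u T.U) (ht : ContDiffOn ℝ ∞ t T.U)
    (h : ∀ x ∈ T.U, u x ∈ W.U ∧ T.f x = WithLp.toLp 2 (W.f (u x), t x) ∧
      T.ν x = WithLp.toLp 2 (W.ν (u x), 0)) {x₀ : X} (hx₀ : x₀ ∈ T.U) (v : X) :
    fderiv ℝ T.f x₀ v = WithLp.toLp 2 (fderiv ℝ W.f (u x₀) (fderiv ℝ u x₀ v), fderiv ℝ t x₀ v) ∧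
    fderiv ℝ T.ν x₀ v = WithLp.toLp 2 (fderiv ℝ W.ν (u x₀) (fderiv ℝ u x₀ v), 0) := by
  have hU : T.U ∈ 𝓝 x₀ := T.isOpen_U.mem_nhds hx₀
  have hux := (h x₀ hx₀).1
  have du := s2_differentiableAt hu T.isOpen_U hx₀
  have dt := s2_differentiableAt ht T.isOpen_U hx₀
  have dwu := (W.wf_hasFDerivAt_f hux).comp x₀ du
  have dNu := (W.wf_hasFDerivAt_ν hux).comp x₀ du
  have dF : HasFDerivAt T.f (((WithLp.prodContinuousLinearEquiv 2 ℝ E G).symm :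
      (E × G) →L[ℝ] WithLp 2 (E × G)).comp _) x₀ :=
    ((((WithLp.prodContinuousLinearEquiv 2 ℝ E G).symm :
      (E × G) →L[ℝ] WithLp 2 (E × G)).hasFDerivAt).comp x₀
      (dwu.prodMk dt)).congr_of_eventuallyEq
      (by filter_upwards [hU] with x hx using (h x hx).2.1)
  have dν : HasFDerivAt T.ν (((WithLp.prodContinuousLinearEquiv 2 ℝ E G).symm :
      (E × G) →L[ℝ] WithLp 2 (E × G)).comp _) x₀ :=
    ((((WithLp.prodContinuousLinearEquiv 2 ℝ E G).symm :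
      (E × G) →L[ℝ] WithLp 2 (E × G)).hasFDerivAt).comp x₀
      (dNu.prodMk (hasFDerivAt_const (0 : G) x₀))).congr_of_eventuallyEq
      (by filter_upwards [hU] with x hx using (h x hx).2.2)
  rw [dF.fderiv, dν.fderiv]
  exact ⟨rfl, rfl⟩

/-- **Module S2CYLA.** -/
theorem cylinder_prin {W : EHyp Y E} {κ₁ κ₂ : Y → ℝ} (hW : TwoDupin W κ₁ κ₂)
    {T : EHyp X (WithLp 2 (E × G))} {u : X → Y} {t : X → G}
    (hu : ContDiffOn ℝ ∞ u T.U) (ht : ContDiffOn ℝ ∞ t T.U)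
    (h : ∀ x ∈ T.U, u x ∈ W.U ∧ T.f x = WithLp.toLp 2 (W.f (u x), t x) ∧
      T.ν x = WithLp.toLp 2 (W.ν (u x), 0)) {x₀ : X} (hx₀ : x₀ ∈ T.U)
    {k : ℝ} (hk : prin T.f T.ν k x₀ ≠ ⊥) :
    k = κ₁ (u x₀) ∨ k = κ₂ (u x₀) ∨ k = 0 := by
  by_cases hk0 : k = 0
  · exact Or.inr (Or.inr hk0)
  obtain ⟨v, hv, hv0⟩ := Submodule.exists_mem_ne_zero_of_ne_bot hk
  obtain ⟨hF, hν⟩ := cyl_fderiv hu ht h hx₀ v
  have hux := (h x₀ hx₀).1
  rw [mem_prin, hF, hν] at hv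
  have h1 := congrArg (fun z => (WithLp.ofLp z).1) hv
  have h2 := congrArg (fun z => (WithLp.ofLp z).2) hv
  simp only [WithLp.ofLp_add, WithLp.ofLp_smul, Prod.fst_add, Prod.smul_fst, WithLp.ofLp_zero,
    Prod.fst_zero, Prod.snd_add, Prod.smul_snd, Prod.snd_zero, zero_add] at h1 h2
  have h3 : fderiv ℝ t x₀ v = 0 := (smul_eq_zero.1 h2).resolve_left hk0
  have h4 : fderiv ℝ u x₀ v ≠ 0 := by
    intro h0
    apply hv0
    apply T.immersion x₀ hx₀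
    rw [hF, h0, h3]
    simp
  have h5 := eq_of_mem_prin (W.immersion _ hux) (hW.top _ hux) (hW.ne _ hux) h4
    (mem_prin.2 h1)
  tauto

end

end DupinClass

end S_S2CYLA_pf

section S_S2CYLB_pf

open scoped RealInnerProductSpace ContDiff Topology
open Module Set

namespace DupinClass

section

variable {X Y E G : Type} [NormedAddCommGroup X] [NormedSpace ℝ X] [FiniteDimensional ℝ X]
  [NormedAddCommGroup Y] [NormedSpace ℝ Y] [FiniteDimensional ℝ Y]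
  [NormedAddCommGroup E] [InnerProductSpace ℝ E] [FiniteDimensional ℝ E]
  [NormedAddCommGroup G] [InnerProductSpace ℝ G] [FiniteDimensional ℝ G]

omit [FiniteDimensional ℝ E] [FiniteDimensional ℝ G] in
theorem s2cylb_JJ (v w : ℝ × WithLp 2 (ℝ × E) × ℝ) :
    lieForm _ (cylJ E G v) (cylJ E G w) = lieForm _ v w := by
  simp only [lieForm, cylJ, LinearMap.mk₂_apply, LinearMap.coe_mk, AddHom.coe_mk]
  simp [WithLp.prod_inner_apply]

omit [FiniteDimensional ℝ E] [FiniteDimensional ℝ G] in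
theorem s2cylb_JS (v : ℝ × WithLp 2 (ℝ × E) × ℝ) (t : G) :
    lieForm _ (cylJ E G v) (cylS E t) = -((v.1 + (WithLp.ofLp v.2.1).1) * (‖t‖ ^ 2 / 2)) := by
  simp only [lieForm, cylJ, cylS, LinearMap.mk₂_apply, LinearMap.coe_mk, AddHom.coe_mk]
  simp [WithLp.prod_inner_apply]
  ring

omit [FiniteDimensional ℝ E] [FiniteDimensional ℝ G] in
theorem s2cylb_SS (t : G) :
    lieForm _ (cylS E t) (cylS E t) = ‖t‖ ^ 2 := by
  simp only [lieForm, cylS, LinearMap.mk₂_apply, WithLp.prod_inner_apply,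
    real_inner_self_eq_norm_sq, Real.norm_eq_abs, sq_abs, norm_zero]
  ring

variable (E) in
/-- derivative of `cylS` -/
noncomputable def s2cylbS' (t t' : G) : ℝ × WithLp 2 (ℝ × WithLp 2 (E × G)) × ℝ :=
  (⟪t, t'⟫, WithLp.toLp 2 (-⟪t, t'⟫, WithLp.toLp 2 (0, t')), 0)

omit [FiniteDimensional ℝ E] [FiniteDimensional ℝ G] in
theorem s2cylb_S'S' (t t' : G) :
    lieForm _ (s2cylbS' E t t') (s2cylbS' E t t') = ‖t'‖ ^ 2 := by
  simp only [lieForm, s2cylbS', LinearMap.mk₂_apply, WithLp.prod_inner_apply,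
    real_inner_self_eq_norm_sq, Real.norm_eq_abs, sq_abs, norm_zero]
  ring

omit [FiniteDimensional ℝ X] [FiniteDimensional ℝ E] [FiniteDimensional ℝ G] in
theorem s2cylb_fderiv_S {t : X → G} {x : X} {t' : X →L[ℝ] G} (ht : HasFDerivAt t t' x) (v : X) :
    fderiv ℝ (fun x => cylS E (t x)) x v = s2cylbS' E (t x) (t' v) := by
  have h1 : HasFDerivAt (fun x => ‖t x‖ ^ 2 / 2) _ x := (ht.norm_sq).mul_const (2 : ℝ)⁻¹
  have h2 := h1.neg
  have h4 := (((WithLp.prodContinuousLinearEquiv 2 ℝ E G).symm :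
      (E × G) →L[ℝ] WithLp 2 (E × G)).hasFDerivAt).comp x
      ((hasFDerivAt_const (0 : E) x).prodMk ht)
  have h5 := (((WithLp.prodContinuousLinearEquiv 2 ℝ ℝ (WithLp 2 (E × G))).symm :
      (ℝ × WithLp 2 (E × G)) →L[ℝ] WithLp 2 (ℝ × WithLp 2 (E × G))).hasFDerivAt).comp x
      (h2.prodMk h4)
  have h6 : HasFDerivAt (fun x => cylS E (t x)) _ x :=
    h1.prodMk (h5.prodMk (hasFDerivAt_const (0 : ℝ) x))
  rw [h6.fderiv]
  refine Prod.ext ?_ (Prod.ext ?_ ?_)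
  · simp [s2cylbS']
  · refine WithLp.ofLp_injective 2 (Prod.ext ?_ ?_)
    · simp [s2cylbS']
    · refine WithLp.ofLp_injective 2 (Prod.ext ?_ ?_)
      · simp [s2cylbS']
      · simp [s2cylbS']
  · simp [s2cylbS']

omit [FiniteDimensional ℝ X] [FiniteDimensional ℝ E] [FiniteDimensional ℝ G] in
theorem s2cylb_smooth_S {t : X → G} {U : Set X} (ht : ContDiffOn ℝ ∞ t U) :
    ContDiffOn ℝ ∞ (fun x => cylS E (t x)) U := by
  have h1 : ContDiffOn ℝ ∞ (fun x => ‖t x‖ ^ 2 / 2) U := (ht.norm_sq ℝ).div_const 2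
  exact h1.prodMk (((WithLp.prodContinuousLinearEquiv 2 ℝ ℝ (WithLp 2 (E × G))).symm.contDiff.comp_contDiffOn
    (h1.neg.prodMk ((WithLp.prodContinuousLinearEquiv 2 ℝ E G).symm.contDiff.comp_contDiffOn
      (contDiffOn_const.prodMk ht)))).prodMk contDiffOn_const)

theorem s2cylb_smooth_z {W : EHyp Y E} {κ : Y → ℝ} (hκ : ContDiffOn ℝ ∞ κ W.U) {N : Set Y}
    (hN : N ⊆ W.U) (h0 : ∀ y ∈ N, κ y ≠ 0) :
    ContDiffOn ℝ ∞ (fun y => (κ y)⁻¹ • cylJ E G (W.kmap κ y)) N :=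
  ((hκ.mono hN).inv h0).smul
    ((cylJ E G).toContinuousLinearMap.contDiff.comp_contDiffOn ((W.kmap_smooth hκ).mono hN))

theorem s2cylb_fderiv_z {W : EHyp Y E} {κ : Y → ℝ} (hκ : ContDiffOn ℝ ∞ κ W.U) {y : Y}
    (hy : y ∈ W.U) (h0 : κ y ≠ 0) (v : Y) :
    fderiv ℝ (fun y => (κ y)⁻¹ • cylJ E G (W.kmap κ y)) y v
      = (κ y)⁻¹ • cylJ E G (fderiv ℝ (W.kmap κ) y v)
        - ((κ y ^ 2)⁻¹ * fderiv ℝ κ y v) • cylJ E G (W.kmap κ y) := by
  have hd : HasFDerivAt κ (fderiv ℝ κ y) y := s2_differentiableAt hκ W.isOpen_U hy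
  have h1 : HasFDerivAt (fun y => (κ y)⁻¹) (-(κ y ^ 2)⁻¹ • fderiv ℝ κ y) y :=
    (hasDerivAt_inv h0).comp_hasFDerivAt y hd
  have h2 : HasFDerivAt (W.kmap κ) (fderiv ℝ (W.kmap κ) y) y :=
    s2_differentiableAt (W.kmap_smooth hκ) W.isOpen_U hy
  have h3 := ((cylJ E G).toContinuousLinearMap.hasFDerivAt (x := W.kmap κ y)).comp y h2
  have h4 : HasFDerivAt (fun y => (κ y)⁻¹ • cylJ E G (W.kmap κ y)) _ y := h1.smul h3
  rw [h4.fderiv]
  simp
  module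

/-- the norm of the derivative of `z` -/
theorem s2cylb_fderiv_z_sq {W : EHyp Y E} {κ : Y → ℝ} (hκ : ContDiffOn ℝ ∞ κ W.U) {y : Y}
    (hy : y ∈ W.U) (h0 : κ y ≠ 0) (v : Y) :
    lieForm _ (fderiv ℝ (fun y => (κ y)⁻¹ • cylJ E G (W.kmap κ y)) y v)
      (fderiv ℝ (fun y => (κ y)⁻¹ • cylJ E G (W.kmap κ y)) y v)
      = (κ y ^ 2)⁻¹ * ‖fderiv ℝ W.ν y v + κ y • fderiv ℝ W.f y v‖ ^ 2 := by
  have h1 := W.fderiv_fderiv_kmap hκ hy v
  have h2 := W.kmap_fderiv hκ hy v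
  have h3 := W.kmap_kmap (κ := κ) (κ' := κ) hy
  have h4 : lieForm _ (fderiv ℝ (W.kmap κ) y v) (W.kmap κ y) = 0 := by
    rw [← h2]; exact lieForm_isSymm.eq _ _
  rw [s2cylb_fderiv_z hκ hy h0]
  simp only [map_sub, map_smul, LinearMap.sub_apply, LinearMap.smul_apply, s2cylb_JJ, smul_eq_mul,
    h1, h2, h3, h4]
  field_simp
  ring

theorem s2cylb_fderiv_z_eq_zero_iff {W : EHyp Y E} {κ : Y → ℝ} (hκ : ContDiffOn ℝ ∞ κ W.U) {y : Y}
    (hy : y ∈ W.U) (h0 : κ y ≠ 0) (hd : ∀ v ∈ prin W.f W.ν (κ y) y, fderiv ℝ κ y v = 0) (v : Y) :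
    fderiv ℝ (fun y => (κ y)⁻¹ • cylJ E G (W.kmap κ y)) y v = 0 ↔ v ∈ prin W.f W.ν (κ y) y := by
  constructor
  · intro h
    have h1 := s2cylb_fderiv_z_sq (G := G) hκ hy h0 v
    rw [h] at h1
    simp only [map_zero] at h1
    rw [mem_prin, ← norm_eq_zero]
    have h2 : (κ y ^ 2)⁻¹ ≠ 0 := inv_ne_zero (pow_ne_zero 2 h0)
    exact pow_eq_zero_iff (two_ne_zero) |>.1 ((mul_eq_zero.1 h1.symm).resolve_left h2)
  · intro h
    have h1 := (kmap_fderiv_eq_zero_iff hκ hy hd v).2 h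
    rw [s2cylb_fderiv_z hκ hy h0, h1, hd v h]
    simp

theorem s2cylb_pos {W : EHyp Y E} {κ : Y → ℝ} (hκ : ContDiffOn ℝ ∞ κ W.U) {y : Y}
    (hy : y ∈ W.U) (h0 : κ y ≠ 0) (hd : ∀ v ∈ prin W.f W.ν (κ y) y, fderiv ℝ κ y v = 0) (v : Y)
    (hv : fderiv ℝ (fun y => (κ y)⁻¹ • cylJ E G (W.kmap κ y)) y v ≠ 0) :
    0 < lieForm _ (fderiv ℝ (fun y => (κ y)⁻¹ • cylJ E G (W.kmap κ y)) y v)
      (fderiv ℝ (fun y => (κ y)⁻¹ • cylJ E G (W.kmap κ y)) y v) := by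
  rw [s2cylb_fderiv_z_sq hκ hy h0]
  have h1 : fderiv ℝ W.ν y v + κ y • fderiv ℝ W.f y v ≠ 0 := by
    intro h
    apply hv
    rw [s2cylb_fderiv_z_eq_zero_iff hκ hy h0 hd]
    exact mem_prin.2 h
  have h2 : 0 < κ y ^ 2 := by positivity
  positivity

theorem s2cylb_lift {w : E} {N : E} {t : G} {κ : ℝ} (h0 : κ ≠ 0)
    {F ν : WithLp 2 (E × G)} (hF : F = WithLp.toLp 2 (w, t)) (hν : ν = WithLp.toLp 2 (N, 0)) :
    κ⁻¹ • cylJ E G (κ • ptSph w + plSph w N) + cylS E t = κ⁻¹ • (κ • ptSph F + plSph F ν) := by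
  have hFn : ‖F‖ ^ 2 = ‖w‖ ^ 2 + ‖t‖ ^ 2 := by
    rw [hF, WithLp.prod_norm_sq_eq_of_L2]; rfl
  have hFν : ⟪F, ν⟫ = ⟪w, N⟫ := by
    rw [hF, hν, WithLp.prod_inner_apply]
    simp
  refine Prod.ext ?_ (Prod.ext ?_ ?_)
  · simp only [cylJ, cylS, ptSph, plSph, hFn, hFν]
    simp
    field_simp
    ring
  · refine WithLp.ofLp_injective 2 (Prod.ext ?_ ?_)
    · simp only [cylJ, cylS, ptSph, plSph, hFn, hFν]
      simp
      field_simp
      ring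
    · refine WithLp.ofLp_injective 2 (Prod.ext ?_ ?_)
      · simp only [cylJ, cylS, ptSph, plSph, hF, hν]
        simp
      · simp only [cylJ, cylS, ptSph, plSph, hF, hν]
        simp [h0]
  · simp only [cylJ, cylS, ptSph, plSph]
    simp

/-- **Module S2CYLB.** -/
theorem cylinder_canon {W : EHyp Y E} {κ₁ κ₂ : Y → ℝ} (hW : TwoDupin W κ₁ κ₂)
    (hG : 1 ≤ finrank ℝ G) {T : EHyp X (WithLp 2 (E × G))} {u : X → Y} {t : X → G}
    (hu : ContDiffOn ℝ ∞ u T.U) (ht : ContDiffOn ℝ ∞ t T.U)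
    (h : ∀ x ∈ T.U, u x ∈ W.U ∧ T.f x = WithLp.toLp 2 (W.f (u x), t x) ∧
      T.ν x = WithLp.toLp 2 (W.ν (u x), 0)) {x₀ : X} (hx₀ : x₀ ∈ T.U)
    (h1 : κ₁ (u x₀) ≠ 0) (h2 : κ₂ (u x₀) ≠ 0) {m : Fin 3 → ℕ}
    (m0 : finrank ℝ (prin W.f W.ν (κ₂ (u x₀)) (u x₀)) = m 0)
    (m1 : finrank ℝ (prin W.f W.ν (κ₁ (u x₀)) (u x₀)) = m 1)
    (m2 : finrank ℝ G = m 2) :
    ∃ μ : Fin 3 → ℝ, μ 0 + μ 1 + μ 2 = 0 ∧ μ 2 = 0 ∧
      ConfEqAt (lieForm (WithLp 2 (ℝ × WithLp 2 (E × G)))) T.toSphere.lift T.U x₀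
        (mForm m μ) (mFam m μ) (mU m μ) 0 ∧
      (∀ n, (∀ v, lieForm _ n (fderiv ℝ (fun y => (κ₁ y)⁻¹ • cylJ E G (W.kmap κ₁ y)) (u x₀) v) = 0) →
        lieForm _ n ((κ₁ (u x₀))⁻¹ • cylJ E G (W.kmap κ₁ (u x₀))
          - (κ₂ (u x₀))⁻¹ • cylJ E G (W.kmap κ₂ (u x₀))) = 1 →
        lieForm _ n ((κ₁ (u x₀))⁻¹ • cylJ E G (W.kmap κ₁ (u x₀)) + cylS E (t x₀)) = 1 →
        (∀ᶠ y in 𝓝 (u x₀), ∃ v, ∃ τ : ℝ,
          (κ₁ y)⁻¹ • cylJ E G (W.kmap κ₁ y) - (κ₁ (u x₀))⁻¹ • cylJ E G (W.kmap κ₁ (u x₀))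
            = fderiv ℝ (fun y => (κ₁ y)⁻¹ • cylJ E G (W.kmap κ₁ y)) (u x₀) v + τ • n) →
        μ 0 = lieForm _ n n) := by
  have hux := (h x₀ hx₀).1
  set N : Set Y := (W.U ∩ {y | κ₁ y ≠ 0}) ∩ (W.U ∩ {y | κ₂ y ≠ 0}) with hN
  have hNo : IsOpen N := (hW.smooth₁.continuousOn.isOpen_inter_preimage W.isOpen_U isOpen_ne).inter
    (hW.smooth₂.continuousOn.isOpen_inter_preimage W.isOpen_U isOpen_ne)
  set U' : Set X := T.U ∩ u ⁻¹' N with hU'
  have hU'o : IsOpen U' := hu.continuousOn.isOpen_inter_preimage T.isOpen_U hNo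
  have hx₀' : x₀ ∈ U' := ⟨hx₀, ⟨hux, h1⟩, ⟨hux, h2⟩⟩
  have hU'T : U' ⊆ T.U := inter_subset_left
  have hNW : ∀ y ∈ N, y ∈ W.U := fun y hy => hy.1.1
  have dt : HasFDerivAt t (fderiv ℝ t x₀) x₀ := s2_differentiableAt ht T.isOpen_U hx₀
  have hdimX : finrank ℝ X = finrank ℝ Y + finrank ℝ G := by
    have e1 := T.dim
    have e2 := W.dim
    rw [(WithLp.linearEquiv 2 ℝ (E × G)).finrank_eq, Module.finrank_prod] at e1
    omega
  have hsym := (lieForm_isSymm (H := WithLp 2 (ℝ × WithLp 2 (E × G)))).eq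
  have hzz : ∀ κ κ' : Y → ℝ, ∀ y ∈ W.U, κ y ≠ 0 → κ' y ≠ 0 →
      lieForm _ ((κ y)⁻¹ • cylJ E G (W.kmap κ y)) ((κ' y)⁻¹ • cylJ E G (W.kmap κ' y)) = 0 := by
    intro κ κ' y hy _ _
    rw [map_smul, map_smul, LinearMap.smul_apply, s2cylb_JJ, W.kmap_kmap hy]
    simp
  have hzs : ∀ κ : Y → ℝ, ∀ y ∈ W.U, κ y ≠ 0 → ∀ t : G,
      lieForm _ ((κ y)⁻¹ • cylJ E G (W.kmap κ y)) (cylS E t) = -(‖t‖ ^ 2 / 2) := by
    intro κ y hy h0 t
    rw [map_smul, LinearMap.smul_apply, s2cylb_JS, kmap_t]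
    simp only [smul_eq_mul]
    field_simp
  have hnull : ∀ κ : Y → ℝ, ∀ y ∈ W.U, κ y ≠ 0 → ∀ t : G,
      lieForm _ ((κ y)⁻¹ • cylJ E G (W.kmap κ y) + cylS E t)
        ((κ y)⁻¹ • cylJ E G (W.kmap κ y) + cylS E t) = 0 := by
    intro κ y hy h0 t
    rw [map_add, map_add, LinearMap.add_apply, LinearMap.add_apply, hzz κ κ y hy h0 h0,
      hzs κ y hy h0, hsym (cylS E t), hzs κ y hy h0, s2cylb_SS]
    ring
  have hli := T.lift_eq_of hx₀ (k₁ := κ₁ (u x₀)) (k₂ := κ₂ (u x₀)) (hW.ne _ hux)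
    (inv_ne_zero h1) (inv_ne_zero h2)
    (s2cylb_lift h1 (h x₀ hx₀).2.1 (h x₀ hx₀).2.2)
    (s2cylb_lift h2 (h x₀ hx₀).2.1 (h x₀ hx₀).2.2)
  have hinjt : ∀ v, fderiv ℝ u x₀ v = 0 → fderiv ℝ t x₀ v = 0 → v = 0 := by
    intro v e1 e2
    apply T.immersion x₀ hx₀
    rw [(cyl_fderiv hu ht h hx₀ v).1, e1, e2]
    simp
  have hS0 : ∀ v, fderiv ℝ (fun x => cylS E (t x)) x₀ v = 0 → fderiv ℝ t x₀ v = 0 := by
    intro v hv
    have e1 := s2cylb_fderiv_S (E := E) dt v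
    rw [hv] at e1
    have e2 := s2cylb_S'S' (E := E) (t x₀) (fderiv ℝ t x₀ v)
    rw [← e1] at e2
    simp only [map_zero] at e2
    exact norm_eq_zero.1 (pow_eq_zero_iff two_ne_zero |>.1 e2.symm)
  obtain ⟨μ, hμ, hC, hn0, hn2⟩ :=
    star_canon (B := lieForm (WithLp 2 (ℝ × WithLp 2 (E × G)))) (U := U') (x₀ := x₀) (u := u)
      (N := N) (z₁ := fun y => (κ₁ y)⁻¹ • cylJ E G (W.kmap κ₁ y))
      (z₂ := fun y => (κ₂ y)⁻¹ • cylJ E G (W.kmap κ₂ y)) (s := fun x => cylS E (t x))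
      (K₁ := fun y => prin W.f W.ν (κ₁ y) y) (K₂ := fun y => prin W.f W.ν (κ₂ y) y)
      (fderiv ℝ t x₀).toLinearMap lieForm_isSymm lieForm_nondegenerate
      (by
        rw [Module.finrank_prod, Module.finrank_prod,
          (WithLp.linearEquiv 2 ℝ (ℝ × WithLp 2 (E × G))).finrank_eq, Module.finrank_prod,
          T.dim, Module.finrank_self]
        omega)
      hU'o hx₀' hNo (fun x hx => hx.2) (hu.mono hU'T)
      (s2cylb_smooth_z hW.smooth₁ hNW fun y hy => hy.1.2)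
      (s2cylb_smooth_z hW.smooth₂ hNW fun y hy => hy.2.2)
      (s2cylb_smooth_S (ht.mono hU'T))
      (fun y hy => isCompl_prin (W.immersion y (hNW y hy)) (hW.ne y (hNW y hy))
        (hW.top y (hNW y hy)))
      (hW.ne_bot₁ _ hux) (hW.ne_bot₂ _ hux)
      (fun y hy v => s2cylb_fderiv_z_eq_zero_iff hW.smooth₁ (hNW y hy) hy.1.2
        (hW.deriv₁ _ (hNW y hy)) v)
      (fun y hy v => s2cylb_fderiv_z_eq_zero_iff hW.smooth₂ (hNW y hy) hy.2.2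
        (hW.deriv₂ _ (hNW y hy)) v)
      (fun y hy => by
        have e1 := hzz κ₁ κ₁ y (hNW y hy) hy.1.2 hy.1.2
        have e2 := hzz κ₁ κ₂ y (hNW y hy) hy.1.2 hy.2.2
        have e3 := hzz κ₂ κ₁ y (hNW y hy) hy.2.2 hy.1.2
        have e4 := hzz κ₂ κ₂ y (hNW y hy) hy.2.2 hy.2.2
        simp only [map_sub, LinearMap.sub_apply, e1, e2, e3, e4]
        ring)
      (fun y hy x _ => hnull κ₁ y (hNW y hy) hy.1.2 (t x))
      (fun y hy x _ => hnull κ₂ y (hNW y hy) hy.2.2 (t x))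
      (s2cylb_pos hW.smooth₁ hux h1 (hW.deriv₁ _ hux))
      (s2cylb_pos hW.smooth₂ hux h2 (hW.deriv₂ _ hux))
      (fun v hv => by
        rw [s2cylb_fderiv_S dt, s2cylb_S'S']
        have e1 : fderiv ℝ t x₀ v ≠ 0 := by
          intro e0
          apply hv
          rw [s2cylb_fderiv_S dt, e0]
          simp [s2cylbS']
        positivity)
      (fun v e1 e2 => hinjt v e1 (hS0 v e2))
      hinjt hdimX hG hli.2
  have hm : (![finrank ℝ (prin W.f W.ν (κ₂ (u x₀)) (u x₀)),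
      finrank ℝ (prin W.f W.ν (κ₁ (u x₀)) (u x₀)), finrank ℝ G] : Fin 3 → ℕ) = m := by
    funext i
    fin_cases i
    · exact m0
    · exact m1
    · exact m2
  rw [hm] at hC
  obtain ⟨A, hA, φ, ψ, N₁, N₁', hφ, hxN, hNU, hNU', hφx, hL⟩ := hC
  have hsurj : ∀ w : G, ∃ v, fderiv ℝ t x₀ v = w := by
    have hΛ : Function.Injective ((fderiv ℝ u x₀).toLinearMap.prod (fderiv ℝ t x₀).toLinearMap) := by
      rw [← LinearMap.ker_eq_bot, LinearMap.ker_eq_bot']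
      intro v hv
      exact hinjt v (congrArg Prod.fst hv) (congrArg Prod.snd hv)
    have hΛs := (LinearMap.injective_iff_surjective_of_finrank_eq_finrank
      (by rw [hdimX, Module.finrank_prod])).1 hΛ
    intro w
    obtain ⟨v, hv⟩ := hΛs (0, w)
    exact ⟨v, congrArg Prod.snd hv⟩
  set n : ℝ × WithLp 2 (ℝ × WithLp 2 (E × G)) × ℝ :=
    (1, WithLp.toLp 2 (-1, WithLp.toLp 2 (0, 0)), 0) with hn
  have hnJ : ∀ v, lieForm _ n (cylJ E G v) = -(v.1 + (WithLp.ofLp v.2.1).1) := by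
    intro v
    simp only [hn, lieForm, cylJ, LinearMap.mk₂_apply, LinearMap.coe_mk, AddHom.coe_mk]
    simp [WithLp.prod_inner_apply]
    ring
  have hnz : ∀ κ : Y → ℝ, κ (u x₀) ≠ 0 →
      lieForm _ n ((κ (u x₀))⁻¹ • cylJ E G (W.kmap κ (u x₀)) + cylS E (t x₀)) = -1 := by
    intro κ h0
    have e1 : lieForm _ n (cylS E (t x₀)) = 0 := by
      simp only [hn, lieForm, cylS, LinearMap.mk₂_apply]
      simp [WithLp.prod_inner_apply]
    rw [map_add, map_smul, hnJ, kmap_t, e1]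
    simp only [smul_eq_mul]
    field_simp
    ring
  refine ⟨μ, hμ, ?_, ⟨A, hA, φ, ψ, N₁, N₁', hφ, hxN, fun x hx => (hNU hx).1, hNU', hφx, ?_⟩, hn0⟩
  · have e := hn2 n ?_ (hnz κ₁ h1) (hnz κ₂ h2) ?_
    · rw [e]
      simp only [hn, lieForm, LinearMap.mk₂_apply, WithLp.prod_inner_apply,
        real_inner_self_eq_norm_sq, Real.norm_eq_abs, sq_abs, norm_zero]
      ring
    · intro v
      rw [s2cylb_fderiv_S dt]
      simp only [hn, lieForm, s2cylbS', LinearMap.mk₂_apply]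
      simp [WithLp.prod_inner_apply]
    · refine Filter.Eventually.of_forall fun x => ?_
      obtain ⟨v, hv⟩ := hsurj (t x - t x₀)
      refine ⟨v, ‖t x - t x₀‖ ^ 2 / 2, ?_⟩
      rw [s2cylb_fderiv_S dt, hv]
      have e1 : ‖t x‖ ^ 2 / 2 - ‖t x₀‖ ^ 2 / 2 = ⟪t x₀, t x - t x₀⟫ + ‖t x - t x₀‖ ^ 2 / 2 := by
        rw [@norm_sub_sq_real, inner_sub_right, real_inner_self_eq_norm_sq, real_inner_comm]
        ring
      refine Prod.ext ?_ (Prod.ext ?_ ?_)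
      · simp [cylS, s2cylbS', hn]
        exact e1
      · refine WithLp.ofLp_injective 2 (Prod.ext ?_ ?_)
        · simp [cylS, s2cylbS', hn]
          linarith
        · refine WithLp.ofLp_injective 2 (Prod.ext ?_ ?_)
          · simp [cylS, s2cylbS', hn]
          · simp [cylS, s2cylbS', hn]
      · simp [cylS, s2cylbS', hn]
  · intro x hx
    have hxU := hNU hx
    rw [← hL x hx]
    congr 1
    exact (T.lift_eq_of hxU.1 (k₁ := κ₁ (u x)) (k₂ := κ₂ (u x)) (hW.ne _ (hNW _ hxU.2))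
      (inv_ne_zero hxU.2.1.2) (inv_ne_zero hxU.2.2.2)
      (s2cylb_lift hxU.2.1.2 (h x hxU.1).2.1 (h x hxU.1).2.2)
      (s2cylb_lift hxU.2.2.2 (h x hxU.1).2.1 (h x hxU.1).2.2)).1

end

end DupinClass

end S_S2CYLB_pf

section S_S2ZC_pf

open scoped RealInnerProductSpace ContDiff Topology
open Module Set

namespace DupinClass

/-! ## Module S2ZC: the model `Z(p, q, m)` has `μ = 0` -/

section

variable {P Q : Type} [NormedAddCommGroup P] [InnerProductSpace ℝ P] [FiniteDimensional ℝ P]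
  [NormedAddCommGroup Q] [InnerProductSpace ℝ Q] [FiniteDimensional ℝ Q]

variable {R : Type} [NormedAddCommGroup R] [InnerProductSpace ℝ R] [FiniteDimensional ℝ R]

/-- The embedding `(ξ, c) ↦ (0, (0, (((ξ, 0), c), 0)), c)`. -/
noncomputable def s2zcI (P Q R : Type) [NormedAddCommGroup P] [InnerProductSpace ℝ P]
    [NormedAddCommGroup Q] [InnerProductSpace ℝ Q]
    [NormedAddCommGroup R] [InnerProductSpace ℝ R] : P × ℝ →ₗ[ℝ]
    (ℝ × WithLp 2 (ℝ × WithLp 2 (WithLp 2 (WithLp 2 (P × Q) × ℝ) × R)) × ℝ) where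
  toFun ξ := (0, WithLp.toLp 2 (0, WithLp.toLp 2 (WithLp.toLp 2 (WithLp.toLp 2 (ξ.1, 0), ξ.2), 0)),
    ξ.2)
  map_add' := by
    intro x y
    refine Prod.ext ?_ (Prod.ext ?_ ?_)
    · simp
    · apply WithLp.ofLp_injective 2
      refine Prod.ext ?_ ?_
      · simp
      · apply WithLp.ofLp_injective 2
        refine Prod.ext ?_ ?_
        · apply WithLp.ofLp_injective 2
          refine Prod.ext ?_ ?_
          · apply WithLp.ofLp_injective 2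
            refine Prod.ext ?_ ?_ <;> simp
          · simp
        · simp
    · simp
  map_smul' := by
    intro t x
    refine Prod.ext ?_ (Prod.ext ?_ ?_)
    · simp
    · apply WithLp.ofLp_injective 2
      refine Prod.ext ?_ ?_
      · simp
      · apply WithLp.ofLp_injective 2
        refine Prod.ext ?_ ?_
        · apply WithLp.ofLp_injective 2
          refine Prod.ext ?_ ?_
          · apply WithLp.ofLp_injective 2
            refine Prod.ext ?_ ?_ <;> simp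
          · simp
        · simp
    · simp

omit [FiniteDimensional ℝ P] [FiniteDimensional ℝ Q] [FiniteDimensional ℝ R] in
theorem s2zcI_I (ξ ξ' : P × ℝ) :
    lieForm _ (s2zcI P Q R ξ) (s2zcI P Q R ξ') = ⟪ξ.1, ξ'.1⟫ := by
  simp only [lieForm, LinearMap.mk₂_apply, s2zcI, LinearMap.coe_mk, AddHom.coe_mk]
  rw [WithLp.prod_inner_apply, WithLp.prod_inner_apply, WithLp.prod_inner_apply,
    WithLp.prod_inner_apply]
  simp
  ring

omit [FiniteDimensional ℝ P] [FiniteDimensional ℝ Q] [FiniteDimensional ℝ R] in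
theorem s2zcI_cylJ (ξ : P × ℝ) (v : ℝ × WithLp 2 (ℝ × WithLp 2 (WithLp 2 (P × Q) × ℝ)) × ℝ) :
    lieForm _ (s2zcI P Q R ξ) (cylJ _ R v)
      = ⟪ξ.1, (WithLp.ofLp (WithLp.ofLp (WithLp.ofLp v.2.1).2).1).1⟫
        + ξ.2 * (WithLp.ofLp (WithLp.ofLp v.2.1).2).2 - ξ.2 * v.2.2 := by
  simp only [lieForm, LinearMap.mk₂_apply, s2zcI, cylJ, LinearMap.coe_mk, AddHom.coe_mk]
  rw [WithLp.prod_inner_apply, WithLp.prod_inner_apply, WithLp.prod_inner_apply,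
    WithLp.prod_inner_apply]
  simp
  ring

omit [FiniteDimensional ℝ P] [FiniteDimensional ℝ Q] [FiniteDimensional ℝ R] in
theorem s2zcI_cylS (ξ : P × ℝ) (t : R) :
    lieForm _ (s2zcI P Q R ξ) (cylS _ t) = 0 := by
  simp only [lieForm, LinearMap.mk₂_apply, s2zcI, cylS, LinearMap.coe_mk, AddHom.coe_mk]
  rw [WithLp.prod_inner_apply, WithLp.prod_inner_apply, WithLp.prod_inner_apply,
    WithLp.prod_inner_apply]
  simp

omit [FiniteDimensional ℝ P] [FiniteDimensional ℝ Q] in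
theorem s2zc_norm_sq (z : P × Q) :
    ‖zf z‖ ^ 2 = ‖z.2‖ ^ 2 * (1 + ‖z.1‖ ^ 2) / (1 + ‖z.1‖ ^ 2 + ‖z.2‖ ^ 2) := by
  have h : (1 + ‖z.1‖ ^ 2 + ‖z.2‖ ^ 2) ≠ 0 := by positivity
  unfold zf
  rw [norm_smul, mul_pow, WithLp.prod_norm_sq_eq_of_L2, WithLp.toLp_fst, WithLp.toLp_snd,
    WithLp.prod_norm_sq_eq_of_L2, WithLp.toLp_fst, WithLp.toLp_snd, norm_smul, norm_smul,
    Real.norm_eq_abs, Real.norm_eq_abs, Real.norm_eq_abs, mul_pow, mul_pow,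
    sq_abs, sq_abs, sq_abs]
  field_simp
  ring

omit [FiniteDimensional ℝ P] [FiniteDimensional ℝ Q] in
theorem s2zc_inner (z : P × Q) :
    ⟪zf z, zν z⟫ = ‖z.2‖ ^ 2 / (1 + ‖z.1‖ ^ 2 + ‖z.2‖ ^ 2) := by
  have h : (1 + ‖z.1‖ ^ 2 + ‖z.2‖ ^ 2) ≠ 0 := by positivity
  unfold zf zν
  rw [inner_smul_left, inner_smul_right, WithLp.prod_inner_apply]
  simp only [WithLp.prod_inner_apply, inner_smul_left, inner_smul_right,
    real_inner_self_eq_norm_sq]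
  simp
  field_simp
  ring

omit [FiniteDimensional ℝ R] in
/-- `κ₁⁻¹ K₁`. -/
theorem s2zc_z₁ (z : P × Q) :
    (zκ₁ z)⁻¹ • cylJ (WithLp 2 (WithLp 2 (P × Q) × ℝ)) R ((zeroW P Q).kmap zκ₁ z)
      = (1 / 2, WithLp.toLp 2 (1 / 2, WithLp.toLp 2 (WithLp.toLp 2
          (WithLp.toLp 2 (0, 0), 1 / 2), 0)), -1 / 2)
        + s2zcI P Q R (z.1, -(‖z.1‖ ^ 2 / 2)) := by
  have h : (1 + ‖z.1‖ ^ 2 + ‖z.2‖ ^ 2) ≠ 0 := by positivity
  have h' : (1 + ‖z.1‖ ^ 2) ≠ 0 := by positivity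
  have e1 : (zκ₁ z)⁻¹ * zκ₁ z = 1 := by
    unfold zκ₁; field_simp
  have e2 : (zκ₁ z)⁻¹ = -((1 + ‖z.1‖ ^ 2) / 2) := by
    unfold zκ₁; field_simp
  have e3 : (zκ₁ z)⁻¹ • (zeroW P Q).kmap zκ₁ z
      = ptSph (zf z) + (-((1 + ‖z.1‖ ^ 2) / 2)) • plSph (zf z) (zν z) := by
    change (zκ₁ z)⁻¹ • (zκ₁ z • ptSph (zf z) + plSph (zf z) (zν z)) = _
    rw [smul_add, smul_smul, e1, one_smul, e2]
  rw [← map_smul, e3]
  unfold ptSph plSph
  rw [s2zc_norm_sq, s2zc_inner]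
  refine Prod.ext ?_ (Prod.ext ?_ ?_)
  · simp [cylJ, s2zcI]
    field_simp
    ring
  · apply WithLp.ofLp_injective 2
    refine Prod.ext ?_ ?_
    · simp [cylJ, s2zcI]
      field_simp
      ring
    · apply WithLp.ofLp_injective 2
      refine Prod.ext ?_ ?_
      · apply WithLp.ofLp_injective 2
        refine Prod.ext ?_ ?_
        · apply WithLp.ofLp_injective 2
          refine Prod.ext ?_ ?_
          · simp [cylJ, s2zcI, zf, zν, smul_smul]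
            match_scalars
            field_simp
            ring
          · simp [cylJ, s2zcI, zf, zν, smul_smul]
            match_scalars
            field_simp
            ring
        · simp [cylJ, s2zcI, zf, zν]
          field_simp
          ring
      · simp [cylJ, s2zcI]
  · simp [cylJ, s2zcI]
    ring

/-- `κ₂⁻¹ K₂`. -/
theorem s2zc_z₂ {z : P × Q} (hz : z.2 ≠ 0) :
    (zκ₂ z)⁻¹ • (zeroW P Q).kmap zκ₂ z
      = ptSph (zf z) + (‖z.2‖ ^ 2 / 2) • plSph (zf z) (zν z) := by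
  have h0 : 0 < ‖z.2‖ := norm_pos_iff.2 hz
  have e1 : (zκ₂ z)⁻¹ * zκ₂ z = 1 := by
    unfold zκ₂; field_simp
  have e2 : (zκ₂ z)⁻¹ = ‖z.2‖ ^ 2 / 2 := by
    unfold zκ₂; field_simp
  change (zκ₂ z)⁻¹ • (zκ₂ z • ptSph (zf z) + plSph (zf z) (zν z)) = _
  rw [smul_add, smul_smul, e1, one_smul, e2]

omit [FiniteDimensional ℝ R] in
theorem s2zc_I_z₂ {z : P × Q} (hz : z.2 ≠ 0) :
    lieForm _ (s2zcI P Q R (0, 1)) ((zκ₂ z)⁻¹ • cylJ _ R ((zeroW P Q).kmap zκ₂ z)) = 0 := by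
  have h : (1 + ‖z.1‖ ^ 2 + ‖z.2‖ ^ 2) ≠ 0 := by positivity
  rw [← map_smul, s2zc_z₂ hz, s2zcI_cylJ]
  simp [ptSph, plSph, zf, zν]
  field_simp
  ring

theorem s2zc_fderiv (z v : P × Q) :
    fderiv ℝ (fun z : P × Q => (zκ₁ z)⁻¹ •
      cylJ (WithLp 2 (WithLp 2 (P × Q) × ℝ)) R ((zeroW P Q).kmap zκ₁ z)) z v
      = s2zcI P Q R (v.1, -⟪z.1, v.1⟫) := by
  have e0 : (fun z : P × Q => (zκ₁ z)⁻¹ •
      cylJ (WithLp 2 (WithLp 2 (P × Q) × ℝ)) R ((zeroW P Q).kmap zκ₁ z)) = fun z =>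
        (1 / 2, WithLp.toLp 2 (1 / 2, WithLp.toLp 2 (WithLp.toLp 2
          (WithLp.toLp 2 (0, 0), 1 / 2), 0)), -1 / 2)
        + (s2zcI P Q R).toContinuousLinearMap (z.1, -(‖z.1‖ ^ 2 / 2)) := by
    funext z
    exact s2zc_z₁ z
  have h1 : HasFDerivAt (fun z : P × Q => ‖z.1‖ ^ 2) _ z :=
    (hasFDerivAt_fst (𝕜 := ℝ) (p := z)).norm_sq
  have h2 := (hasFDerivAt_fst (𝕜 := ℝ) (p := z)).prodMk (h1.mul_const (2 : ℝ)⁻¹).neg
  have h3 := ((s2zcI P Q R).toContinuousLinearMap.hasFDerivAt.comp z h2).const_add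
    (1 / 2, WithLp.toLp 2 (1 / 2, WithLp.toLp 2 (WithLp.toLp 2
          (WithLp.toLp 2 (0, 0), 1 / 2), 0)), -1 / 2)
  have h4 : HasFDerivAt (fun z : P × Q => (1 / 2, WithLp.toLp 2 (1 / 2, WithLp.toLp 2
      (WithLp.toLp 2 (WithLp.toLp 2 (0, 0), 1 / 2), 0)), -1 / 2)
        + (s2zcI P Q R).toContinuousLinearMap (z.1, -(‖z.1‖ ^ 2 / 2))) _ z := h3
  rw [e0, h4.fderiv]
  rw [ContinuousLinearMap.comp_apply]
  change s2zcI P Q R _ = _
  congr 1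
  refine Prod.ext rfl ?_
  simp

omit [InnerProductSpace ℝ P] [FiniteDimensional ℝ P] [InnerProductSpace ℝ Q]
  [FiniteDimensional ℝ Q] in
theorem s2zc_ne {z : P × Q} (hz : z.2 ≠ 0) : zκ₁ z ≠ 0 ∧ zκ₂ z ≠ 0 := by
  have h1 : 0 < ‖z.2‖ := norm_pos_iff.2 hz
  constructor
  · unfold zκ₁
    apply div_ne_zero
    · norm_num
    · positivity
  · unfold zκ₂
    positivity

/-- **Module S2ZC.** Use `cylinder_canon` and its last clause (which gives `μ 0`). -/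
theorem modelZ_confEq (hp : 1 ≤ finrank ℝ P) (hq : 1 ≤ finrank ℝ Q) (hm : 1 ≤ finrank ℝ R)
    {y} (hy : y ∈ (modelZ P Q R).U) :
    ConfEqAt (lieForm _) (modelZ P Q R).toSphere.lift (modelZ P Q R).U y
      (mForm ![finrank ℝ P, finrank ℝ Q, finrank ℝ R] 0)
      (mFam ![finrank ℝ P, finrank ℝ Q, finrank ℝ R] 0)
      (mU ![finrank ℝ P, finrank ℝ Q, finrank ℝ R] 0) 0 := by
  have hy2 : y.1.2 ≠ 0 := hy
  have hκ := s2zc_ne hy2
  obtain ⟨μ, hμ, hμ2, hconf, hn⟩ := cylinder_canon (X := (P × Q) × R) (G := R)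
    (zeroW_twoDupin hp hq) hm (T := modelZ P Q R) (u := Prod.fst) (t := Prod.snd)
    contDiff_fst.contDiffOn contDiff_snd.contDiffOn (fun x hx => ⟨hx, rfl, rfl⟩) (x₀ := y) hy
    hκ.1 hκ.2 (m := ![finrank ℝ P, finrank ℝ Q, finrank ℝ R])
    (by simpa using zeroW_finrank₂ hy2) (by simpa using zeroW_finrank₁ (z := y.1)) (by simp)
  have hμ0 : μ 0 = 0 := by
    have e := hn (s2zcI P Q R (0, 1)) ?_ ?_ ?_ ?_
    · rw [e, s2zcI_I, inner_zero_left]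
    · intro v
      rw [s2zc_fderiv, s2zcI_I, inner_zero_left]
    · rw [map_sub, s2zc_I_z₂ hy2, s2zc_z₁, map_add, s2zcI_I, inner_zero_left]
      simp only [lieForm, LinearMap.mk₂_apply, s2zcI, LinearMap.coe_mk, AddHom.coe_mk]
      rw [WithLp.prod_inner_apply, WithLp.prod_inner_apply, WithLp.prod_inner_apply,
        WithLp.prod_inner_apply]
      simp
      norm_num
    · rw [map_add, s2zcI_cylS, s2zc_z₁, map_add, s2zcI_I, inner_zero_left]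
      simp only [lieForm, LinearMap.mk₂_apply, s2zcI, LinearMap.coe_mk, AddHom.coe_mk]
      rw [WithLp.prod_inner_apply, WithLp.prod_inner_apply, WithLp.prod_inner_apply,
        WithLp.prod_inner_apply]
      simp
      norm_num
    · refine Filter.Eventually.of_forall fun z =>
        ⟨(z.1 - y.1.1, 0), -(‖z.1 - y.1.1‖ ^ 2 / 2), ?_⟩
      rw [s2zc_fderiv, s2zc_z₁, s2zc_z₁, add_sub_add_left_eq_sub, ← map_sub, ← map_smul,
        ← map_add]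
      congr 1
      refine Prod.ext ?_ ?_
      · simp
      · simp only [Prod.snd_sub, Prod.snd_add, Prod.smul_snd, smul_eq_mul, inner_sub_right,
          real_inner_self_eq_norm_sq, norm_sub_sq_real, real_inner_comm y.1.1 z.1]
        ring
  have hμe : μ = 0 := by
    funext i
    fin_cases i
    · simpa using hμ0
    · simp
      linarith
    · simpa using hμ2
  rw [hμe] at hconf
  exact hconf

end

end DupinClass

end S_S2ZC_pf
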