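import Mathlib
import Pool.Agent.H31.DC.D6
import Pool.Agent.H31.DC.D11

/-! Reducible Dupin hypersurfaces, part D17 (several modules joined to save build time). -/

section S_S2RevD

open scoped RealInnerProductSpace ContDiff Topology
open Module Set

namespace DupinClass

section

variable {X Y E G : Type} [NormedAddCommGroup X] [NormedSpace ℝ X] [FiniteDimensional ℝ X]
  [NormedAddCommGroup Y] [NormedSpace ℝ Y] [FiniteDimensional ℝ Y]
  [NormedAddCommGroup E] [InnerProductSpace ℝ E] [FiniteDimensional ℝ E]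
  [NormedAddCommGroup G] [InnerProductSpace ℝ G] [FiniteDimensional ℝ G]

variable (E G) in
/-- The linear map which replaces the component along the first factor of `ℝ × E` by zero. -/
noncomputable def revJ : (ℝ × WithLp 2 (ℝ × WithLp 2 (ℝ × E)) × ℝ) →ₗ[ℝ]
    (ℝ × WithLp 2 (ℝ × WithLp 2 (G × E)) × ℝ) where
  toFun v := (v.1, WithLp.toLp 2 ((WithLp.ofLp v.2.1).1,
      WithLp.toLp 2 (0, (WithLp.ofLp (WithLp.ofLp v.2.1).2).2)), v.2.2)
  map_add' := by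
    intro v w
    refine Prod.ext ?_ (Prod.ext ?_ ?_)
    · simp
    · refine WithLp.ofLp_injective 2 (Prod.ext ?_ ?_)
      · simp
      · refine WithLp.ofLp_injective 2 (Prod.ext ?_ ?_) <;> simp
    · simp
  map_smul' := by
    intro t v
    refine Prod.ext ?_ (Prod.ext ?_ ?_)
    · simp
    · refine WithLp.ofLp_injective 2 (Prod.ext ?_ ?_)
      · simp
      · refine WithLp.ofLp_injective 2 (Prod.ext ?_ ?_) <;> simp
    · simp

variable (E) in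
/-- The third member of the triple (with the opposite sign) of a hypersurface of revolution. -/
noncomputable def revS (e : G) : ℝ × WithLp 2 (ℝ × WithLp 2 (G × E)) × ℝ :=
  (0, WithLp.toLp 2 (0, WithLp.toLp 2 (e, 0)), 0)

end

end DupinClass

end S_S2RevD

section S_S2REVA_pf

open scoped RealInnerProductSpace ContDiff Topology
open Module Set

namespace DupinClass

section

variable {X Y E G : Type} [NormedAddCommGroup X] [NormedSpace ℝ X] [FiniteDimensional ℝ X]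
  [NormedAddCommGroup Y] [NormedSpace ℝ Y] [FiniteDimensional ℝ Y]
  [NormedAddCommGroup E] [InnerProductSpace ℝ E] [FiniteDimensional ℝ E]
  [NormedAddCommGroup G] [InnerProductSpace ℝ G] [FiniteDimensional ℝ G]

variable (E) in
/-- projection to the first factor -/
noncomputable def s2revP : WithLp 2 (ℝ × E) →L[ℝ] ℝ :=
  (ContinuousLinearMap.fst ℝ ℝ E).comp
    ((WithLp.prodContinuousLinearEquiv 2 ℝ ℝ E) : WithLp 2 (ℝ × E) →L[ℝ] ℝ × E)

variable (E) in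
/-- projection to the second factor -/
noncomputable def s2revQ : WithLp 2 (ℝ × E) →L[ℝ] E :=
  (ContinuousLinearMap.snd ℝ ℝ E).comp
    ((WithLp.prodContinuousLinearEquiv 2 ℝ ℝ E) : WithLp 2 (ℝ × E) →L[ℝ] ℝ × E)

omit [FiniteDimensional ℝ X] [FiniteDimensional ℝ G] in
theorem rev_inner {T : EHyp X (WithLp 2 (G × E))} {e : X → G} (he : ContDiffOn ℝ ∞ e T.U)
    (h : ∀ x ∈ T.U, ‖e x‖ = 1) {x₀ : X} (hx₀ : x₀ ∈ T.U) (v : X) :
    ⟪fderiv ℝ e x₀ v, e x₀⟫ = 0 := by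
  have hU : T.U ∈ 𝓝 x₀ := T.isOpen_U.mem_nhds hx₀
  have df := ((he.contDiffAt hU).differentiableAt (by simp)).hasFDerivAt
  have h1 : HasFDerivAt (fun z => ⟪e z, e z⟫) _ x₀ := df.inner ℝ df
  have h2 : HasFDerivAt (fun z => ⟪e z, e z⟫) (0 : X →L[ℝ] ℝ) x₀ := by
    refine (hasFDerivAt_const (1 : ℝ) x₀).congr_of_eventuallyEq ?_
    filter_upwards [hU] with z hz
    rw [real_inner_self_eq_norm_sq, h z hz, one_pow]
  have h3 := DFunLike.congr_fun (h1.unique h2) v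
  simp only [fderivInnerCLM_apply, ContinuousLinearMap.comp_apply, ContinuousLinearMap.prod_apply,
    zero_apply] at h3
  have h4 := real_inner_comm (e x₀) (fderiv ℝ e x₀ v)
  linarith

omit [FiniteDimensional ℝ X] [FiniteDimensional ℝ G] in
theorem rev_fderiv {W : EHyp Y (WithLp 2 (ℝ × E))} {T : EHyp X (WithLp 2 (G × E))} {u : X → Y}
    {e : X → G} (hu : ContDiffOn ℝ ∞ u T.U) (he : ContDiffOn ℝ ∞ e T.U)
    (h : ∀ x ∈ T.U, u x ∈ W.U ∧ 0 < (WithLp.ofLp (W.f (u x))).1 ∧ ‖e x‖ = 1 ∧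
      T.f x = WithLp.toLp 2 ((WithLp.ofLp (W.f (u x))).1 • e x, (WithLp.ofLp (W.f (u x))).2) ∧
      T.ν x = WithLp.toLp 2 ((WithLp.ofLp (W.ν (u x))).1 • e x, (WithLp.ofLp (W.ν (u x))).2))
    {x₀ : X} (hx₀ : x₀ ∈ T.U) (v : X) :
    fderiv ℝ T.f x₀ v = WithLp.toLp 2 ((WithLp.ofLp (W.f (u x₀))).1 • fderiv ℝ e x₀ v
      + (WithLp.ofLp (fderiv ℝ W.f (u x₀) (fderiv ℝ u x₀ v))).1 • e x₀,
      (WithLp.ofLp (fderiv ℝ W.f (u x₀) (fderiv ℝ u x₀ v))).2) ∧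
    fderiv ℝ T.ν x₀ v = WithLp.toLp 2 ((WithLp.ofLp (W.ν (u x₀))).1 • fderiv ℝ e x₀ v
      + (WithLp.ofLp (fderiv ℝ W.ν (u x₀) (fderiv ℝ u x₀ v))).1 • e x₀,
      (WithLp.ofLp (fderiv ℝ W.ν (u x₀) (fderiv ℝ u x₀ v))).2) := by
  have hU : T.U ∈ 𝓝 x₀ := T.isOpen_U.mem_nhds hx₀
  have hux := (h x₀ hx₀).1
  have du := ((hu.contDiffAt hU).differentiableAt (by simp)).hasFDerivAt
  have de := ((he.contDiffAt hU).differentiableAt (by simp)).hasFDerivAt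
  have dwu := (W.wf_hasFDerivAt_f hux).comp x₀ du
  have dNu := (W.wf_hasFDerivAt_ν hux).comp x₀ du
  have dF : HasFDerivAt T.f (((WithLp.prodContinuousLinearEquiv 2 ℝ G E).symm :
      (G × E) →L[ℝ] WithLp 2 (G × E)).comp _) x₀ :=
    ((((WithLp.prodContinuousLinearEquiv 2 ℝ G E).symm :
      (G × E) →L[ℝ] WithLp 2 (G × E)).hasFDerivAt).comp x₀
      ((((s2revP E).hasFDerivAt.comp x₀ dwu).smul de).prodMk
        ((s2revQ E).hasFDerivAt.comp x₀ dwu))).congr_of_eventuallyEq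
      (by filter_upwards [hU] with x hx using (h x hx).2.2.2.1)
  have dν : HasFDerivAt T.ν (((WithLp.prodContinuousLinearEquiv 2 ℝ G E).symm :
      (G × E) →L[ℝ] WithLp 2 (G × E)).comp _) x₀ :=
    ((((WithLp.prodContinuousLinearEquiv 2 ℝ G E).symm :
      (G × E) →L[ℝ] WithLp 2 (G × E)).hasFDerivAt).comp x₀
      ((((s2revP E).hasFDerivAt.comp x₀ dNu).smul de).prodMk
        ((s2revQ E).hasFDerivAt.comp x₀ dNu))).congr_of_eventuallyEq
      (by filter_upwards [hU] with x hx using (h x hx).2.2.2.2)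
  rw [dF.fderiv, dν.fderiv]
  exact ⟨rfl, rfl⟩

/-- **Module S2REVA.** -/
theorem revolution_prin {W : EHyp Y (WithLp 2 (ℝ × E))} {κ₁ κ₂ : Y → ℝ} (hW : TwoDupin W κ₁ κ₂)
    {T : EHyp X (WithLp 2 (G × E))} {u : X → Y} {e : X → G}
    (hu : ContDiffOn ℝ ∞ u T.U) (he : ContDiffOn ℝ ∞ e T.U)
    (h : ∀ x ∈ T.U, u x ∈ W.U ∧ 0 < (WithLp.ofLp (W.f (u x))).1 ∧ ‖e x‖ = 1 ∧
      T.f x = WithLp.toLp 2 ((WithLp.ofLp (W.f (u x))).1 • e x, (WithLp.ofLp (W.f (u x))).2) ∧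
      T.ν x = WithLp.toLp 2 ((WithLp.ofLp (W.ν (u x))).1 • e x, (WithLp.ofLp (W.ν (u x))).2))
    {x₀ : X} (hx₀ : x₀ ∈ T.U) {k : ℝ} (hk : prin T.f T.ν k x₀ ≠ ⊥) :
    k = κ₁ (u x₀) ∨ k = κ₂ (u x₀) ∨
      k * (WithLp.ofLp (W.f (u x₀))).1 + (WithLp.ofLp (W.ν (u x₀))).1 = 0 := by
  by_cases hk0 : k * (WithLp.ofLp (W.f (u x₀))).1 + (WithLp.ofLp (W.ν (u x₀))).1 = 0
  · exact Or.inr (Or.inr hk0)
  obtain ⟨v, hv, hv0⟩ := Submodule.exists_mem_ne_zero_of_ne_bot hk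
  obtain ⟨hF, hν⟩ := rev_fderiv hu he h hx₀ v
  have hux := (h x₀ hx₀).1
  have hee : ⟪e x₀, e x₀⟫ = 1 := by
    rw [real_inner_self_eq_norm_sq, (h x₀ hx₀).2.2.1, one_pow]
  have hde := rev_inner he (fun x hx => (h x hx).2.2.1) hx₀ v
  rw [mem_prin, hF, hν] at hv
  have h1 := congrArg (fun z => (WithLp.ofLp z).1) hv
  have h2 := congrArg (fun z => (WithLp.ofLp z).2) hv
  simp only [WithLp.ofLp_add, WithLp.ofLp_smul, Prod.fst_add, Prod.smul_fst, WithLp.ofLp_zero,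
    Prod.fst_zero, Prod.snd_add, Prod.smul_snd, Prod.snd_zero] at h1 h2
  have h4 := congrArg (fun z => ⟪z, e x₀⟫) h1
  simp only [inner_add_left, inner_smul_left, RCLike.conj_to_real, hde, hee,
    inner_zero_left] at h4
  have h5 : (WithLp.ofLp (fderiv ℝ W.ν (u x₀) (fderiv ℝ u x₀ v))).1
      + k * (WithLp.ofLp (fderiv ℝ W.f (u x₀) (fderiv ℝ u x₀ v))).1 = 0 := by
    linear_combination h4
  have h6 : (k * (WithLp.ofLp (W.f (u x₀))).1 + (WithLp.ofLp (W.ν (u x₀))).1) •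
      fderiv ℝ e x₀ v = 0 := by
    have e1 : (WithLp.ofLp (fderiv ℝ W.ν (u x₀) (fderiv ℝ u x₀ v))).1
      = -(k * (WithLp.ofLp (fderiv ℝ W.f (u x₀) (fderiv ℝ u x₀ v))).1) := by linarith
    rw [e1] at h1
    rw [← h1]
    module
  have h7 : fderiv ℝ e x₀ v = 0 := (smul_eq_zero.1 h6).resolve_left hk0
  have h8 : fderiv ℝ u x₀ v ≠ 0 := by
    intro h0
    apply hv0
    apply T.immersion x₀ hx₀
    rw [hF, h0, h7]
    simp
  have h9 := eq_of_mem_prin (W.immersion _ hux) (hW.top _ hux) (hW.ne _ hux) h8 (k := k)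
    (mem_prin.2 (by
      apply WithLp.ofLp_injective 2
      refine Prod.ext ?_ ?_
      · simpa using h5
      · simpa using h2))
  tauto

end

end DupinClass

end S_S2REVA_pf

section S_S2REVB_pf

open scoped RealInnerProductSpace ContDiff Topology
open Module Set

namespace DupinClass

section

variable {X Y E G : Type} [NormedAddCommGroup X] [NormedSpace ℝ X] [FiniteDimensional ℝ X]
  [NormedAddCommGroup Y] [NormedSpace ℝ Y] [FiniteDimensional ℝ Y]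
  [NormedAddCommGroup E] [InnerProductSpace ℝ E] [FiniteDimensional ℝ E]
  [NormedAddCommGroup G] [InnerProductSpace ℝ G] [FiniteDimensional ℝ G]

variable (E) in
/-- the component along the first factor of `ℝ × E` -/
noncomputable def s2revb_h : (ℝ × WithLp 2 (ℝ × WithLp 2 (ℝ × E)) × ℝ) →ₗ[ℝ] ℝ where
  toFun v := (WithLp.ofLp (WithLp.ofLp v.2.1).2).1
  map_add' := by intro v w; simp
  map_smul' := by intro t v; simp

variable (E G) in
/-- `revS` as a linear map -/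
noncomputable def s2revb_S : G →ₗ[ℝ] ℝ × WithLp 2 (ℝ × WithLp 2 (G × E)) × ℝ where
  toFun e := revS E e
  map_add' := by
    intro v w
    refine Prod.ext ?_ (Prod.ext ?_ ?_)
    · simp [revS]
    · refine WithLp.ofLp_injective 2 (Prod.ext ?_ ?_)
      · simp [revS]
      · refine WithLp.ofLp_injective 2 (Prod.ext ?_ ?_) <;> simp [revS]
    · simp [revS]
  map_smul' := by
    intro t v
    refine Prod.ext ?_ (Prod.ext ?_ ?_)
    · simp [revS]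
    · refine WithLp.ofLp_injective 2 (Prod.ext ?_ ?_)
      · simp [revS]
      · refine WithLp.ofLp_injective 2 (Prod.ext ?_ ?_) <;> simp [revS]
    · simp [revS]

omit [FiniteDimensional ℝ E] [FiniteDimensional ℝ G] in
theorem s2revb_JJ (v w : ℝ × WithLp 2 (ℝ × WithLp 2 (ℝ × E)) × ℝ) :
    lieForm _ (revJ E G v) (revJ E G w) = lieForm _ v w - s2revb_h E v * s2revb_h E w := by
  simp only [lieForm, revJ, s2revb_h, LinearMap.mk₂_apply, LinearMap.coe_mk, AddHom.coe_mk,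
    WithLp.prod_inner_apply]
  simp
  ring

omit [FiniteDimensional ℝ E] [FiniteDimensional ℝ G] in
theorem s2revb_SS (e e' : G) :
    lieForm _ (revS E e) (revS E e') = ⟪e, e'⟫ := by
  simp only [lieForm, revS, LinearMap.mk₂_apply, WithLp.prod_inner_apply]
  simp

omit [FiniteDimensional ℝ E] [FiniteDimensional ℝ G] in
theorem s2revb_JS (v : ℝ × WithLp 2 (ℝ × WithLp 2 (ℝ × E)) × ℝ) (e : G) :
    lieForm _ (revJ E G v) (revS E e) = 0 := by
  simp only [lieForm, revJ, revS, LinearMap.mk₂_apply, LinearMap.coe_mk, AddHom.coe_mk,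
    WithLp.prod_inner_apply]
  simp

omit [FiniteDimensional ℝ Y] [FiniteDimensional ℝ E] in
theorem s2revb_h_kmap (W : EHyp Y (WithLp 2 (ℝ × E))) (κ : Y → ℝ) (y : Y) :
    s2revb_h E (W.kmap κ y) = κ y * (WithLp.ofLp (W.f y)).1 + (WithLp.ofLp (W.ν y)).1 := by
  simp [s2revb_h, EHyp.kmap, ptSph, plSph]

omit [FiniteDimensional ℝ E] [FiniteDimensional ℝ G] in
/-- the pencil of spheres of the hypersurface of revolution -/
theorem s2revb_vec {w N : WithLp 2 (ℝ × E)} {κ : ℝ} {e : G} (he : ‖e‖ = 1)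
    {F ν : WithLp 2 (G × E)}
    (hf : F = WithLp.toLp 2 ((WithLp.ofLp w).1 • e, (WithLp.ofLp w).2))
    (hν : ν = WithLp.toLp 2 ((WithLp.ofLp N).1 • e, (WithLp.ofLp N).2)) :
    revJ E G (κ • ptSph w + plSph w N) +
      (κ * (WithLp.ofLp w).1 + (WithLp.ofLp N).1) • revS E e = κ • ptSph F + plSph F ν := by
  have hF : ‖F‖ ^ 2 = ‖w‖ ^ 2 := by
    rw [hf, WithLp.prod_norm_sq_eq_of_L2, WithLp.prod_norm_sq_eq_of_L2]
    simp [norm_smul, he]
  have hFν : ⟪F, ν⟫ = ⟪w, N⟫ := by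
    rw [hf, hν, WithLp.prod_inner_apply, WithLp.prod_inner_apply]
    simp [inner_smul_left, inner_smul_right, he]
  refine Prod.ext ?_ (Prod.ext ?_ ?_)
  · simp only [revJ, revS, ptSph, plSph, hF, hFν]
    simp
  · refine WithLp.ofLp_injective 2 (Prod.ext ?_ ?_)
    · simp only [revJ, revS, ptSph, plSph, hF, hFν]
      simp
    · refine WithLp.ofLp_injective 2 (Prod.ext ?_ ?_)
      · simp only [revJ, revS, ptSph, plSph, hf, hν]
        simp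
        module
      · simp only [revJ, revS, ptSph, plSph, hf, hν]
        simp
  · simp only [revJ, revS, ptSph, plSph]
    simp

/-- the first members of the triple -/
noncomputable def s2revb_z (G : Type) [NormedAddCommGroup G] [InnerProductSpace ℝ G]
    (W : EHyp Y (WithLp 2 (ℝ × E))) (κ : Y → ℝ) (y : Y) :
    ℝ × WithLp 2 (ℝ × WithLp 2 (G × E)) × ℝ :=
  (s2revb_h E (W.kmap κ y))⁻¹ • revJ E G (W.kmap κ y)

theorem s2revb_z_smooth {W : EHyp Y (WithLp 2 (ℝ × E))} {κ : Y → ℝ}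
    (hκ : ContDiffOn ℝ ∞ κ W.U) {N : Set Y} (hN : N ⊆ W.U)
    (h0 : ∀ y ∈ N, s2revb_h E (W.kmap κ y) ≠ 0) :
    ContDiffOn ℝ ∞ (s2revb_z G W κ) N := by
  have h1 : ContDiffOn ℝ ∞ (fun y => s2revb_h E (W.kmap κ y)) N :=
    (s2revb_h E).toContinuousLinearMap.contDiff.comp_contDiffOn ((W.kmap_smooth hκ).mono hN)
  have h2 : ContDiffOn ℝ ∞ (fun y => revJ E G (W.kmap κ y)) N :=
    (revJ E G).toContinuousLinearMap.contDiff.comp_contDiffOn ((W.kmap_smooth hκ).mono hN)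
  exact (h1.inv h0).smul h2

theorem s2revb_z_fderiv {W : EHyp Y (WithLp 2 (ℝ × E))} {κ : Y → ℝ}
    (hκ : ContDiffOn ℝ ∞ κ W.U) {y : Y} (hy : y ∈ W.U)
    (h0 : s2revb_h E (W.kmap κ y) ≠ 0) (v : Y) :
    fderiv ℝ (s2revb_z G W κ) y v = (s2revb_h E (W.kmap κ y))⁻¹ •
        revJ E G (fderiv ℝ (W.kmap κ) y v) +
      (-(s2revb_h E (W.kmap κ y) ^ 2)⁻¹ * s2revb_h E (fderiv ℝ (W.kmap κ) y v)) •
        revJ E G (W.kmap κ y) := by
  have hK := (differentiableAt_kmap hκ hy).hasFDerivAt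
  have h1 := ((s2revb_h E).toContinuousLinearMap.hasFDerivAt (x := W.kmap κ y)).comp y hK
  have h2 := ((revJ E G).toContinuousLinearMap.hasFDerivAt (x := W.kmap κ y)).comp y hK
  have h3 := (hasDerivAt_inv h0).comp_hasFDerivAt y h1
  have h4 := h3.smul h2
  have h5 : HasFDerivAt (s2revb_z G W κ) _ y := h4
  rw [h5.fderiv]
  rfl

theorem s2revb_z_pos {W : EHyp Y (WithLp 2 (ℝ × E))} {κ : Y → ℝ}
    (hκ : ContDiffOn ℝ ∞ κ W.U) {y : Y} (hy : y ∈ W.U)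
    (h0 : s2revb_h E (W.kmap κ y) ≠ 0) (v : Y) :
    lieForm _ (fderiv ℝ (s2revb_z G W κ) y v) (fderiv ℝ (s2revb_z G W κ) y v) =
      (s2revb_h E (W.kmap κ y) ^ 2)⁻¹ * ‖fderiv ℝ W.ν y v + κ y • fderiv ℝ W.f y v‖ ^ 2 := by
  have a1 := W.kmap_fderiv hκ hy v
  have a2 : lieForm _ (fderiv ℝ (W.kmap κ) y v) (W.kmap κ y) = 0 := by
    rw [lieForm_isSymm.eq]; exact a1
  have a3 := W.fderiv_fderiv_kmap hκ hy v
  have a4 := W.kmap_kmap (κ := κ) (κ' := κ) hy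
  rw [s2revb_z_fderiv hκ hy h0]
  simp only [map_add, map_smul, LinearMap.add_apply, LinearMap.smul_apply, s2revb_JJ, a1, a2, a3,
    a4, smul_eq_mul]
  field_simp
  ring

theorem s2revb_z_zero {W : EHyp Y (WithLp 2 (ℝ × E))} {κ : Y → ℝ}
    (hκ : ContDiffOn ℝ ∞ κ W.U) {y : Y} (hy : y ∈ W.U)
    (h0 : s2revb_h E (W.kmap κ y) ≠ 0)
    (hd : ∀ v ∈ prin W.f W.ν (κ y) y, fderiv ℝ κ y v = 0) (v : Y) :
    fderiv ℝ (s2revb_z G W κ) y v = 0 ↔ v ∈ prin W.f W.ν (κ y) y := by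
  constructor
  · intro h
    have h1 := s2revb_z_pos (G := G) hκ hy h0 v
    rw [h] at h1
    simp only [map_zero] at h1
    have h2 : (s2revb_h E (W.kmap κ y) ^ 2)⁻¹ ≠ 0 := inv_ne_zero (pow_ne_zero 2 h0)
    have h3 := (mul_eq_zero.1 h1.symm).resolve_left h2
    rw [mem_prin]
    exact norm_eq_zero.1 (pow_eq_zero_iff two_ne_zero |>.1 h3)
  · intro h
    have h1 := (kmap_fderiv_eq_zero_iff hκ hy hd v).2 h
    rw [s2revb_z_fderiv hκ hy h0, h1]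
    simp

/-- derivative of the unit vector field is orthogonal to it -/
theorem s2revb_orth {U : Set X} (hU : IsOpen U) {e : X → G} (he : ContDiffOn ℝ ∞ e U)
    (h : ∀ x ∈ U, ‖e x‖ = 1) {x₀ : X} (hx₀ : x₀ ∈ U) (v : X) : ⟪e x₀, fderiv ℝ e x₀ v⟫ = 0 := by
  have hU' : U ∈ 𝓝 x₀ := hU.mem_nhds hx₀
  have de := (((he x₀ hx₀).contDiffAt hU').differentiableAt (by simp)).hasFDerivAt
  have h1 := de.norm_sq
  have h2 : HasFDerivAt (fun _ : X => (1 : ℝ)) (0 : X →L[ℝ] ℝ) x₀ := hasFDerivAt_const _ _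
  have h3 : (fun _ : X => (1 : ℝ)) =ᶠ[𝓝 x₀] (fun x => ‖e x‖ ^ 2) := by
    filter_upwards [hU'] with x hx
    rw [h x hx, one_pow]
  have h4 := (h1.congr_of_eventuallyEq h3).unique h2
  have h5 := congrArg (fun L : X →L[ℝ] ℝ => L v) h4
  simp only [smul_apply, ContinuousLinearMap.comp_apply,
    innerSL_apply_apply, zero_apply, nsmul_eq_mul, Nat.cast_ofNat] at h5
  linarith

theorem s2revb_inj {W : EHyp Y (WithLp 2 (ℝ × E))}
    {T : EHyp X (WithLp 2 (G × E))} {u : X → Y} {e : X → G}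
    (hu : ContDiffOn ℝ ∞ u T.U) (he : ContDiffOn ℝ ∞ e T.U)
    (h : ∀ x ∈ T.U, u x ∈ W.U ∧ 0 < (WithLp.ofLp (W.f (u x))).1 ∧ ‖e x‖ = 1 ∧
      T.f x = WithLp.toLp 2 ((WithLp.ofLp (W.f (u x))).1 • e x, (WithLp.ofLp (W.f (u x))).2) ∧
      T.ν x = WithLp.toLp 2 ((WithLp.ofLp (W.ν (u x))).1 • e x, (WithLp.ofLp (W.ν (u x))).2))
    {x₀ : X} (hx₀ : x₀ ∈ T.U) (v : X) (hv₁ : fderiv ℝ u x₀ v = 0) (hv₂ : fderiv ℝ e x₀ v = 0) :
    v = 0 := by
  have hU : T.U ∈ 𝓝 x₀ := T.isOpen_U.mem_nhds hx₀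
  obtain ⟨hux, -, -, -⟩ := h x₀ hx₀
  have hWU : W.U ∈ 𝓝 (u x₀) := W.isOpen_U.mem_nhds hux
  have du := (((hu x₀ hx₀).contDiffAt hU).differentiableAt (by simp)).hasFDerivAt
  have de := (((he x₀ hx₀).contDiffAt hU).differentiableAt (by simp)).hasFDerivAt
  have dw := (((W.smooth_f _ hux).contDiffAt hWU).differentiableAt (by simp)).hasFDerivAt
  have dwu := dw.comp x₀ du
  have dL := (((WithLp.prodContinuousLinearEquiv 2 ℝ ℝ E) :
      WithLp 2 (ℝ × E) →L[ℝ] (ℝ × E)).hasFDerivAt (x := W.f (u x₀))).comp x₀ dwu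
  have d1 := dL.fst
  have d2 := dL.snd
  have dF : HasFDerivAt T.f (((WithLp.prodContinuousLinearEquiv 2 ℝ G E).symm :
      (G × E) →L[ℝ] WithLp 2 (G × E)).comp _) x₀ :=
    ((((WithLp.prodContinuousLinearEquiv 2 ℝ G E).symm :
      (G × E) →L[ℝ] WithLp 2 (G × E)).hasFDerivAt).comp x₀
      ((d1.smul de).prodMk d2)).congr_of_eventuallyEq
      (by filter_upwards [hU] with x hx using (h x hx).2.2.2.1)
  apply T.immersion x₀ hx₀
  rw [dF.fderiv]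
  simp [hv₁, hv₂]

/-- **Module S2REVB.** The first component of `κ P + H` in the direction of `ℝ` is `κ h + N_h`. -/
theorem revolution_canon {W : EHyp Y (WithLp 2 (ℝ × E))} {κ₁ κ₂ : Y → ℝ} (hW : TwoDupin W κ₁ κ₂)
    (hG : 2 ≤ finrank ℝ G) {T : EHyp X (WithLp 2 (G × E))} {u : X → Y} {e : X → G}
    (hu : ContDiffOn ℝ ∞ u T.U) (he : ContDiffOn ℝ ∞ e T.U)
    (h : ∀ x ∈ T.U, u x ∈ W.U ∧ 0 < (WithLp.ofLp (W.f (u x))).1 ∧ ‖e x‖ = 1 ∧
      T.f x = WithLp.toLp 2 ((WithLp.ofLp (W.f (u x))).1 • e x, (WithLp.ofLp (W.f (u x))).2) ∧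
      T.ν x = WithLp.toLp 2 ((WithLp.ofLp (W.ν (u x))).1 • e x, (WithLp.ofLp (W.ν (u x))).2))
    {x₀ : X} (hx₀ : x₀ ∈ T.U)
    (h1 : κ₁ (u x₀) * (WithLp.ofLp (W.f (u x₀))).1 + (WithLp.ofLp (W.ν (u x₀))).1 ≠ 0)
    (h2 : κ₂ (u x₀) * (WithLp.ofLp (W.f (u x₀))).1 + (WithLp.ofLp (W.ν (u x₀))).1 ≠ 0)
    {m : Fin 3 → ℕ}
    (m0 : finrank ℝ (prin W.f W.ν (κ₂ (u x₀)) (u x₀)) = m 0)
    (m1 : finrank ℝ (prin W.f W.ν (κ₁ (u x₀)) (u x₀)) = m 1)
    (m2 : finrank ℝ G = m 2 + 1) :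
    ∃ μ : Fin 3 → ℝ, μ 0 + μ 1 + μ 2 = 0 ∧
      ConfEqAt (lieForm (WithLp 2 (ℝ × WithLp 2 (G × E)))) T.toSphere.lift T.U x₀
        (mForm m μ) (mFam m μ) (mU m μ) 0 := by
  have hy₀ : u x₀ ∈ W.U := (h x₀ hx₀).1
  set ℓ₁ : Y → ℝ := fun y => s2revb_h E (W.kmap κ₁ y) with hℓ₁
  set ℓ₂ : Y → ℝ := fun y => s2revb_h E (W.kmap κ₂ y) with hℓ₂
  have c1 : ContinuousOn ℓ₁ W.U := ((s2revb_h E).toContinuousLinearMap.contDiff.comp_contDiffOn
    (W.kmap_smooth hW.smooth₁)).continuousOn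
  have c2 : ContinuousOn ℓ₂ W.U := ((s2revb_h E).toContinuousLinearMap.contDiff.comp_contDiffOn
    (W.kmap_smooth hW.smooth₂)).continuousOn
  set N : Set Y := (W.U ∩ {y | ℓ₁ y ≠ 0}) ∩ {y | ℓ₂ y ≠ 0} with hN
  have hN1 : IsOpen (W.U ∩ {y | ℓ₁ y ≠ 0}) := c1.isOpen_inter_preimage W.isOpen_U isOpen_ne
  have hNo : IsOpen N := (c2.mono inter_subset_left).isOpen_inter_preimage hN1 isOpen_ne
  have hNW : N ⊆ W.U := fun y hy => hy.1.1
  have hN₀ : u x₀ ∈ N := by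
    refine ⟨⟨hy₀, ?_⟩, ?_⟩
    · change s2revb_h E (W.kmap κ₁ (u x₀)) ≠ 0
      rw [s2revb_h_kmap]; exact h1
    · change s2revb_h E (W.kmap κ₂ (u x₀)) ≠ 0
      rw [s2revb_h_kmap]; exact h2
  set U : Set X := T.U ∩ u ⁻¹' N with hU
  have hUo : IsOpen U := hu.continuousOn.isOpen_inter_preimage T.isOpen_U hNo
  have hUT : U ⊆ T.U := inter_subset_left
  have hxU : x₀ ∈ U := ⟨hx₀, hN₀⟩
  have de := (((he x₀ hx₀).contDiffAt (T.isOpen_U.mem_nhds hx₀)).differentiableAt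
    (by simp)).hasFDerivAt
  have horth := s2revb_orth T.isOpen_U he (fun x hx => (h x hx).2.2.1) hx₀
  -- the linear map `q`
  have hqmem : ∀ v, (fderiv ℝ e x₀).toLinearMap v ∈ (ℝ ∙ (e x₀))ᗮ := by
    intro v
    rw [Submodule.mem_orthogonal_singleton_iff_inner_right]
    exact horth v
  set q : X →ₗ[ℝ] (ℝ ∙ (e x₀))ᗮ := (fderiv ℝ e x₀).toLinearMap.codRestrict _ hqmem with hq
  have he0 : e x₀ ≠ 0 := by
    intro h0
    have := (h x₀ hx₀).2.2.1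
    rw [h0, norm_zero] at this
    exact zero_ne_one this
  have hZ : finrank ℝ (ℝ ∙ (e x₀))ᗮ = m 2 := by
    haveI : Fact (finrank ℝ G = m 2 + 1) := ⟨m2⟩
    exact Submodule.finrank_orthogonal_span_singleton he0
  -- the third map
  have hs : (fun x => revS E (e x)) = fun x => s2revb_S E G (e x) := rfl
  have hsd : ∀ v, fderiv ℝ (fun x => revS E (e x)) x₀ v = revS E (fderiv ℝ e x₀ v) := by
    intro v
    have e1 := ((s2revb_S E G).toContinuousLinearMap.hasFDerivAt (x := e x₀)).comp x₀ de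
    have e2 : HasFDerivAt (fun x => revS E (e x))
      ((s2revb_S E G).toContinuousLinearMap.comp (fderiv ℝ e x₀)) x₀ := e1
    rw [e2.fderiv]
    rfl
  have hS0 : ∀ w : G, revS E w = 0 → w = 0 := by
    intro w hw
    have := s2revb_SS (E := E) w w
    rw [hw] at this
    simp only [map_zero] at this
    exact inner_self_eq_zero.1 this.symm
  have hsmooth : ContDiffOn ℝ ∞ (fun x => revS E (e x)) T.U :=
    (s2revb_S E G).toContinuousLinearMap.contDiff.comp_contDiffOn he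
  -- values of the form
  have hzz : ∀ κ κ' : Y → ℝ, ∀ y ∈ W.U, s2revb_h E (W.kmap κ y) ≠ 0 →
      s2revb_h E (W.kmap κ' y) ≠ 0 →
      lieForm _ (s2revb_z G W κ y) (s2revb_z G W κ' y) = -1 := by
    intro κ κ' y hy hk hk'
    unfold s2revb_z
    rw [map_smul, map_smul, LinearMap.smul_apply, s2revb_JJ, W.kmap_kmap hy]
    simp only [smul_eq_mul]
    field_simp
    ring
  have hzs : ∀ κ : Y → ℝ, ∀ y, ∀ w : G, lieForm _ (s2revb_z G W κ y) (revS E w) = 0 := by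
    intro κ y w
    unfold s2revb_z
    rw [map_smul, LinearMap.smul_apply, s2revb_JS, smul_zero]
  have hsym := (lieForm_isSymm (H := WithLp 2 (ℝ × WithLp 2 (G × E)))).eq
  have hnull : ∀ κ : Y → ℝ, ∀ y ∈ W.U, s2revb_h E (W.kmap κ y) ≠ 0 → ∀ x ∈ T.U,
      lieForm _ (s2revb_z G W κ y + revS E (e x)) (s2revb_z G W κ y + revS E (e x)) = 0 := by
    intro κ y hy hk x hx
    simp only [map_add, LinearMap.add_apply]
    rw [hzz κ κ y hy hk hk, hzs, hsym (revS E (e x)), hzs, s2revb_SS,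
      real_inner_self_eq_norm_sq, (h x hx).2.2.1]
    norm_num
  -- the lift
  have hlift : ∀ x ∈ U, T.toSphere.lift x = Submodule.span ℝ
      {s2revb_z G W κ₁ (u x) + revS E (e x), s2revb_z G W κ₂ (u x) + revS E (e x)} ∧
      LinearIndependent ℝ ![s2revb_z G W κ₁ (u x) + revS E (e x),
        s2revb_z G W κ₂ (u x) + revS E (e x)] := by
    intro x hx
    obtain ⟨hux, -, he1, hf, hν⟩ := h x hx.1
    have n1 : s2revb_h E (W.kmap κ₁ (u x)) ≠ 0 := hx.2.1.2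
    have n2 : s2revb_h E (W.kmap κ₂ (u x)) ≠ 0 := hx.2.2
    refine T.lift_eq_of hx.1 (hW.ne _ hux) (inv_ne_zero n1) (inv_ne_zero n2) ?_ ?_
    · rw [← s2revb_vec he1 hf hν, smul_add, ← s2revb_h_kmap, smul_smul, inv_mul_cancel₀ n1,
        one_smul]
      rfl
    · rw [← s2revb_vec he1 hf hν, smul_add, ← s2revb_h_kmap, smul_smul, inv_mul_cancel₀ n2,
        one_smul]
      rfl
  have hTd := T.dim
  have hWd := W.dim
  rw [(WithLp.linearEquiv 2 ℝ (G × E)).finrank_eq, Module.finrank_prod] at hTd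
  rw [(WithLp.linearEquiv 2 ℝ (ℝ × E)).finrank_eq, Module.finrank_prod, Module.finrank_self] at hWd
  have hpos : ∀ κ : Y → ℝ, ContDiffOn ℝ ∞ κ W.U → s2revb_h E (W.kmap κ (u x₀)) ≠ 0 →
      (∀ v ∈ prin W.f W.ν (κ (u x₀)) (u x₀), fderiv ℝ κ (u x₀) v = 0) →
      ∀ v, fderiv ℝ (s2revb_z G W κ) (u x₀) v ≠ 0 →
      0 < lieForm _ (fderiv ℝ (s2revb_z G W κ) (u x₀) v) (fderiv ℝ (s2revb_z G W κ) (u x₀) v) := by
    intro κ hκ hk hd v hv
    rw [s2revb_z_pos hκ hy₀ hk]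
    have h3 : fderiv ℝ W.ν (u x₀) v + κ (u x₀) • fderiv ℝ W.f (u x₀) v ≠ 0 := by
      intro h4
      apply hv
      rw [s2revb_z_zero hκ hy₀ hk hd, mem_prin]
      exact h4
    positivity
  obtain ⟨μ, hμ, hC, -, -⟩ := star_canon (B := lieForm (WithLp 2 (ℝ × WithLp 2 (G × E))))
    (U := U) (x₀ := x₀) (u := u) (N := N) (z₁ := s2revb_z G W κ₁) (z₂ := s2revb_z G W κ₂)
    (s := fun x => revS E (e x)) (K₁ := fun y => prin W.f W.ν (κ₁ y) y)
    (K₂ := fun y => prin W.f W.ν (κ₂ y) y) q lieForm_isSymm lieForm_nondegenerate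
    (by
      rw [Module.finrank_prod, Module.finrank_prod,
        (WithLp.linearEquiv 2 ℝ (ℝ × WithLp 2 (G × E))).finrank_eq, Module.finrank_prod,
        (WithLp.linearEquiv 2 ℝ (G × E)).finrank_eq, Module.finrank_prod, Module.finrank_self]
      omega)
    hUo hxU hNo (fun x hx => hx.2) (hu.mono hUT)
    (s2revb_z_smooth hW.smooth₁ hNW (fun y hy => hy.1.2))
    (s2revb_z_smooth hW.smooth₂ hNW (fun y hy => hy.2)) (hsmooth.mono hUT)
    (fun y hy => isCompl_prin (W.immersion y (hNW hy)) (hW.ne y (hNW hy)) (hW.top y (hNW hy)))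
    (hW.ne_bot₁ _ hy₀) (hW.ne_bot₂ _ hy₀)
    (fun y hy v => s2revb_z_zero hW.smooth₁ (hNW hy) hy.1.2 (hW.deriv₁ y (hNW hy)) v)
    (fun y hy v => s2revb_z_zero hW.smooth₂ (hNW hy) hy.2 (hW.deriv₂ y (hNW hy)) v)
    (fun y hy => by
      simp only [map_sub, LinearMap.sub_apply]
      rw [hzz _ _ y (hNW hy) hy.1.2 hy.1.2, hzz _ _ y (hNW hy) hy.2 hy.1.2,
        hzz _ _ y (hNW hy) hy.1.2 hy.2, hzz _ _ y (hNW hy) hy.2 hy.2]
      ring)
    (fun y hy x hx => hnull κ₁ y (hNW hy) hy.1.2 x hx.1)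
    (fun y hy x hx => hnull κ₂ y (hNW hy) hy.2 x hx.1)
    (hpos κ₁ hW.smooth₁ hN₀.1.2 (hW.deriv₁ _ hy₀)) (hpos κ₂ hW.smooth₂ hN₀.2 (hW.deriv₂ _ hy₀))
    (fun v hv => by
      rw [hsd] at hv ⊢
      rw [s2revb_SS, real_inner_self_eq_norm_sq]
      have : fderiv ℝ e x₀ v ≠ 0 := by
        intro h0
        apply hv
        rw [h0]
        exact (s2revb_S E G).map_zero
      positivity)
    (fun v hv1 hv2 => by
      rw [hsd] at hv2
      exact s2revb_inj hu he h hx₀ v hv1 (hS0 _ hv2))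
    (fun v hv1 hv2 => s2revb_inj hu he h hx₀ v hv1 (congrArg Subtype.val hv2))
    (by rw [hZ]; omega) (by rw [hZ]; omega) (hlift x₀ hxU).2
  have hm : ![finrank ℝ (prin W.f W.ν (κ₂ (u x₀)) (u x₀)),
      finrank ℝ (prin W.f W.ν (κ₁ (u x₀)) (u x₀)), finrank ℝ (ℝ ∙ (e x₀))ᗮ] = m := by
    funext i
    fin_cases i
    · exact m0
    · exact m1
    · exact hZ
  rw [hm] at hC
  refine ⟨μ, hμ, ?_⟩
  obtain ⟨A, hA, φ, ψ, N₁, N', hφ, hxN, hNU, hNU', hφx, hL⟩ := hC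
  refine ⟨A, hA, φ, ψ, N₁, N', hφ, hxN, fun x hx => (hNU hx).1, hNU', hφx, ?_⟩
  intro x hx
  rw [← hL x hx]
  congr 1
  exact (hlift x (hNU hx)).1

end

end DupinClass

end S_S2REVB_pf

section S_S2ConeD

open scoped RealInnerProductSpace ContDiff Topology
open Module Set

namespace DupinClass

section

variable {X Y G H : Type} [NormedAddCommGroup X] [NormedSpace ℝ X] [FiniteDimensional ℝ X]
  [NormedAddCommGroup Y] [NormedSpace ℝ Y] [FiniteDimensional ℝ Y]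
  [NormedAddCommGroup H] [InnerProductSpace ℝ H] [FiniteDimensional ℝ H]
  [NormedAddCommGroup G] [InnerProductSpace ℝ G] [FiniteDimensional ℝ G]

/-- Two pairwise distinct smooth functions as in the definition of proper Dupin, for `g = 2`, on a
hypersurface of a sphere. -/
structure TwoDupinS (W : SHyp Y H) (κ₁ κ₂ : Y → ℝ) : Prop where
  smooth₁ : ContDiffOn ℝ ∞ κ₁ W.U
  smooth₂ : ContDiffOn ℝ ∞ κ₂ W.U
  ne : ∀ y ∈ W.U, κ₁ y ≠ κ₂ y
  ne_bot₁ : ∀ y ∈ W.U, prin W.f W.ν (κ₁ y) y ≠ ⊥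
  ne_bot₂ : ∀ y ∈ W.U, prin W.f W.ν (κ₂ y) y ≠ ⊥
  top : ∀ y ∈ W.U, prin W.f W.ν (κ₁ y) y ⊔ prin W.f W.ν (κ₂ y) y = ⊤
  deriv₁ : ∀ y ∈ W.U, ∀ v ∈ prin W.f W.ν (κ₁ y) y, fderiv ℝ κ₁ y v = 0
  deriv₂ : ∀ y ∈ W.U, ∀ v ∈ prin W.f W.ν (κ₂ y) y, fderiv ℝ κ₂ y v = 0

omit [FiniteDimensional ℝ Y] [FiniteDimensional ℝ H] in
theorem ProperDupin.twoDupinS {W : SHyp Y H} (h : ProperDupin W.f W.ν W.U 2) :
    ∃ κ₁ κ₂, TwoDupinS W κ₁ κ₂ := by
  obtain ⟨κ, h1, h2, h3, h4, h5⟩ := h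
  refine ⟨κ 0, κ 1, ⟨h1 0, h1 1, fun y hy => h2 y hy 0 1 (by decide), fun y hy => h3 y hy 0,
    fun y hy => h3 y hy 1, fun y hy => ?_, fun y hy => h5 y hy 0, fun y hy => h5 y hy 1⟩⟩
  rw [eq_top_iff, ← h4 y hy]
  exact iSup_le (Fin.forall_fin_two.2 ⟨le_sup_left, le_sup_right⟩)

variable (G) in
/-- The first two members of the triple of a cone over `W`. -/
noncomputable def coneZ (W : SHyp Y H) (κ : Y → ℝ) (y : Y) :
    ℝ × WithLp 2 (ℝ × WithLp 2 (H × G)) × ℝ :=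
  (0, WithLp.toLp 2 (0, WithLp.toLp 2 (W.f y + (κ y)⁻¹ • W.ν y, 0)), (κ y)⁻¹)

variable (H) in
/-- The third member of the triple (with the opposite sign) of a cone. -/
noncomputable def coneS (t : ℝ) (y : G) : ℝ × WithLp 2 (ℝ × WithLp 2 (H × G)) × ℝ :=
  ((1 + (t ^ 2 + ‖y‖ ^ 2)) / (2 * t), WithLp.toLp 2 ((1 - (t ^ 2 + ‖y‖ ^ 2)) / (2 * t),
    WithLp.toLp 2 (0, t⁻¹ • y)), 0)

end

end DupinClass

end S_S2ConeD

section S_S2CONEA_pf

open scoped RealInnerProductSpace ContDiff Topology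
open Module Set

namespace DupinClass

section

variable {X Y G H : Type} [NormedAddCommGroup X] [NormedSpace ℝ X] [FiniteDimensional ℝ X]
  [NormedAddCommGroup Y] [NormedSpace ℝ Y] [FiniteDimensional ℝ Y]
  [NormedAddCommGroup H] [InnerProductSpace ℝ H] [FiniteDimensional ℝ H]
  [NormedAddCommGroup G] [InnerProductSpace ℝ G] [FiniteDimensional ℝ G]

omit [FiniteDimensional ℝ Y] [FiniteDimensional ℝ H] in
theorem s2cone_hasFDerivAt_f (W : SHyp Y H) {y : Y} (hy : y ∈ W.U) :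
    HasFDerivAt W.f (fderiv ℝ W.f y) y :=
  ((W.smooth_f.contDiffAt (W.isOpen_U.mem_nhds hy)).differentiableAt (by simp)).hasFDerivAt

omit [FiniteDimensional ℝ Y] [FiniteDimensional ℝ H] in
theorem s2cone_hasFDerivAt_ν (W : SHyp Y H) {y : Y} (hy : y ∈ W.U) :
    HasFDerivAt W.ν (fderiv ℝ W.ν y) y :=
  ((W.smooth_ν.contDiffAt (W.isOpen_U.mem_nhds hy)).differentiableAt (by simp)).hasFDerivAt

omit [FiniteDimensional ℝ Y] [FiniteDimensional ℝ H] in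
theorem s2cone_inner_df_self (W : SHyp Y H) {y : Y} (hy : y ∈ W.U) (v : Y) :
    ⟪fderiv ℝ W.f y v, W.f y⟫ = 0 := by
  have df := s2cone_hasFDerivAt_f W hy
  have h1 : HasFDerivAt (fun z => ⟪W.f z, W.f z⟫) _ y := df.inner ℝ df
  have h2 : HasFDerivAt (fun z => ⟪W.f z, W.f z⟫) (0 : Y →L[ℝ] ℝ) y := by
    refine (hasFDerivAt_const (1 : ℝ) y).congr_of_eventuallyEq ?_
    filter_upwards [W.isOpen_U.mem_nhds hy] with z hz
    rw [real_inner_self_eq_norm_sq, W.norm_f z hz, one_pow]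
  have h3 := DFunLike.congr_fun (h1.unique h2) v
  simp only [fderivInnerCLM_apply, ContinuousLinearMap.comp_apply, ContinuousLinearMap.prod_apply,
    zero_apply] at h3
  have h4 := real_inner_comm (W.f y) (fderiv ℝ W.f y v)
  linarith

omit [FiniteDimensional ℝ Y] [FiniteDimensional ℝ H] in
theorem s2cone_inner_dν_self (W : SHyp Y H) {y : Y} (hy : y ∈ W.U) (v : Y) :
    ⟪fderiv ℝ W.ν y v, W.ν y⟫ = 0 := by
  have df := s2cone_hasFDerivAt_ν W hy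
  have h1 : HasFDerivAt (fun z => ⟪W.ν z, W.ν z⟫) _ y := df.inner ℝ df
  have h2 : HasFDerivAt (fun z => ⟪W.ν z, W.ν z⟫) (0 : Y →L[ℝ] ℝ) y := by
    refine (hasFDerivAt_const (1 : ℝ) y).congr_of_eventuallyEq ?_
    filter_upwards [W.isOpen_U.mem_nhds hy] with z hz
    rw [real_inner_self_eq_norm_sq, W.norm_ν z hz, one_pow]
  have h3 := DFunLike.congr_fun (h1.unique h2) v
  simp only [fderivInnerCLM_apply, ContinuousLinearMap.comp_apply, ContinuousLinearMap.prod_apply,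
    zero_apply] at h3
  have h4 := real_inner_comm (W.ν y) (fderiv ℝ W.ν y v)
  linarith

omit [FiniteDimensional ℝ Y] [FiniteDimensional ℝ H] in
theorem s2cone_inner_dν_f (W : SHyp Y H) {y : Y} (hy : y ∈ W.U) (v : Y) :
    ⟪fderiv ℝ W.ν y v, W.f y⟫ = 0 := by
  have df := s2cone_hasFDerivAt_f W hy
  have dν := s2cone_hasFDerivAt_ν W hy
  have h1 : HasFDerivAt (fun z => ⟪W.ν z, W.f z⟫) _ y := dν.inner ℝ df
  have h2 : HasFDerivAt (fun z => ⟪W.ν z, W.f z⟫) (0 : Y →L[ℝ] ℝ) y := by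
    refine (hasFDerivAt_const (0 : ℝ) y).congr_of_eventuallyEq ?_
    filter_upwards [W.isOpen_U.mem_nhds hy] with z hz
    rw [real_inner_comm, W.inner_f z hz]
  have h3 := DFunLike.congr_fun (h1.unique h2) v
  simp only [fderivInnerCLM_apply, ContinuousLinearMap.comp_apply, ContinuousLinearMap.prod_apply,
    zero_apply] at h3
  have h4 := real_inner_comm (W.ν y) (fderiv ℝ W.f y v)
  have h5 := W.inner_df y hy v
  linarith

omit [FiniteDimensional ℝ X] [FiniteDimensional ℝ Y] [FiniteDimensional ℝ H]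
  [FiniteDimensional ℝ G] in
theorem cone_fderiv {W : SHyp Y H} {T : EHyp X (WithLp 2 (H × G))} {u : X → Y} {t : X → ℝ}
    {w : X → G} (hu : ContDiffOn ℝ ∞ u T.U) (ht : ContDiffOn ℝ ∞ t T.U)
    (hw : ContDiffOn ℝ ∞ w T.U)
    (h : ∀ x ∈ T.U, u x ∈ W.U ∧ 0 < t x ∧ T.f x = WithLp.toLp 2 (t x • W.f (u x), w x) ∧
      T.ν x = WithLp.toLp 2 (W.ν (u x), 0)) {x₀ : X} (hx₀ : x₀ ∈ T.U) (v : X) :
    fderiv ℝ T.f x₀ v = WithLp.toLp 2 (t x₀ • fderiv ℝ W.f (u x₀) (fderiv ℝ u x₀ v)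
      + fderiv ℝ t x₀ v • W.f (u x₀), fderiv ℝ w x₀ v) ∧
    fderiv ℝ T.ν x₀ v = WithLp.toLp 2 (fderiv ℝ W.ν (u x₀) (fderiv ℝ u x₀ v), 0) := by
  have hU : T.U ∈ 𝓝 x₀ := T.isOpen_U.mem_nhds hx₀
  have hux := (h x₀ hx₀).1
  have du := ((hu.contDiffAt hU).differentiableAt (by simp)).hasFDerivAt
  have dt := ((ht.contDiffAt hU).differentiableAt (by simp)).hasFDerivAt
  have dw := ((hw.contDiffAt hU).differentiableAt (by simp)).hasFDerivAt
  have dwu := (s2cone_hasFDerivAt_f W hux).comp x₀ du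
  have dNu := (s2cone_hasFDerivAt_ν W hux).comp x₀ du
  have dF : HasFDerivAt T.f (((WithLp.prodContinuousLinearEquiv 2 ℝ H G).symm :
      (H × G) →L[ℝ] WithLp 2 (H × G)).comp _) x₀ :=
    ((((WithLp.prodContinuousLinearEquiv 2 ℝ H G).symm :
      (H × G) →L[ℝ] WithLp 2 (H × G)).hasFDerivAt).comp x₀
      ((dt.smul dwu).prodMk dw)).congr_of_eventuallyEq
      (by filter_upwards [hU] with x hx using (h x hx).2.2.1)
  have dν : HasFDerivAt T.ν (((WithLp.prodContinuousLinearEquiv 2 ℝ H G).symm :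
      (H × G) →L[ℝ] WithLp 2 (H × G)).comp _) x₀ :=
    ((((WithLp.prodContinuousLinearEquiv 2 ℝ H G).symm :
      (H × G) →L[ℝ] WithLp 2 (H × G)).hasFDerivAt).comp x₀
      (dNu.prodMk (hasFDerivAt_const (0 : G) x₀))).congr_of_eventuallyEq
      (by filter_upwards [hU] with x hx using (h x hx).2.2.2)
  rw [dF.fderiv, dν.fderiv]
  exact ⟨rfl, rfl⟩

/-- **Module S2CONEA.** -/
theorem cone_prin {W : SHyp Y H} {κ₁ κ₂ : Y → ℝ} (hW : TwoDupinS W κ₁ κ₂)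
    {T : EHyp X (WithLp 2 (H × G))} {u : X → Y} {t : X → ℝ} {w : X → G}
    (hu : ContDiffOn ℝ ∞ u T.U) (ht : ContDiffOn ℝ ∞ t T.U) (hw : ContDiffOn ℝ ∞ w T.U)
    (h : ∀ x ∈ T.U, u x ∈ W.U ∧ 0 < t x ∧ T.f x = WithLp.toLp 2 (t x • W.f (u x), w x) ∧
      T.ν x = WithLp.toLp 2 (W.ν (u x), 0)) {x₀ : X} (hx₀ : x₀ ∈ T.U)
    {k : ℝ} (hk : prin T.f T.ν k x₀ ≠ ⊥) :
    k * t x₀ = κ₁ (u x₀) ∨ k * t x₀ = κ₂ (u x₀) ∨ k = 0 := by
  by_cases hk0 : k = 0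
  · exact Or.inr (Or.inr hk0)
  obtain ⟨v, hv, hv0⟩ := Submodule.exists_mem_ne_zero_of_ne_bot hk
  obtain ⟨hF, hν⟩ := cone_fderiv hu ht hw h hx₀ v
  have hux := (h x₀ hx₀).1
  rw [mem_prin, hF, hν] at hv
  have h1 := congrArg (fun z => (WithLp.ofLp z).1) hv
  have h2 := congrArg (fun z => (WithLp.ofLp z).2) hv
  simp only [WithLp.ofLp_add, WithLp.ofLp_smul, Prod.fst_add, Prod.smul_fst, WithLp.ofLp_zero,
    Prod.fst_zero, Prod.snd_add, Prod.smul_snd, Prod.snd_zero, zero_add] at h1 h2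
  have h3 : fderiv ℝ w x₀ v = 0 := (smul_eq_zero.1 h2).resolve_left hk0
  have h4 := congrArg (fun z => ⟪z, W.f (u x₀)⟫) h1
  simp only [inner_add_left, inner_smul_left, RCLike.conj_to_real, s2cone_inner_dν_f W hux,
    s2cone_inner_df_self W hux, real_inner_self_eq_norm_sq, W.norm_f _ hux,
    inner_zero_left] at h4
  have h5 : fderiv ℝ t x₀ v = 0 := by
    have : k * fderiv ℝ t x₀ v = 0 := by linear_combination h4
    exact (mul_eq_zero.1 this).resolve_left hk0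
  rw [h5, zero_smul, add_zero, smul_smul] at h1
  have h6 : fderiv ℝ u x₀ v ≠ 0 := by
    intro h0
    apply hv0
    apply T.immersion x₀ hx₀
    rw [hF, h0, h3, h5]
    simp
  have h7 := eq_of_mem_prin (W.immersion _ hux) (hW.top _ hux) (hW.ne _ hux) h6
    (mem_prin.2 h1)
  tauto

end

end DupinClass

end S_S2CONEA_pf

section S_S2CONEB_pf

open scoped RealInnerProductSpace ContDiff Topology
open Module Set

namespace DupinClass

section

variable {X Y G H : Type} [NormedAddCommGroup X] [NormedSpace ℝ X] [FiniteDimensional ℝ X]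
  [NormedAddCommGroup Y] [NormedSpace ℝ Y] [FiniteDimensional ℝ Y]
  [NormedAddCommGroup H] [InnerProductSpace ℝ H] [FiniteDimensional ℝ H]
  [NormedAddCommGroup G] [InnerProductSpace ℝ G] [FiniteDimensional ℝ G]

variable (G) in
/-- the embedding of the space of the first two members -/
noncomputable def s2coneb_J : (H × ℝ) →ₗ[ℝ] (ℝ × WithLp 2 (ℝ × WithLp 2 (H × G)) × ℝ) where
  toFun p := (0, WithLp.toLp 2 (0, WithLp.toLp 2 (p.1, 0)), p.2)
  map_add' := by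
    intro p q
    refine Prod.ext ?_ (Prod.ext ?_ ?_)
    · simp
    · refine WithLp.ofLp_injective 2 (Prod.ext ?_ ?_)
      · simp
      · refine WithLp.ofLp_injective 2 (Prod.ext ?_ ?_) <;> simp
    · simp
  map_smul' := by
    intro t p
    refine Prod.ext ?_ (Prod.ext ?_ ?_)
    · simp
    · refine WithLp.ofLp_injective 2 (Prod.ext ?_ ?_)
      · simp
      · refine WithLp.ofLp_injective 2 (Prod.ext ?_ ?_) <;> simp
    · simp

variable (H) in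
/-- the embedding of the space of the third member -/
noncomputable def s2coneb_I : (ℝ × ℝ × G) →ₗ[ℝ] (ℝ × WithLp 2 (ℝ × WithLp 2 (H × G)) × ℝ) where
  toFun p := (p.1, WithLp.toLp 2 (p.2.1, WithLp.toLp 2 (0, p.2.2)), 0)
  map_add' := by
    intro p q
    refine Prod.ext ?_ (Prod.ext ?_ ?_)
    · simp
    · refine WithLp.ofLp_injective 2 (Prod.ext ?_ ?_)
      · simp
      · refine WithLp.ofLp_injective 2 (Prod.ext ?_ ?_) <;> simp
    · simp
  map_smul' := by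
    intro t p
    refine Prod.ext ?_ (Prod.ext ?_ ?_)
    · simp
    · refine WithLp.ofLp_injective 2 (Prod.ext ?_ ?_)
      · simp
      · refine WithLp.ofLp_injective 2 (Prod.ext ?_ ?_) <;> simp
    · simp

omit [FiniteDimensional ℝ H] [FiniteDimensional ℝ G] in
theorem s2coneb_JJ (p q : H × ℝ) :
    lieForm _ (s2coneb_J G p) (s2coneb_J G q) = ⟪p.1, q.1⟫ - p.2 * q.2 := by
  simp only [lieForm, s2coneb_J, LinearMap.mk₂_apply, LinearMap.coe_mk, AddHom.coe_mk,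
    WithLp.prod_inner_apply]
  simp

omit [FiniteDimensional ℝ H] [FiniteDimensional ℝ G] in
theorem s2coneb_II (p q : ℝ × ℝ × G) :
    lieForm _ (s2coneb_I H p) (s2coneb_I H q) = -(p.1 * q.1) + (p.2.1 * q.2.1 + ⟪p.2.2, q.2.2⟫) := by
  simp only [lieForm, s2coneb_I, LinearMap.mk₂_apply, LinearMap.coe_mk, AddHom.coe_mk,
    WithLp.prod_inner_apply]
  simp
  ring

omit [FiniteDimensional ℝ H] [FiniteDimensional ℝ G] in
theorem s2coneb_JI (p : H × ℝ) (q : ℝ × ℝ × G) :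
    lieForm _ (s2coneb_J G p) (s2coneb_I H q) = 0 := by
  simp only [lieForm, s2coneb_I, s2coneb_J, LinearMap.mk₂_apply, LinearMap.coe_mk, AddHom.coe_mk,
    WithLp.prod_inner_apply]
  simp

omit [FiniteDimensional ℝ H] [FiniteDimensional ℝ G] in
theorem s2coneb_IJ (p : H × ℝ) (q : ℝ × ℝ × G) :
    lieForm _ (s2coneb_I H q) (s2coneb_J G p) = 0 := by
  rw [lieForm_comm', s2coneb_JI]

omit [FiniteDimensional ℝ H] [FiniteDimensional ℝ G] in
theorem s2coneb_J_inj : Function.Injective (s2coneb_J G : (H × ℝ) →ₗ[ℝ] _) := by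
  intro p q hpq
  have e1 : p.2 = q.2 := congrArg (fun z : ℝ × WithLp 2 (ℝ × WithLp 2 (H × G)) × ℝ => z.2.2) hpq
  have e2 : p.1 = q.1 :=
    congrArg (fun z : ℝ × WithLp 2 (ℝ × WithLp 2 (H × G)) × ℝ =>
      (WithLp.ofLp (WithLp.ofLp z.2.1).2).1) hpq
  exact Prod.ext e2 e1

/-! ### the first two members -/

/-- `(f + κ⁻¹ ν, κ⁻¹)` -/
noncomputable def s2coneb_p (W : SHyp Y H) (κ : Y → ℝ) (y : Y) : H × ℝ :=
  (W.f y + (κ y)⁻¹ • W.ν y, (κ y)⁻¹)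

omit [FiniteDimensional ℝ Y] [FiniteDimensional ℝ H] [FiniteDimensional ℝ G] in
theorem s2coneb_Z_eq (W : SHyp Y H) (κ : Y → ℝ) :
    coneZ G W κ = fun y => s2coneb_J G (s2coneb_p W κ y) := by
  funext y
  rfl

omit [FiniteDimensional ℝ Y] [FiniteDimensional ℝ H] [FiniteDimensional ℝ G] in
theorem s2coneb_ZZ (W : SHyp Y H) (κ κ' : Y → ℝ) {y : Y} (hy : y ∈ W.U) :
    lieForm _ (coneZ G W κ y) (coneZ G W κ' y) = 1 := by
  rw [s2coneb_Z_eq, s2coneb_Z_eq]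
  simp only [s2coneb_JJ, s2coneb_p]
  rw [inner_add_left, inner_add_right, inner_add_right, inner_smul_left, inner_smul_left,
    inner_smul_right, inner_smul_right, real_inner_comm (W.f y) (W.ν y), W.inner_f y hy,
    real_inner_self_eq_norm_sq, real_inner_self_eq_norm_sq, W.norm_f y hy, W.norm_ν y hy]
  simp

omit [FiniteDimensional ℝ Y] [FiniteDimensional ℝ H] in
theorem s2coneb_inner_dν (W : SHyp Y H) {y : Y} (hy : y ∈ W.U) (v : Y) :
    ⟪fderiv ℝ W.ν y v, W.ν y⟫ = 0 := by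
  have h1 : HasFDerivAt W.ν (fderiv ℝ W.ν y) y :=
    ((W.smooth_ν.contDiffAt (W.isOpen_U.mem_nhds hy)).differentiableAt (by simp)).hasFDerivAt
  have h2 := h1.inner ℝ h1
  have h3 : HasFDerivAt (fun y => ⟪W.ν y, W.ν y⟫) (0 : Y →L[ℝ] ℝ) y := by
    refine (hasFDerivAt_const (1 : ℝ) y).congr_of_eventuallyEq ?_
    filter_upwards [W.isOpen_U.mem_nhds hy] with z hz
    rw [real_inner_self_eq_norm_sq, W.norm_ν z hz]
    norm_num
  have h4 := congrArg (fun L : Y →L[ℝ] ℝ => L v) (h2.unique h3)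
  simp [fderivInnerCLM_apply] at h4
  rw [real_inner_comm (fderiv ℝ W.ν y v) (W.ν y)] at h4
  linarith

omit [FiniteDimensional ℝ Y] [FiniteDimensional ℝ H] in
theorem s2coneb_hasFDerivAt_p (W : SHyp Y H) {κ : Y → ℝ} (hκ : ContDiffOn ℝ ∞ κ W.U) {y : Y}
    (hy : y ∈ W.U) (h0 : κ y ≠ 0) :
    HasFDerivAt (s2coneb_p W κ)
      ((fderiv ℝ W.f y + ((κ y)⁻¹ • fderiv ℝ W.ν y +
        (-((κ y) ^ 2)⁻¹ • fderiv ℝ κ y).smulRight (W.ν y))).prod
          (-((κ y) ^ 2)⁻¹ • fderiv ℝ κ y)) y := by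
  have h1 : HasFDerivAt W.ν (fderiv ℝ W.ν y) y :=
    ((W.smooth_ν.contDiffAt (W.isOpen_U.mem_nhds hy)).differentiableAt (by simp)).hasFDerivAt
  have h2 : HasFDerivAt W.f (fderiv ℝ W.f y) y :=
    ((W.smooth_f.contDiffAt (W.isOpen_U.mem_nhds hy)).differentiableAt (by simp)).hasFDerivAt
  have h3 : HasFDerivAt κ (fderiv ℝ κ y) y :=
    ((hκ.contDiffAt (W.isOpen_U.mem_nhds hy)).differentiableAt (by simp)).hasFDerivAt
  have h4 : HasFDerivAt (fun y => (κ y)⁻¹) (-((κ y) ^ 2)⁻¹ • fderiv ℝ κ y) y :=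
    (hasDerivAt_inv h0).comp_hasFDerivAt y h3
  exact (h2.add (h4.smul h1)).prodMk h4

omit [FiniteDimensional ℝ Y] [FiniteDimensional ℝ G] in
theorem s2coneb_fderiv_Z (W : SHyp Y H) {κ : Y → ℝ} (hκ : ContDiffOn ℝ ∞ κ W.U) {y : Y}
    (hy : y ∈ W.U) (h0 : κ y ≠ 0) (v : Y) :
    fderiv ℝ (coneZ G W κ) y v = s2coneb_J G
      (fderiv ℝ W.f y v + ((κ y)⁻¹ • fderiv ℝ W.ν y v +
        (-((κ y) ^ 2)⁻¹ * fderiv ℝ κ y v) • (W.ν y)), -((κ y) ^ 2)⁻¹ * fderiv ℝ κ y v) := by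
  have h1 := s2coneb_hasFDerivAt_p W hκ hy h0
  have h2 := ((s2coneb_J G : (H × ℝ) →ₗ[ℝ] _).toContinuousLinearMap.hasFDerivAt
    (x := s2coneb_p W κ y)).comp y h1
  have h3 : coneZ G W κ = (s2coneb_J G : (H × ℝ) →ₗ[ℝ] _).toContinuousLinearMap ∘
    s2coneb_p W κ := rfl
  rw [h3, h2.fderiv]
  rfl

omit [FiniteDimensional ℝ Y] [FiniteDimensional ℝ G] in
theorem s2coneb_dZdZ (W : SHyp Y H) {κ : Y → ℝ} (hκ : ContDiffOn ℝ ∞ κ W.U) {y : Y}
    (hy : y ∈ W.U) (h0 : κ y ≠ 0) (v : Y) :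
    lieForm _ (fderiv ℝ (coneZ G W κ) y v) (fderiv ℝ (coneZ G W κ) y v) =
      ‖fderiv ℝ W.f y v + (κ y)⁻¹ • fderiv ℝ W.ν y v‖ ^ 2 := by
  rw [s2coneb_fderiv_Z W hκ hy h0, s2coneb_JJ]
  set c := -((κ y) ^ 2)⁻¹ * fderiv ℝ κ y v
  have h1 : ⟪fderiv ℝ W.f y v + (κ y)⁻¹ • fderiv ℝ W.ν y v, W.ν y⟫ = 0 := by
    rw [inner_add_left, inner_smul_left, s2coneb_inner_dν W hy, W.inner_df y hy]
    simp
  dsimp only
  rw [← add_assoc, real_inner_self_eq_norm_sq, norm_add_sq_real, inner_smul_right, h1, norm_smul,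
    W.norm_ν y hy]
  simp
  ring

omit [FiniteDimensional ℝ Y] [FiniteDimensional ℝ G] in
theorem s2coneb_ker (W : SHyp Y H) {κ : Y → ℝ} (hκ : ContDiffOn ℝ ∞ κ W.U) {y : Y}
    (hy : y ∈ W.U) (h0 : κ y ≠ 0) (hd : ∀ v ∈ prin W.f W.ν (κ y) y, fderiv ℝ κ y v = 0) (v : Y) :
    fderiv ℝ (coneZ G W κ) y v = 0 ↔ v ∈ prin W.f W.ν (κ y) y := by
  constructor
  · intro h
    have h1 := s2coneb_dZdZ (G := G) W hκ hy h0 v
    rw [h] at h1
    simp only [map_zero] at h1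
    have h2 : fderiv ℝ W.f y v + (κ y)⁻¹ • fderiv ℝ W.ν y v = 0 := by
      rw [← norm_eq_zero]
      exact pow_eq_zero_iff (two_ne_zero) |>.1 h1.symm
    rw [mem_prin]
    have h3 : fderiv ℝ W.ν y v + κ y • fderiv ℝ W.f y v =
        κ y • (fderiv ℝ W.f y v + (κ y)⁻¹ • fderiv ℝ W.ν y v) := by
      rw [smul_add, smul_smul, mul_inv_cancel₀ h0, one_smul, add_comm]
    rw [h3, h2, smul_zero]
  · intro h
    have h1 := hd v h
    rw [mem_prin] at h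
    rw [s2coneb_fderiv_Z W hκ hy h0, h1]
    have h3 : fderiv ℝ W.f y v + (κ y)⁻¹ • fderiv ℝ W.ν y v = 0 := by
      have : fderiv ℝ W.f y v + (κ y)⁻¹ • fderiv ℝ W.ν y v =
          (κ y)⁻¹ • (fderiv ℝ W.ν y v + κ y • fderiv ℝ W.f y v) := by
        rw [smul_add, smul_smul, inv_mul_cancel₀ h0, one_smul, add_comm]
      rw [this, h, smul_zero]
    rw [mul_zero, zero_smul, add_zero, h3]
    exact map_zero _

/-! ### the third member -/

/-- the coordinates of `coneS` -/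
noncomputable def s2coneb_q (t : ℝ) (y : G) : ℝ × ℝ × G :=
  ((1 + (t ^ 2 + ‖y‖ ^ 2)) * (2 * t)⁻¹, (1 - (t ^ 2 + ‖y‖ ^ 2)) * (2 * t)⁻¹, t⁻¹ • y)

omit [FiniteDimensional ℝ H] [FiniteDimensional ℝ G] in
theorem s2coneb_S_eq (t : ℝ) (y : G) : coneS H t y = s2coneb_I H (s2coneb_q t y) := by
  simp only [coneS, s2coneb_I, s2coneb_q, LinearMap.coe_mk, AddHom.coe_mk, div_eq_mul_inv]

omit [FiniteDimensional ℝ H] [FiniteDimensional ℝ G] in
theorem s2coneb_SS {t : ℝ} (ht : 0 < t) (y : G) :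
    lieForm _ (coneS H t y) (coneS H t y) = -1 := by
  rw [s2coneb_S_eq, s2coneb_II]
  simp only [s2coneb_q, inner_smul_left, inner_smul_right, real_inner_self_eq_norm_sq,
    RCLike.conj_to_real]
  field_simp
  ring

/-- The derivative of the coordinates of `coneS` along the direction `t'`, `y'`. -/
noncomputable def s2coneb_q' (t : ℝ) (y : G) (t' : ℝ) (y' : G) : ℝ × ℝ × G :=
  ((2 * t * t' + 2 * ⟪y, y'⟫) * (2 * t)⁻¹ + (1 + (t ^ 2 + ‖y‖ ^ 2)) * (-(2 * t') * ((2 * t) ^ 2)⁻¹),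
    -(2 * t * t' + 2 * ⟪y, y'⟫) * (2 * t)⁻¹ +
      (1 - (t ^ 2 + ‖y‖ ^ 2)) * (-(2 * t') * ((2 * t) ^ 2)⁻¹),
    t⁻¹ • y' + (-t' * (t ^ 2)⁻¹) • y)

omit [FiniteDimensional ℝ G] in
theorem s2coneb_q'_zero (t : ℝ) (y : G) : s2coneb_q' t y 0 0 = 0 := by
  simp [s2coneb_q']

omit [FiniteDimensional ℝ H] [FiniteDimensional ℝ G] in
theorem s2coneb_q'q' {t : ℝ} (ht : 0 < t) (y : G) (t' : ℝ) (y' : G) :
    lieForm _ (s2coneb_I H (s2coneb_q' t y t' y')) (s2coneb_I H (s2coneb_q' t y t' y')) =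
      (t' ^ 2 + ‖y'‖ ^ 2) / t ^ 2 := by
  rw [s2coneb_II]
  simp only [s2coneb_q', inner_add_left, inner_add_right, inner_smul_left, inner_smul_right,
    real_inner_self_eq_norm_sq, RCLike.conj_to_real, real_inner_comm y y']
  field_simp
  ring

omit [FiniteDimensional ℝ X] [FiniteDimensional ℝ G] in
theorem s2coneb_hasFDerivAt_q {t : X → ℝ} {w : X → G} {x : X} {t' : X →L[ℝ] ℝ} {w' : X →L[ℝ] G}
    (ht : HasFDerivAt t t' x) (hw : HasFDerivAt w w' x) (h0 : t x ≠ 0) :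
    ∃ q' : X →L[ℝ] ℝ × ℝ × G, HasFDerivAt (fun x => s2coneb_q (t x) (w x)) q' x ∧
      ∀ v, q' v = s2coneb_q' (t x) (w x) (t' v) (w' v) := by
  have h1 : HasFDerivAt (fun x => t x ^ 2 + ‖w x‖ ^ 2) _ x := (ht.pow 2).add hw.norm_sq
  have h2 : HasFDerivAt (fun x => 2 * t x) _ x := ht.const_mul 2
  have h3 : HasFDerivAt (fun x => (2 * t x)⁻¹) _ x :=
    (hasDerivAt_inv (by positivity : 2 * t x ≠ 0)).comp_hasFDerivAt x h2
  have h4 : HasFDerivAt (fun x => (t x)⁻¹) _ x := (hasDerivAt_inv h0).comp_hasFDerivAt x ht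
  have h5 := (((hasFDerivAt_const (1 : ℝ) x).add h1).mul h3).prodMk
    ((((hasFDerivAt_const (1 : ℝ) x).sub h1).mul h3).prodMk (h4.smul hw))
  refine ⟨_, h5, fun v => ?_⟩
  simp only [s2coneb_q']
  refine Prod.ext ?_ (Prod.ext ?_ ?_)
  · simp
    ring
  · simp
    ring
  · simp [mul_comm]

omit [FiniteDimensional ℝ X] [FiniteDimensional ℝ H] in
theorem s2coneb_hasFDerivAt_S {t : X → ℝ} {w : X → G} {x : X} {t' : X →L[ℝ] ℝ} {w' : X →L[ℝ] G}
    (ht : HasFDerivAt t t' x) (hw : HasFDerivAt w w' x) (h0 : t x ≠ 0) (v : X) :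
    fderiv ℝ (fun x => coneS H (t x) (w x)) x v =
      s2coneb_I H (s2coneb_q' (t x) (w x) (t' v) (w' v)) := by
  obtain ⟨q', h1, h2⟩ := s2coneb_hasFDerivAt_q ht hw h0
  have h3 := ((s2coneb_I H : (ℝ × ℝ × G) →ₗ[ℝ] _).toContinuousLinearMap.hasFDerivAt
    (x := s2coneb_q (t x) (w x))).comp x h1
  have h4 : (fun x => coneS H (t x) (w x)) =
      (s2coneb_I H : (ℝ × ℝ × G) →ₗ[ℝ] _).toContinuousLinearMap ∘
        (fun x => s2coneb_q (t x) (w x)) := by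
    funext x
    exact s2coneb_S_eq _ _
  rw [h4, h3.fderiv, ← h2]
  rfl

/-! ### the lift of a cone -/

omit [FiniteDimensional ℝ H] [FiniteDimensional ℝ G] in
theorem s2coneb_vec {f N : H} {t κ : ℝ} {w : G} (hf1 : ‖f‖ = 1) (hfN : ⟪f, N⟫ = 0) (ht : t ≠ 0)
    (h0 : κ ≠ 0) {F ν : WithLp 2 (H × G)} (hf : F = WithLp.toLp 2 (t • f, w))
    (hν : ν = WithLp.toLp 2 (N, 0)) :
    (0, WithLp.toLp 2 (0, WithLp.toLp 2 (f + κ⁻¹ • N, 0)), κ⁻¹) + coneS H t w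
      = κ⁻¹ • ((κ / t) • ptSph F + plSph F ν) := by
  have hF : ‖F‖ ^ 2 = t ^ 2 + ‖w‖ ^ 2 := by
    rw [hf, WithLp.prod_norm_sq_eq_of_L2]
    simp only [WithLp.toLp_fst, WithLp.toLp_snd, norm_smul, mul_pow, Real.norm_eq_abs, sq_abs, hf1]
    ring
  have hFν : ⟪F, ν⟫ = 0 := by
    rw [hf, hν, WithLp.prod_inner_apply]
    simp only [inner_smul_left, hfN, inner_zero_right, mul_zero, add_zero]
  refine Prod.ext ?_ (Prod.ext ?_ ?_)
  · simp only [coneS, ptSph, plSph, hF, hFν]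
    simp
    field_simp
  · refine WithLp.ofLp_injective 2 (Prod.ext ?_ ?_)
    · simp only [coneS, ptSph, plSph, hF, hFν]
      simp
      field_simp
    · refine WithLp.ofLp_injective 2 (Prod.ext ?_ ?_)
      · simp only [coneS, ptSph, plSph, hf, hν]
        simp
        match_scalars
        field_simp
      · simp only [coneS, ptSph, plSph, hf, hν]
        simp
        match_scalars
        field_simp
  · simp only [coneS, ptSph, plSph]
    simp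

/-- **Module S2CONEB.** -/
theorem cone_canon {W : SHyp Y H} {κ₁ κ₂ : Y → ℝ} (hW : TwoDupinS W κ₁ κ₂)
    {T : EHyp X (WithLp 2 (H × G))} {u : X → Y} {t : X → ℝ} {w : X → G}
    (hu : ContDiffOn ℝ ∞ u T.U) (ht : ContDiffOn ℝ ∞ t T.U) (hw : ContDiffOn ℝ ∞ w T.U)
    (h : ∀ x ∈ T.U, u x ∈ W.U ∧ 0 < t x ∧ T.f x = WithLp.toLp 2 (t x • W.f (u x), w x) ∧
      T.ν x = WithLp.toLp 2 (W.ν (u x), 0)) {x₀ : X} (hx₀ : x₀ ∈ T.U)
    (h1 : κ₁ (u x₀) ≠ 0) (h2 : κ₂ (u x₀) ≠ 0) {m : Fin 3 → ℕ}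
    (m0 : finrank ℝ (prin W.f W.ν (κ₂ (u x₀)) (u x₀)) = m 0)
    (m1 : finrank ℝ (prin W.f W.ν (κ₁ (u x₀)) (u x₀)) = m 1)
    (m2 : finrank ℝ G + 1 = m 2) :
    ∃ μ : Fin 3 → ℝ, μ 0 + μ 1 + μ 2 = 0 ∧
      ConfEqAt (lieForm (WithLp 2 (ℝ × WithLp 2 (H × G)))) T.toSphere.lift T.U x₀
        (mForm m μ) (mFam m μ) (mU m μ) 0 := by
  have hmeq : m = ![finrank ℝ (prin W.f W.ν (κ₂ (u x₀)) (u x₀)),
      finrank ℝ (prin W.f W.ν (κ₁ (u x₀)) (u x₀)), finrank ℝ (ℝ × G)] := by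
    funext i
    fin_cases i
    · exact m0.symm
    · exact m1.symm
    · change m 2 = finrank ℝ (ℝ × G)
      rw [← m2, Module.finrank_prod, Module.finrank_self]
      omega
  -- the open sets
  set N : Set Y := W.U ∩ (fun y => κ₁ y * κ₂ y) ⁻¹' {0}ᶜ with hN
  have hNo : IsOpen N := (hW.smooth₁.mul hW.smooth₂).continuousOn.isOpen_inter_preimage W.isOpen_U
    isOpen_compl_singleton
  have hN1 : ∀ y ∈ N, κ₁ y ≠ 0 := fun y hy h0 => hy.2 (by simp [h0])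
  have hN2 : ∀ y ∈ N, κ₂ y ≠ 0 := fun y hy h0 => hy.2 (by simp [h0])
  set U : Set X := T.U ∩ u ⁻¹' N with hU
  have hUo : IsOpen U := hu.continuousOn.isOpen_inter_preimage T.isOpen_U hNo
  have hxU : x₀ ∈ U := ⟨hx₀, (h x₀ hx₀).1, mul_ne_zero h1 h2⟩
  have hy₀ : u x₀ ∈ W.U := (h x₀ hx₀).1
  have ht0 : 0 < t x₀ := (h x₀ hx₀).2.1
  -- derivatives at `x₀`
  have dt : HasFDerivAt t (fderiv ℝ t x₀) x₀ :=
    ((ht.contDiffAt (T.isOpen_U.mem_nhds hx₀)).differentiableAt (by simp)).hasFDerivAt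
  have dw : HasFDerivAt w (fderiv ℝ w x₀) x₀ :=
    ((hw.contDiffAt (T.isOpen_U.mem_nhds hx₀)).differentiableAt (by simp)).hasFDerivAt
  have du : HasFDerivAt u (fderiv ℝ u x₀) x₀ :=
    ((hu.contDiffAt (T.isOpen_U.mem_nhds hx₀)).differentiableAt (by simp)).hasFDerivAt
  have dWf : HasFDerivAt W.f (fderiv ℝ W.f (u x₀)) (u x₀) :=
    ((W.smooth_f.contDiffAt (W.isOpen_U.mem_nhds hy₀)).differentiableAt (by simp)).hasFDerivAt
  have key : ∀ v, fderiv ℝ u x₀ v = 0 → fderiv ℝ t x₀ v = 0 → fderiv ℝ w x₀ v = 0 → v = 0 := by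
    intro v e1 e2 e3
    apply T.immersion x₀ hx₀
    have d1 : HasFDerivAt (fun x => (t x • W.f (u x), w x))
        ((t x₀ • ((fderiv ℝ W.f (u x₀)).comp (fderiv ℝ u x₀)) +
          (fderiv ℝ t x₀).smulRight (W.f (u x₀))).prod (fderiv ℝ w x₀)) x₀ :=
      (dt.smul (dWf.comp x₀ du)).prodMk dw
    have d2 := ((WithLp.prodContinuousLinearEquiv 2 ℝ H G).symm.toContinuousLinearMap.hasFDerivAt
      (x := (t x₀ • W.f (u x₀), w x₀))).comp x₀ d1
    have d3 : HasFDerivAt T.f ((WithLp.prodContinuousLinearEquiv 2 ℝ H G).symm.toContinuousLinearMap.comp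
        ((t x₀ • ((fderiv ℝ W.f (u x₀)).comp (fderiv ℝ u x₀)) +
          (fderiv ℝ t x₀).smulRight (W.f (u x₀))).prod (fderiv ℝ w x₀))) x₀ := by
      refine d2.congr_of_eventuallyEq ?_
      filter_upwards [T.isOpen_U.mem_nhds hx₀] with x hx
      rw [(h x hx).2.2.1]
      rfl
    rw [d3.fderiv]
    have e4 : ((t x₀ • ((fderiv ℝ W.f (u x₀)).comp (fderiv ℝ u x₀)) +
          (fderiv ℝ t x₀).smulRight (W.f (u x₀))).prod (fderiv ℝ w x₀)) v = 0 := by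
      simp [e1, e2, e3]
    change (WithLp.prodContinuousLinearEquiv 2 ℝ H G).symm
      (((t x₀ • ((fderiv ℝ W.f (u x₀)).comp (fderiv ℝ u x₀)) +
          (fderiv ℝ t x₀).smulRight (W.f (u x₀))).prod (fderiv ℝ w x₀)) v) = 0
    rw [e4, map_zero]
  have hds : ∀ v, fderiv ℝ (fun x => coneS H (t x) (w x)) x₀ v =
      s2coneb_I H (s2coneb_q' (t x₀) (w x₀) (fderiv ℝ t x₀ v) (fderiv ℝ w x₀ v)) :=
    fun v => s2coneb_hasFDerivAt_S dt dw ht0.ne' v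
  have hdsds : ∀ v, lieForm _ (fderiv ℝ (fun x => coneS H (t x) (w x)) x₀ v)
      (fderiv ℝ (fun x => coneS H (t x) (w x)) x₀ v) =
      ((fderiv ℝ t x₀ v) ^ 2 + ‖fderiv ℝ w x₀ v‖ ^ 2) / t x₀ ^ 2 := by
    intro v
    rw [hds, s2coneb_q'q' ht0]
  -- the lift
  have hlift : ∀ x ∈ U, T.toSphere.lift x = Submodule.span ℝ
      {coneZ G W κ₁ (u x) + coneS H (t x) (w x), coneZ G W κ₂ (u x) + coneS H (t x) (w x)} ∧
      LinearIndependent ℝ ![coneZ G W κ₁ (u x) + coneS H (t x) (w x),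
        coneZ G W κ₂ (u x) + coneS H (t x) (w x)] := by
    intro x hx
    obtain ⟨a1, a2, a3, a4⟩ := h x hx.1
    have hne : κ₁ (u x) / t x ≠ κ₂ (u x) / t x := by
      intro e
      apply hW.ne _ a1
      field_simp at e
      exact e
    exact T.lift_eq_of hx.1 hne (inv_ne_zero (hN1 _ hx.2)) (inv_ne_zero (hN2 _ hx.2))
      (s2coneb_vec (W.norm_f _ a1) (W.inner_f _ a1) a2.ne' (hN1 _ hx.2) a3 a4)
      (s2coneb_vec (W.norm_f _ a1) (W.inner_f _ a1) a2.ne' (hN2 _ hx.2) a3 a4)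
  have hcompl : ∀ y ∈ N, IsCompl (prin W.f W.ν (κ₁ y) y) (prin W.f W.ν (κ₂ y) y) :=
    fun y hy => isCompl_prin (W.immersion y hy.1) (hW.ne y hy.1) (hW.top y hy.1)
  have hsmZ : ∀ κ : Y → ℝ, ContDiffOn ℝ ∞ κ W.U → (∀ y ∈ N, κ y ≠ 0) →
      ContDiffOn ℝ ∞ (coneZ G W κ) N := by
    intro κ hκ h0
    have e1 : ContDiffOn ℝ ∞ (fun y => (κ y)⁻¹) N := (hκ.mono inter_subset_left).inv h0
    have e2 : ContDiffOn ℝ ∞ (s2coneb_p W κ) N :=
      ((W.smooth_f.mono inter_subset_left).add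
        (e1.smul (W.smooth_ν.mono inter_subset_left))).prodMk e1
    exact (s2coneb_J G : (H × ℝ) →ₗ[ℝ] _).toContinuousLinearMap.contDiff.comp_contDiffOn e2
  have hsmS : ContDiffOn ℝ ∞ (fun x => coneS H (t x) (w x)) U := by
    have et := ht.mono (inter_subset_left : U ⊆ T.U)
    have ew := hw.mono (inter_subset_left : U ⊆ T.U)
    have e0 : ∀ x ∈ U, t x ≠ 0 := fun x hx => (h x hx.1).2.1.ne'
    have e1 : ContDiffOn ℝ ∞ (fun x => t x ^ 2 + ‖w x‖ ^ 2) U := (et.pow 2).add (ew.norm_sq ℝ)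
    have e2 : ContDiffOn ℝ ∞ (fun x => (2 * t x)⁻¹) U :=
      (contDiffOn_const.mul et).inv (fun x hx => mul_ne_zero two_ne_zero (e0 x hx))
    have e3 : ContDiffOn ℝ ∞ (fun x => s2coneb_q (t x) (w x)) U :=
      ((contDiffOn_const.add e1).mul e2).prodMk
        (((contDiffOn_const.sub e1).mul e2).prodMk ((et.inv e0).smul ew))
    have e4 := (s2coneb_I H : (ℝ × ℝ × G) →ₗ[ℝ] _).toContinuousLinearMap.contDiff.comp_contDiffOn e3
    refine e4.congr fun x _ => ?_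
    exact s2coneb_S_eq _ _
  have hZS : ∀ κ : Y → ℝ, ∀ y ∈ N, ∀ x ∈ U,
      lieForm _ (coneZ G W κ y + coneS H (t x) (w x)) (coneZ G W κ y + coneS H (t x) (w x)) = 0 := by
    intro κ y hy x hx
    have e1 : lieForm _ (coneZ G W κ y) (coneS H (t x) (w x)) = 0 := by
      rw [s2coneb_Z_eq, s2coneb_S_eq, s2coneb_JI]
    have e2 : lieForm _ (coneS H (t x) (w x)) (coneZ G W κ y) = 0 := by
      rw [s2coneb_Z_eq, s2coneb_S_eq, s2coneb_IJ]
    simp only [map_add, LinearMap.add_apply]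
    rw [e1, e2, s2coneb_ZZ W κ κ hy.1, s2coneb_SS (h x hx.1).2.1]
    norm_num
  have hposZ : ∀ κ : Y → ℝ, ContDiffOn ℝ ∞ κ W.U → κ (u x₀) ≠ 0 →
      (∀ v ∈ prin W.f W.ν (κ (u x₀)) (u x₀), fderiv ℝ κ (u x₀) v = 0) →
      ∀ v, fderiv ℝ (coneZ G W κ) (u x₀) v ≠ 0 →
      0 < lieForm _ (fderiv ℝ (coneZ G W κ) (u x₀) v) (fderiv ℝ (coneZ G W κ) (u x₀) v) := by
    intro κ hκ h0 hd v hv
    rw [s2coneb_dZdZ W hκ hy₀ h0]
    have e0 : fderiv ℝ W.f (u x₀) v + (κ (u x₀))⁻¹ • fderiv ℝ W.ν (u x₀) v ≠ 0 := by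
      intro e
      apply hv
      rw [s2coneb_ker W hκ hy₀ h0 hd, mem_prin]
      have h3 : fderiv ℝ W.ν (u x₀) v + κ (u x₀) • fderiv ℝ W.f (u x₀) v =
          κ (u x₀) • (fderiv ℝ W.f (u x₀) v + (κ (u x₀))⁻¹ • fderiv ℝ W.ν (u x₀) v) := by
        rw [smul_add, smul_smul, mul_inv_cancel₀ h0, one_smul, add_comm]
      rw [h3, e, smul_zero]
    positivity
  have hzero : ∀ v, lieForm _ (fderiv ℝ (fun x => coneS H (t x) (w x)) x₀ v)
      (fderiv ℝ (fun x => coneS H (t x) (w x)) x₀ v) = 0 →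
      fderiv ℝ t x₀ v = 0 ∧ fderiv ℝ w x₀ v = 0 := by
    intro v hv
    rw [hdsds, div_eq_zero_iff, or_iff_left (by positivity)] at hv
    have e1 := sq_nonneg (fderiv ℝ t x₀ v)
    have e2 := sq_nonneg ‖fderiv ℝ w x₀ v‖
    refine ⟨?_, ?_⟩
    · exact pow_eq_zero_iff (two_ne_zero) |>.1 (by linarith)
    · exact norm_eq_zero.1 (pow_eq_zero_iff (two_ne_zero) |>.1 (by linarith))
  have hpos3 : ∀ v, fderiv ℝ (fun x => coneS H (t x) (w x)) x₀ v ≠ 0 →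
      0 < lieForm _ (fderiv ℝ (fun x => coneS H (t x) (w x)) x₀ v)
        (fderiv ℝ (fun x => coneS H (t x) (w x)) x₀ v) := by
    intro v hv
    refine lt_of_le_of_ne (by rw [hdsds]; positivity) fun e => hv ?_
    obtain ⟨e1, e2⟩ := hzero v e.symm
    rw [hds, e1, e2, s2coneb_q'_zero, map_zero]
  have hdimX : finrank ℝ X = finrank ℝ Y + finrank ℝ (ℝ × G) := by
    have e1 := T.dim
    have e2 := W.dim
    rw [finrank_wlp] at e1
    rw [Module.finrank_prod, Module.finrank_self]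
    omega
  obtain ⟨μ, hμ, ⟨A, hA, φ, ψ, N₁, N', hφ, hxN, hNU, hNU', hφx, hL⟩, -, -⟩ :=
    star_canon (B := lieForm (WithLp 2 (ℝ × WithLp 2 (H × G)))) (U := U) (x₀ := x₀) (u := u)
      (N := N) (z₁ := coneZ G W κ₁) (z₂ := coneZ G W κ₂) (s := fun x => coneS H (t x) (w x))
      (K₁ := fun y => prin W.f W.ν (κ₁ y) y) (K₂ := fun y => prin W.f W.ν (κ₂ y) y)
      ((fderiv ℝ t x₀).toLinearMap.prod (fderiv ℝ w x₀).toLinearMap)
      lieForm_isSymm lieForm_nondegenerate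
      (by
        have e1 := T.dim
        rw [Module.finrank_prod, Module.finrank_prod, finrank_wlp, Module.finrank_self, e1]
        omega)
      hUo hxU hNo (fun x hx => hx.2) (hu.mono inter_subset_left) (hsmZ κ₁ hW.smooth₁ hN1)
      (hsmZ κ₂ hW.smooth₂ hN2) hsmS hcompl (hW.ne_bot₁ _ hy₀) (hW.ne_bot₂ _ hy₀)
      (fun y hy v => s2coneb_ker W hW.smooth₁ hy.1 (hN1 y hy) (hW.deriv₁ y hy.1) v)
      (fun y hy v => s2coneb_ker W hW.smooth₂ hy.1 (hN2 y hy) (hW.deriv₂ y hy.1) v)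
      (fun y hy => by
        simp only [map_sub, LinearMap.sub_apply]
        rw [s2coneb_ZZ W κ₁ κ₁ hy.1, s2coneb_ZZ W κ₁ κ₂ hy.1, s2coneb_ZZ W κ₂ κ₁ hy.1,
          s2coneb_ZZ W κ₂ κ₂ hy.1]
        norm_num)
      (hZS κ₁) (hZS κ₂)
      (hposZ κ₁ hW.smooth₁ h1 (hW.deriv₁ _ hy₀)) (hposZ κ₂ hW.smooth₂ h2 (hW.deriv₂ _ hy₀)) hpos3
      (fun v e1 e2 => by
        obtain ⟨e3, e4⟩ := hzero v (by rw [e2]; simp)
        exact key v e1 e3 e4)
      (fun v e1 e2 => key v e1 (congrArg Prod.fst e2) (congrArg Prod.snd e2))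
      hdimX (by rw [Module.finrank_prod, Module.finrank_self]; omega) (hlift x₀ hxU).2
  rw [hmeq]
  refine ⟨μ, hμ, A, hA, φ, ψ, N₁, N', hφ, hxN, fun x hx => (hNU hx).1, hNU', hφx, fun x hx => ?_⟩
  rw [← hL x hx, (hlift x (hNU hx)).1]

end

end DupinClass

end S_S2CONEB_pf
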