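import Mathlib
import Pool.Agent.H31.DC.D10
import Pool.Agent.H31.DC.D15
import Pool.Agent.H31.DC.D16
import Pool.Agent.H31.DC.D17

/-! Reducible Dupin hypersurfaces, part D18 (several modules joined to save build time). -/

section S_S2CYLP_pf

open scoped RealInnerProductSpace ContDiff Topology
open Module Set

namespace DupinClass

/-! ## Module S2CYLP: the cylinder over a proper Dupin hypersurface is proper Dupin -/

section

variable {Y E : Type} [NormedAddCommGroup Y] [NormedSpace ℝ Y] [FiniteDimensional ℝ Y]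
  [NormedAddCommGroup E] [InnerProductSpace ℝ E] [FiniteDimensional ℝ E]
  (W : EHyp Y E) (G : Type) [NormedAddCommGroup G] [InnerProductSpace ℝ G] [FiniteDimensional ℝ G]

theorem s2cylp_mem_prin_iff {z : Y × G} (hz : z.1 ∈ W.U) (k : ℝ) (v : Y × G) :
    v ∈ prin (W.cyl G).f (W.cyl G).ν k z ↔ v.1 ∈ prin W.f W.ν k z.1 ∧ k • v.2 = 0 := by
  rw [mem_prin, mem_prin]
  change fderiv ℝ (fun z : Y × G => (WithLp.toLp 2 (W.ν z.1, 0) : WithLp 2 (E × G))) z v
    + k • fderiv ℝ (fun z : Y × G => (WithLp.toLp 2 (W.f z.1, z.2) : WithLp 2 (E × G))) z v = 0 ↔ _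
  rw [cyl_fderiv_f W G hz, cyl_fderiv_ν W G hz]
  constructor
  · intro h
    have h1 := congrArg WithLp.ofLp h
    have h2 := congrArg Prod.fst h1
    have h3 := congrArg Prod.snd h1
    simp only [WithLp.ofLp_add, WithLp.ofLp_smul, Prod.fst_add, Prod.snd_add, Prod.smul_fst,
      Prod.smul_snd, WithLp.ofLp_zero, Prod.fst_zero, Prod.snd_zero, zero_add] at h2 h3
    exact ⟨h2, h3⟩
  · rintro ⟨h2, h3⟩
    apply WithLp.ofLp_injective 2
    apply Prod.ext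
    · simpa only [WithLp.ofLp_add, WithLp.ofLp_smul, Prod.fst_add, Prod.smul_fst,
        WithLp.ofLp_zero, Prod.fst_zero] using h2
    · simpa only [WithLp.ofLp_add, WithLp.ofLp_smul, Prod.snd_add,
        Prod.smul_snd, WithLp.ofLp_zero, Prod.snd_zero, zero_add] using h3

theorem s2cylp_prin_left {z : Y × G} (hz : z.1 ∈ W.U) {k : ℝ} (hk : k ≠ 0) :
    prin (W.cyl G).f (W.cyl G).ν k z = (prin W.f W.ν k z.1).map (LinearMap.inl ℝ Y G) := by
  ext v
  rw [s2cylp_mem_prin_iff W G hz, Submodule.mem_map]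
  constructor
  · rintro ⟨h1, h2⟩
    exact ⟨v.1, h1, Prod.ext rfl ((smul_eq_zero.1 h2).resolve_left hk).symm⟩
  · rintro ⟨x, hx, rfl⟩
    exact ⟨hx, smul_zero k⟩

theorem s2cylp_prin_right (h0 : ∀ y ∈ W.U, prin W.f W.ν 0 y = ⊥) {z : Y × G} (hz : z.1 ∈ W.U) :
    prin (W.cyl G).f (W.cyl G).ν 0 z = LinearMap.range (LinearMap.inr ℝ Y G) := by
  ext v
  rw [s2cylp_mem_prin_iff W G hz, h0 _ hz, Submodule.mem_bot, LinearMap.mem_range]
  constructor
  · rintro ⟨h1, -⟩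
    exact ⟨v.2, Prod.ext h1.symm rfl⟩
  · rintro ⟨x, rfl⟩
    exact ⟨rfl, zero_smul _ _⟩

omit [FiniteDimensional ℝ G] in
theorem s2cylp_fderiv {κ : Y → ℝ} (hκ : ContDiffOn ℝ ∞ κ W.U) {z : Y × G} (hz : z.1 ∈ W.U)
    {x : Y} (hx : fderiv ℝ κ z.1 x = 0) :
    fderiv ℝ (fun z : Y × G => κ z.1) z (x, 0) = 0 := by
  have hd : HasFDerivAt κ (fderiv ℝ κ z.1) z.1 :=
    ((hκ.contDiffAt (W.isOpen_U.mem_nhds hz)).differentiableAt (by simp)).hasFDerivAt
  have h1 : HasFDerivAt (fun z : Y × G => κ z.1)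
      ((fderiv ℝ κ z.1).comp (ContinuousLinearMap.fst ℝ Y G)) z := hd.comp z hasFDerivAt_fst
  rw [h1.fderiv, ContinuousLinearMap.comp_apply]
  exact hx

/-- **Module S2CYLP.** -/
theorem EHyp.cyl_properDupin (hG : 1 ≤ finrank ℝ G)
    (h0 : ∀ y ∈ W.U, prin W.f W.ν 0 y = ⊥) {m₁ m₂ : ℕ}
    (h : ProperDupinWith W.f W.ν W.U ![m₁, m₂]) :
    ProperDupinWith (W.cyl G).f (W.cyl G).ν (W.cyl G).U ![m₁, m₂, finrank ℝ G] := by
  obtain ⟨κ, hs, hne, hm, hrk, htop, hder⟩ := h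
  have hκ0 : ∀ i, ∀ y ∈ W.U, κ i y ≠ 0 := by
    intro i y hy h1
    have h2 := hrk y hy i
    rw [h1, h0 y hy, finrank_bot] at h2
    have := hm i
    omega
  have hdiff : ∀ z ∈ (W.cyl G).U, κ 0 z.1 ≠ κ 1 z.1 := fun z hz => hne z.1 hz 0 1 (by decide)
  refine ⟨![fun z => κ 0 z.1, fun z => κ 1 z.1, fun _ => 0], ?_, ?_, ?_, ?_, ?_, ?_⟩
  · intro i
    fin_cases i
    · exact (hs 0).comp contDiff_fst.contDiffOn (fun _ hz => hz)
    · exact (hs 1).comp contDiff_fst.contDiffOn (fun _ hz => hz)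
    · exact contDiffOn_const
  · intro z hz i j hij
    fin_cases i <;> fin_cases j <;> first | exact absurd rfl hij | skip
    · exact hdiff z hz
    · exact hκ0 0 z.1 hz
    · exact (hdiff z hz).symm
    · exact hκ0 1 z.1 hz
    · exact (hκ0 0 z.1 hz).symm
    · exact (hκ0 1 z.1 hz).symm
  · intro i
    fin_cases i
    · exact hm 0
    · exact hm 1
    · exact hG
  · intro z hz i
    fin_cases i
    · show finrank ℝ (prin _ _ (κ 0 z.1) z) = m₁
      rw [s2cylp_prin_left W G hz (hκ0 0 z.1 hz),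
        ← (Submodule.equivMapOfInjective _ (LinearMap.inl_injective (R := ℝ) (M := Y) (M₂ := G))
          _).finrank_eq]
      exact hrk z.1 hz 0
    · show finrank ℝ (prin _ _ (κ 1 z.1) z) = m₂
      rw [s2cylp_prin_left W G hz (hκ0 1 z.1 hz),
        ← (Submodule.equivMapOfInjective _ (LinearMap.inl_injective (R := ℝ) (M := Y) (M₂ := G))
          _).finrank_eq]
      exact hrk z.1 hz 1
    · show finrank ℝ (prin _ _ 0 z) = finrank ℝ G
      rw [s2cylp_prin_right W G h0 hz]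
      exact LinearMap.finrank_range_of_inj LinearMap.inr_injective
  · intro z hz
    have h1 := htop z.1 hz
    rw [eq_top_iff]
    rintro ⟨x, γ⟩ -
    have hx : x ∈ prin W.f W.ν (κ 0 z.1) z.1 ⊔ prin W.f W.ν (κ 1 z.1) z.1 := by
      have h2 : (⨆ i, prin W.f W.ν (κ i z.1) z.1)
          ≤ prin W.f W.ν (κ 0 z.1) z.1 ⊔ prin W.f W.ν (κ 1 z.1) z.1 := by
        apply iSup_le
        intro i
        fin_cases i
        · exact le_sup_left
        · exact le_sup_right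
      exact h2 (h1 ▸ Submodule.mem_top)
    obtain ⟨x₀, hx₀, x₁, hx₁, rfl⟩ := Submodule.mem_sup.1 hx
    have e : ((x₀ + x₁, γ) : Y × G) = (x₀, 0) + (x₁, 0) + (0, γ) := by
      simp
    rw [e]
    refine Submodule.add_mem _ (Submodule.add_mem _ ?_ ?_) ?_
    · refine (le_iSup (fun i => prin (W.cyl G).f (W.cyl G).ν
        ((![fun z => κ 0 z.1, fun z => κ 1 z.1, fun _ => 0] : Fin 3 → Y × G → ℝ) i z) z) 0) ?_
      show _ ∈ prin _ _ (κ 0 z.1) z
      rw [s2cylp_prin_left W G hz (hκ0 0 z.1 hz)]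
      exact ⟨x₀, hx₀, rfl⟩
    · refine (le_iSup (fun i => prin (W.cyl G).f (W.cyl G).ν
        ((![fun z => κ 0 z.1, fun z => κ 1 z.1, fun _ => 0] : Fin 3 → Y × G → ℝ) i z) z) 1) ?_
      show _ ∈ prin _ _ (κ 1 z.1) z
      rw [s2cylp_prin_left W G hz (hκ0 1 z.1 hz)]
      exact ⟨x₁, hx₁, rfl⟩
    · refine (le_iSup (fun i => prin (W.cyl G).f (W.cyl G).ν
        ((![fun z => κ 0 z.1, fun z => κ 1 z.1, fun _ => 0] : Fin 3 → Y × G → ℝ) i z) z) 2) ?_
      show _ ∈ prin _ _ 0 z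
      rw [s2cylp_prin_right W G h0 hz]
      exact ⟨γ, rfl⟩
  · intro z hz i v hv
    fin_cases i
    · change v ∈ prin _ _ (κ 0 z.1) z at hv
      rw [s2cylp_prin_left W G hz (hκ0 0 z.1 hz)] at hv
      obtain ⟨x, hx, rfl⟩ := hv
      exact s2cylp_fderiv W G (hs 0) hz (hder z.1 hz 0 x hx)
    · change v ∈ prin _ _ (κ 1 z.1) z at hv
      rw [s2cylp_prin_left W G hz (hκ0 1 z.1 hz)] at hv
      obtain ⟨x, hx, rfl⟩ := hv
      exact s2cylp_fderiv W G (hs 1) hz (hder z.1 hz 1 x hx)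
    · show fderiv ℝ (fun _ : Y × G => (0 : ℝ)) z v = 0
      simp

end

end DupinClass

end S_S2CYLP_pf

section S_S2NORM_pf

open scoped RealInnerProductSpace ContDiff Topology
open Module Set

namespace DupinClass

theorem s2norm_pos_neg {μ : Fin 3 → ℝ} (hμ : μ 0 + μ 1 + μ 2 = 0) (h0 : μ ≠ 0) :
    (∃ i, 0 < μ i) ∧ ∃ j, μ j < 0 := by
  constructor
  · by_contra hcon
    push Not at hcon
    apply h0
    funext i
    have h1 := hcon 0
    have h2 := hcon 1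
    have h3 := hcon 2
    fin_cases i <;> simp <;> linarith
  · by_contra hcon
    push Not at hcon
    apply h0
    funext i
    have h1 := hcon 0
    have h2 := hcon 1
    have h3 := hcon 2
    fin_cases i <;> simp <;> linarith

/-- there is a permutation sending `i` to `0` and `j` to `2`. -/
theorem s2norm_perm : ∀ i j : Fin 3, i ≠ j → ∃ π : Equiv.Perm (Fin 3), π i = 0 ∧ π j = 2 := by
  decide

/-- **Module S2NORM.** -/
theorem canonical_normal {m : Fin 3 → ℕ} {μ : Fin 3 → ℝ} (hm : ∀ i, 1 ≤ m i)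
    (hμ : μ 0 + μ 1 + μ 2 = 0) (h0 : μ ≠ 0) :
    ∃ p q r : ℕ, 1 ≤ p ∧ 1 ≤ q ∧ 1 ≤ r ∧ ∃ ρ : ℝ, 0 < ρ ∧
      ConfEqAt (mForm m μ) (mFam m μ) (mU m μ) 0 (mForm ![p, q, r] ![ρ ^ 2, 1 - ρ ^ 2, -1])
        (mFam ![p, q, r] ![ρ ^ 2, 1 - ρ ^ 2, -1]) (mU ![p, q, r] ![ρ ^ 2, 1 - ρ ^ 2, -1]) 0 := by
  obtain ⟨⟨i, hi⟩, j, hj⟩ := s2norm_pos_neg hμ h0
  have hij : i ≠ j := by rintro rfl; linarith
  obtain ⟨π, hπi, hπj⟩ := s2norm_perm i j hij
  set c : ℝ := 1 / (-μ j) with hc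
  have hc0 : 0 < c := by rw [hc]; exact one_div_pos.2 (by linarith)
  have hcj : c * μ j = -1 := by
    have hj' : μ j ≠ 0 := hj.ne
    rw [hc, one_div, inv_neg, neg_mul, inv_mul_cancel₀ hj']
  have hcs : c * μ 0 + c * μ 1 + c * μ 2 = 0 := by linear_combination c * hμ
  have hsum : ∑ l, c * μ (π.symm l) = 0 := by
    rw [Equiv.sum_comp π.symm (fun l => c * μ l), Fin.sum_univ_three, hcs]
  rw [Fin.sum_univ_three] at hsum
  have h20 : π.symm 2 = j := by rw [← hπj, Equiv.symm_apply_apply]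
  have h00 : π.symm 0 = i := by rw [← hπi, Equiv.symm_apply_apply]
  rw [h20, h00, hcj] at hsum
  have hρ : 0 < c * μ i := mul_pos hc0 hi
  refine ⟨m (π.symm 0), m (π.symm 1), m (π.symm 2), hm _, hm _, hm _, √(c * μ i),
    Real.sqrt_pos.2 hρ, canonical_rel hm hμ π hc0 fun l => ?_⟩
  rw [Real.sq_sqrt hρ.le]
  obtain ⟨l', rfl⟩ := π.symm.surjective l
  rw [Equiv.apply_symm_apply]
  fin_cases l'
  · exact ⟨rfl, by simp [h00]⟩
  · refine ⟨rfl, ?_⟩
    simp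
    linarith
  · refine ⟨rfl, ?_⟩
    change (-1 : ℝ) = c * μ (π.symm 2)
    rw [h20, hcj]

end DupinClass

end S_S2NORM_pf

section S_S2Main

open scoped RealInnerProductSpace ContDiff Topology
open Module Set

namespace DupinClass

section

variable {X H : Type} [NormedAddCommGroup X] [NormedSpace ℝ X] [FiniteDimensional ℝ X]
  [NormedAddCommGroup H] [InnerProductSpace ℝ H] [FiniteDimensional ℝ H]

omit [FiniteDimensional ℝ H] in
theorem one_le_finrank_of_dupin {M : SHyp X H} (h3 : ProperDupin M.f M.ν M.U 3) {x : X}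
    (hx : x ∈ M.U) : 1 ≤ finrank ℝ X := by
  obtain ⟨κ, -, -, hprin, -, -⟩ := h3
  by_contra hlt
  have h0 : finrank ℝ X = 0 := by omega
  have : Subsingleton X := Module.finrank_zero_iff.mp h0
  exact hprin x hx 0 (Subsingleton.elim _ _)

/-- Every hypersurface which is reducible in the sense of Pinkall is equivalent to a canonical
model. -/
theorem reducible'_canon (M : SHyp X H) (h3 : ProperDupin M.f M.ν M.U 3) {x : X} (hx : x ∈ M.U)
    (hM : M.ReducibleAt' x) :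
    ∃ (m : Fin 3 → ℕ) (μ : Fin 3 → ℝ), (∀ i, 1 ≤ m i) ∧ μ 0 + μ 1 + μ 2 = 0 ∧
      ConfEqAt (lieForm H) M.lift M.U x (mForm m μ) (mFam m μ) (mU m μ) 0 := by
  have hX := one_le_finrank_of_dupin h3 hx
  rcases hM with ⟨W, hW, hG, r, hr, T, hT, x', hx', hL⟩ |
    ⟨W, hW, hG, T, ⟨u, t, hu, ht, h⟩, x', hx', hL⟩ |
    ⟨W, hW, hG, T, ⟨u, e, hu, he, h⟩, x', hx', hL⟩ |
    ⟨W, hW, T, ⟨u, t, w, hu, ht, hw, h⟩, x', hx', hL⟩
  · obtain ⟨p, q, m, hp, hq, hm, -, ρ, hρ, hC⟩ := reducible_confEqAt M h3 hx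
      (.tube W hW hG r hr T hT x' hx' hL)
    refine ⟨_, _, ?_, ?_, hC⟩
    · intro i; fin_cases i <;> assumption
    · simp
  · obtain ⟨κ₁, κ₂, hW2⟩ := hW.twoDupin
    have hy := (h x' hx').1
    have h1 : κ₁ (u x') ≠ 0 := by
      intro h0
      obtain ⟨k, hk1, hk2, hk⟩ := exists_third h3 hx hx' hL 0 (κ₂ (u x'))
      rcases cylinder_prin hW2 hu ht h hx' hk with h4 | h4 | h4
      · exact hk1 (h4.trans h0)
      · exact hk2 h4
      · exact hk1 h4
    have h2 : κ₂ (u x') ≠ 0 := by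
      intro h0
      obtain ⟨k, hk1, hk2, hk⟩ := exists_third h3 hx hx' hL 0 (κ₁ (u x'))
      rcases cylinder_prin hW2 hu ht h hx' hk with h4 | h4 | h4
      · exact hk2 h4
      · exact hk1 (h4.trans h0)
      · exact hk1 h4
    obtain ⟨μ, hμ, -, hC, -⟩ := cylinder_canon hW2 hG hu ht h hx' h1 h2
      (m := ![finrank ℝ (prin W.f W.ν (κ₂ (u x')) (u x')),
        finrank ℝ (prin W.f W.ν (κ₁ (u x')) (u x')), finrank ℝ _]) rfl rfl rfl
    refine ⟨_, μ, ?_, hμ, (hL.confEqAt hX).trans hC⟩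
    intro i
    fin_cases i
    · exact Submodule.one_le_finrank_iff.mpr (hW2.ne_bot₂ _ hy)
    · exact Submodule.one_le_finrank_iff.mpr (hW2.ne_bot₁ _ hy)
    · exact hG
  · obtain ⟨κ₁, κ₂, hW2⟩ := hW.twoDupin
    have hy := (h x' hx').1
    have hpos := (h x' hx').2.1
    have h1 : κ₁ (u x') * (WithLp.ofLp (W.f (u x'))).1 + (WithLp.ofLp (W.ν (u x'))).1 ≠ 0 := by
      intro h0
      obtain ⟨k, hk1, hk2, hk⟩ := exists_third h3 hx hx' hL (κ₁ (u x')) (κ₂ (u x'))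
      rcases revolution_prin hW2 hu he h hx' hk with h4 | h4 | h4
      · exact hk1 h4
      · exact hk2 h4
      · apply hk1
        have h5 : (k - κ₁ (u x')) * (WithLp.ofLp (W.f (u x'))).1 = 0 := by linarith
        exact sub_eq_zero.1 ((mul_eq_zero.1 h5).resolve_right hpos.ne')
    have h2 : κ₂ (u x') * (WithLp.ofLp (W.f (u x'))).1 + (WithLp.ofLp (W.ν (u x'))).1 ≠ 0 := by
      intro h0
      obtain ⟨k, hk1, hk2, hk⟩ := exists_third h3 hx hx' hL (κ₁ (u x')) (κ₂ (u x'))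
      rcases revolution_prin hW2 hu he h hx' hk with h4 | h4 | h4
      · exact hk1 h4
      · exact hk2 h4
      · apply hk2
        have h5 : (k - κ₂ (u x')) * (WithLp.ofLp (W.f (u x'))).1 = 0 := by linarith
        exact sub_eq_zero.1 ((mul_eq_zero.1 h5).resolve_right hpos.ne')
    rename_i G X' _ _ _ _ _ _ _ _ _ _ _ _
    obtain ⟨μ, hμ, hC⟩ := revolution_canon hW2 hG hu he h hx' h1 h2
      (m := ![finrank ℝ (prin W.f W.ν (κ₂ (u x')) (u x')),
        finrank ℝ (prin W.f W.ν (κ₁ (u x')) (u x')), finrank ℝ G - 1]) rfl rfl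
        (by simp; omega)
    refine ⟨_, μ, ?_, hμ, (hL.confEqAt hX).trans hC⟩
    intro i
    fin_cases i
    · exact Submodule.one_le_finrank_iff.mpr (hW2.ne_bot₂ _ hy)
    · exact Submodule.one_le_finrank_iff.mpr (hW2.ne_bot₁ _ hy)
    · simp; omega
  · obtain ⟨κ₁, κ₂, hW2⟩ := hW.twoDupinS
    have hy := (h x' hx').1
    have hpos := (h x' hx').2.1
    have h1 : κ₁ (u x') ≠ 0 := by
      intro h0
      obtain ⟨k, hk1, hk2, hk⟩ := exists_third h3 hx hx' hL 0 (κ₂ (u x') / t x')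
      rcases cone_prin hW2 hu ht hw h hx' hk with h4 | h4 | h4
      · rw [h0] at h4
        exact hk1 ((mul_eq_zero.1 h4).resolve_right hpos.ne')
      · exact hk2 (by rw [← h4]; field_simp)
      · exact hk1 h4
    have h2 : κ₂ (u x') ≠ 0 := by
      intro h0
      obtain ⟨k, hk1, hk2, hk⟩ := exists_third h3 hx hx' hL 0 (κ₁ (u x') / t x')
      rcases cone_prin hW2 hu ht hw h hx' hk with h4 | h4 | h4
      · exact hk2 (by rw [← h4]; field_simp)
      · rw [h0] at h4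
        exact hk1 ((mul_eq_zero.1 h4).resolve_right hpos.ne')
      · exact hk1 h4
    obtain ⟨μ, hμ, hC⟩ := cone_canon hW2 hu ht hw h hx' h1 h2
      (m := ![finrank ℝ (prin W.f W.ν (κ₂ (u x')) (u x')),
        finrank ℝ (prin W.f W.ν (κ₁ (u x')) (u x')), finrank ℝ _ + 1]) rfl rfl rfl
    refine ⟨_, μ, ?_, hμ, (hL.confEqAt hX).trans hC⟩
    intro i
    fin_cases i
    · exact Submodule.one_le_finrank_iff.mpr (hW2.ne_bot₂ _ hy)
    · exact Submodule.one_le_finrank_iff.mpr (hW2.ne_bot₁ _ hy)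
    · simp

variable {P Q R : Type} [NormedAddCommGroup P] [InnerProductSpace ℝ P] [FiniteDimensional ℝ P]
  [NormedAddCommGroup Q] [InnerProductSpace ℝ Q] [FiniteDimensional ℝ Q]
  [NormedAddCommGroup R] [InnerProductSpace ℝ R] [FiniteDimensional ℝ R]

theorem modelZ_confEq_of {p q m : ℕ} (hP : finrank ℝ P = p) (hQ : finrank ℝ Q = q)
    (hR : finrank ℝ R = m) (hp : 1 ≤ p) (hq : 1 ≤ q) (hm : 1 ≤ m) {y}
    (hy : y ∈ (modelZ P Q R).U) :
    ConfEqAt (lieForm _) (modelZ P Q R).toSphere.lift (modelZ P Q R).U y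
      (mForm ![p, q, m] 0) (mFam ![p, q, m] 0) (mU ![p, q, m] 0) 0 := by
  subst hP hQ hR
  exact modelZ_confEq hp hq hm hy

theorem main₁' (M : SHyp X H) (h3 : ProperDupin M.f M.ν M.U 3) {x : X} (hx : x ∈ M.U)
    (hM : M.ReducibleAt' x) :
    (∃ p q m : ℕ, 1 ≤ p ∧ 1 ≤ q ∧ 1 ≤ m ∧ p + q + m = finrank ℝ X ∧ ∃ (ρ : ℝ) (hρ : 0 < ρ),
      ∀ (r : ℝ) (hr : 0 < r), ∀ y ∈ (modelT (EuclideanSpace ℝ (Fin p)) (EuclideanSpace ℝ (Fin q))
        (EuclideanSpace ℝ (Fin m)) hρ hr).U,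
        M.LieEq x (modelT (EuclideanSpace ℝ (Fin p)) (EuclideanSpace ℝ (Fin q))
        (EuclideanSpace ℝ (Fin m)) hρ hr).toSphere y) ∨
    (∃ p q m : ℕ, 1 ≤ p ∧ 1 ≤ q ∧ 1 ≤ m ∧ p + q + m = finrank ℝ X ∧
      ∀ y ∈ (modelZ (EuclideanSpace ℝ (Fin p)) (EuclideanSpace ℝ (Fin q))
        (EuclideanSpace ℝ (Fin m))).U,
        M.LieEq x (modelZ (EuclideanSpace ℝ (Fin p)) (EuclideanSpace ℝ (Fin q))
        (EuclideanSpace ℝ (Fin m))).toSphere y) := by
  obtain ⟨m, μ, hm, hμ, hC⟩ := reducible'_canon M h3 hx hM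
  by_cases h0 : μ = 0
  · right
    have hsum := SHyp.sum_of_confEqAt hC
    refine ⟨m 0, m 1, m 2, hm 0, hm 1, hm 2, hsum, fun y hy => ?_⟩
    have hmm : m = ![m 0, m 1, m 2] := by
      funext i; fin_cases i <;> rfl
    rw [h0] at hC
    have h2 := modelZ_confEq_of (finrank_euclideanSpace_fin (𝕜 := ℝ) (n := m 0))
      (finrank_euclideanSpace_fin (𝕜 := ℝ) (n := m 1))
      (finrank_euclideanSpace_fin (𝕜 := ℝ) (n := m 2)) (hm 0) (hm 1) (hm 2) hy
    rw [← hmm] at h2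
    exact (hC.trans h2.symm).lieEqAt
  · left
    obtain ⟨p, q, r, hp, hq, hr, ρ, hρ, hN⟩ := canonical_normal hm hμ h0
    have hC' := hC.trans hN
    have hsum := SHyp.sum_of_confEqAt hC'
    refine ⟨p, q, r, hp, hq, hr, hsum, ρ, hρ, fun r' hr' y hy => ?_⟩
    exact (hC'.trans (modelT_confEq_of (finrank_euclideanSpace_fin) (finrank_euclideanSpace_fin)
      (finrank_euclideanSpace_fin) hp hq hr hρ hr' hy).symm).lieEqAt

theorem main₂' (hp : 1 ≤ finrank ℝ P) (hq : 1 ≤ finrank ℝ Q) (hm : 1 ≤ finrank ℝ R) :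
    ProperDupinWith (modelZ P Q R).toSphere.f (modelZ P Q R).toSphere.ν
        (modelZ P Q R).toSphere.U ![finrank ℝ P, finrank ℝ Q, finrank ℝ R] ∧
      ∀ y ∈ (modelZ P Q R).U, (modelZ P Q R).toSphere.ReducibleAt' y := by
  have h1 := (zeroW P Q).cyl_properDupin R hm (fun y _ => zero_prin_zero)
    (zeroW_properDupin hp hq)
  refine ⟨EHyp.properDupinWith_toSphere _ h1, fun y hy => ?_⟩
  exact .cylinder (zeroW P Q) (zeroW_properDupin hp hq).properDupin hm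
    (modelZ P Q R) (EHyp.cyl_isCylinder _ _) y hy
    (ConfEqAt.refl (modelZ P Q R).isOpen_U hy).lieEqAt

/-- Tubes are reducible in the sense of Pinkall. -/
theorem SHyp.ReducibleAt.reducibleAt' {X H : Type} [NormedAddCommGroup X] [NormedSpace ℝ X]
    [NormedAddCommGroup H] [InnerProductSpace ℝ H] {M : SHyp X H} {x : X} (h : M.ReducibleAt x) :
    M.ReducibleAt' x := by
  obtain ⟨W, hW, hG, r, hr, T, hT, x', hx', hL⟩ := h
  exact .tube W hW hG r hr T hT x' hx' hL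

variable {P' Q' R' : Type} [NormedAddCommGroup P'] [InnerProductSpace ℝ P']
  [FiniteDimensional ℝ P'] [NormedAddCommGroup Q'] [InnerProductSpace ℝ Q']
  [FiniteDimensional ℝ Q'] [NormedAddCommGroup R'] [InnerProductSpace ℝ R']
  [FiniteDimensional ℝ R']

theorem main₃' {p q m p' q' m' : ℕ} (hP : finrank ℝ P = p) (hQ : finrank ℝ Q = q)
    (hR : finrank ℝ R = m) (hP' : finrank ℝ P' = p') (hQ' : finrank ℝ Q' = q')
    (hR' : finrank ℝ R' = m') (hp : 1 ≤ p) (hq : 1 ≤ q) (hm : 1 ≤ m) (hp' : 1 ≤ p')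
    (hq' : 1 ≤ q') (hm' : 1 ≤ m') {y y'} (hy : y ∈ (modelZ P Q R).U)
    (hy' : y' ∈ (modelZ P' Q' R').U) :
    (modelZ P Q R).toSphere.LieEq y (modelZ P' Q' R').toSphere y' ↔
      ∃ (π : Equiv.Perm (Fin 3)), ∀ i, ![p', q', m'] (π i) = ![p, q, m] i := by
  have h1 := modelZ_confEq_of hP hQ hR hp hq hm hy
  have h2 := modelZ_confEq_of hP' hQ' hR' hp' hq' hm' hy'
  have hmm : ∀ i, 1 ≤ ![p, q, m] i := by
    intro i; fin_cases i <;> assumption
  have hmm' : ∀ i, 1 ≤ ![p', q', m'] i := by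
    intro i; fin_cases i <;> assumption
  have h0 : (0 : Fin 3 → ℝ) 0 + (0 : Fin 3 → ℝ) 1 + (0 : Fin 3 → ℝ) 2 = 0 := by simp
  constructor
  · intro h
    have hX : 1 ≤ finrank ℝ ((P × Q) × R) := by
      rw [Module.finrank_prod, Module.finrank_prod]
      omega
    obtain ⟨π, c, -, hπ⟩ := canonical_inv hmm hmm' h0 h0 ((h1.symm.trans (h.confEqAt hX)).trans h2)
    exact ⟨π, fun i => (hπ i).1⟩
  · rintro ⟨π, h⟩
    exact ((h1.trans (canonical_rel hmm h0 π one_pos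
      (fun i => ⟨h i, by simp⟩))).trans h2.symm).lieEqAt

theorem main₄' {p q m p' q' m' : ℕ} (hP : finrank ℝ P = p) (hQ : finrank ℝ Q = q)
    (hR : finrank ℝ R = m) (hP' : finrank ℝ P' = p') (hQ' : finrank ℝ Q' = q')
    (hR' : finrank ℝ R' = m') (hp : 1 ≤ p) (hq : 1 ≤ q) (hm : 1 ≤ m) (hp' : 1 ≤ p')
    (hq' : 1 ≤ q') (hm' : 1 ≤ m') {ρ r : ℝ} (hρ : 0 < ρ) (hr : 0 < r) {y y'}
    (hy : y ∈ (modelZ P Q R).U) (hy' : y' ∈ (modelT P' Q' R' hρ hr).U) :
    ¬ (modelZ P Q R).toSphere.LieEq y (modelT P' Q' R' hρ hr).toSphere y' := by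
  have h1 := modelZ_confEq_of hP hQ hR hp hq hm hy
  have h2 := modelT_confEq_of hP' hQ' hR' hp' hq' hm' hρ hr hy'
  have hmm : ∀ i, 1 ≤ ![p, q, m] i := by
    intro i; fin_cases i <;> assumption
  have hmm' : ∀ i, 1 ≤ ![p', q', m'] i := by
    intro i; fin_cases i <;> assumption
  have h0 : (0 : Fin 3 → ℝ) 0 + (0 : Fin 3 → ℝ) 1 + (0 : Fin 3 → ℝ) 2 = 0 := by simp
  intro h
  have hX : 1 ≤ finrank ℝ ((P × Q) × R) := by
    rw [Module.finrank_prod, Module.finrank_prod]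
    omega
  obtain ⟨π, c, -, hπ⟩ := canonical_inv hmm hmm' h0 (by simp)
    ((h1.symm.trans (h.confEqAt hX)).trans h2)
  have h3 := (hπ (π.symm 2)).2
  rw [Equiv.apply_symm_apply] at h3
  simp at h3

end

end DupinClass

end S_S2Main
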